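import Pool.Agent.W_7d29a1_V.Law2
import Pool.Agent.W_7d29a1_h46u.LamU

/-!
Localisation of the end point in very strong disorder (Carmona-Hu, Comets-Shiga-Yoshida): one row.
-/

namespace Pool.Agent.W_7d29a1_Q29.Csy42

open MeasureTheory ProbabilityTheory Filter Topology Pool.Agent.W_MP_7d29a1_pr
  Pool.Agent.W_7d29a1_h46 Pool.Agent.W_7d29a1_h46u Pool.Agent.W_7d29a1_D2
  Pool.Agent.W_7d29a1_D2.B35

variable {d : ℕ} {ρ : Measure ℝ} [IsProbabilityMeasure ρ]

/-- `c(β) = log E e^{β ω}`. -/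
noncomputable def cb (ρ : Measure ℝ) (β : ℝ) : ℝ := Real.log (∫ t, Real.exp (β * t) ∂ρ)

/-- The normalised weight of one site. -/
noncomputable def yy (ρ : Measure ℝ) (β : ℝ) (t : ℝ) : ℝ := Real.exp (β * t - cb ρ β)

/-- The constant of the row inequality. -/
noncomputable def Cr (ρ : Measure ℝ) (β : ℝ) : ℝ :=
  2 * ∫ t, (yy ρ β t - 1) ^ 2 ∂ρ + ∫ t, (β * t - cb ρ β) ^ 2 ∂ρ

omit [IsProbabilityMeasure ρ] in
lemma yy_pos (β t : ℝ) : 0 < yy ρ β t := Real.exp_pos _

lemma cb_exp (hρ : EM ρ) (β : ℝ) : Real.exp (cb ρ β) = ∫ t, Real.exp (β * t) ∂ρ :=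
  Real.exp_log (integral_exp_pos (hρ β))

lemma yy_eq (hρ : EM ρ) (β t : ℝ) :
    yy ρ β t = (∫ t, Real.exp (β * t) ∂ρ)⁻¹ * Real.exp (β * t) := by
  unfold yy
  rw [sub_eq_add_neg, Real.exp_add, Real.exp_neg, cb_exp hρ, mul_comm]

lemma yy_int (hρ : EM ρ) (β : ℝ) : Integrable (yy ρ β) ρ ∧ ∫ t, yy ρ β t ∂ρ = 1 := by
  have h1 : yy ρ β = fun t => (∫ t, Real.exp (β * t) ∂ρ)⁻¹ * Real.exp (β * t) := by
    funext t
    exact yy_eq hρ β t
  rw [h1]
  refine ⟨(hρ β).const_mul _, ?_⟩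
  rw [integral_const_mul]
  exact inv_mul_cancel₀ (integral_exp_pos (hρ β)).ne'

lemma yy_sq (hρ : EM ρ) (β : ℝ) : Integrable (fun t => (yy ρ β t - 1) ^ 2) ρ := by
  have h1 : (fun t => (yy ρ β t - 1) ^ 2) = fun t =>
      ((∫ t, Real.exp (β * t) ∂ρ)⁻¹) ^ 2 * Real.exp ((2 * β) * t) - 2 * yy ρ β t + 1 := by
    funext t
    have h2 : Real.exp ((2 * β) * t) = Real.exp (β * t) ^ 2 := by
      rw [← Real.exp_nat_mul]
      congr 1
      push_cast
      ring
    rw [h2, yy_eq hρ]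
    ring
  rw [h1]
  exact (((hρ (2 * β)).const_mul _).sub ((yy_int hρ β).1.const_mul 2)).add (integrable_const 1)

lemma lin_sq (hρ : EM ρ) (β : ℝ) : Integrable (fun t => (β * t - cb ρ β) ^ 2) ρ := by
  have h1 : ∀ t : ℝ, t ^ 2 ≤ 2 * (Real.exp (1 * t) + Real.exp (-1 * t)) := by
    intro t
    have h2 : |t| ^ 2 / (Nat.factorial 2 : ℝ) ≤ Real.exp |t| :=
      Real.pow_div_factorial_le_exp _ (abs_nonneg t) 2
    have h3 : Real.exp |t| ≤ Real.exp (1 * t) + Real.exp (-1 * t) := by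
      rcases abs_cases t with ⟨h3, _⟩ | ⟨h3, _⟩
      · rw [h3, one_mul]
        linarith [Real.exp_pos (-1 * t)]
      · rw [h3, neg_one_mul]
        linarith [Real.exp_pos (1 * t)]
    have h4 : (Nat.factorial 2 : ℝ) = 2 := by norm_num [Nat.factorial]
    rw [h4, sq_abs, div_le_iff₀ (by norm_num)] at h2
    linarith
  have h2 : Integrable (fun t : ℝ => 4 * β ^ 2 * (Real.exp (1 * t) + Real.exp (-1 * t)) +
      2 * cb ρ β ^ 2) ρ := (((hρ 1).add (hρ (-1))).const_mul _).add (integrable_const _)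
  refine h2.mono' (((measurable_id.const_mul β).sub_const _).pow_const 2).aestronglyMeasurable
    (Filter.Eventually.of_forall fun t => ?_)
  rw [Real.norm_eq_abs, abs_of_nonneg (sq_nonneg _)]
  have h3 := mul_le_mul_of_nonneg_left (h1 t) (show 0 ≤ 2 * β ^ 2 by positivity)
  nlinarith [sq_nonneg (β * t + cb ρ β)]

omit [IsProbabilityMeasure ρ] in
lemma Cr_nonneg (β : ℝ) : 0 ≤ Cr ρ β := by
  unfold Cr
  have h1 : 0 ≤ ∫ t, (yy ρ β t - 1) ^ 2 ∂ρ := integral_nonneg fun t => sq_nonneg _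
  have h2 : 0 ≤ ∫ t, (β * t - cb ρ β) ^ 2 ∂ρ := integral_nonneg fun t => sq_nonneg _
  linarith

lemma mp_ev (p : ℕ × Site d) : MeasurePreserving (Function.eval p) (law d ρ) ρ :=
  measurePreserving_eval_infinitePi (fun _ : ℕ × Site d => ρ) p

lemma ev_int {f : ℝ → ℝ} (hf : Integrable f ρ) (p : ℕ × Site d) :
    Integrable (fun η : Env d => f (η p)) (law d ρ) ∧
      ∫ η : Env d, f (η p) ∂(law d ρ) = ∫ t, f t ∂ρ :=
  ⟨(mp_ev p).integrable_comp_of_integrable hf, LawU_integral (mp_ev p) hf.aestronglyMeasurable⟩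

/-- `- log x ≤ (1 - x) + (1 - x) ^ 2` for `1 / 2 ≤ x`. -/
lemma neg_log_le {x : ℝ} (hx : 1 / 2 ≤ x) : -Real.log x ≤ (1 - x) + (1 - x) ^ 2 := by
  have hx0 : 0 < x := by linarith
  have h1 : Real.log x⁻¹ ≤ x⁻¹ - 1 := Real.log_le_sub_one_of_pos (inv_pos.2 hx0)
  rw [Real.log_inv] at h1
  by_cases h2 : 1 ≤ x
  · have h3 : x⁻¹ - 1 = (1 - x) + (1 - x) ^ 2 * x⁻¹ := by
      field_simp
      ring
    have h4 : (1 - x) ^ 2 * x⁻¹ ≤ (1 - x) ^ 2 * 1 :=
      mul_le_mul_of_nonneg_left (inv_le_one_of_one_le₀ h2) (sq_nonneg _)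
    linarith
  · have h5 : x ≤ 1 := by linarith
    -- `-log x = log (1/x)`, use the bound at `sqrt`-type expansion
    have h6 : -Real.log x ≤ (1 - x) + (1 - x) ^ 2 := by
      have h7 : Real.exp (-((1 - x) + (1 - x) ^ 2)) ≤ x := by
        have h8 : Real.exp (-((1 - x) + (1 - x) ^ 2)) ≤
            1 / (1 + ((1 - x) + (1 - x) ^ 2) + ((1 - x) + (1 - x) ^ 2) ^ 2 / 2) := by
          rw [Real.exp_neg, ← one_div]
          refine one_div_le_one_div_of_le (by nlinarith) ?_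
          have h9 := Real.quadratic_le_exp_of_nonneg
            (show 0 ≤ (1 - x) + (1 - x) ^ 2 by nlinarith)
          linarith
        refine h8.trans ?_
        rw [div_le_iff₀ (by nlinarith)]
        have ha : 0 ≤ 1 - x := by linarith
        have hb : 1 - x ≤ 1 / 2 := by linarith
        obtain ⟨u, hu⟩ : ∃ u : ℝ, u = 1 - x := ⟨_, rfl⟩
        have hxu : x = 1 - u := by linarith
        rw [hxu, show 1 - (1 - u) = u by ring]
        rw [← hu] at ha hb
        nlinarith [mul_nonneg ha ha, mul_nonneg (mul_nonneg ha ha) (sub_nonneg.2 hb),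
          mul_nonneg (mul_nonneg ha ha) ha,
          mul_nonneg (mul_nonneg (mul_nonneg ha ha) ha) (sub_nonneg.2 hb)]
      have h10 := Real.log_le_log (Real.exp_pos _) h7
      rw [Real.log_exp] at h10
      linarith
    exact h6

/-- The row is uncorrelated. -/
lemma row_var (hρ : EM ρ) (β : ℝ) (k : ℕ) (S : Finset (Site d)) (m : Site d → ℝ) :
    Integrable (fun η : Env d => (∑ z ∈ S, m z * (yy ρ β (η (k, z)) - 1)) ^ 2) (law d ρ) ∧
    ∫ η : Env d, (∑ z ∈ S, m z * (yy ρ β (η (k, z)) - 1)) ^ 2 ∂(law d ρ) =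
      (∑ z ∈ S, m z ^ 2) * ∫ t, (yy ρ β t - 1) ^ 2 ∂ρ := by
  classical
  have hym : Measurable fun t : ℝ => yy ρ β t - 1 := by
    unfold yy
    exact (Real.measurable_exp.comp ((measurable_id.const_mul β).sub_const _)).sub_const 1
  have hm : ∀ z : Site d, Measurable fun η : Env d => m z * (yy ρ β (η (k, z)) - 1) := fun z =>
    (hym.comp (measurable_pi_apply _)).const_mul _
  have hsq : ∀ z : Site d, Integrable (fun η : Env d => (yy ρ β (η (k, z)) - 1) ^ 2) (law d ρ) ∧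
      ∫ η : Env d, (yy ρ β (η (k, z)) - 1) ^ 2 ∂(law d ρ) = ∫ t, (yy ρ β t - 1) ^ 2 ∂ρ :=
    fun z => ev_int (yy_sq hρ β) _
  have h0 : ∀ z : Site d, ∫ η : Env d, m z * (yy ρ β (η (k, z)) - 1) ∂(law d ρ) = 0 := by
    intro z
    have h1 := ev_int (d := d) ((yy_int hρ β).1.sub (integrable_const (1 : ℝ))) (k, z)
    rw [integral_const_mul]
    have h2 : ∫ η : Env d, (yy ρ β (η (k, z)) - 1) ∂(law d ρ) = 0 := by
      refine h1.2.trans ?_
      change ∫ t, (yy ρ β t - 1) ∂ρ = 0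
      rw [integral_sub (yy_int hρ β).1 (integrable_const 1), (yy_int hρ β).2, integral_const]
      simp
    rw [h2, mul_zero]
  have hI : ∀ z z' : Site d, Integrable (fun η : Env d => (m z * (yy ρ β (η (k, z)) - 1)) *
      (m z' * (yy ρ β (η (k, z')) - 1))) (law d ρ) := by
    intro z z'
    refine (((hsq z).1.const_mul (m z ^ 2)).add ((hsq z').1.const_mul (m z' ^ 2))).mono'
      ((hm z).mul (hm z')).aestronglyMeasurable (Filter.Eventually.of_forall fun η => ?_)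
    rw [Real.norm_eq_abs, abs_le]
    constructor
    · change -(m z ^ 2 * (yy ρ β (η (k, z)) - 1) ^ 2 + m z' ^ 2 * (yy ρ β (η (k, z')) - 1) ^ 2) ≤ _
      nlinarith [sq_nonneg (m z * (yy ρ β (η (k, z)) - 1) + m z' * (yy ρ β (η (k, z')) - 1)),
        sq_nonneg (m z * (yy ρ β (η (k, z)) - 1)), sq_nonneg (m z' * (yy ρ β (η (k, z')) - 1))]
    · change _ ≤ m z ^ 2 * (yy ρ β (η (k, z)) - 1) ^ 2 + m z' ^ 2 * (yy ρ β (η (k, z')) - 1) ^ 2
      nlinarith [sq_nonneg (m z * (yy ρ β (η (k, z)) - 1) - m z' * (yy ρ β (η (k, z')) - 1)),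
        sq_nonneg (m z * (yy ρ β (η (k, z)) - 1)), sq_nonneg (m z' * (yy ρ β (η (k, z')) - 1))]
  have hv : ∀ z z' : Site d, ∫ η : Env d, (m z * (yy ρ β (η (k, z)) - 1)) *
      (m z' * (yy ρ β (η (k, z')) - 1)) ∂(law d ρ) =
      if z = z' then m z ^ 2 * ∫ t, (yy ρ β t - 1) ^ 2 ∂ρ else 0 := by
    intro z z'
    by_cases hz : z = z'
    · subst hz
      rw [if_pos rfl, ← (hsq z).2, ← integral_const_mul]
      refine integral_congr_ae (Filter.Eventually.of_forall fun η => ?_)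
      change _ * _ = _
      ring
    · rw [if_neg hz]
      rw [integral_indep (ρ := ρ) {((k, z) : ℕ × Site d)} (hm z) (hm z') ?_ ?_, h0 z, zero_mul]
      · intro η η' h
        have h1 : η (k, z) = η' (k, z) := h _ (Set.mem_singleton _)
        simp only [h1]
      · intro η η' h
        have h1 : η (k, z') = η' (k, z') := h _ (by
          rw [Set.mem_compl_iff, Set.mem_singleton_iff]
          intro hc
          exact hz (Prod.mk.inj hc).2.symm)
        simp only [h1]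
  have hexp : ∀ η : Env d, (∑ z ∈ S, m z * (yy ρ β (η (k, z)) - 1)) ^ 2 =
      ∑ z ∈ S, ∑ z' ∈ S, (m z * (yy ρ β (η (k, z)) - 1)) * (m z' * (yy ρ β (η (k, z')) - 1)) := by
    intro η
    rw [sq, Finset.sum_mul_sum]
  simp only [hexp]
  have hI2 : ∀ z ∈ S, Integrable (fun η : Env d => ∑ z' ∈ S, (m z * (yy ρ β (η (k, z)) - 1)) *
      (m z' * (yy ρ β (η (k, z')) - 1))) (law d ρ) := fun z _ =>
    integrable_finsetSum _ fun z' _ => hI z z'
  refine ⟨integrable_finsetSum _ hI2, ?_⟩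
  rw [integral_finsetSum _ hI2, Finset.sum_mul]
  refine Finset.sum_congr rfl fun z hz => ?_
  rw [integral_finsetSum _ fun z' _ => hI z z', Finset.sum_congr rfl fun z' _ => hv z z',
    Finset.sum_ite_eq, if_pos hz]

/-- One row: weights `R` on a finite set `S`, the row `k`. -/
theorem row_log (hρ : EM ρ) (β : ℝ) (k : ℕ) (S : Finset (Site d)) (R : Site d → ℝ)
    (hR : ∀ z ∈ S, 0 ≤ R z) (hT : 0 < ∑ z ∈ S, R z) :
    Integrable (fun η : Env d => Real.log (∑ z ∈ S, R z * Real.exp (β * η (k, z)))) (law d ρ) ∧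
    Real.log (∑ z ∈ S, R z) + cb ρ β -
        Cr ρ β * Real.sqrt (∑ z ∈ S, (R z / ∑ z ∈ S, R z) ^ 2) ≤
      ∫ η : Env d, Real.log (∑ z ∈ S, R z * Real.exp (β * η (k, z))) ∂(law d ρ) := by
  classical
  obtain ⟨T, hTd⟩ : ∃ T : ℝ, T = ∑ z ∈ S, R z := ⟨_, rfl⟩
  rw [← hTd] at hT ⊢
  obtain ⟨m, hm⟩ : ∃ m : Site d → ℝ, m = fun z => R z / T := ⟨_, rfl⟩
  have hm0 : ∀ z ∈ S, 0 ≤ m z := fun z hz => by
    rw [hm]
    exact div_nonneg (hR z hz) hT.le
  have hm1 : ∑ z ∈ S, m z = 1 := by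
    rw [hm, ← Finset.sum_div, ← hTd, div_self hT.ne']
  have hmle : ∀ z ∈ S, m z ≤ 1 := fun z hz => by
    rw [← hm1]
    exact Finset.single_le_sum hm0 hz
  have hmm : ∀ z, R z / T = m z := fun z => by rw [hm]
  simp only [hmm]
  obtain ⟨q, hq⟩ : ∃ q : ℝ, q = ∑ z ∈ S, m z ^ 2 := ⟨_, rfl⟩
  rw [← hq]
  have hq0 : 0 < q := by
    have h1 : ∃ z ∈ S, 0 < m z := by
      by_contra hc
      push Not at hc
      have h2 : ∑ z ∈ S, m z ≤ 0 := Finset.sum_nonpos hc
      linarith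
    obtain ⟨z, hz, hz0⟩ := h1
    rw [hq]
    exact Finset.sum_pos' (fun z _ => sq_nonneg _) ⟨z, hz, pow_pos hz0 2⟩
  have hq1 : q ≤ 1 := by
    rw [hq, ← hm1]
    refine Finset.sum_le_sum fun z hz => ?_
    have := hm0 z hz
    nlinarith [hmle z hz]
  obtain ⟨a, ha⟩ : ∃ a : ℝ, a = Real.sqrt q := ⟨_, rfl⟩
  have ha0 : 0 < a := by
    rw [ha]
    exact Real.sqrt_pos.2 hq0
  have haq : a ^ 2 = q := by
    rw [ha]
    exact Real.sq_sqrt hq0.le
  have ha1 : a ≤ 1 := by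
    rw [ha]
    exact Real.sqrt_le_one.2 hq1
  rw [← ha]
  -- the normalised variable
  obtain ⟨x, hx⟩ : ∃ x : Env d → ℝ, x = fun η => ∑ z ∈ S, m z * yy ρ β (η (k, z)) := ⟨_, rfl⟩
  obtain ⟨D, hD⟩ : ∃ D : Env d → ℝ,
      D = fun η => (∑ z ∈ S, m z * (yy ρ β (η (k, z)) - 1)) ^ 2 := ⟨_, rfl⟩
  obtain ⟨V, hV⟩ : ∃ V : Env d → ℝ, V = fun η => ∑ z ∈ S, m z * (β * η (k, z) - cb ρ β) ^ 2 :=
    ⟨_, rfl⟩
  have hx1 : ∀ η, x η - 1 = ∑ z ∈ S, m z * (yy ρ β (η (k, z)) - 1) := by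
    intro η
    simp only [hx, mul_sub, mul_one, Finset.sum_sub_distrib, hm1]
  have hDx : ∀ η, D η = (1 - x η) ^ 2 := by
    intro η
    rw [hD]
    simp only
    rw [← hx1]
    ring
  have hxpos : ∀ η, 0 < x η := by
    intro η
    have h1 : ∃ z ∈ S, 0 < m z := by
      by_contra hc
      push Not at hc
      have h2 : ∑ z ∈ S, m z ≤ 0 := Finset.sum_nonpos hc
      linarith
    obtain ⟨z, hz, hz0⟩ := h1
    rw [hx]
    exact Finset.sum_pos' (fun z hz => mul_nonneg (hm0 z hz) (yy_pos _ _).le)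
      ⟨z, hz, mul_pos hz0 (yy_pos _ _)⟩
  have hlog : ∀ η : Env d, Real.log (∑ z ∈ S, R z * Real.exp (β * η (k, z))) =
      Real.log T + cb ρ β + Real.log (x η) := by
    intro η
    have h1 : ∑ z ∈ S, R z * Real.exp (β * η (k, z)) = T * (Real.exp (cb ρ β) * x η) := by
      rw [hx, Finset.mul_sum, Finset.mul_sum]
      refine Finset.sum_congr rfl fun z _ => ?_
      have h2 : R z = T * m z := by
        rw [hm]
        field_simp
      have h3 : Real.exp (β * η (k, z)) = Real.exp (cb ρ β) * yy ρ β (η (k, z)) := by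
        unfold yy
        rw [← Real.exp_add]
        congr 1
        ring
      rw [h2, h3]
      ring
    rw [h1, Real.log_mul hT.ne' (mul_pos (Real.exp_pos _) (hxpos η)).ne',
      Real.log_mul (Real.exp_pos _).ne' (hxpos η).ne', Real.log_exp]
    ring
  -- integrability
  obtain ⟨hDi, hDv⟩ := row_var (d := d) hρ β k S m
  rw [← hq] at hDv
  have hDi' : Integrable D (law d ρ) := by
    rw [hD]
    exact hDi
  have hDv' : ∫ η, D η ∂(law d ρ) = q * ∫ t, (yy ρ β t - 1) ^ 2 ∂ρ := by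
    rw [hD]
    exact hDv
  have hxi : Integrable x (law d ρ) ∧ ∫ η, x η ∂(law d ρ) = 1 := by
    have h1 : ∀ z ∈ S, Integrable (fun η : Env d => m z * yy ρ β (η (k, z))) (law d ρ) :=
      fun z _ => (ev_int (yy_int hρ β).1 _).1.const_mul _
    rw [hx]
    refine ⟨integrable_finsetSum _ h1, ?_⟩
    rw [integral_finsetSum _ h1, ← hm1]
    refine Finset.sum_congr rfl fun z _ => ?_
    rw [integral_const_mul, (ev_int (yy_int hρ β).1 _).2, (yy_int hρ β).2, mul_one]
  have hVi : Integrable V (law d ρ) ∧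
      ∫ η, V η ∂(law d ρ) = ∫ t, (β * t - cb ρ β) ^ 2 ∂ρ := by
    have h1 : ∀ z ∈ S, Integrable (fun η : Env d => m z * (β * η (k, z) - cb ρ β) ^ 2)
        (law d ρ) := fun z _ => (ev_int (lin_sq hρ β) _).1.const_mul _
    rw [hV]
    refine ⟨integrable_finsetSum _ h1, ?_⟩
    rw [integral_finsetSum _ h1]
    have h2 : ∀ z ∈ S, ∫ η : Env d, m z * (β * η (k, z) - cb ρ β) ^ 2 ∂(law d ρ) =
        m z * ∫ t, (β * t - cb ρ β) ^ 2 ∂ρ := by
      intro z _
      rw [integral_const_mul, (ev_int (lin_sq hρ β) _).2]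
    rw [Finset.sum_congr rfl h2, ← Finset.sum_mul, hm1, one_mul]
  -- pointwise
  obtain ⟨G, hG⟩ : ∃ G : Env d → ℝ, G = fun η => (1 - x η) + D η + (a * V η + a⁻¹ * D η) :=
    ⟨_, rfl⟩
  have hVn : ∀ η, 0 ≤ V η := by
    intro η
    rw [hV]
    exact Finset.sum_nonneg fun z hz => mul_nonneg (hm0 z hz) (sq_nonneg _)
  have hDn : ∀ η, 0 ≤ D η := by
    intro η
    rw [hDx]
    exact sq_nonneg _
  have hpt : ∀ η, -Real.log (x η) ≤ G η := by
    intro η
    rw [hG]
    simp only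
    by_cases h1 : 1 / 2 ≤ x η
    · have h2 := neg_log_le h1
      rw [← hDx] at h2
      have h3 : 0 ≤ a * V η := mul_nonneg ha0.le (hVn η)
      have h4 : 0 ≤ a⁻¹ * D η := mul_nonneg (inv_nonneg.2 ha0.le) (hDn η)
      linarith
    · push Not at h1
      obtain ⟨W, hW⟩ : ∃ W : ℝ, W = ∑ z ∈ S, m z * (β * η (k, z) - cb ρ β) := ⟨_, rfl⟩
      have h2 : W ≤ Real.log (x η) := by
        have hj := strictConcaveOn_log_Ioi.concaveOn.le_map_sum (t := S) (w := m)
          (p := fun z => yy ρ β (η (k, z))) hm0 hm1 (fun z _ => yy_pos _ _)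
        simp only [smul_eq_mul] at hj
        rw [hW, hx]
        refine le_trans (le_of_eq ?_) hj
        refine Finset.sum_congr rfl fun z _ => ?_
        unfold yy
        rw [Real.log_exp]
      have h3 : W ^ 2 ≤ V η := by
        have h4 := Finset.sum_mul_sq_le_sq_mul_sq S (fun z => Real.sqrt (m z))
          (fun z => Real.sqrt (m z) * (β * η (k, z) - cb ρ β))
        have h5 : ∑ z ∈ S, Real.sqrt (m z) * (Real.sqrt (m z) * (β * η (k, z) - cb ρ β)) = W := by
          rw [hW]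
          refine Finset.sum_congr rfl fun z hz => ?_
          rw [← mul_assoc, Real.mul_self_sqrt (hm0 z hz)]
        have h6 : ∑ z ∈ S, Real.sqrt (m z) ^ 2 = 1 := by
          rw [← hm1]
          exact Finset.sum_congr rfl fun z hz => Real.sq_sqrt (hm0 z hz)
        have h7 : ∑ z ∈ S, (Real.sqrt (m z) * (β * η (k, z) - cb ρ β)) ^ 2 = V η := by
          rw [hV]
          refine Finset.sum_congr rfl fun z hz => ?_
          rw [mul_pow, Real.sq_sqrt (hm0 z hz)]
        rw [h5, h6, h7, one_mul] at h4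
        exact h4
      have h8 : 0 < 1 - x η := by linarith
      have h9 : 1 ≤ 2 * (1 - x η) := by linarith
      have h10 : |W| ≤ a * W ^ 2 + a⁻¹ * (1 - x η) ^ 2 := by
        have h11 : |W| ≤ 2 * (|W| * (1 - x η)) := by nlinarith [abs_nonneg W]
        have h12 : 2 * (|W| * (1 - x η)) ≤ a * W ^ 2 + a⁻¹ * (1 - x η) ^ 2 := by
          have h13 : 0 ≤ a⁻¹ * (a * |W| - (1 - x η)) ^ 2 :=
            mul_nonneg (inv_nonneg.2 ha0.le) (sq_nonneg _)
          have h14 : a⁻¹ * (a * |W| - (1 - x η)) ^ 2 =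
              a * W ^ 2 - 2 * (|W| * (1 - x η)) + a⁻¹ * (1 - x η) ^ 2 := by
            rw [← sq_abs W]
            field_simp
            ring
          linarith
        exact h11.trans h12
      have h15 : a * W ^ 2 ≤ a * V η := mul_le_mul_of_nonneg_left h3 ha0.le
      rw [← hDx] at h10
      have h16 := neg_abs_le W
      have h17 := hDn η
      linarith
  have hGi : Integrable G (law d ρ) := by
    rw [hG]
    exact (((integrable_const 1).sub hxi.1).add hDi').add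
      ((hVi.1.const_mul a).add (hDi'.const_mul a⁻¹))
  have hGv : ∫ η, G η ∂(law d ρ) ≤ Cr ρ β * a := by
    have h1 : ∫ η, G η ∂(law d ρ) = (1 - 1) + q * (∫ t, (yy ρ β t - 1) ^ 2 ∂ρ) +
        (a * (∫ t, (β * t - cb ρ β) ^ 2 ∂ρ) + a⁻¹ * (q * ∫ t, (yy ρ β t - 1) ^ 2 ∂ρ)) := by
      have e1 : Integrable (fun η => 1 - x η) (law d ρ) := (integrable_const 1).sub hxi.1
      have e2 : Integrable (fun η => 1 - x η + D η) (law d ρ) := e1.add hDi'
      have e3 : Integrable (fun η => a * V η) (law d ρ) := hVi.1.const_mul a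
      have e4 : Integrable (fun η => a⁻¹ * D η) (law d ρ) := hDi'.const_mul a⁻¹
      have e5 : Integrable (fun η => a * V η + a⁻¹ * D η) (law d ρ) := e3.add e4
      rw [hG, integral_add e2 e5, integral_add e1 hDi', integral_add e3 e4,
        integral_sub (integrable_const 1) hxi.1, hxi.2, integral_const_mul, integral_const_mul,
        hVi.2, hDv', integral_const]
      simp
    rw [h1, ← haq]
    have h2 : 0 ≤ ∫ t, (yy ρ β t - 1) ^ 2 ∂ρ := integral_nonneg fun t => sq_nonneg _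
    obtain ⟨s, hs⟩ : ∃ s : ℝ, s = ∫ t, (yy ρ β t - 1) ^ 2 ∂ρ := ⟨_, rfl⟩
    obtain ⟨κ, hκ⟩ : ∃ κ : ℝ, κ = ∫ t, (β * t - cb ρ β) ^ 2 ∂ρ := ⟨_, rfl⟩
    unfold Cr
    rw [← hs, ← hκ]
    rw [← hs] at h2
    have h3 : a⁻¹ * (a ^ 2 * s) = a * s := by
      field_simp
    rw [h3]
    have h4 : a ^ 2 * s ≤ a * s := mul_le_mul_of_nonneg_right (by nlinarith) h2
    linarith
  have hlm : Measurable fun η : Env d => Real.log (x η) := by
    rw [hx]
    refine Real.measurable_log.comp (Finset.measurable_sum _ fun z _ => ?_)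
    have h7 : Measurable fun η : Env d => η (k, z) := measurable_pi_apply _
    unfold yy
    exact (Real.measurable_exp.comp ((h7.const_mul β).sub_const _)).const_mul _
  have hli : Integrable (fun η : Env d => Real.log (x η)) (law d ρ) := by
    have h1 : Integrable (fun η => |G η| + (x η + 1)) (law d ρ) :=
      hGi.abs.add (hxi.1.add (integrable_const 1))
    refine h1.mono' hlm.aestronglyMeasurable (Filter.Eventually.of_forall fun η => ?_)
    rw [Real.norm_eq_abs, abs_le]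
    have h2 := hpt η
    have h3 := Real.log_le_sub_one_of_pos (hxpos η)
    have h4 := le_abs_self (G η)
    have h5 := abs_nonneg (G η)
    have h6 := hxpos η
    constructor <;> linarith
  simp only [hlog]
  refine ⟨(integrable_const _).add hli, ?_⟩
  rw [integral_add (integrable_const _) hli, integral_const]
  have h1 : -∫ η, Real.log (x η) ∂(law d ρ) ≤ Cr ρ β * a := by
    rw [← integral_neg]
    exact (integral_mono hli.neg hGi hpt).trans hGv
  simp only [probReal_univ, one_smul]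
  linarith

end Pool.Agent.W_7d29a1_Q29.Csy42
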