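import Pool.Agent.W_7d29a1_Q29.Ce39
import Pool.Agent.W_7d29a1_h46u.ConcV
import Pool.Agent.W_7d29a1_h46u.LamU
import Pool.Agent.W_7d29a1_h46u.TubV

/-!
The conditional law of the position given the past is at least the end point law times
`exp (-E[U | past])`.
-/

namespace Pool.Agent.W_7d29a1_Q29.NT66

open MeasureTheory ProbabilityTheory Filter Topology Pool.Agent.W_MP_7d29a1_pr
  Pool.Agent.W_7d29a1_h46 Pool.Agent.W_7d29a1_h46u Pool.Agent.W_7d29a1_D2.B35
  Pool.Agent.W_7d29a1_Q29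

variable {d : ℕ} {ρ : Measure ℝ} [IsProbabilityMeasure ρ]

/-- Almost every environment has an integrable future. -/
lemma ae_int {F : Env d → ℝ} (hF : Integrable F (law d ρ)) (S : Set (ℕ × Site d)) :
    ∀ᵐ η ∂(law d ρ), Integrable (fun ξ => F (spl S η ξ)) (law d ρ) := by
  have h2 : Integrable (fun w : Env d × Env d => F (spl S w.1 w.2))
      ((law d ρ).prod (law d ρ)) := (mp_spl (ρ := ρ) S).integrable_comp_of_integrable hF
  exact h2.prod_right_ae

/-- The conditional mean is a contraction. -/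
lemma int_abs_cE {F : Env d → ℝ} (hF : Integrable F (law d ρ)) (S : Set (ℕ × Site d)) :
    Integrable (cE ρ S F) (law d ρ) ∧
      ∫ η, |cE ρ S F η| ∂(law d ρ) ≤ ∫ η, |F η| ∂(law d ρ) := by
  have h2 : Integrable (fun w : Env d × Env d => F (spl S w.1 w.2))
      ((law d ρ).prod (law d ρ)) := (mp_spl (ρ := ρ) S).integrable_comp_of_integrable hF
  have h3 : Integrable (cE ρ S F) (law d ρ) := h2.integral_prod_left
  refine ⟨h3, ?_⟩
  have h4 : ∫ η, |F η| ∂(law d ρ) =
      ∫ w, |F (spl S w.1 w.2)| ∂((law d ρ).prod (law d ρ)) :=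
    (LawU_integral (F := fun g => |F g|) (mp_spl (ρ := ρ) S) hF.abs.aestronglyMeasurable).symm
  rw [h4, integral_prod _ h2.abs]
  refine integral_mono h3.abs h2.abs.integral_prod_left fun η => ?_
  exact abs_integral_le_integral_abs

/-- The gain of the choice of the position at the time `t`, minus its mean over the future. -/
noncomputable def Us (ρ : Measure ℝ) (β : ℝ) (h : Vec d) (L t : ℕ) (η : Env d) : ℝ :=
  X β h η L - X β h η t - A ρ β h (L - t)

lemma Z_past (β : ℝ) (h : Vec d) (t : ℕ) (η ξ : Env d) :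
    Z β h (spl (Pa d t) η ξ) t = Z β h η t := by
  refine dependsOn_Z β h t fun p hp => ?_
  exact spl_mem _ _ (show p.1 ≤ t from hp.2)

lemma X_past (β : ℝ) (h : Vec d) (t : ℕ) (η ξ : Env d) :
    X β h (spl (Pa d t) η ξ) t = X β h η t := by
  unfold X
  rw [Z_past]

lemma PP_past (β : ℝ) (h : Vec d) (t : ℕ) (y : Site d) (η ξ : Env d) :
    PP β h (spl (Pa d t) η ξ) t y = PP β h η t y := by
  unfold PP ZT
  refine Finset.sum_congr rfl fun s _ => ?_
  have h1 : energy (spl (Pa d t) η ξ) s = energy η s := by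
    unfold energy
    refine Finset.sum_congr rfl fun i _ => ?_
    refine spl_mem _ _ ?_
    show ((i : ℕ) + 1) ≤ t
    have := i.2
    omega
  unfold wgt
  rw [h1]

lemma X_future (β : ℝ) (h : Vec d) (t m : ℕ) (y : Site d) (η ξ : Env d) :
    X β h (sh t y (spl (Pa d t) η ξ)) m = X β h (sh t y ξ) m := by
  refine FreeU_dep2 β h t m y fun p hp => ?_
  exact spl_not_mem _ _ hp

lemma measurable_Us (β : ℝ) (h : Vec d) (L t : ℕ) : Measurable (Us ρ β h L t) :=
  ((measurable_X β h L).sub (measurable_X β h t)).sub_const _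

lemma integrable_Us (hd : 0 < d) (hρ : EM ρ) (β : ℝ) (h : Vec d) (L t : ℕ) :
    Integrable (Us ρ β h L t) (law d ρ) :=
  ((concU hd hρ β h L).1.sub (concU hd hρ β h t).1).sub (integrable_const _)

lemma measurable_PP (β : ℝ) (h : Vec d) (t : ℕ) (y : Site d) :
    Measurable fun η : Env d => PP β h η t y := measurable_ZT β h _

lemma measurable_Qt (β : ℝ) (h : Vec d) (L t : ℕ) (y : Site d) : Measurable (Qt β h L t y) :=
  ((measurable_PP β h t y).mul ((measurable_Z β h (L - t)).comp (measurable_sh t y))).div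
    (measurable_Z β h L)

lemma Qt_nonneg (hd : 0 < d) (β : ℝ) (h : Vec d) (L t : ℕ) (y : Site d) (η : Env d) :
    0 ≤ Qt β h L t y η :=
  div_nonneg (mul_nonneg (PP_nonneg _ _ _ _ _) (Z_pos hd _ _ _ _).le) (Z_pos hd _ _ _ _).le

lemma Qt_le_one (hd : 0 < d) (β : ℝ) (h : Vec d) {L t : ℕ} (ht : t ≤ L) (y : Site d)
    (η : Env d) : Qt β h L t y η ≤ 1 := by
  unfold Qt
  rw [div_le_one (Z_pos hd _ _ _ _)]
  have h1 := PP_chainZ β h η t (L - t) y
  rwa [Nat.add_sub_cancel' ht] at h1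

lemma Qt_abs (hd : 0 < d) (β : ℝ) (h : Vec d) {L t : ℕ} (ht : t ≤ L) (y : Site d)
    (η : Env d) : |Qt β h L t y η| ≤ 1 := by
  rw [abs_of_nonneg (Qt_nonneg hd β h L t y η)]
  exact Qt_le_one hd β h ht y η

/-- The core step: Jensen for the future. -/
theorem p_ge (hd : 0 < d) (hρ : EM ρ) (β : ℝ) (h : Vec d) {L t : ℕ} (ht : t ≤ L) :
    ∀ᵐ η ∂(law d ρ), ∀ y : Site d, PP β h η t y / Z β h η t *
      Real.exp (-(cE ρ (Pa d t) (Us ρ β h L t) η)) ≤ cE ρ (Pa d t) (Qt β h L t y) η := by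
  filter_upwards [ae_int (integrable_Us hd hρ β h L t) (Pa d t)] with η hη y
  set m : ℝ := -(cE ρ (Pa d t) (Us ρ β h L t) η) with hm
  set g : Env d → ℝ := fun ξ => X β h (sh t y ξ) (L - t) - A ρ β h (L - t) -
    Us ρ β h L t (spl (Pa d t) η ξ) with hg
  have hXi : Integrable (fun ξ : Env d => X β h (sh t y ξ) (L - t)) (law d ρ) :=
    (mp_sh t y).integrable_comp_of_integrable (concU hd hρ β h (L - t)).1
  have hgi : Integrable g (law d ρ) := (hXi.sub (integrable_const _)).sub hη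
  have hgm : ∫ ξ, g ξ ∂(law d ρ) = m := by
    have e1 : ∫ ξ, g ξ ∂(law d ρ) = ∫ ξ, (X β h (sh t y ξ) (L - t) - A ρ β h (L - t)) ∂(law d ρ) -
        ∫ ξ, Us ρ β h L t (spl (Pa d t) η ξ) ∂(law d ρ) :=
      integral_sub (hXi.sub (integrable_const _)) hη
    have e2 : ∫ ξ, (X β h (sh t y ξ) (L - t) - A ρ β h (L - t)) ∂(law d ρ) = 0 := by
      rw [integral_sub hXi (integrable_const _), integral_sh t y (measurable_X β h (L - t)),
        integral_const]
      simp [A]
    rw [e1, e2, hm, zero_sub]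
    rfl
  have hQ : ∀ ξ, Qt β h L t y (spl (Pa d t) η ξ) =
      PP β h η t y / Z β h η t * Real.exp (g ξ) := by
    intro ξ
    have h1 : Z β h (sh t y (spl (Pa d t) η ξ)) (L - t) =
        Real.exp (X β h (sh t y ξ) (L - t)) := by
      rw [TubV_exp hd, X_future]
    have h2 : Z β h (spl (Pa d t) η ξ) L = Real.exp (X β h (spl (Pa d t) η ξ) L) :=
      TubV_exp hd _ _ _ _
    have h3 : Z β h η t = Real.exp (X β h η t) := TubV_exp hd _ _ _ _
    have h4 : g ξ = X β h (sh t y ξ) (L - t) + X β h η t - X β h (spl (Pa d t) η ξ) L := by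
      simp only [hg, Us]
      rw [X_past]
      ring
    unfold Qt
    rw [PP_past, h1, h2, h3, h4, Real.exp_sub, Real.exp_add]
    have h5 := (Real.exp_pos (X β h η t)).ne'
    field_simp
  have hQi : Integrable (fun ξ => Qt β h L t y (spl (Pa d t) η ξ)) (law d ρ) :=
    integrable_spl (measurable_Qt β h L t y) (Qt_abs hd β h ht y) (Pa d t) η
  have key : ∀ ξ, PP β h η t y / Z β h η t * (Real.exp m * (1 - m + g ξ)) ≤
      Qt β h L t y (spl (Pa d t) η ξ) := by
    intro ξ
    rw [hQ]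
    refine mul_le_mul_of_nonneg_left ?_
      (div_nonneg (PP_nonneg _ _ _ _ _) (Z_pos hd _ _ _ _).le)
    have h6 : Real.exp (g ξ) = Real.exp m * Real.exp (g ξ - m) := by
      rw [← Real.exp_add]
      congr 1
      ring
    rw [h6]
    refine mul_le_mul_of_nonneg_left ?_ (Real.exp_pos _).le
    linarith [Real.add_one_le_exp (g ξ - m)]
  have hLi : Integrable (fun ξ => PP β h η t y / Z β h η t *
      (Real.exp m * (1 - m + g ξ))) (law d ρ) :=
    (((integrable_const _).add hgi).const_mul _).const_mul _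
  have h7 := integral_mono hLi hQi key
  rw [integral_const_mul, integral_const_mul, integral_add (integrable_const _) hgi, hgm,
    integral_const] at h7
  simp only [probReal_univ, one_smul, sub_add_cancel, mul_one] at h7
  exact h7

/-- The past knows the favourite point: the square mass. -/
theorem sq_ge (hd : 0 < d) (hρ : EM ρ) (β : ℝ) (h : Vec d) {L t : ℕ} (ht : t ≤ L) {c₀ M : ℝ}
    (hc : 0 < c₀) (hM : 0 < M)
    (hloc : c₀ ≤ (law d ρ).real {η | ∃ y ∈ boxF d t, c₀ * Z β h η t ≤ PP β h η t y}) :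
    (c₀ * Real.exp (-M)) ^ 2 * (c₀ - (∫ η, |Us ρ β h L t η| ∂(law d ρ)) / M) ≤
      ∫ η, ∑ y ∈ boxF d L, (cE ρ (Pa d t) (Qt β h L t y) η) ^ 2 ∂(law d ρ) := by
  set f : Env d → ℝ := fun η => ∑ y ∈ boxF d L, (cE ρ (Pa d t) (Qt β h L t y) η) ^ 2 with hf
  set κ : ℝ := (c₀ * Real.exp (-M)) ^ 2 with hκ
  have hκ0 : 0 < κ := by positivity
  have hfm : Measurable f := Finset.measurable_sum _ fun y _ =>
    (measurable_cE (measurable_Qt β h L t y) (Pa d t)).pow_const 2
  have hf0 : ∀ η, 0 ≤ f η := fun η => Finset.sum_nonneg fun y _ => sq_nonneg _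
  have hfb : ∀ η, f η ≤ ((boxF d L).card : ℝ) := by
    intro η
    have h1 : ∀ y ∈ boxF d L, (cE ρ (Pa d t) (Qt β h L t y) η) ^ 2 ≤ 1 := by
      intro y _
      have h2 := cE_abs_le (ρ := ρ) (Qt_abs hd β h ht y) (Pa d t) η
      rw [← sq_abs]
      exact pow_le_one₀ (abs_nonneg _) h2
    have h3 := Finset.sum_le_sum h1
    simpa using h3
  have hfi : Integrable f (law d ρ) :=
    Integrable.mono' (integrable_const ((boxF d L).card : ℝ)) hfm.aestronglyMeasurable
      (Eventually.of_forall fun η => by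
        rw [Real.norm_eq_abs, abs_of_nonneg (hf0 η)]
        exact hfb η)
  have hU := int_abs_cE (integrable_Us hd hρ β h L t) (Pa d t)
  have hMk : M * (law d ρ).real {η | M ≤ |cE ρ (Pa d t) (Us ρ β h L t) η|} ≤
      ∫ η, |Us ρ β h L t η| ∂(law d ρ) :=
    (mul_meas_ge_le_integral_of_nonneg (Eventually.of_forall fun η => abs_nonneg _) hU.1.abs
      M).trans hU.2
  have hfk : κ * (law d ρ).real {η | κ ≤ f η} ≤ ∫ η, f η ∂(law d ρ) :=
    mul_meas_ge_le_integral_of_nonneg (Eventually.of_forall hf0) hfi κ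
  have hsub : {η | ∃ y ∈ boxF d t, c₀ * Z β h η t ≤ PP β h η t y} ≤ᵐ[law d ρ]
      ({η | κ ≤ f η} ∪ {η | M ≤ |cE ρ (Pa d t) (Us ρ β h L t) η|} : Set (Env d)) := by
    filter_upwards [p_ge hd hρ β h ht] with η hη h1
    obtain ⟨y, hy, hyc⟩ := h1
    by_cases hbad : M ≤ |cE ρ (Pa d t) (Us ρ β h L t) η|
    · exact Or.inr hbad
    · refine Or.inl ?_
      rw [not_le] at hbad
      have h2 : c₀ * Real.exp (-M) ≤ cE ρ (Pa d t) (Qt β h L t y) η := by
        refine le_trans ?_ (hη y)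
        have h3 : c₀ ≤ PP β h η t y / Z β h η t := by
          rw [le_div_iff₀ (Z_pos hd _ _ _ _)]
          exact hyc
        have h4 : Real.exp (-M) ≤ Real.exp (-(cE ρ (Pa d t) (Us ρ β h L t) η)) := by
          refine Real.exp_le_exp.2 (neg_le_neg ?_)
          exact (le_abs_self _).trans hbad.le
        exact mul_le_mul h3 h4 (Real.exp_pos _).le (hc.le.trans h3)
      have h5 : κ ≤ (cE ρ (Pa d t) (Qt β h L t y) η) ^ 2 :=
        pow_le_pow_left₀ (by positivity) h2 2
      refine h5.trans ?_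
      exact Finset.single_le_sum (f := fun y => (cE ρ (Pa d t) (Qt β h L t y) η) ^ 2)
        (fun y _ => sq_nonneg _) (TubV_box ht hy)
  have hmeas : c₀ ≤ (law d ρ).real {η | κ ≤ f η} +
      (law d ρ).real {η | M ≤ |cE ρ (Pa d t) (Us ρ β h L t) η|} := by
    refine hloc.trans (le_trans ?_ (measureReal_union_le _ _))
    exact ENNReal.toReal_mono (measure_ne_top _ _) (measure_mono_ae hsub)
  have h8 : (law d ρ).real {η | M ≤ |cE ρ (Pa d t) (Us ρ β h L t) η|} ≤
      (∫ η, |Us ρ β h L t η| ∂(law d ρ)) / M := by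
    rw [le_div_iff₀ hM, mul_comm]
    exact hMk
  refine le_trans ?_ hfk
  exact mul_le_mul_of_nonneg_left (by linarith) hκ0.le

end Pool.Agent.W_7d29a1_Q29.NT66
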