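import Mathlib

/-!
One time, two independent factors (N4, helper85): the gap of superadditivity is at least
`(c₀ / 2) log (c₀³ / S)` when the past weights have an atom and `E ∑ E[Q | past]² ≤ S`, and at most
`2 + 4 √(K N S') + 4 √K` when the variances are at most `K`, `E ∑ E[Q | future]² ≤ S'` and `Q`
charges a window of `N` sites.
-/

namespace Pool.Agent.W_7d29a1_Q29

open MeasureTheory ProbabilityTheory Filter Topology

variable {Ω₁ Ω₂ ι : Type*} [MeasurableSpace Ω₁] [MeasurableSpace Ω₂]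

/-- The partition function. -/
noncomputable def Zab (Bx : Finset ι) (a : ι → Ω₁ → ℝ) (b : ι → Ω₂ → ℝ) (w : Ω₁ × Ω₂) : ℝ :=
  ∑ i ∈ Bx, a i w.1 * b i w.2

/-- The law of the position. -/
noncomputable def Qab (Bx : Finset ι) (a : ι → Ω₁ → ℝ) (b : ι → Ω₂ → ℝ) (i : ι)
    (w : Ω₁ × Ω₂) : ℝ := a i w.1 * b i w.2 / Zab Bx a b w

/-- The hypotheses of the one time inequalities. -/
structure Hab (P₁ : Measure Ω₁) (P₂ : Measure Ω₂) (Bx : Finset ι) (a : ι → Ω₁ → ℝ)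
    (b : ι → Ω₂ → ℝ) (m F0 A0 : ℝ) : Prop where
  ha : ∀ i ∈ Bx, Measurable (a i)
  hb : ∀ i ∈ Bx, Measurable (b i)
  ha0 : ∀ i ∈ Bx, ∀ w, 0 ≤ a i w
  hb0 : ∀ i ∈ Bx, ∀ w, 0 < b i w
  hs : ∀ w, 0 < ∑ i ∈ Bx, a i w
  hm : ∀ i ∈ Bx, ∫ w, (Real.log (b i w) - m) ∂P₂ = 0
  hV : ∀ i ∈ Bx, Integrable (fun w => (Real.log (b i w) - m) ^ 2) P₂
  hZ2 : Integrable (fun w => (Real.log (Zab Bx a b w) - F0) ^ 2) (P₁.prod P₂)
  hA2 : Integrable (fun w => (Real.log (∑ i ∈ Bx, a i w) - A0) ^ 2) P₁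
  hF0 : ∫ w, Real.log (Zab Bx a b w) ∂(P₁.prod P₂) = F0
  hA0 : ∫ w, Real.log (∑ i ∈ Bx, a i w) ∂P₁ = A0

namespace Hab

variable {P₁ : Measure Ω₁} {P₂ : Measure Ω₂} [IsProbabilityMeasure P₁] [IsProbabilityMeasure P₂]
  {Bx : Finset ι} {a : ι → Ω₁ → ℝ} {b : ι → Ω₂ → ℝ} {m F0 A0 : ℝ}

/-- `U = log ∑ μ_i e^(log b_i - m)`. -/
noncomputable def U (Bx : Finset ι) (a : ι → Ω₁ → ℝ) (b : ι → Ω₂ → ℝ) (m : ℝ)
    (w : Ω₁ × Ω₂) : ℝ := Real.log (Zab Bx a b w) - Real.log (∑ i ∈ Bx, a i w.1) - m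

omit [IsProbabilityMeasure P₁] [IsProbabilityMeasure P₂] in
lemma Zpos (H : Hab P₁ P₂ Bx a b m F0 A0) (w : Ω₁ × Ω₂) : 0 < Zab Bx a b w := by
  have h1 : ∃ i ∈ Bx, 0 < a i w.1 := by
    by_contra hcon
    push Not at hcon
    have := H.hs w.1
    exact absurd this (not_lt.2 (Finset.sum_nonpos hcon))
  obtain ⟨i, hi, hai⟩ := h1
  refine lt_of_lt_of_le (mul_pos hai (H.hb0 i hi w.2)) ?_
  exact Finset.single_le_sum (f := fun i => a i w.1 * b i w.2)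
    (fun j hj => mul_nonneg (H.ha0 j hj w.1) (H.hb0 j hj w.2).le) hi

omit [IsProbabilityMeasure P₁] [IsProbabilityMeasure P₂] in
lemma Q_nonneg (H : Hab P₁ P₂ Bx a b m F0 A0) {i : ι} (hi : i ∈ Bx) (w : Ω₁ × Ω₂) :
    0 ≤ Qab Bx a b i w :=
  div_nonneg (mul_nonneg (H.ha0 i hi w.1) (H.hb0 i hi w.2).le) (H.Zpos w).le

omit [IsProbabilityMeasure P₁] [IsProbabilityMeasure P₂] in
lemma Q_sum (H : Hab P₁ P₂ Bx a b m F0 A0) (w : Ω₁ × Ω₂) : ∑ i ∈ Bx, Qab Bx a b i w = 1 := by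
  unfold Qab
  rw [← Finset.sum_div]
  exact div_self (H.Zpos w).ne'

omit [IsProbabilityMeasure P₁] [IsProbabilityMeasure P₂] in
lemma Q_le_one (H : Hab P₁ P₂ Bx a b m F0 A0) {i : ι} (hi : i ∈ Bx) (w : Ω₁ × Ω₂) :
    Qab Bx a b i w ≤ 1 := by
  rw [← H.Q_sum w]
  exact Finset.single_le_sum (f := fun i => Qab Bx a b i w) (fun j hj => H.Q_nonneg hj w) hi

omit [IsProbabilityMeasure P₁] [IsProbabilityMeasure P₂] in
lemma meas_Z (H : Hab P₁ P₂ Bx a b m F0 A0) : Measurable (Zab Bx a b) := by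
  unfold Zab
  exact Finset.measurable_sum Bx fun i hi =>
    ((H.ha i hi).comp measurable_fst).mul ((H.hb i hi).comp measurable_snd)

omit [IsProbabilityMeasure P₁] [IsProbabilityMeasure P₂] in
lemma meas_Q (H : Hab P₁ P₂ Bx a b m F0 A0) {i : ι} (hi : i ∈ Bx) :
    Measurable (Qab Bx a b i) := by
  unfold Qab
  exact (((H.ha i hi).comp measurable_fst).mul ((H.hb i hi).comp measurable_snd)).div H.meas_Z

omit [IsProbabilityMeasure P₁] [IsProbabilityMeasure P₂] in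
lemma meas_sum (H : Hab P₁ P₂ Bx a b m F0 A0) : Measurable fun w => ∑ i ∈ Bx, a i w :=
  Finset.measurable_sum Bx fun i hi => H.ha i hi

omit [IsProbabilityMeasure P₁] [IsProbabilityMeasure P₂] in
/-- `Q_i = μ_i e^(V_i - U)`. -/
lemma Q_eq (H : Hab P₁ P₂ Bx a b m F0 A0) {i : ι} (hi : i ∈ Bx) (w : Ω₁ × Ω₂) :
    Qab Bx a b i w = a i w.1 / (∑ j ∈ Bx, a j w.1) *
      Real.exp (Real.log (b i w.2) - m - U Bx a b m w) := by
  have h1 : Real.log (b i w.2) - m - U Bx a b m w =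
      Real.log (b i w.2) - Real.log (Zab Bx a b w) + Real.log (∑ i ∈ Bx, a i w.1) := by
    unfold U
    ring
  rw [h1, Real.exp_add, Real.exp_sub, Real.exp_log (H.hb0 i hi w.2), Real.exp_log (H.Zpos w),
    Real.exp_log (H.hs w.1)]
  unfold Qab
  have h2 := (H.hs w.1).ne'
  have h3 := (H.Zpos w).ne'
  field_simp

omit [IsProbabilityMeasure P₁] [IsProbabilityMeasure P₂] in
/-- The tangent inequality for `Q_i`. -/
lemma Q_tan (H : Hab P₁ P₂ Bx a b m F0 A0) {i : ι} (hi : i ∈ Bx) (w : Ω₁ × Ω₂) :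
    Qab Bx a b i w - a i w.1 / (∑ j ∈ Bx, a j w.1) ≤
      Qab Bx a b i w * (Real.log (b i w.2) - m) - Qab Bx a b i w * U Bx a b m w := by
  have hμ : 0 ≤ a i w.1 / (∑ j ∈ Bx, a j w.1) := div_nonneg (H.ha0 i hi w.1) (H.hs w.1).le
  obtain ⟨t, ht⟩ : ∃ t, t = Real.log (b i w.2) - m - U Bx a b m w := ⟨_, rfl⟩
  have h1 := H.Q_eq hi w
  rw [← ht] at h1
  have h2 : Qab Bx a b i w * (Real.log (b i w.2) - m) - Qab Bx a b i w * U Bx a b m w =
      Qab Bx a b i w * t := by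
    rw [ht]
    ring
  rw [h2, h1]
  have h3 : Real.exp t - 1 ≤ Real.exp t * t := by
    have h4 := Real.add_one_le_exp (-t)
    have h5 := Real.exp_pos t
    have h6 : Real.exp t * Real.exp (-t) = 1 := by
      rw [← Real.exp_add]
      simp
    nlinarith
  have h7 := mul_le_mul_of_nonneg_left h3 hμ
  nlinarith

omit [IsProbabilityMeasure P₁] in
lemma logb_int (H : Hab P₁ P₂ Bx a b m F0 A0) {i : ι} (hi : i ∈ Bx) :
    Integrable (fun w => Real.log (b i w) - m) P₂ := by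
  have h : MemLp (fun w => Real.log (b i w) - m) 2 P₂ :=
    (memLp_two_iff_integrable_sq
      ((Real.measurable_log.comp (H.hb i hi)).sub_const m).aestronglyMeasurable).2 (H.hV i hi)
  exact h.integrable (by norm_num)

lemma logZ_int (H : Hab P₁ P₂ Bx a b m F0 A0) :
    Integrable (fun w => Real.log (Zab Bx a b w) - F0) (P₁.prod P₂) := by
  have h : MemLp (fun w => Real.log (Zab Bx a b w) - F0) 2 (P₁.prod P₂) :=
    (memLp_two_iff_integrable_sq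
      ((Real.measurable_log.comp H.meas_Z).sub_const F0).aestronglyMeasurable).2 H.hZ2
  exact h.integrable (by norm_num)

omit [IsProbabilityMeasure P₂] in
lemma logA_int (H : Hab P₁ P₂ Bx a b m F0 A0) :
    Integrable (fun w => Real.log (∑ i ∈ Bx, a i w) - A0) P₁ := by
  have h : MemLp (fun w => Real.log (∑ i ∈ Bx, a i w) - A0) 2 P₁ :=
    (memLp_two_iff_integrable_sq
      ((Real.measurable_log.comp H.meas_sum).sub_const A0).aestronglyMeasurable).2 H.hA2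
  exact h.integrable (by norm_num)

omit [MeasurableSpace Ω₁] [MeasurableSpace Ω₂] in
lemma U_eq (w : Ω₁ × Ω₂) : U Bx a b m w = (Real.log (Zab Bx a b w) - F0) -
    (Real.log (∑ i ∈ Bx, a i w.1) - A0) + (F0 - A0 - m) := by
  unfold U
  ring

lemma U_int (H : Hab P₁ P₂ Bx a b m F0 A0) : Integrable (U Bx a b m) (P₁.prod P₂) := by
  have h : U Bx a b m = fun w => (Real.log (Zab Bx a b w) - F0) -
      (Real.log (∑ i ∈ Bx, a i w.1) - A0) + (F0 - A0 - m) := by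
    funext w
    exact U_eq w
  rw [h]
  exact (H.logZ_int.sub (H.logA_int.comp_fst P₂)).add (integrable_const _)

lemma U_mean (H : Hab P₁ P₂ Bx a b m F0 A0) :
    ∫ w, U Bx a b m w ∂(P₁.prod P₂) = F0 - A0 - m := by
  have h : (fun w : Ω₁ × Ω₂ => U Bx a b m w) = fun w => (Real.log (Zab Bx a b w) - F0) -
      (Real.log (∑ i ∈ Bx, a i w.1) - A0) + (F0 - A0 - m) := by
    funext w
    exact U_eq w
  have h1 : Integrable (fun w : Ω₁ × Ω₂ => Real.log (∑ i ∈ Bx, a i w.1) - A0) (P₁.prod P₂) :=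
    H.logA_int.comp_fst P₂
  have h2 : Integrable (fun w => Real.log (Zab Bx a b w)) (P₁.prod P₂) := by
    have := H.logZ_int.add (integrable_const F0)
    refine this.congr (Eventually.of_forall fun w => ?_)
    simp
  have h3 : Integrable (fun w => Real.log (∑ i ∈ Bx, a i w)) P₁ := by
    have := H.logA_int.add (integrable_const A0)
    refine this.congr (Eventually.of_forall fun w => ?_)
    simp
  have h4 : ∫ w, (Real.log (Zab Bx a b w) - F0) ∂(P₁.prod P₂) = 0 := by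
    rw [integral_sub h2 (integrable_const _), H.hF0]
    simp
  have h5 : ∫ w : Ω₁ × Ω₂, (Real.log (∑ i ∈ Bx, a i w.1) - A0) ∂(P₁.prod P₂) = 0 := by
    rw [integral_fun_fst (fun w => Real.log (∑ i ∈ Bx, a i w) - A0),
      integral_sub h3 (integrable_const _), H.hA0]
    simp
  have h6 : Integrable (fun w : Ω₁ × Ω₂ => (Real.log (Zab Bx a b w) - F0) -
      (Real.log (∑ i ∈ Bx, a i w.1) - A0)) (P₁.prod P₂) := H.logZ_int.sub h1
  rw [h, integral_add h6 (integrable_const _), integral_sub H.logZ_int h1, h4, h5]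
  simp

omit [IsProbabilityMeasure P₁] [IsProbabilityMeasure P₂] in
/-- Jensen, pointwise: `U ≥ ∑ μ_i V_i`. -/
lemma U_ge (H : Hab P₁ P₂ Bx a b m F0 A0) (w : Ω₁ × Ω₂) :
    ∑ i ∈ Bx, a i w.1 / (∑ j ∈ Bx, a j w.1) * (Real.log (b i w.2) - m) ≤ U Bx a b m w := by
  -- `1 = ∑ Q_i = ∑ μ_i e^(V_i - U) ≥ ∑ μ_i (1 + V_i - U)`
  have h1 : ∀ i ∈ Bx, a i w.1 / (∑ j ∈ Bx, a j w.1) * (1 + (Real.log (b i w.2) - m) -
      U Bx a b m w) ≤ Qab Bx a b i w := by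
    intro i hi
    have hμ : 0 ≤ a i w.1 / (∑ j ∈ Bx, a j w.1) := div_nonneg (H.ha0 i hi w.1) (H.hs w.1).le
    rw [H.Q_eq hi w]
    refine mul_le_mul_of_nonneg_left ?_ hμ
    have := Real.add_one_le_exp (Real.log (b i w.2) - m - U Bx a b m w)
    linarith
  have h2 := Finset.sum_le_sum h1
  rw [H.Q_sum w] at h2
  have h3 : ∑ i ∈ Bx, a i w.1 / (∑ j ∈ Bx, a j w.1) = 1 := by
    rw [← Finset.sum_div]
    exact div_self (H.hs w.1).ne'
  have h4 : ∑ i ∈ Bx, a i w.1 / (∑ j ∈ Bx, a j w.1) * (1 + (Real.log (b i w.2) - m) -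
      U Bx a b m w) = (∑ i ∈ Bx, a i w.1 / (∑ j ∈ Bx, a j w.1)) * (1 - U Bx a b m w) +
      ∑ i ∈ Bx, a i w.1 / (∑ j ∈ Bx, a j w.1) * (Real.log (b i w.2) - m) := by
    rw [Finset.sum_mul, ← Finset.sum_add_distrib]
    refine Finset.sum_congr rfl fun i _ => ?_
    ring
  rw [h4, h3] at h2
  linarith

omit [IsProbabilityMeasure P₁] in
/-- The conditional mean of `U` given the past is nonnegative. -/
lemma g_nonneg (H : Hab P₁ P₂ Bx a b m F0 A0) {w₁ : Ω₁}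
    (hi : Integrable (fun w₂ => U Bx a b m (w₁, w₂)) P₂) :
    0 ≤ ∫ w₂, U Bx a b m (w₁, w₂) ∂P₂ := by
  have h1 : Integrable (fun w₂ => ∑ i ∈ Bx, a i w₁ / (∑ j ∈ Bx, a j w₁) *
      (Real.log (b i w₂) - m)) P₂ :=
    integrable_finsetSum Bx fun i hi' => (H.logb_int hi').const_mul _
  have h2 : ∫ w₂, ∑ i ∈ Bx, a i w₁ / (∑ j ∈ Bx, a j w₁) * (Real.log (b i w₂) - m) ∂P₂ = 0 := by
    rw [integral_finsetSum Bx fun i hi' => (H.logb_int hi').const_mul _]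
    refine Finset.sum_eq_zero fun i hi' => ?_
    rw [integral_const_mul, H.hm i hi', mul_zero]
  rw [← h2]
  exact integral_mono h1 hi fun w₂ => H.U_ge (w₁, w₂)

omit [IsProbabilityMeasure P₁] in
/-- Jensen for `Q_i` given the past. -/
lemma p_ge (H : Hab P₁ P₂ Bx a b m F0 A0) {w₁ : Ω₁}
    (hi : Integrable (fun w₂ => U Bx a b m (w₁, w₂)) P₂) {i : ι} (hiB : i ∈ Bx) :
    a i w₁ / (∑ j ∈ Bx, a j w₁) * Real.exp (-∫ w₂, U Bx a b m (w₁, w₂) ∂P₂) ≤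
      ∫ w₂, Qab Bx a b i (w₁, w₂) ∂P₂ := by
  obtain ⟨g, hg⟩ : ∃ g, g = ∫ w₂, U Bx a b m (w₁, w₂) ∂P₂ := ⟨_, rfl⟩
  have hμ : 0 ≤ a i w₁ / (∑ j ∈ Bx, a j w₁) := div_nonneg (H.ha0 i hiB w₁) (H.hs w₁).le
  have h1 : ∀ w₂, a i w₁ / (∑ j ∈ Bx, a j w₁) * (Real.exp (-g) *
      (1 + g + ((Real.log (b i w₂) - m) - U Bx a b m (w₁, w₂)))) ≤ Qab Bx a b i (w₁, w₂) := by
    intro w₂
    rw [H.Q_eq hiB (w₁, w₂)]
    refine mul_le_mul_of_nonneg_left ?_ hμ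
    show Real.exp (-g) * (1 + g + ((Real.log (b i w₂) - m) - U Bx a b m (w₁, w₂))) ≤
      Real.exp (Real.log (b i w₂) - m - U Bx a b m (w₁, w₂))
    have h2 := Real.add_one_le_exp ((Real.log (b i w₂) - m - U Bx a b m (w₁, w₂)) + g)
    have h3 : Real.exp (Real.log (b i w₂) - m - U Bx a b m (w₁, w₂)) =
        Real.exp (-g) * Real.exp ((Real.log (b i w₂) - m - U Bx a b m (w₁, w₂)) + g) := by
      rw [← Real.exp_add]
      congr 1
      ring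
    rw [h3]
    refine mul_le_mul_of_nonneg_left ?_ (Real.exp_pos _).le
    linarith
  have hQm : Measurable fun w₂ => Qab Bx a b i (w₁, w₂) :=
    (H.meas_Q hiB).comp measurable_prodMk_left
  have hQi : Integrable (fun w₂ => Qab Bx a b i (w₁, w₂)) P₂ := by
    refine Integrable.mono' (integrable_const (1 : ℝ)) hQm.aestronglyMeasurable
      (Eventually.of_forall fun w₂ => ?_)
    rw [Real.norm_eq_abs, abs_of_nonneg (H.Q_nonneg hiB _)]
    exact H.Q_le_one hiB _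
  have h4 : Integrable (fun w₂ => (Real.log (b i w₂) - m) - U Bx a b m (w₁, w₂)) P₂ :=
    (H.logb_int hiB).sub hi
  have h5 : Integrable (fun w₂ => a i w₁ / (∑ j ∈ Bx, a j w₁) * (Real.exp (-g) *
      (1 + g + ((Real.log (b i w₂) - m) - U Bx a b m (w₁, w₂))))) P₂ :=
    (((integrable_const (1 + g)).add h4).const_mul _).const_mul _
  have h6 := integral_mono h5 hQi h1
  rw [integral_const_mul, integral_const_mul, integral_add (integrable_const _) h4,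
    integral_sub (H.logb_int hiB) hi, H.hm i hiB, ← hg] at h6
  rw [← hg]
  refine le_trans (le_of_eq ?_) h6
  simp

/-- **The gap is large.** -/
theorem gap85 (H : Hab P₁ P₂ Bx a b m F0 A0) {c₀ S : ℝ} (hc : 0 < c₀)
    (hloc : c₀ ≤ P₁.real {w | ∃ i ∈ Bx, c₀ * ∑ j ∈ Bx, a j w ≤ a i w})
    (hS : ∫ w₁, ∑ i ∈ Bx, (∫ w₂, Qab Bx a b i (w₁, w₂) ∂P₂) ^ 2 ∂P₁ ≤ S) :
    c₀ / 2 * Real.log (c₀ ^ 3 / S) ≤ F0 - A0 - m ∧ 0 ≤ F0 - A0 - m := by
  have hUi := H.U_int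
  have hUm := H.U_mean
  obtain ⟨g, hg⟩ : ∃ g : Ω₁ → ℝ, g = fun w₁ => ∫ w₂, U Bx a b m (w₁, w₂) ∂P₂ := ⟨_, rfl⟩
  have hgi : Integrable g P₁ := by
    rw [hg]
    exact hUi.integral_prod_left
  have hgm : ∫ w, g w ∂P₁ = F0 - A0 - m := by
    rw [hg, ← hUm]
    exact (integral_prod _ hUi).symm
  have hae : ∀ᵐ w₁ ∂P₁, Integrable (fun w₂ => U Bx a b m (w₁, w₂)) P₂ := hUi.prod_right_ae
  have hg0 : ∀ᵐ w₁ ∂P₁, 0 ≤ g w₁ := by
    filter_upwards [hae] with w₁ h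
    rw [hg]
    exact H.g_nonneg h
  have hE0 : 0 ≤ F0 - A0 - m := by
    rw [← hgm]
    exact integral_nonneg_of_ae hg0
  refine ⟨?_, hE0⟩
  obtain ⟨E, hE⟩ : ∃ E, E = F0 - A0 - m := ⟨_, rfl⟩
  obtain ⟨x, hx⟩ : ∃ x, x = E / c₀ := ⟨_, rfl⟩
  have hx0 : 0 ≤ x := by
    rw [hx, hE]
    exact div_nonneg hE0 hc.le
  obtain ⟨L, hL⟩ : ∃ L : Set Ω₁, L = {w | ∃ i ∈ Bx, c₀ * ∑ j ∈ Bx, a j w ≤ a i w} := ⟨_, rfl⟩
  have hLm : MeasurableSet L := by
    have h1 : L = ⋃ i ∈ Bx, {w | c₀ * ∑ j ∈ Bx, a j w ≤ a i w} := by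
      rw [hL]
      ext w
      simp
    rw [h1]
    refine Finset.measurableSet_biUnion Bx fun i hi => ?_
    exact measurableSet_le (H.meas_sum.const_mul c₀) (H.ha i hi)
  have hpm : ∀ i ∈ Bx, Measurable fun w₁ => ∫ w₂, Qab Bx a b i (w₁, w₂) ∂P₂ := fun i hi =>
    ((H.meas_Q hi).stronglyMeasurable.integral_prod_right').measurable
  have hp0 : ∀ i ∈ Bx, ∀ w₁, 0 ≤ ∫ w₂, Qab Bx a b i (w₁, w₂) ∂P₂ := fun i hi w₁ =>
    integral_nonneg fun w₂ => H.Q_nonneg hi _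
  have hp1 : ∀ i ∈ Bx, ∀ w₁, ∫ w₂, Qab Bx a b i (w₁, w₂) ∂P₂ ≤ 1 := by
    intro i hi w₁
    have hQm : Measurable fun w₂ => Qab Bx a b i (w₁, w₂) :=
      (H.meas_Q hi).comp measurable_prodMk_left
    have hQi : Integrable (fun w₂ => Qab Bx a b i (w₁, w₂)) P₂ := by
      refine Integrable.mono' (integrable_const (1 : ℝ)) hQm.aestronglyMeasurable
        (Eventually.of_forall fun w₂ => ?_)
      rw [Real.norm_eq_abs, abs_of_nonneg (H.Q_nonneg hi _)]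
      exact H.Q_le_one hi _
    have h2 := integral_mono hQi (integrable_const (1 : ℝ)) fun w₂ => H.Q_le_one hi (w₁, w₂)
    simpa using h2
  have hsi : Integrable (fun w₁ => ∑ i ∈ Bx, (∫ w₂, Qab Bx a b i (w₁, w₂) ∂P₂) ^ 2) P₁ := by
    refine integrable_finsetSum Bx fun i hi => ?_
    refine Integrable.mono' (integrable_const (1 : ℝ)) ((hpm i hi).pow_const 2).aestronglyMeasurable
      (Eventually.of_forall fun w₁ => ?_)
    rw [Real.norm_eq_abs, abs_of_nonneg (sq_nonneg _)]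
    exact pow_le_one₀ (hp0 i hi w₁) (hp1 i hi w₁)
  -- the lower bound of the integrand
  have hlow : ∀ᵐ w₁ ∂P₁, L.indicator (fun w => c₀ ^ 2 * (Real.exp (-2 * x) *
      (1 + 2 * x - 2 * g w))) w₁ ≤ ∑ i ∈ Bx, (∫ w₂, Qab Bx a b i (w₁, w₂) ∂P₂) ^ 2 := by
    filter_upwards [hae] with w₁ h
    by_cases hw : w₁ ∈ L
    · rw [Set.indicator_of_mem hw]
      rw [hL] at hw
      obtain ⟨i, hi, hai⟩ := hw
      have hμ : c₀ ≤ a i w₁ / (∑ j ∈ Bx, a j w₁) := by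
        rw [le_div_iff₀ (H.hs w₁)]
        exact hai
      have h1 := H.p_ge h hi
      have h2 : (∫ w₂, U Bx a b m (w₁, w₂) ∂P₂) = g w₁ := by rw [hg]
      rw [h2] at h1
      have h3 : c₀ * Real.exp (-g w₁) ≤ ∫ w₂, Qab Bx a b i (w₁, w₂) ∂P₂ :=
        (mul_le_mul_of_nonneg_right hμ (Real.exp_pos _).le).trans h1
      have h4 : (c₀ * Real.exp (-g w₁)) ^ 2 ≤ (∫ w₂, Qab Bx a b i (w₁, w₂) ∂P₂) ^ 2 :=
        pow_le_pow_left₀ (mul_nonneg hc.le (Real.exp_pos _).le) h3 2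
      have h5 : (∫ w₂, Qab Bx a b i (w₁, w₂) ∂P₂) ^ 2 ≤
          ∑ i ∈ Bx, (∫ w₂, Qab Bx a b i (w₁, w₂) ∂P₂) ^ 2 :=
        Finset.single_le_sum (f := fun i => (∫ w₂, Qab Bx a b i (w₁, w₂) ∂P₂) ^ 2)
          (fun j _ => sq_nonneg _) hi
      refine le_trans ?_ (h4.trans h5)
      rw [mul_pow]
      refine mul_le_mul_of_nonneg_left ?_ (sq_nonneg _)
      have h6 : Real.exp (-g w₁) ^ 2 = Real.exp (-2 * x) * Real.exp (2 * x - 2 * g w₁) := by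
        rw [← Real.exp_nat_mul, ← Real.exp_add]
        congr 1
        push_cast
        ring
      rw [h6]
      refine mul_le_mul_of_nonneg_left ?_ (Real.exp_pos _).le
      have := Real.add_one_le_exp (2 * x - 2 * g w₁)
      linarith
    · rw [Set.indicator_of_notMem hw]
      exact Finset.sum_nonneg fun i _ => sq_nonneg _
  have hli : Integrable (L.indicator (fun w => c₀ ^ 2 * (Real.exp (-2 * x) *
      (1 + 2 * x - 2 * g w)))) P₁ := by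
    refine Integrable.indicator ?_ hLm
    exact (((integrable_const (1 + 2 * x)).sub (hgi.const_mul 2)).const_mul _).const_mul _
  have h7 := integral_mono_ae hli hsi hlow
  rw [integral_indicator hLm, integral_const_mul, integral_const_mul,
    integral_sub (integrable_const _) (hgi.const_mul 2).integrableOn, integral_const_mul] at h7
  have h8 : ∫ _ in L, (1 + 2 * x) ∂P₁ = P₁.real L * (1 + 2 * x) := by
    rw [setIntegral_const, smul_eq_mul]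
  have h9 : ∫ w in L, g w ∂P₁ ≤ E := by
    have h10 : ∫ w in L, g w ∂P₁ ≤ ∫ w, g w ∂P₁ :=
      setIntegral_le_integral hgi hg0
    rw [hE, ← hgm]
    exact h10
  rw [h8] at h7
  have h11 : c₀ * (1 + 2 * x) ≤ P₁.real L * (1 + 2 * x) := by
    refine mul_le_mul_of_nonneg_right ?_ (by linarith)
    rw [hL]
    exact hloc
  have hxE : c₀ * x = E := by
    rw [hx]
    field_simp
  have h12 : c₀ ^ 2 * (Real.exp (-2 * x) * c₀) ≤ S := by
    refine le_trans ?_ (h7.trans hS)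
    refine mul_le_mul_of_nonneg_left ?_ (sq_nonneg _)
    refine mul_le_mul_of_nonneg_left ?_ (Real.exp_pos _).le
    nlinarith
  have hSpos : 0 < S := lt_of_lt_of_le (by positivity) h12
  have h13 : c₀ ^ 3 / S ≤ Real.exp (2 * x) := by
    rw [div_le_iff₀ hSpos]
    have h14 : Real.exp (2 * x) * (c₀ ^ 2 * (Real.exp (-2 * x) * c₀)) = c₀ ^ 3 := by
      have h15 : Real.exp (2 * x) * Real.exp (-2 * x) = 1 := by
        rw [← Real.exp_add]
        simp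
      calc Real.exp (2 * x) * (c₀ ^ 2 * (Real.exp (-2 * x) * c₀))
          = (Real.exp (2 * x) * Real.exp (-2 * x)) * c₀ ^ 3 := by ring
        _ = c₀ ^ 3 := by rw [h15, one_mul]
    rw [← h14]
    exact mul_le_mul_of_nonneg_left h12 (Real.exp_pos _).le
  have h16 : Real.log (c₀ ^ 3 / S) ≤ 2 * x := by
    have h17 := Real.log_le_log (by positivity) h13
    rwa [Real.log_exp] at h17
  calc c₀ / 2 * Real.log (c₀ ^ 3 / S) ≤ c₀ / 2 * (2 * x) :=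
        mul_le_mul_of_nonneg_left h16 (by positivity)
    _ = E := by rw [← hxE]; ring
    _ = F0 - A0 - m := hE

omit [IsProbabilityMeasure P₁] [IsProbabilityMeasure P₂] in
/-- The pointwise upper bound. -/
lemma U_le (H : Hab P₁ P₂ Bx a b m F0 A0) (hE0 : 0 ≤ F0 - A0 - m) {W : Finset ι} (hW : W ⊆ Bx)
    (w : Ω₁ × Ω₂) :
    U Bx a b m w ≤ 1 + 2 * ∑ i ∈ W, Qab Bx a b i w * |Real.log (b i w.2) - m| +
      (|Real.log (Zab Bx a b w) - F0| + |Real.log (∑ i ∈ Bx, a i w.1) - A0|) +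
      2 * (1 - ∑ i ∈ W, Qab Bx a b i w) * (F0 - A0 - m) := by
  obtain ⟨q, hq⟩ : ∃ q, q = ∑ i ∈ W, Qab Bx a b i w := ⟨_, rfl⟩
  have hq1 : q ≤ 1 := by
    rw [hq, ← H.Q_sum w]
    exact Finset.sum_le_sum_of_subset_of_nonneg hW fun i hi _ => H.Q_nonneg hi w
  have hs0 : 0 ≤ ∑ i ∈ W, Qab Bx a b i w * |Real.log (b i w.2) - m| :=
    Finset.sum_nonneg fun i hi => mul_nonneg (H.Q_nonneg (hW hi) w) (abs_nonneg _)
  have ht1 := abs_nonneg (Real.log (Zab Bx a b w) - F0)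
  have ht2 := abs_nonneg (Real.log (∑ i ∈ Bx, a i w.1) - A0)
  rw [← hq]
  have hqE : 0 ≤ 2 * (1 - q) * (F0 - A0 - m) :=
    mul_nonneg (by linarith) hE0
  rcases le_total (1 / 2) q with h | h
  · -- good
    have h1 : ∀ i ∈ W, Qab Bx a b i w - a i w.1 / (∑ j ∈ Bx, a j w.1) ≤
        Qab Bx a b i w * |Real.log (b i w.2) - m| - Qab Bx a b i w * U Bx a b m w := by
      intro i hi
      have h2 := H.Q_tan (hW hi) w
      have h3 := mul_le_mul_of_nonneg_left (le_abs_self (Real.log (b i w.2) - m))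
        (H.Q_nonneg (hW hi) w)
      linarith
    have h4 := Finset.sum_le_sum h1
    rw [Finset.sum_sub_distrib, Finset.sum_sub_distrib, ← Finset.sum_mul, ← hq] at h4
    have h5 : ∑ i ∈ W, a i w.1 / (∑ j ∈ Bx, a j w.1) ≤ 1 := by
      rw [← Finset.sum_div, div_le_one (H.hs w.1)]
      exact Finset.sum_le_sum_of_subset_of_nonneg hW fun i hi _ => H.ha0 i hi w.1
    have h6 : q * U Bx a b m w ≤
        (∑ i ∈ W, Qab Bx a b i w * |Real.log (b i w.2) - m|) + (1 - q) := by linarith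
    have h7 : U Bx a b m w ≤
        1 + 2 * ∑ i ∈ W, Qab Bx a b i w * |Real.log (b i w.2) - m| := by
      rcases le_total (U Bx a b m w) 0 with h8 | h8
      · linarith
      · nlinarith
    linarith
  · -- bad
    have h1 : U Bx a b m w ≤ |Real.log (Zab Bx a b w) - F0| +
        |Real.log (∑ i ∈ Bx, a i w.1) - A0| + (F0 - A0 - m) := by
      rw [U_eq (F0 := F0) (A0 := A0)]
      have h2 := le_abs_self (Real.log (Zab Bx a b w) - F0)
      have h3 := neg_abs_le (Real.log (∑ i ∈ Bx, a i w.1) - A0)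
      linarith
    have h4 : F0 - A0 - m ≤ 2 * (1 - q) * (F0 - A0 - m) := by
      nlinarith
    linarith

end Hab

/-- From all parameters to the square root. -/
lemma sqrt_of_forall {x A B : ℝ} (hA : 0 ≤ A) (hB : 0 ≤ B)
    (h : ∀ s : ℝ, 0 < s → 2 * x ≤ s * A + B / s) : x ≤ √(B * A) := by
  rcases hA.eq_or_lt with hA0 | hA0
  · rw [← hA0, mul_zero, Real.sqrt_zero]
    by_contra hcon
    push Not at hcon
    have h1 := h ((B + 1) / x) (by positivity)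
    rw [← hA0, mul_zero, zero_add, div_div_eq_mul_div] at h1
    have h2 : B * x / (B + 1) < x := by
      rw [div_lt_iff₀ (by linarith)]
      nlinarith
    linarith
  · rcases hB.eq_or_lt with hB0 | hB0
    · rw [← hB0, zero_mul, Real.sqrt_zero]
      by_contra hcon
      push Not at hcon
      have h1 := h (x / A) (by positivity)
      rw [← hB0, zero_div, add_zero, div_mul_cancel₀ _ hA0.ne'] at h1
      linarith
    · have h1 := h (√(B / A)) (Real.sqrt_pos.2 (by positivity))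
      have h2 : √(B / A) * A = √(B * A) := by
        have h3 : A = √(A ^ 2) := (Real.sqrt_sq hA).symm
        conv_lhs => rw [h3]
        rw [← Real.sqrt_mul (by positivity)]
        congr 1
        rw [← h3]
        field_simp
      have h4 : B / √(B / A) = √(B * A) := by
        rw [div_eq_iff (Real.sqrt_pos.2 (by positivity)).ne', ← Real.sqrt_mul (by positivity)]
        have h5 : B * A * (B / A) = B ^ 2 := by field_simp
        rw [h5, Real.sqrt_sq hB]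
      rw [h2, h4] at h1
      linarith

namespace Hab

variable {P₁ : Measure Ω₁} {P₂ : Measure Ω₂} [IsProbabilityMeasure P₁] [IsProbabilityMeasure P₂]
  {Bx : Finset ι} {a : ι → Ω₁ → ℝ} {b : ι → Ω₂ → ℝ} {m F0 A0 : ℝ}

/-- `E ∑_W Q |V| ≤ √(K N S)`. -/
lemma QV (H : Hab P₁ P₂ Bx a b m F0 A0) {K S N : ℝ} {W : Finset ι} (hW : W ⊆ Bx)
    (hN : (W.card : ℝ) ≤ N)
    (hK : ∀ i ∈ Bx, ∫ w, (Real.log (b i w) - m) ^ 2 ∂P₂ ≤ K) (hK0 : 0 ≤ K)
    (hS : ∫ w₂, ∑ i ∈ Bx, (∫ w₁, Qab Bx a b i (w₁, w₂) ∂P₁) ^ 2 ∂P₂ ≤ S) :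
    Integrable (fun w : Ω₁ × Ω₂ => ∑ i ∈ W, Qab Bx a b i w * |Real.log (b i w.2) - m|)
      (P₁.prod P₂) ∧
    ∫ w : Ω₁ × Ω₂, ∑ i ∈ W, Qab Bx a b i w * |Real.log (b i w.2) - m| ∂(P₁.prod P₂) ≤
      √(K * N * S) := by
  have hi1 : ∀ i ∈ W, Integrable (fun w : Ω₁ × Ω₂ =>
      Qab Bx a b i w * |Real.log (b i w.2) - m|) (P₁.prod P₂) := by
    intro i hi
    have h1 : Integrable (fun w : Ω₁ × Ω₂ => |Real.log (b i w.2) - m|) (P₁.prod P₂) :=
      (H.logb_int (hW hi)).abs.comp_snd P₁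
    refine h1.mono' ((H.meas_Q (hW hi)).mul ?_).aestronglyMeasurable
      (Eventually.of_forall fun w => ?_)
    · exact (((Real.measurable_log.comp (H.hb i (hW hi))).comp measurable_snd).sub_const m).abs
    · rw [Real.norm_eq_abs, abs_mul, abs_abs, abs_of_nonneg (H.Q_nonneg (hW hi) w)]
      exact mul_le_of_le_one_left (abs_nonneg _) (H.Q_le_one (hW hi) w)
  refine ⟨integrable_finsetSum W hi1, ?_⟩
  have hpm : ∀ i ∈ Bx, Measurable fun w₂ => ∫ w₁, Qab Bx a b i (w₁, w₂) ∂P₁ := fun i hi =>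
    ((H.meas_Q hi).stronglyMeasurable.integral_prod_left').measurable
  have hp0 : ∀ i ∈ Bx, ∀ w₂, 0 ≤ ∫ w₁, Qab Bx a b i (w₁, w₂) ∂P₁ := fun i hi w₂ =>
    integral_nonneg fun w₁ => H.Q_nonneg hi _
  have hp1 : ∀ i ∈ Bx, ∀ w₂, ∫ w₁, Qab Bx a b i (w₁, w₂) ∂P₁ ≤ 1 := by
    intro i hi w₂
    have hQm : Measurable fun w₁ => Qab Bx a b i (w₁, w₂) :=
      (H.meas_Q hi).comp measurable_prodMk_right
    have hQi : Integrable (fun w₁ => Qab Bx a b i (w₁, w₂)) P₁ := by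
      refine Integrable.mono' (integrable_const (1 : ℝ)) hQm.aestronglyMeasurable
        (Eventually.of_forall fun w₁ => ?_)
      rw [Real.norm_eq_abs, abs_of_nonneg (H.Q_nonneg hi _)]
      exact H.Q_le_one hi _
    have h2 := integral_mono hQi (integrable_const (1 : ℝ)) fun w₁ => H.Q_le_one hi (w₁, w₂)
    simpa using h2
  have hsq : ∀ i ∈ Bx, Integrable (fun w₂ => (∫ w₁, Qab Bx a b i (w₁, w₂) ∂P₁) ^ 2) P₂ := by
    intro i hi
    refine Integrable.mono' (integrable_const (1 : ℝ)) ((hpm i hi).pow_const 2).aestronglyMeasurable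
      (Eventually.of_forall fun w₂ => ?_)
    rw [Real.norm_eq_abs, abs_of_nonneg (sq_nonneg _)]
    exact pow_le_one₀ (hp0 i hi w₂) (hp1 i hi w₂)
  have hS0 : 0 ≤ S := by
    refine le_trans ?_ hS
    exact integral_nonneg fun w₂ => Finset.sum_nonneg fun i _ => sq_nonneg _
  have hN0 : 0 ≤ N := le_trans (Nat.cast_nonneg _) hN
  refine sqrt_of_forall hS0 (mul_nonneg hK0 hN0) fun s hs => ?_
  -- one site
  have h1 : ∀ i ∈ W, 2 * ∫ w : Ω₁ × Ω₂, Qab Bx a b i w * |Real.log (b i w.2) - m| ∂(P₁.prod P₂) ≤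
      s * (∫ w₂, (∫ w₁, Qab Bx a b i (w₁, w₂) ∂P₁) ^ 2 ∂P₂) + K / s := by
    intro i hi
    have h2 : ∫ w : Ω₁ × Ω₂, Qab Bx a b i w * |Real.log (b i w.2) - m| ∂(P₁.prod P₂) =
        ∫ w₂, (∫ w₁, Qab Bx a b i (w₁, w₂) ∂P₁) * |Real.log (b i w₂) - m| ∂P₂ := by
      rw [integral_prod_symm _ (hi1 i hi)]
      refine integral_congr_ae (Eventually.of_forall fun w₂ => ?_)
      show ∫ w₁, Qab Bx a b i (w₁, w₂) * |Real.log (b i w₂) - m| ∂P₁ = _
      rw [integral_mul_const]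
    have h3 : Integrable (fun w₂ => (∫ w₁, Qab Bx a b i (w₁, w₂) ∂P₁) *
        |Real.log (b i w₂) - m|) P₂ := by
      refine (H.logb_int (hW hi)).abs.mono' ((hpm i (hW hi)).mul
        ((Real.measurable_log.comp (H.hb i (hW hi))).sub_const m).abs).aestronglyMeasurable
        (Eventually.of_forall fun w₂ => ?_)
      rw [Real.norm_eq_abs, abs_mul, abs_abs, abs_of_nonneg (hp0 i (hW hi) w₂)]
      exact mul_le_of_le_one_left (abs_nonneg _) (hp1 i (hW hi) w₂)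
    rw [h2]
    have h4 : ∫ w₂, 2 * ((∫ w₁, Qab Bx a b i (w₁, w₂) ∂P₁) * |Real.log (b i w₂) - m|) ∂P₂ ≤
        ∫ w₂, (s * (∫ w₁, Qab Bx a b i (w₁, w₂) ∂P₁) ^ 2 +
          1 / s * (Real.log (b i w₂) - m) ^ 2) ∂P₂ := by
      refine integral_mono (h3.const_mul 2)
        (((hsq i (hW hi)).const_mul s).add ((H.hV i (hW hi)).const_mul (1 / s))) fun w₂ => ?_
      show 2 * ((∫ w₁, Qab Bx a b i (w₁, w₂) ∂P₁) * |Real.log (b i w₂) - m|) ≤
        s * (∫ w₁, Qab Bx a b i (w₁, w₂) ∂P₁) ^ 2 + 1 / s * (Real.log (b i w₂) - m) ^ 2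
      obtain ⟨p, hp⟩ : ∃ p, p = ∫ w₁, Qab Bx a b i (w₁, w₂) ∂P₁ := ⟨_, rfl⟩
      obtain ⟨v, hv⟩ : ∃ v, v = |Real.log (b i w₂) - m| := ⟨_, rfl⟩
      rw [← hp, ← hv, ← sq_abs (Real.log (b i w₂) - m), ← hv]
      have h5 : 0 ≤ (s * p - v) ^ 2 / s := div_nonneg (sq_nonneg _) hs.le
      have h6 : (s * p - v) ^ 2 / s = s * p ^ 2 + 1 / s * v ^ 2 - 2 * (p * v) := by
        field_simp
        ring
      linarith
    rw [integral_const_mul, integral_add ((hsq i (hW hi)).const_mul s)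
      ((H.hV i (hW hi)).const_mul (1 / s)), integral_const_mul, integral_const_mul] at h4
    have h7 : 1 / s * ∫ w, (Real.log (b i w) - m) ^ 2 ∂P₂ ≤ K / s := by
      rw [one_div, inv_mul_eq_div]
      exact div_le_div_of_nonneg_right (hK i (hW hi)) hs.le
    linarith
  rw [integral_finsetSum W hi1, Finset.mul_sum]
  refine (Finset.sum_le_sum h1).trans ?_
  rw [Finset.sum_add_distrib, ← Finset.mul_sum, Finset.sum_const, nsmul_eq_mul]
  have h8 : ∑ i ∈ W, ∫ w₂, (∫ w₁, Qab Bx a b i (w₁, w₂) ∂P₁) ^ 2 ∂P₂ ≤ S := by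
    refine le_trans ?_ hS
    rw [integral_finsetSum Bx hsq]
    exact Finset.sum_le_sum_of_subset_of_nonneg hW fun i _ _ => integral_nonneg fun w => sq_nonneg _
  have h9 : (W.card : ℝ) * (K / s) ≤ K * N / s := by
    have h10 : (W.card : ℝ) * K ≤ K * N := by nlinarith
    rw [mul_div_assoc']
    exact div_le_div_of_nonneg_right h10 hs.le
  have h11 := mul_le_mul_of_nonneg_left h8 hs.le
  linarith

/-- `E |Y| ≤ √K`. -/
lemma abs_le_sqrt {Ω : Type*} [MeasurableSpace Ω] {P : Measure Ω} [IsProbabilityMeasure P]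
    {Y : Ω → ℝ} {K : ℝ} (hY : Integrable Y P) (hY2 : Integrable (fun w => Y w ^ 2) P)
    (hK : ∫ w, Y w ^ 2 ∂P ≤ K) : ∫ w, |Y w| ∂P ≤ √K := by
  have hK0 : 0 ≤ K := le_trans (integral_nonneg fun w => sq_nonneg _) hK
  have h := sqrt_of_forall (x := ∫ w, |Y w| ∂P) (A := 1) (B := K) zero_le_one hK0 fun s hs => by
    have h1 : ∫ w, 2 * |Y w| ∂P ≤ ∫ w, (s * 1 + 1 / s * Y w ^ 2) ∂P := by
      refine integral_mono (hY.abs.const_mul 2)
        ((integrable_const (s * 1)).add (hY2.const_mul (1 / s))) fun w => ?_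
      show 2 * |Y w| ≤ s * 1 + 1 / s * Y w ^ 2
      rw [← sq_abs (Y w)]
      obtain ⟨v, hv⟩ : ∃ v, v = |Y w| := ⟨_, rfl⟩
      rw [← hv]
      have h5 : 0 ≤ (s - v) ^ 2 / s := div_nonneg (sq_nonneg _) hs.le
      have h6 : (s - v) ^ 2 / s = s * 1 + 1 / s * v ^ 2 - 2 * v := by
        field_simp
        ring
      linarith
    rw [integral_const_mul, integral_add (integrable_const _) (hY2.const_mul (1 / s)),
      integral_const_mul (1 / s) (fun w => Y w ^ 2)] at h1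
    have h7 : 1 / s * ∫ w, Y w ^ 2 ∂P ≤ K / s := by
      rw [one_div, inv_mul_eq_div]
      exact div_le_div_of_nonneg_right hK hs.le
    simp only [integral_const, smul_eq_mul, probReal_univ, one_mul] at h1
    linarith
  rwa [mul_one] at h

/-- **The gap is small.** -/
theorem up85 (H : Hab P₁ P₂ Bx a b m F0 A0) {K S N δ : ℝ} {W : Finset ι} (hW : W ⊆ Bx)
    (hN : (W.card : ℝ) ≤ N)
    (hK : ∀ i ∈ Bx, ∫ w, (Real.log (b i w) - m) ^ 2 ∂P₂ ≤ K)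
    (hKZ : ∫ w, (Real.log (Zab Bx a b w) - F0) ^ 2 ∂(P₁.prod P₂) ≤ K)
    (hKA : ∫ w, (Real.log (∑ i ∈ Bx, a i w) - A0) ^ 2 ∂P₁ ≤ K)
    (hS : ∫ w₂, ∑ i ∈ Bx, (∫ w₁, Qab Bx a b i (w₁, w₂) ∂P₁) ^ 2 ∂P₂ ≤ S)
    (hδ : ∫ w, (1 - ∑ i ∈ W, Qab Bx a b i w) ∂(P₁.prod P₂) ≤ δ) (hδ1 : δ ≤ 1 / 4)
    (hE0 : 0 ≤ F0 - A0 - m) :
    F0 - A0 - m ≤ 2 + 4 * √(K * N * S) + 4 * √K := by
  have hK0 : 0 ≤ K := le_trans (integral_nonneg fun w => sq_nonneg _) hKZ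
  obtain ⟨hqi, hqv⟩ := H.QV hW hN hK hK0 hS
  have hZ1 := abs_le_sqrt H.logZ_int H.hZ2 hKZ
  have hA1 := abs_le_sqrt H.logA_int H.hA2 hKA
  have hZi : Integrable (fun w => |Real.log (Zab Bx a b w) - F0|) (P₁.prod P₂) := H.logZ_int.abs
  have hAi : Integrable (fun w : Ω₁ × Ω₂ => |Real.log (∑ i ∈ Bx, a i w.1) - A0|) (P₁.prod P₂) :=
    H.logA_int.abs.comp_fst P₂
  have hA2 : ∫ w : Ω₁ × Ω₂, |Real.log (∑ i ∈ Bx, a i w.1) - A0| ∂(P₁.prod P₂) ≤ √K := by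
    rw [integral_fun_fst (fun w => |Real.log (∑ i ∈ Bx, a i w) - A0|)]
    simpa using hA1
  have hQi : Integrable (fun w => 1 - ∑ i ∈ W, Qab Bx a b i w) (P₁.prod P₂) := by
    refine (integrable_const (1 : ℝ)).sub (integrable_finsetSum W fun i hi => ?_)
    refine Integrable.mono' (integrable_const (1 : ℝ)) (H.meas_Q (hW hi)).aestronglyMeasurable
      (Eventually.of_forall fun w => ?_)
    rw [Real.norm_eq_abs, abs_of_nonneg (H.Q_nonneg (hW hi) w)]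
    exact H.Q_le_one (hW hi) w
  have i1 : Integrable (fun w : Ω₁ × Ω₂ => 1 + 2 * ∑ i ∈ W, Qab Bx a b i w *
      |Real.log (b i w.2) - m|) (P₁.prod P₂) := (integrable_const 1).add (hqi.const_mul 2)
  have i2 : Integrable (fun w : Ω₁ × Ω₂ => |Real.log (Zab Bx a b w) - F0| +
      |Real.log (∑ i ∈ Bx, a i w.1) - A0|) (P₁.prod P₂) := hZi.add hAi
  have i3 : Integrable (fun w : Ω₁ × Ω₂ => 2 * (1 - ∑ i ∈ W, Qab Bx a b i w) *
      (F0 - A0 - m)) (P₁.prod P₂) := (hQi.const_mul 2).mul_const _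
  have i4 : Integrable (fun w : Ω₁ × Ω₂ => 1 + 2 * ∑ i ∈ W, Qab Bx a b i w *
      |Real.log (b i w.2) - m| + (|Real.log (Zab Bx a b w) - F0| +
      |Real.log (∑ i ∈ Bx, a i w.1) - A0|)) (P₁.prod P₂) := i1.add i2
  have h1 := integral_mono H.U_int (i4.add i3) fun w => H.U_le hE0 hW w
  have h2 : ∫ w, U Bx a b m w ∂(P₁.prod P₂) ≤
      (1 + 2 * ∫ w : Ω₁ × Ω₂, ∑ i ∈ W, Qab Bx a b i w * |Real.log (b i w.2) - m| ∂(P₁.prod P₂)) +
      ((∫ w, |Real.log (Zab Bx a b w) - F0| ∂(P₁.prod P₂)) +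
        ∫ w : Ω₁ × Ω₂, |Real.log (∑ i ∈ Bx, a i w.1) - A0| ∂(P₁.prod P₂)) +
      2 * (∫ w, (1 - ∑ i ∈ W, Qab Bx a b i w) ∂(P₁.prod P₂)) * (F0 - A0 - m) := by
    refine h1.trans (le_of_eq ?_)
    have e1 : ∫ w : Ω₁ × Ω₂, (1 + 2 * ∑ i ∈ W, Qab Bx a b i w * |Real.log (b i w.2) - m| +
        (|Real.log (Zab Bx a b w) - F0| + |Real.log (∑ i ∈ Bx, a i w.1) - A0|) +
        2 * (1 - ∑ i ∈ W, Qab Bx a b i w) * (F0 - A0 - m)) ∂(P₁.prod P₂) =
        (∫ w : Ω₁ × Ω₂, (1 + 2 * ∑ i ∈ W, Qab Bx a b i w * |Real.log (b i w.2) - m| +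
        (|Real.log (Zab Bx a b w) - F0| + |Real.log (∑ i ∈ Bx, a i w.1) - A0|)) ∂(P₁.prod P₂)) +
        ∫ w : Ω₁ × Ω₂, 2 * (1 - ∑ i ∈ W, Qab Bx a b i w) * (F0 - A0 - m) ∂(P₁.prod P₂) :=
      integral_add i4 i3
    have e2 : ∫ w : Ω₁ × Ω₂, (1 + 2 * ∑ i ∈ W, Qab Bx a b i w * |Real.log (b i w.2) - m| +
        (|Real.log (Zab Bx a b w) - F0| + |Real.log (∑ i ∈ Bx, a i w.1) - A0|)) ∂(P₁.prod P₂) =
        (∫ w : Ω₁ × Ω₂, (1 + 2 * ∑ i ∈ W, Qab Bx a b i w *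
          |Real.log (b i w.2) - m|) ∂(P₁.prod P₂)) +
        ∫ w : Ω₁ × Ω₂, (|Real.log (Zab Bx a b w) - F0| +
          |Real.log (∑ i ∈ Bx, a i w.1) - A0|) ∂(P₁.prod P₂) := integral_add i1 i2
    have e3 : ∫ w : Ω₁ × Ω₂, (1 + 2 * ∑ i ∈ W, Qab Bx a b i w *
          |Real.log (b i w.2) - m|) ∂(P₁.prod P₂) = 1 + 2 * ∫ w : Ω₁ × Ω₂,
          ∑ i ∈ W, Qab Bx a b i w * |Real.log (b i w.2) - m| ∂(P₁.prod P₂) := by
      rw [integral_add (integrable_const _) (hqi.const_mul 2), integral_const_mul]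
      simp
    have e4 : ∫ w : Ω₁ × Ω₂, (|Real.log (Zab Bx a b w) - F0| +
          |Real.log (∑ i ∈ Bx, a i w.1) - A0|) ∂(P₁.prod P₂) =
        (∫ w, |Real.log (Zab Bx a b w) - F0| ∂(P₁.prod P₂)) +
        ∫ w : Ω₁ × Ω₂, |Real.log (∑ i ∈ Bx, a i w.1) - A0| ∂(P₁.prod P₂) :=
      integral_add hZi hAi
    have e5 : ∫ w : Ω₁ × Ω₂, 2 * (1 - ∑ i ∈ W, Qab Bx a b i w) * (F0 - A0 - m) ∂(P₁.prod P₂) =
        2 * (∫ w, (1 - ∑ i ∈ W, Qab Bx a b i w) ∂(P₁.prod P₂)) * (F0 - A0 - m) := by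
      rw [integral_mul_const, integral_const_mul]
    exact e1.trans (by rw [e2, e3, e4, e5])
  rw [H.U_mean] at h2
  have h3 : 2 * (∫ w, (1 - ∑ i ∈ W, Qab Bx a b i w) ∂(P₁.prod P₂)) * (F0 - A0 - m) ≤
      1 / 2 * (F0 - A0 - m) :=
    mul_le_mul_of_nonneg_right (by linarith) hE0
  linarith

/-- Both. -/
theorem one85 (H : Hab P₁ P₂ Bx a b m F0 A0) {c₀ S₁ K S₂ N δ : ℝ} (hc : 0 < c₀)
    (hloc : c₀ ≤ P₁.real {w | ∃ i ∈ Bx, c₀ * ∑ j ∈ Bx, a j w ≤ a i w})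
    (hS₁ : ∫ w₁, ∑ i ∈ Bx, (∫ w₂, Qab Bx a b i (w₁, w₂) ∂P₂) ^ 2 ∂P₁ ≤ S₁)
    {W : Finset ι} (hW : W ⊆ Bx) (hN : (W.card : ℝ) ≤ N)
    (hK : ∀ i ∈ Bx, ∫ w, (Real.log (b i w) - m) ^ 2 ∂P₂ ≤ K)
    (hKZ : ∫ w, (Real.log (Zab Bx a b w) - F0) ^ 2 ∂(P₁.prod P₂) ≤ K)
    (hKA : ∫ w, (Real.log (∑ i ∈ Bx, a i w) - A0) ^ 2 ∂P₁ ≤ K)
    (hS₂ : ∫ w₂, ∑ i ∈ Bx, (∫ w₁, Qab Bx a b i (w₁, w₂) ∂P₁) ^ 2 ∂P₂ ≤ S₂)
    (hδ : ∫ w, (1 - ∑ i ∈ W, Qab Bx a b i w) ∂(P₁.prod P₂) ≤ δ) (hδ1 : δ ≤ 1 / 4) :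
    c₀ / 2 * Real.log (c₀ ^ 3 / S₁) ≤ 2 + 4 * √(K * N * S₂) + 4 * √K := by
  obtain ⟨h1, h2⟩ := H.gap85 hc hloc hS₁
  exact h1.trans (H.up85 hW hN hK hKZ hKA hS₂ hδ hδ1 h2)

end Hab

end Pool.Agent.W_7d29a1_Q29
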