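import Pool.Agent.W_7d29a1_Q29.Defs29

/-!
The backward and forward sums of squares, from the duality inequality and the one site inequality.
-/

namespace Pool.Agent.W_7d29a1_Q29.S98

open MeasureTheory ProbabilityTheory Filter Topology Pool.Agent.W_MP_7d29a1_pr
  Pool.Agent.W_7d29a1_h46 Pool.Agent.W_7d29a1_h46u Pool.Agent.W_7d29a1_D2.B35
  Pool.Agent.W_7d29a1_Q29

variable {d : ℕ} {ρ : Measure ℝ} [IsProbabilityMeasure ρ]

lemma spl_mem {S : Set (ℕ × Site d)} (η ξ : Env d) {p : ℕ × Site d} (hp : p ∈ S) :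
    spl S η ξ p = η p := by
  unfold spl
  rw [if_pos hp]

lemma spl_not_mem {S : Set (ℕ × Site d)} (η ξ : Env d) {p : ℕ × Site d} (hp : p ∉ S) :
    spl S η ξ p = ξ p := by
  unfold spl
  rw [if_neg hp]

lemma measurable_spl (S : Set (ℕ × Site d)) :
    Measurable fun w : Env d × Env d => spl S w.1 w.2 := by
  classical
  refine measurable_pi_iff.2 fun p => ?_
  by_cases hp : p ∈ S
  · simp only [spl_mem _ _ hp]
    exact (measurable_pi_apply p).comp measurable_fst
  · simp only [spl_not_mem _ _ hp]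
    exact (measurable_pi_apply p).comp measurable_snd

lemma mp_spl (S : Set (ℕ × Site d)) :
    MeasurePreserving (fun w : Env d × Env d => spl S w.1 w.2) ((law d ρ).prod (law d ρ))
      (law d ρ) := by
  classical
  have hσ : Function.Injective (fun p : ℕ × Site d =>
      if p ∈ S then (Sum.inl p : (ℕ × Site d) ⊕ (ℕ × Site d)) else Sum.inr p) := by
    intro p q h
    simp only at h
    split_ifs at h <;> simp_all
  have hmp : MeasurePreserving (fun w : Env d × Env d => fun p => Sum.elim w.1 w.2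
      (if p ∈ S then (Sum.inl p : (ℕ × Site d) ⊕ (ℕ × Site d)) else Sum.inr p))
      ((law d ρ).prod (law d ρ)) (law d ρ) := LawU_elim hσ
  convert hmp using 3 with w p
  unfold spl
  split_ifs <;> rfl

omit [IsProbabilityMeasure ρ] in
lemma cE_dep (S : Set (ℕ × Site d)) (F : Env d → ℝ) : DependsOn (cE ρ S F) S := by
  intro η η' h
  unfold cE
  have h1 : ∀ ξ, spl S η ξ = spl S η' ξ := by
    intro ξ
    ext p
    by_cases hp : p ∈ S
    · rw [spl_mem _ _ hp, spl_mem _ _ hp]
      exact h p hp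
    · rw [spl_not_mem _ _ hp, spl_not_mem _ _ hp]
  simp only [h1]

lemma measurable_cE {F : Env d → ℝ} (hF : Measurable F) (S : Set (ℕ × Site d)) :
    Measurable (cE ρ S F) := by
  have h1 : Measurable fun w : Env d × Env d => F (spl S w.1 w.2) :=
    hF.comp (measurable_spl S)
  exact (h1.stronglyMeasurable.integral_prod_right (ν := law d ρ)).measurable

omit [IsProbabilityMeasure ρ] in
lemma cE_nonneg {F : Env d → ℝ} (hF : ∀ η, 0 ≤ F η) (S : Set (ℕ × Site d)) (η : Env d) :
    0 ≤ cE ρ S F η := integral_nonneg fun _ => hF _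

/-- A bounded measurable function is integrable along the resampling. -/
lemma integrable_spl {F : Env d → ℝ} (hm : Measurable F) {b : ℝ} (hb : ∀ η, |F η| ≤ b)
    (S : Set (ℕ × Site d)) (η : Env d) :
    Integrable (fun ξ => F (spl S η ξ)) (law d ρ) := by
  have hm1 : Measurable fun ξ : Env d => F (spl S η ξ) :=
    hm.comp ((measurable_spl S).comp (measurable_const.prodMk measurable_id))
  exact Integrable.mono' (integrable_const b) hm1.aestronglyMeasurable
    (Eventually.of_forall fun ξ => hb _)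

lemma cE_mono {F G : Env d → ℝ} (hF : Measurable F) (hG : Measurable G) {b b' : ℝ}
    (hFb : ∀ η, |F η| ≤ b) (hGb : ∀ η, |G η| ≤ b') (h : ∀ η, F η ≤ G η)
    (S : Set (ℕ × Site d)) (η : Env d) : cE ρ S F η ≤ cE ρ S G η :=
  integral_mono (integrable_spl hF hFb S η) (integrable_spl hG hGb S η) fun _ => h _

lemma cE_le_one {F : Env d → ℝ} (hm : Measurable F) (h0 : ∀ η, 0 ≤ F η) (h1 : ∀ η, F η ≤ 1)
    (S : Set (ℕ × Site d)) (η : Env d) : cE ρ S F η ≤ 1 := by
  have hb : ∀ η, |F η| ≤ 1 := fun η => by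
    rw [abs_of_nonneg (h0 η)]
    exact h1 η
  have h2 := integral_mono (integrable_spl (ρ := ρ) hm hb S η) (integrable_const (1 : ℝ))
    (fun ξ => h1 (spl S η ξ))
  simpa [cE] using h2

lemma cE_sum {ι : Type*} (s : Finset ι) {F : ι → Env d → ℝ} (hm : ∀ i ∈ s, Measurable (F i))
    {b : ℝ} (hb : ∀ i ∈ s, ∀ η, |F i η| ≤ b) (S : Set (ℕ × Site d)) (η : Env d) :
    cE ρ S (fun η => ∑ i ∈ s, F i η) η = ∑ i ∈ s, cE ρ S (F i) η := by
  unfold cE
  exact integral_finsetSum _ fun i hi => integrable_spl (hm i hi) (hb i hi) S η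

/-- The tower rule against a function of the sites of `S`. -/
lemma int_mul_cE (S : Set (ℕ × Site d)) {G F : Env d → ℝ}
    (hFG : Integrable (fun η => G η * F η) (law d ρ)) (hG : DependsOn G S) :
    ∫ η, G η * F η ∂(law d ρ) = ∫ η, G η * cE ρ S F η ∂(law d ρ) := by
  have h1 := LawU_integral (F := fun g => G g * F g) (mp_spl (ρ := ρ) S)
    hFG.aestronglyMeasurable
  have h2 : Integrable (fun w : Env d × Env d => G (spl S w.1 w.2) * F (spl S w.1 w.2))
      ((law d ρ).prod (law d ρ)) := (mp_spl (ρ := ρ) S).integrable_comp_of_integrable hFG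
  rw [← h1, integral_prod _ h2]
  refine integral_congr_ae (Filter.Eventually.of_forall fun g => ?_)
  show ∫ g', G (spl S g g') * F (spl S g g') ∂(law d ρ) = G g * ∫ g', F (spl S g g') ∂(law d ρ)
  rw [← integral_const_mul]
  refine integral_congr_ae (Filter.Eventually.of_forall fun g' => ?_)
  show G (spl S g g') * F (spl S g g') = G g * F (spl S g g')
  rw [hG (x := spl S g g') (y := g) fun p hp => spl_mem _ _ hp]

/-! ### The law of the position -/

lemma measurable_PP (β : ℝ) (h : Vec d) (m : ℕ) (z : Site d) :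
    Measurable fun η : Env d => PP β h η m z := measurable_ZT β h _

lemma PP_off {β : ℝ} {h : Vec d} {η : Env d} {m : ℕ} {z : Site d} (hz : z ∉ boxF d m) :
    PP β h η m z = 0 := by
  classical
  unfold PP ZT
  refine Finset.sum_eq_zero fun s _ => if_neg ?_
  intro hs
  have h1 : pos s m = z := hs
  exact hz (h1 ▸ pos_mem_box s m)

lemma Z_split (β : ℝ) (h : Vec d) (η : Env d) (t m : ℕ) :
    Z β h η (t + m) = ∑ y ∈ boxF d t, PP β h η t y * Z β h (sh t y η) m := by
  classical
  rw [Z_add]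
  unfold PP ZT
  simp only [Finset.sum_mul]
  rw [Finset.sum_comm]
  refine Finset.sum_congr rfl fun s _ => ?_
  rw [Finset.sum_eq_single (pos s t)]
  · rw [if_pos (show s ∈ {r : Fin t → Step d | pos r t = pos s t} from rfl)]
  · intro z _ hz
    rw [if_neg, zero_mul]
    intro h
    exact hz h.symm
  · intro h
    exact absurd (pos_mem_box s t) h

lemma Qt_nonneg (hd : 0 < d) (β : ℝ) (h : Vec d) (L t : ℕ) (y : Site d) (η : Env d) :
    0 ≤ Qt β h L t y η := by
  unfold Qt
  have h1 := Z_pos hd β h (sh t y η) (L - t)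
  have h2 := Z_pos hd β h η L
  have h3 := PP_nonneg β h η t y
  positivity

lemma Qt_off {β : ℝ} {h : Vec d} {L t : ℕ} {y : Site d} (hy : y ∉ boxF d t) (η : Env d) :
    Qt β h L t y η = 0 := by
  unfold Qt
  rw [PP_off hy, zero_mul, zero_div]

lemma Qt_sum (hd : 0 < d) (β : ℝ) (h : Vec d) {L t : ℕ} (ht : t ≤ L) (η : Env d) :
    ∑ y ∈ boxF d t, Qt β h L t y η = 1 := by
  unfold Qt
  rw [← Finset.sum_div]
  have h1 := Z_split β h η t (L - t)
  rw [Nat.add_sub_cancel' ht] at h1
  rw [← h1]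
  exact div_self (Z_pos hd β h η L).ne'

lemma Qt_le_one (hd : 0 < d) (β : ℝ) (h : Vec d) {L t : ℕ} (ht : t ≤ L) (y : Site d) (η : Env d) :
    Qt β h L t y η ≤ 1 := by
  by_cases hy : y ∈ boxF d t
  · rw [← Qt_sum hd β h ht η]
    exact Finset.single_le_sum (f := fun y => Qt β h L t y η)
      (fun z _ => Qt_nonneg hd β h L t z η) hy
  · rw [Qt_off hy]
    exact zero_le_one

lemma measurable_Qt (β : ℝ) (h : Vec d) (L t : ℕ) (y : Site d) :
    Measurable (Qt β h L t y : Env d → ℝ) :=
  ((measurable_PP β h t y).mul ((measurable_Z β h (L - t)).comp (measurable_sh t y))).div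
    (measurable_Z β h L)

lemma Qt_abs (hd : 0 < d) (β : ℝ) (h : Vec d) {L t : ℕ} (ht : t ≤ L) (y : Site d) (η : Env d) :
    |Qt β h L t y η| ≤ 1 := by
  rw [abs_of_nonneg (Qt_nonneg hd β h L t y η)]
  exact Qt_le_one hd β h ht y η

lemma sh_sh (t m : ℕ) (x y : Site d) (η : Env d) : sh m y (sh t x η) = sh (t + m) (x + y) η := by
  funext p
  unfold sh
  simp only
  rw [add_assoc p.1 m t, add_comm m t, add_assoc p.2 y x, add_comm y x]

/-- One step of the walk. -/
lemma Qt_step (hd : 0 < d) (β : ℝ) (h : Vec d) {L t : ℕ} (ht : t < L) (y : Site d) (η : Env d) :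
    Qt β h L t y η ≤ ∑ e : Step d, Qt β h L (t + 1) (y + vec e) η := by
  classical
  obtain ⟨m, rfl⟩ : ∃ m, L = t + (1 + m) := ⟨L - t - 1, by omega⟩
  have e1 : t + (1 + m) - t = 1 + m := by omega
  have e2 : t + (1 + m) - (t + 1) = m := by omega
  unfold Qt
  rw [e1, e2, ← Finset.sum_div]
  refine div_le_div_of_nonneg_right ?_ (Z_pos hd β h η _).le
  rw [Z_add, Finset.mul_sum]
  rw [← (Equiv.funUnique (Fin 1) (Step d)).symm.sum_comp]
  refine Finset.sum_le_sum fun e _ => ?_
  set s : Fin 1 → Step d := (Equiv.funUnique (Fin 1) (Step d)).symm e with hs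
  have hp : pos s 1 = vec e := by
    unfold pos
    rw [Fin.sum_univ_one]
    simp [hs]
  have h1 : wgt β h (sh t y η) s ≤ PP β h (sh t y η) 1 (vec e) := by
    unfold PP ZT
    refine le_trans (le_of_eq ?_) (Finset.single_le_sum (fun r _ => ?_) (Finset.mem_univ s))
    · rw [if_pos (show s ∈ {s : Fin 1 → Step d | pos s 1 = vec e} from hp)]
    · split_ifs
      · exact (wgt_pos _ _ _ _).le
      · exact le_rfl
  rw [hp, sh_sh, ← mul_assoc]
  refine mul_le_mul_of_nonneg_right ?_ (Z_pos hd β h _ m).le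
  exact (mul_le_mul_of_nonneg_left h1 (PP_nonneg β h η t y)).trans (PP_chain β h η t 1 y (vec e))

end Pool.Agent.W_7d29a1_Q29.S98
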