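import Pool.Agent.W_7d29a1_Q29.Ce39
import Pool.Agent.W_7d29a1_Q29.SumA98
import Pool.Agent.W_7d29a1_Q29.One85

/-!
The polymer instance of the one time inequalities (N5, helper85): `lowP85 : LowP`, `upP85 : UpP`.
-/

namespace Pool.Agent.W_7d29a1_Q29

open MeasureTheory ProbabilityTheory Filter Topology Pool.Agent.W_MP_7d29a1_pr
  Pool.Agent.W_7d29a1_h46 Pool.Agent.W_7d29a1_h46u Pool.Agent.W_7d29a1_D2.B35

variable {d : ℕ} {ρ : Measure ℝ}

namespace N85

lemma PP_spl (β : ℝ) (h : Vec d) (t : ℕ) (y : Site d) (η ξ : Env d) :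
    PP β h (spl (Pa d t) η ξ) t y = PP β h η t y := by
  classical
  unfold PP ZT
  refine Finset.sum_congr rfl fun q _ => ?_
  have h1 : energy (spl (Pa d t) η ξ) q = energy η q := by
    unfold energy
    refine Finset.sum_congr rfl fun i _ => spl_mem η ξ ?_
    change (i : ℕ) + 1 ≤ t
    exact i.2
  have h2 : wgt β h (spl (Pa d t) η ξ) q = wgt β h η q := by
    unfold wgt
    rw [h1]
  rw [h2]

lemma Z_spl (β : ℝ) (h : Vec d) (t : ℕ) (η ξ : Env d) :
    Z β h (spl (Pa d t) η ξ) t = Z β h η t := by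
  rw [Z_eq_sum, Z_eq_sum]
  simp only [PP_spl]

lemma Z_sh_spl (β : ℝ) (h : Vec d) (t m : ℕ) (y : Site d) (η ξ : Env d) :
    Z β h (sh t y (spl (Pa d t) η ξ)) m = Z β h (sh t y ξ) m := by
  refine dependsOn_Z β h m fun p hp => ?_
  have h1 := hp.1
  change spl (Pa d t) η ξ (p.1 + t, p.2 + y) = ξ (p.1 + t, p.2 + y)
  refine spl_not_mem η ξ fun hc => ?_
  have h2 : p.1 + t ≤ t := hc
  omega

lemma Zab_eq (β : ℝ) (h : Vec d) {L t : ℕ} (ht : t ≤ L) (w : Env d × Env d) :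
    Zab (boxF d t) (fun y η => PP β h η t y) (fun y ξ => Z β h (sh t y ξ) (L - t)) w =
      Z β h (spl (Pa d t) w.1 w.2) L := by
  have h1 := S98.Z_split β h (spl (Pa d t) w.1 w.2) t (L - t)
  rw [Nat.add_sub_cancel' ht] at h1
  rw [h1]
  unfold Zab
  simp only [PP_spl, Z_sh_spl]

lemma Qab_eq (β : ℝ) (h : Vec d) {L t : ℕ} (ht : t ≤ L) (y : Site d) (w : Env d × Env d) :
    Qab (boxF d t) (fun y η => PP β h η t y) (fun y ξ => Z β h (sh t y ξ) (L - t)) y w =
      Qt β h L t y (spl (Pa d t) w.1 w.2) := by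
  unfold Qab Qt
  rw [Zab_eq β h ht, PP_spl, Z_sh_spl]

lemma Va_int [IsProbabilityMeasure ρ] (hd : 0 < d) (hρ : EM ρ) (β : ℝ) (h : Vec d) (n : ℕ) :
    Integrable (fun η => (X β h η n - A ρ β h n) ^ 2) (law d ρ) := by
  have hX := (concU hd hρ β h n).1
  have h1 := ((concU hd hρ β h n).2 1 (by simp)).1
  have h2 := ((concU hd hρ β h n).2 (-1) (by simp)).1
  refine Integrable.mono' (h1.add h2)
    ((hX.sub (integrable_const _)).aestronglyMeasurable.pow 2)
    (Eventually.of_forall fun η => ?_)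
  simp only [Pi.add_apply]
  rw [Real.norm_eq_abs, abs_of_nonneg (sq_nonneg _)]
  set x := X β h η n - A ρ β h n
  refine (Subg_sq x).trans ?_
  rcases le_total 0 x with hx | hx
  · rw [abs_of_nonneg hx, one_mul]
    have := Real.exp_pos (-1 * x)
    linarith
  · rw [abs_of_nonpos hx]
    have := Real.exp_pos (1 * x)
    have e : (-1 : ℝ) * x = -x := by ring
    rw [e]
    linarith

/-- The polymer cut at the time `t`. -/
lemma hab [IsProbabilityMeasure ρ] (hd : 0 < d) (hρ : EM ρ) (β : ℝ) (h : Vec d) {L t : ℕ}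
    (ht : t ≤ L) :
    Hab (law d ρ) (law d ρ) (boxF d t) (fun y η => PP β h η t y)
      (fun y ξ => Z β h (sh t y ξ) (L - t)) (A ρ β h (L - t)) (A ρ β h L) (A ρ β h t) where
  ha := fun y _ => S98.measurable_PP β h t y
  hb := fun y _ => (measurable_Z β h (L - t)).comp (measurable_sh t y)
  ha0 := fun y _ η => PP_nonneg β h η t y
  hb0 := fun y _ ξ => Z_pos hd β h _ _
  hs := fun η => by
    rw [← Z_eq_sum]
    exact Z_pos hd β h η t
  hm := fun y _ => by
    have hXm := measurable_X (d := d) β h (L - t)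
    have h1 : ∫ ξ, (X β h (sh t y ξ) (L - t) - A ρ β h (L - t)) ∂(law d ρ) =
        ∫ ξ, (X β h ξ (L - t) - A ρ β h (L - t)) ∂(law d ρ) :=
      integral_sh t y (F := fun ξ => X β h ξ (L - t) - A ρ β h (L - t)) (hXm.sub_const _)
    have h2 : ∫ ξ, (X β h ξ (L - t) - A ρ β h (L - t)) ∂(law d ρ) = 0 := by
      rw [integral_sub (concU hd hρ β h (L - t)).1 (integrable_const _)]
      simp [A]
    exact h1.trans h2
  hV := fun y _ => (mp_sh t y).integrable_comp_of_integrable (Va_int hd hρ β h (L - t))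
  hZ2 := by
    simp only [Zab_eq β h ht]
    exact (mp_spl (ρ := ρ) (Pa d t)).integrable_comp_of_integrable (Va_int hd hρ β h L)
  hA2 := by
    simp only [← Z_eq_sum]
    exact Va_int hd hρ β h t
  hF0 := by
    simp only [Zab_eq β h ht]
    exact LawU_integral (F := fun g => X β h g L) (mp_spl (ρ := ρ) (Pa d t))
      (measurable_X β h L).aestronglyMeasurable
  hA0 := by
    simp only [← Z_eq_sum]
    rfl

lemma box_sub {L t : ℕ} (ht : t ≤ L) : boxF d t ⊆ boxF d L := fun _ hy => TubV_box ht hy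

lemma cE_sq_le [IsProbabilityMeasure ρ] (hd : 0 < d) (β : ℝ) (h : Vec d) {L t : ℕ} (ht : t ≤ L)
    (S : Set (ℕ × Site d)) :
    ∫ η, ∑ y ∈ boxF d t, (cE ρ S (Qt β h L t y) η) ^ 2 ∂(law d ρ) ≤
      ∫ η, ∑ y ∈ boxF d L, (cE ρ S (Qt β h L t y) η) ^ 2 ∂(law d ρ) := by
  have hi : ∀ B : Finset (Site d),
      Integrable (fun η => ∑ y ∈ B, (cE ρ S (Qt β h L t y) η) ^ 2) (law d ρ) := by
    intro B
    refine integrable_finsetSum B fun y _ => ?_
    refine Integrable.mono' (integrable_const (1 : ℝ))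
      ((measurable_cE (S98.measurable_Qt β h L t y) S).pow_const 2).aestronglyMeasurable
      (Eventually.of_forall fun η => ?_)
    have h1 := cE_abs_le (ρ := ρ) (fun η => S98.Qt_abs hd β h ht y η) S η
    rw [Real.norm_eq_abs, abs_of_nonneg (sq_nonneg _), ← sq_abs]
    calc |cE ρ S (Qt β h L t y) η| ^ 2 ≤ 1 ^ 2 := pow_le_pow_left₀ (abs_nonneg _) h1 2
      _ = 1 := one_pow 2
  exact integral_mono (hi _) (hi _) fun η =>
    Finset.sum_le_sum_of_subset_of_nonneg (box_sub ht) fun y _ _ => sq_nonneg _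

end N85

/-- N5, lower half. -/
theorem lowP85 [IsProbabilityMeasure ρ] (hd : 0 < d) (hρ : EM ρ) (β : ℝ) : LowP d ρ β := by
  intro c₀ S hc hS h L t ht hloc hF
  have H := N85.hab hd hρ β h ht
  refine (H.gap85 hc (le_trans hloc (le_of_eq ?_)) ?_).1
  · simp only [← Z_eq_sum]
  · simp only [N85.Qab_eq β h ht]
    exact (N85.cE_sq_le hd β h ht (Pa d t)).trans hF

/-- N5, upper half. -/
theorem upP85 [IsProbabilityMeasure ρ] (hd : 0 < d) (hρ : EM ρ) (β : ℝ) : UpP d ρ β := by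
  classical
  intro K N S h L t ht hK hKA hKb hW hB
  have H := N85.hab hd hρ β h ht
  obtain ⟨W, hWN, hWQ⟩ := hW
  have hE0 : 0 ≤ A ρ β h L - A ρ β h t - A ρ β h (L - t) := by
    have h1 := A_add_le hd hρ β h t (L - t)
    rw [Nat.add_sub_cancel' ht] at h1
    linarith
  have hsum : ∀ η : Env d, ∑ y ∈ W ∩ boxF d t, Qt β h L t y η = ∑ y ∈ W, Qt β h L t y η := by
    intro η
    refine Finset.sum_subset Finset.inter_subset_left fun y hy hy2 => ?_
    exact S98.Qt_off (fun h3 => hy2 (Finset.mem_inter.2 ⟨hy, h3⟩)) η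
  have hKb' : ∀ y ∈ boxF d t, ∫ ξ, (Real.log (Z β h (sh t y ξ) (L - t)) - A ρ β h (L - t)) ^ 2
      ∂(law d ρ) ≤ K := by
    intro y _
    have h1 : ∫ ξ, (X β h (sh t y ξ) (L - t) - A ρ β h (L - t)) ^ 2 ∂(law d ρ) =
        ∫ ξ, (X β h ξ (L - t) - A ρ β h (L - t)) ^ 2 ∂(law d ρ) :=
      integral_sh t y (F := fun ξ => (X β h ξ (L - t) - A ρ β h (L - t)) ^ 2)
        (((measurable_X β h (L - t)).sub_const _).pow_const 2)
    exact (le_of_eq h1).trans hKb
  have hKZ : ∫ w, (Real.log (Zab (boxF d t) (fun y η => PP β h η t y)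
      (fun y ξ => Z β h (sh t y ξ) (L - t)) w) - A ρ β h L) ^ 2
      ∂((law d ρ).prod (law d ρ)) ≤ K := by
    simp only [N85.Zab_eq β h ht]
    have h1 := LawU_integral (F := fun g => (X β h g L - A ρ β h L) ^ 2)
      (mp_spl (ρ := ρ) (Pa d t))
      (((measurable_X β h L).sub_const _).pow_const 2).aestronglyMeasurable
    exact (le_of_eq h1).trans hK
  have hKA' : ∫ η, (Real.log (∑ y ∈ boxF d t, PP β h η t y) - A ρ β h t) ^ 2 ∂(law d ρ) ≤ K := by
    simp only [← Z_eq_sum]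
    exact hKA
  have hS' : ∫ ξ, ∑ y ∈ boxF d t, (∫ η, Qab (boxF d t) (fun y η => PP β h η t y)
      (fun y ξ => Z β h (sh t y ξ) (L - t)) y (η, ξ) ∂(law d ρ)) ^ 2 ∂(law d ρ) ≤ S := by
    simp only [N85.Qab_eq β h ht]
    have h1 : ∀ (ξ : Env d) (y : Site d), ∫ η, Qt β h L t y (spl (Pa d t) η ξ) ∂(law d ρ) =
        cE ρ (Pa d t)ᶜ (Qt β h L t y) ξ := by
      intro ξ y
      unfold cE
      simp only [spl_compl]
    simp only [h1]
    exact (N85.cE_sq_le hd β h ht (Pa d t)ᶜ).trans hB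
  have hδ : ∫ w, (1 - ∑ y ∈ W ∩ boxF d t, Qab (boxF d t) (fun y η => PP β h η t y)
      (fun y ξ => Z β h (sh t y ξ) (L - t)) y w) ∂((law d ρ).prod (law d ρ)) ≤ 1 / 32 := by
    simp only [N85.Qab_eq β h ht, hsum]
    have h1 := LawU_integral (F := fun g => 1 - ∑ y ∈ W, Qt β h L t y g)
      (mp_spl (ρ := ρ) (Pa d t))
      (measurable_const.sub (Finset.measurable_sum W fun y _ =>
        S98.measurable_Qt β h L t y)).aestronglyMeasurable
    exact (le_of_eq h1).trans hWQ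
  have hcard : ((W ∩ boxF d t).card : ℝ) ≤ N :=
    le_trans (by exact_mod_cast Finset.card_le_card Finset.inter_subset_left) hWN
  have key := H.up85 Finset.inter_subset_right hcard hKb' hKZ hKA' hS' hδ (by norm_num) hE0
  linarith

end Pool.Agent.W_7d29a1_Q29
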