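import Pool.Agent.W_7d29a1_Q29.Defs29
import Pool.Agent.W_7d29a1_h46u.LamU
import Pool.Agent.W_7d29a1_P89.Basic

/-!
Very strong disorder: the annealed bound and a sufficient condition.
-/

namespace Pool.Agent.W_7d29a1_Q29

open MeasureTheory ProbabilityTheory Filter Topology Pool.Agent.W_MP_7d29a1_pr
  Pool.Agent.W_7d29a1_h46 Pool.Agent.W_7d29a1_h46u Pool.Agent.W_7d29a1_D2.B35

variable {d : ℕ} {ρ : Measure ℝ} [IsProbabilityMeasure ρ]

lemma emb_zero61 : emb (0 : Site d) = 0 := by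
  ext j
  simp [emb]

lemma emb_sum61 {ι : Type*} (s : Finset ι) (f : ι → Site d) :
    emb (∑ i ∈ s, f i) = ∑ i ∈ s, emb (f i) := by
  classical
  induction s using Finset.induction_on with
  | empty => simpa using emb_zero61
  | insert i s hi ih => rw [Finset.sum_insert hi, Finset.sum_insert hi, Walk_emb_add, ih]

lemma emb_pos61 {n : ℕ} (s : Fin n → Step d) : emb (pos s n) = ∑ i, emb (vec (s i)) := by
  have h : pos s n = ∑ i, vec (s i) :=
    Finset.sum_congr rfl fun i _ => if_pos i.2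
  rw [h, emb_sum61]

lemma Phi_pos61 (hd : 0 < d) (h : Vec d) : 0 < Phi h := by
  have : Nonempty (Step d) := ⟨(⟨0, hd⟩, true)⟩
  exact Finset.sum_pos (fun e _ => Real.exp_pos _) Finset.univ_nonempty

/-- The sum over the walks. -/
lemma sum_walks61 (h : Vec d) (n : ℕ) :
    ∑ s : Fin n → Step d, Real.exp (inner ℝ h (emb (pos s n))) = Phi h ^ n := by
  unfold Phi
  rw [Fintype.sum_pow]
  refine Finset.sum_congr rfl fun s _ => ?_
  rw [emb_pos61, inner_sum, Real.exp_sum]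

/-- The mean of the partition function. -/
lemma annealed61 (hρ : EM ρ) (β : ℝ) (h : Vec d) (n : ℕ) :
    Integrable (fun η => Z β h η n) (law d ρ) ∧
      ∫ η, Z β h η n ∂(law d ρ) = (Phi h * ∫ t, Real.exp (β * t) ∂ρ) ^ n := by
  have hE : ∀ s : Fin n → Step d, Integrable (fun η : Env d => Real.exp (β * energy η s))
      (law d ρ) ∧ ∫ η : Env d, Real.exp (β * energy η s) ∂(law d ρ) =
        (∫ t, Real.exp (β * t) ∂ρ) ^ n := fun s =>
    (FreeV_iid (d := d) (ρ := ρ)).integral_exp_energy (hρ β) s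
  have hz : (fun η : Env d => Z β h η n) = fun η => ∑ s : Fin n → Step d,
      Real.exp (inner ℝ h (emb (pos s n))) * Real.exp (β * energy η s) := by
    funext η
    rw [Z_eq]
    refine Finset.sum_congr rfl fun s _ => ?_
    unfold wgt
    rw [Real.exp_add]
  rw [hz]
  refine ⟨integrable_finsetSum _ fun s _ => (hE s).1.const_mul _, ?_⟩
  rw [integral_finsetSum _ fun s _ => (hE s).1.const_mul _, mul_pow, ← sum_walks61,
    Finset.sum_mul]
  refine Finset.sum_congr rfl fun s _ => ?_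
  rw [integral_const_mul, (hE s).2]

/-- The annealed bound. -/
theorem lam_le_ann61 (hd : 0 < d) (hρ : EM ρ) (β : ℝ) (h : Vec d) :
    lam ρ β h ≤ Real.log (Phi h) + Real.log (∫ t, Real.exp (β * t) ∂ρ) := by
  have hm0 : 0 < ∫ t, Real.exp (β * t) ∂ρ := integral_exp_pos (hρ β)
  have hP := Phi_pos61 hd h
  obtain ⟨b, hb⟩ : ∃ b : ℝ, b = Phi h * ∫ t, Real.exp (β * t) ∂ρ := ⟨_, rfl⟩
  have hb0 : 0 < b := by rw [hb]; exact mul_pos hP hm0
  rw [← Real.log_mul hP.ne' hm0.ne', ← hb]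
  refine LamU_le ρ β h fun n => ?_
  obtain ⟨hUi, hUint⟩ := annealed61 (d := d) hρ β h (n + 1)
  rw [← hb] at hUint
  have hbn : 0 < b ^ (n + 1) := pow_pos hb0 _
  have hXi : Integrable (fun η => X β h η (n + 1)) (law d ρ) := (concU hd hρ β h (n + 1)).1
  have hpt : ∀ η, X β h η (n + 1) ≤
      ((n : ℝ) + 1) * Real.log b + (Z β h η (n + 1) / b ^ (n + 1) - 1) := by
    intro η
    have h4 := Z_pos hd β h η (n + 1)
    have h6 : X β h η (n + 1) =
        ((n : ℝ) + 1) * Real.log b + Real.log (Z β h η (n + 1) / b ^ (n + 1)) := by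
      rw [Real.log_div h4.ne' hbn.ne', Real.log_pow]
      unfold X
      push_cast
      ring
    have h7 := Real.log_le_sub_one_of_pos (div_pos h4 hbn)
    linarith
  have i1 : Integrable (fun η : Env d => Z β h η (n + 1) / b ^ (n + 1) - 1) (law d ρ) :=
    (hUi.div_const _).sub (integrable_const 1)
  have hint := integral_mono hXi ((integrable_const (((n : ℝ) + 1) * Real.log b)).add i1) hpt
  have e1 : ∫ η, (Z β h η (n + 1) / b ^ (n + 1) - 1) ∂(law d ρ) = 0 := by
    rw [integral_sub (hUi.div_const _) (integrable_const 1), integral_div, hUint,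
      div_self hbn.ne']
    simp
  have e2 : ∫ η, (((n : ℝ) + 1) * Real.log b + (Z β h η (n + 1) / b ^ (n + 1) - 1)) ∂(law d ρ) =
      ∫ η : Env d, ((n : ℝ) + 1) * Real.log b ∂(law d ρ) +
        ∫ η, (Z β h η (n + 1) / b ^ (n + 1) - 1) ∂(law d ρ) :=
    integral_add (integrable_const _) i1
  have hfin : A ρ β h (n + 1) ≤
      ∫ η, (((n : ℝ) + 1) * Real.log b + (Z β h η (n + 1) / b ^ (n + 1) - 1)) ∂(law d ρ) := hint
  rw [e2, e1] at hfin
  simpa using hfin

/-- The fractional moment inequality. -/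
lemma X_frac61 (hd : 0 < d) (β : ℝ) (h : Vec d) {θ : ℝ} (h0 : 0 < θ) (h1 : θ ≤ 1) (η : Env d)
    (n : ℕ) : θ * X β h η n ≤ X (θ * β) (θ • h) η n := by
  have hz := Z_pos hd β h η n
  unfold X
  rw [← Real.log_rpow hz]
  refine Real.log_le_log (Real.rpow_pos_of_pos hz _) ?_
  rw [Z_eq, Z_eq]
  refine (W_7d29a1_P89.rpow_sum_le _ (fun s => (wgt_pos β h η s).le) h0 h1).trans
    (le_of_eq ?_)
  refine Finset.sum_congr rfl fun s _ => ?_
  unfold wgt
  rw [← Real.exp_mul, real_inner_smul_left]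
  congr 1
  ring

/-- The fractional moment inequality for the free energy. -/
theorem lam_frac61 (hd : 0 < d) (hρ : EM ρ) (β : ℝ) (h : Vec d) {θ : ℝ} (h0 : 0 < θ)
    (h1 : θ ≤ 1) : θ * lam ρ β h ≤ lam ρ (θ * β) (θ • h) := by
  have h2 : lam ρ β h ≤ lam ρ (θ * β) (θ • h) / θ := by
    refine LamU_le ρ β h fun n => ?_
    have hX : Integrable (fun η => X β h η (n + 1)) (law d ρ) := (concU hd hρ β h (n + 1)).1
    have hY : Integrable (fun η => X (θ * β) (θ • h) η (n + 1)) (law d ρ) :=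
      (concU hd hρ (θ * β) (θ • h) (n + 1)).1
    have h3 := integral_mono (hX.const_mul θ) hY fun η => X_frac61 hd β h h0 h1 η (n + 1)
    rw [integral_const_mul] at h3
    have h4 : θ * A ρ β h (n + 1) ≤ A ρ (θ * β) (θ • h) (n + 1) := h3
    have h5 := A_le_lam hd hρ (θ * β) (θ • h) (n + 1)
    push_cast at h5
    rw [mul_div_assoc', le_div_iff₀ h0]
    linarith
  rwa [le_div_iff₀ h0, mul_comm] at h2

/-- A sufficient condition for very strong disorder. -/
theorem vsd_of_frac61 (hd : 0 < d) (hρ : EM ρ) (β : ℝ) (h : Vec d) {θ : ℝ} (h0 : 0 < θ)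
    (h1 : θ ≤ 1) (hlt : Real.log (Phi (θ • h)) + Real.log (∫ t, Real.exp (θ * β * t) ∂ρ) <
      θ * (Real.log (Phi h) + Real.log (∫ t, Real.exp (β * t) ∂ρ))) : VSD ρ β h := by
  have h2 := lam_frac61 hd hρ β h h0 h1
  have h3 := lam_le_ann61 hd hρ (θ * β) (θ • h)
  exact lt_of_mul_lt_mul_left ((h2.trans h3).trans_lt hlt) h0.le

/-- The relative entropy condition at any tilt: if the entropy of the tilted law of a step is
smaller than the relative entropy of the tilted disorder, disorder is very strong. -/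
theorem vsd_of_ent61 (hd : 0 < d) (hρ : EM ρ) (β : ℝ) (h : Vec d)
    (hlt : Real.log (Phi h) + Real.log (∫ t, Real.exp (β * t) ∂ρ) <
      (∑ e : Step d, inner ℝ h (emb (vec e)) * Real.exp (inner ℝ h (emb (vec e)))) / Phi h +
        β * (∫ t, t * Real.exp (β * t) ∂ρ) / ∫ t, Real.exp (β * t) ∂ρ) : VSD ρ β h := by
  have hm0 : 0 < ∫ t, Real.exp (β * t) ∂ρ := integral_exp_pos (hρ β)
  have hP := Phi_pos61 hd h
  -- the derivative of `Phi (θ h)`
  have hd1 : HasDerivAt (fun θ : ℝ => Phi (θ • h))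
      (∑ e : Step d, inner ℝ h (emb (vec e)) * Real.exp (inner ℝ h (emb (vec e)))) 1 := by
    unfold Phi
    have h1 : ∀ e : Step d, HasDerivAt (fun θ : ℝ => Real.exp (inner ℝ (θ • h) (emb (vec e))))
        (inner ℝ h (emb (vec e)) * Real.exp (inner ℝ h (emb (vec e)))) 1 := by
      intro e
      have h2 : HasDerivAt (fun θ : ℝ => θ * inner ℝ h (emb (vec e)))
          (inner ℝ h (emb (vec e))) 1 := by
        simpa using (hasDerivAt_id (1 : ℝ)).mul_const (inner ℝ h (emb (vec e)))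
      have h3 := h2.exp
      rw [one_mul, mul_comm] at h3
      refine h3.congr_of_eventuallyEq (Eventually.of_forall fun θ => ?_)
      simp only [real_inner_smul_left]
    exact HasDerivAt.fun_sum fun e _ => h1 e
  -- the derivative of the moment generating function
  have hd2 : HasDerivAt (fun θ : ℝ => ∫ t, Real.exp (θ * β * t) ∂ρ)
      (β * ∫ t, t * Real.exp (β * t) ∂ρ) 1 := by
    have h1 : β ∈ interior (integrableExpSet (id : ℝ → ℝ) ρ) := by
      have : integrableExpSet (id : ℝ → ℝ) ρ = Set.univ := Set.eq_univ_of_forall fun b => hρ b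
      rw [this, interior_univ]
      trivial
    have h2 := hasDerivAt_mgf h1
    have h3 : HasDerivAt (fun θ : ℝ => θ * β) β 1 := by
      simpa using (hasDerivAt_id (1 : ℝ)).mul_const β
    have h4 : HasDerivAt (mgf (id : ℝ → ℝ) ρ) (∫ t, t * Real.exp (β * t) ∂ρ)
        ((fun θ : ℝ => θ * β) 1) := by
      simpa using h2
    have h5 := h4.comp (1 : ℝ) h3
    rw [mul_comm] at h5
    exact h5
  have e1 : Phi ((1 : ℝ) • h) = Phi h := by rw [one_smul]
  have e2 : ∫ t, Real.exp ((1 : ℝ) * β * t) ∂ρ = ∫ t, Real.exp (β * t) ∂ρ := by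
    simp only [one_mul]
  obtain ⟨c, hc⟩ : ∃ c : ℝ, c = Real.log (Phi h) + Real.log (∫ t, Real.exp (β * t) ∂ρ) :=
    ⟨_, rfl⟩
  obtain ⟨D, hD⟩ : ∃ D : ℝ, D =
      (∑ e : Step d, inner ℝ h (emb (vec e)) * Real.exp (inner ℝ h (emb (vec e)))) / Phi h +
        β * (∫ t, t * Real.exp (β * t) ∂ρ) / ∫ t, Real.exp (β * t) ∂ρ := ⟨_, rfl⟩
  rw [← hc, ← hD] at hlt
  have hg : HasDerivAt (fun θ : ℝ => Real.log (Phi (θ • h)) +
      Real.log (∫ t, Real.exp (θ * β * t) ∂ρ) - θ * c) (D - c) 1 := by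
    have h1 := hd1.log (by rw [e1]; exact hP.ne')
    have h2 := hd2.log (by rw [e2]; exact hm0.ne')
    have h3 : HasDerivAt (fun θ : ℝ => θ * c) c 1 := by
      simpa using (hasDerivAt_id (1 : ℝ)).mul_const c
    have h4 := (h1.add h2).sub h3
    rw [e1, e2, ← hD] at h4
    exact h4
  have hg1 : Real.log (Phi ((1 : ℝ) • h)) +
      Real.log (∫ t, Real.exp ((1 : ℝ) * β * t) ∂ρ) - 1 * c = 0 := by
    rw [e1, e2, hc]
    ring
  have hs := hg.tendsto_slope
  have hpos : ∀ᶠ θ in 𝓝[≠] (1 : ℝ), 0 < slope (fun θ : ℝ => Real.log (Phi (θ • h)) +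
      Real.log (∫ t, Real.exp (θ * β * t) ∂ρ) - θ * c) 1 θ :=
    hs.eventually (lt_mem_nhds (by linarith))
  have h6 : ∀ᶠ θ in 𝓝[<] (1 : ℝ), 0 < slope (fun θ : ℝ => Real.log (Phi (θ • h)) +
      Real.log (∫ t, Real.exp (θ * β * t) ∂ρ) - θ * c) 1 θ :=
    hpos.filter_mono (nhdsWithin_mono _ fun x (hx : x < 1) => ne_of_lt hx)
  have h7 : ∀ᶠ θ in 𝓝[<] (1 : ℝ), 0 < θ :=
    nhdsWithin_le_nhds (lt_mem_nhds (by norm_num))
  obtain ⟨θ, ⟨hθ, hθ0⟩, hθ1⟩ := ((h6.and h7).and self_mem_nhdsWithin).exists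
  have hθ1' : θ < 1 := hθ1
  rw [slope_def_field, hg1, sub_zero] at hθ
  refine vsd_of_frac61 hd hρ β h hθ0 hθ1'.le ?_
  rw [← hc]
  have h8 : θ - 1 < 0 := by linarith
  have h9 : Real.log (Phi (θ • h)) + Real.log (∫ t, Real.exp (θ * β * t) ∂ρ) - θ * c < 0 := by
    by_contra hcon
    push Not at hcon
    have := div_nonpos_of_nonneg_of_nonpos hcon h8.le
    linarith
  linarith

/-- The condition `β c'(β) - c(β) > log (2 d)` without tilt. -/
theorem vsd_zero61 (hd : 0 < d) (hρ : EM ρ) (β : ℝ)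
    (hlt : Real.log (2 * d) + Real.log (∫ t, Real.exp (β * t) ∂ρ) <
      β * (∫ t, t * Real.exp (β * t) ∂ρ) / ∫ t, Real.exp (β * t) ∂ρ) :
    VSD ρ β (0 : Vec d) := by
  refine vsd_of_ent61 hd hρ β 0 ?_
  have h1 : Phi (0 : Vec d) = 2 * d := by
    unfold Phi
    simp only [inner_zero_left, Real.exp_zero, Finset.sum_const, Finset.card_univ,
      Fintype.card_prod, Fintype.card_fin, Fintype.card_bool, nsmul_eq_mul]
    push_cast
    ring
  rw [h1]
  simpa using hlt

end Pool.Agent.W_7d29a1_Q29
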