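import Pool.Agent.W_7d29a1_Q29.SumA98
import Pool.Agent.W_7d29a1_h46u.ConcV

/-!
The backward and forward sums of squares, from the duality inequality and the one site inequality.
-/

namespace Pool.Agent.W_7d29a1_Q29.S98

open MeasureTheory ProbabilityTheory Filter Topology Pool.Agent.W_MP_7d29a1_pr
  Pool.Agent.W_7d29a1_h46 Pool.Agent.W_7d29a1_h46u Pool.Agent.W_7d29a1_D2.B35
  Pool.Agent.W_7d29a1_Q29

variable {d : ℕ} {ρ : Measure ℝ} [IsProbabilityMeasure ρ]

/-- The duality inequality (N0). -/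
def DualP (d : ℕ) (ρ : Measure ℝ) : Prop :=
  ∀ (I : Finset (ℕ × Site d)) (F : Env d → ℝ), Measurable F →
    Integrable (fun η => F η ^ 2) (law d ρ) → ∀ G Q : ℕ × Site d → Env d → ℝ,
    (∀ p ∈ I, Measurable (G p)) → (∀ p ∈ I, Measurable (Q p)) →
    (∀ p ∈ I, ∀ η, 0 ≤ G p η ∧ G p η ≤ 1) → (∀ p ∈ I, ∀ η, 0 ≤ Q p η ∧ Q p η ≤ 1) →
    (∀ p ∈ I, DependsOn (G p) {p}ᶜ) →
    (∀ p ∈ I, ∀ q ∈ I, p ≠ q → DependsOn (G q) {p}ᶜ ∨ DependsOn (G p) {q}ᶜ) →
    (∀ p ∈ I, ∫ η, G p η * Q p η ∂(law d ρ) = ∫ η, G p η ^ 2 ∂(law d ρ)) →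
    ∀ c : ℝ, 0 ≤ c →
    (∀ p ∈ I, ∀ η, c * ∫ r, Q p (Function.update η p r) ∂ρ ≤
      ∫ r, (r - ∫ s, s ∂ρ) * F (Function.update η p r) ∂ρ) →
    ∀ A0 : ℝ, c ^ 2 * ∑ p ∈ I, ∫ η, G p η ^ 2 ∂(law d ρ) ≤
      (∫ t, (t - ∫ s, s ∂ρ) ^ 2 ∂ρ) * ∫ η, (F η - A0) ^ 2 ∂(law d ρ)

/-- The one site inequality (N1). -/
def SiteP (d : ℕ) (ρ : Measure ℝ) (β : ℝ) : Prop :=
  ∃ c : ℝ, 0 < c ∧ ∀ (h : Vec d) (L t : ℕ) (y : Site d) (η : Env d), 1 ≤ t → t ≤ L →
    c * ∫ r, Qt β h L t y (Function.update η (t, y) r) ∂ρ ≤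
      ∫ r, (r - ∫ s, s ∂ρ) * X β h (Function.update η (t, y) r) L ∂ρ

lemma X_sq_int (hd : 0 < d) (hρ : EM ρ) (β : ℝ) (h : Vec d) {L : ℕ} (hL : 1 ≤ L) :
    Integrable (fun η => X β h η L ^ 2) (law d ρ) := by
  obtain ⟨C, _, hC⟩ := momU (ρ := ρ) hd hρ β 2
  have h1 : Integrable (fun η => (X β h η L - A ρ β h L) ^ 2) (law d ρ) := by
    refine (hC h L hL).1.congr (Eventually.of_forall fun η => ?_)
    simp only
    rw [sq_abs]
  have h2 : Integrable (fun η => X β h η L) (law d ρ) := (concU hd hρ β h L).1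
  have h3 := (h1.add (h2.const_mul (2 * A ρ β h L))).sub (integrable_const (A ρ β h L ^ 2))
  refine h3.congr (Eventually.of_forall fun η => ?_)
  simp only [Pi.add_apply, Pi.sub_apply]
  ring

/-- The general form: `S p` is a set of rows which decides the order of the sites. -/
lemma sum_general (hd : 0 < d) (hρ : EM ρ) {β : ℝ} (D : DualP d ρ) (Sit : SiteP d ρ β)
    (S : ℕ → Set (ℕ × Site d)) (hS : ∀ t, ∀ y, (t, y) ∉ S t)
    (hO : ∀ (s t : ℕ) (x y : Site d), (s, x) ≠ (t, y) → (s, x) ∉ S t ∨ (t, y) ∉ S s) :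
    ∃ C : ℝ, 0 ≤ C ∧ ∀ (h : Vec d) (L : ℕ),
      ∑ t ∈ Finset.Icc 1 L, ∫ η, ∑ y ∈ boxF d L, (cE ρ (S t) (Qt β h L t y) η) ^ 2 ∂(law d ρ) ≤
        C * Va ρ β h L := by
  obtain ⟨c, hc, hsite⟩ := Sit
  set v : ℝ := ∫ t, (t - ∫ s, s ∂ρ) ^ 2 ∂ρ with hv
  have hv0 : 0 ≤ v := integral_nonneg fun _ => sq_nonneg _
  refine ⟨v / c ^ 2, by positivity, fun h L => ?_⟩
  rcases Nat.eq_zero_or_pos L with rfl | hL
  · have h0 : 0 ≤ Va ρ β h 0 := integral_nonneg fun _ => sq_nonneg _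
    have h1 : Finset.Icc 1 0 = (∅ : Finset ℕ) := rfl
    rw [h1, Finset.sum_empty]
    positivity
  set I : Finset (ℕ × Site d) := (Finset.Icc 1 L) ×ˢ (boxF d L) with hI
  have hmem : ∀ p ∈ I, 1 ≤ p.1 ∧ p.1 ≤ L := fun p hp => by
    rw [hI, Finset.mem_product, Finset.mem_Icc] at hp
    exact hp.1
  set G : ℕ × Site d → Env d → ℝ := fun p => cE ρ (S p.1) (Qt β h L p.1 p.2) with hG
  set Q : ℕ × Site d → Env d → ℝ := fun p => Qt β h L p.1 p.2 with hQ
  have hQm : ∀ p, Measurable (Q p) := fun p => measurable_Qt β h L p.1 p.2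
  have hQ1 : ∀ p ∈ I, ∀ η, 0 ≤ Q p η ∧ Q p η ≤ 1 := fun p hp η =>
    ⟨Qt_nonneg hd β h L p.1 p.2 η, Qt_le_one hd β h (hmem p hp).2 p.2 η⟩
  have hGm : ∀ p, Measurable (G p) := fun p => measurable_cE (hQm p) _
  have hG1 : ∀ p ∈ I, ∀ η, 0 ≤ G p η ∧ G p η ≤ 1 := fun p hp η =>
    ⟨cE_nonneg (fun η => (hQ1 p hp η).1) _ η,
      cE_le_one (hQm p) (fun η => (hQ1 p hp η).1) (fun η => (hQ1 p hp η).2) _ η⟩
  have hGd : ∀ p, DependsOn (G p) (S p.1) := fun p => cE_dep _ _
  have hmono : ∀ p q : ℕ × Site d, q ∉ S p.1 → DependsOn (G p) {q}ᶜ := by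
    intro p q hq
    refine (hGd p).mono ?_
    intro r hr hrq
    rw [Set.mem_singleton_iff] at hrq
    exact hq (hrq ▸ hr)
  have hb : ∀ p ∈ I, ∀ η, ‖G p η * Q p η‖ ≤ 1 := by
    intro p hp η
    rw [Real.norm_eq_abs, abs_of_nonneg (mul_nonneg (hG1 p hp η).1 (hQ1 p hp η).1)]
    exact mul_le_one₀ (hG1 p hp η).2 (hQ1 p hp η).1 (hQ1 p hp η).2
  have key := D I (fun η => X β h η L) (measurable_X β h L) (X_sq_int hd hρ β h hL) G Q
    (fun p _ => hGm p) (fun p _ => hQm p) hG1 hQ1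
    (fun p _ => hmono p p (hS p.1 p.2))
    (fun p hp q hq hpq => by
      rcases hO p.1 q.1 p.2 q.2 hpq with h1 | h1
      · exact Or.inl (hmono q p h1)
      · exact Or.inr (hmono p q h1))
    (fun p hp => by
      have hi : Integrable (fun η => G p η * Q p η) (law d ρ) :=
        Integrable.mono' (integrable_const 1) ((hGm p).mul (hQm p)).aestronglyMeasurable
          (Eventually.of_forall (hb p hp))
      rw [int_mul_cE (S p.1) hi (hGd p)]
      refine integral_congr_ae (Eventually.of_forall fun η => ?_)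
      simp only [hG]
      ring)
    c hc.le
    (fun p hp η => hsite h L p.1 p.2 η (hmem p hp).1 (hmem p hp).2) (A ρ β h L)
  have e1 : ∑ t ∈ Finset.Icc 1 L, ∫ η, ∑ y ∈ boxF d L, (cE ρ (S t) (Qt β h L t y) η) ^ 2
      ∂(law d ρ) = ∑ p ∈ I, ∫ η, G p η ^ 2 ∂(law d ρ) := by
    rw [hI, Finset.sum_product]
    refine Finset.sum_congr rfl fun t ht => ?_
    rw [integral_finsetSum]
    intro y hy
    have hp : (t, y) ∈ I := by
      rw [hI, Finset.mem_product]
      exact ⟨ht, hy⟩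
    refine Integrable.mono' (integrable_const 1)
      ((hGm (t, y)).pow_const 2).aestronglyMeasurable (Eventually.of_forall fun η => ?_)
    have h2 := hG1 (t, y) hp η
    rw [Real.norm_eq_abs, abs_of_nonneg (sq_nonneg _)]
    exact pow_le_one₀ h2.1 h2.2
  rw [e1, div_mul_eq_mul_div, le_div_iff₀ (by positivity), mul_comm]
  exact key

theorem npb (hd : 0 < d) (hρ : EM ρ) {β : ℝ} (D : DualP d ρ) (Sit : SiteP d ρ β) :
    NPB d ρ β := by
  refine sum_general hd hρ D Sit (fun t => (Pa d t)ᶜ) (fun t y => ?_) fun s t x y _ => ?_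
  · intro h
    exact h (show t ≤ t from le_rfl)
  · rcases le_total s t with h | h
    · exact Or.inl fun h1 => h1 h
    · exact Or.inr fun h1 => h1 h

theorem npf (hd : 0 < d) (hρ : EM ρ) {β : ℝ} (D : DualP d ρ) (Sit : SiteP d ρ β) :
    NPF d ρ β := by
  obtain ⟨C, hC0, hC⟩ := sum_general hd hρ D Sit (fun t => {q | q.1 < t}) (fun t y => by
      simp) (fun s t x y _ => by
      rcases le_total s t with h | h
      · exact Or.inr (by simpa using h)
      · exact Or.inl (by simpa using h))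
  refine ⟨(2 * d : ℝ) ^ 2 * C, by positivity, fun h L => ?_⟩
  -- one time
  have hstep : ∀ t ∈ Finset.range L, ∀ η : Env d,
      ∑ y ∈ boxF d L, (cE ρ (Pa d t) (Qt β h L t y) η) ^ 2 ≤
        (2 * d : ℝ) ^ 2 * ∑ z ∈ boxF d L, (cE ρ {q | q.1 < t + 1} (Qt β h L (t + 1) z) η) ^ 2 := by
    intro t ht η
    have htL : t < L := Finset.mem_range.1 ht
    set g : Site d → ℝ := fun z => cE ρ {q | q.1 < t + 1} (Qt β h L (t + 1) z) η with hg
    have hPa : Pa d t = {q : ℕ × Site d | q.1 < t + 1} := by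
      ext q
      exact Nat.lt_succ_iff.symm
    have hg0 : ∀ z, 0 ≤ g z := fun z => cE_nonneg (fun η => Qt_nonneg hd β h L _ z η) _ η
    have hoff : ∀ z, z ∉ boxF d L → g z = 0 := by
      intro z hz
      have hz' : z ∉ boxF d (t + 1) := fun hz1 => hz (by
        rw [mem_boxF] at hz1 ⊢
        intro i
        exact (hz1 i).trans (by exact_mod_cast htL))
      simp only [hg]
      unfold cE
      simp only [Qt_off hz']
      simp
    have h1 : ∀ y, cE ρ (Pa d t) (Qt β h L t y) η ≤ ∑ e : Step d, g (y + vec e) := by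
      intro y
      rw [hPa]
      have hm : Measurable fun η : Env d => ∑ e : Step d, Qt β h L (t + 1) (y + vec e) η :=
        Finset.measurable_sum _ fun e _ => measurable_Qt β h L (t + 1) _
      have hb : ∀ η : Env d, |∑ e : Step d, Qt β h L (t + 1) (y + vec e) η| ≤
          ((Finset.univ : Finset (Step d)).card : ℝ) := by
        intro η
        refine (Finset.abs_sum_le_sum_abs _ _).trans ?_
        refine (Finset.sum_le_sum fun e _ => Qt_abs hd β h (by omega) _ η).trans ?_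
        simp
      have h2 := cE_mono (ρ := ρ) (measurable_Qt β h L t y) hm
        (fun η => Qt_abs hd β h htL.le y η) hb (fun η => Qt_step hd β h htL y η)
        {q : ℕ × Site d | q.1 < t + 1} η
      refine h2.trans (le_of_eq ?_)
      exact cE_sum (ρ := ρ) Finset.univ (fun e _ => measurable_Qt β h L (t + 1) (y + vec e))
        (fun e _ η => Qt_abs hd β h (by omega) (y + vec e) η) _ η
    have h2 : ∀ y, (cE ρ (Pa d t) (Qt β h L t y) η) ^ 2 ≤
        (2 * d : ℝ) * ∑ e : Step d, g (y + vec e) ^ 2 := by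
      intro y
      have h3 : (cE ρ (Pa d t) (Qt β h L t y) η) ^ 2 ≤ (∑ e : Step d, g (y + vec e)) ^ 2 :=
        pow_le_pow_left₀ (cE_nonneg (fun η => Qt_nonneg hd β h L _ y η) _ η) (h1 y) 2
      refine h3.trans ?_
      have h4 := sq_sum_le_card_mul_sum_sq (s := (Finset.univ : Finset (Step d)))
        (f := fun e => g (y + vec e))
      refine h4.trans (le_of_eq ?_)
      congr 1
      simp [Fintype.card_prod, Fintype.card_bool]
      ring
    have h5 : ∀ e : Step d, ∑ y ∈ boxF d L, g (y + vec e) ^ 2 ≤ ∑ z ∈ boxF d L, g z ^ 2 := by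
      intro e
      classical
      have h6 : ∑ y ∈ boxF d L, g (y + vec e) ^ 2 =
          ∑ z ∈ (boxF d L).image fun y => y + vec e, g z ^ 2 := by
        rw [Finset.sum_image]
        intro a _ b _ hab
        exact add_right_cancel hab
      rw [h6]
      have h7 : ∑ z ∈ (boxF d L).image (fun y => y + vec e), g z ^ 2 =
          ∑ z ∈ ((boxF d L).image fun y => y + vec e) ∩ boxF d L, g z ^ 2 := by
        rw [← Finset.sum_subset (Finset.inter_subset_left (s₂ := boxF d L))]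
        intro z hz hz'
        have : z ∉ boxF d L := fun h => hz' (Finset.mem_inter.2 ⟨hz, h⟩)
        rw [hoff z this]
        ring
      rw [h7]
      exact Finset.sum_le_sum_of_subset_of_nonneg Finset.inter_subset_right
        fun _ _ _ => sq_nonneg _
    calc ∑ y ∈ boxF d L, (cE ρ (Pa d t) (Qt β h L t y) η) ^ 2
        ≤ ∑ y ∈ boxF d L, (2 * d : ℝ) * ∑ e : Step d, g (y + vec e) ^ 2 :=
          Finset.sum_le_sum fun y _ => h2 y
      _ = (2 * d : ℝ) * ∑ e : Step d, ∑ y ∈ boxF d L, g (y + vec e) ^ 2 := by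
          rw [← Finset.mul_sum, Finset.sum_comm]
      _ ≤ (2 * d : ℝ) * ∑ e : Step d, ∑ z ∈ boxF d L, g z ^ 2 := by
          refine mul_le_mul_of_nonneg_left (Finset.sum_le_sum fun e _ => h5 e) (by positivity)
      _ = (2 * d : ℝ) ^ 2 * ∑ z ∈ boxF d L, g z ^ 2 := by
          rw [Finset.sum_const, nsmul_eq_mul]
          have : ((Finset.univ : Finset (Step d)).card : ℝ) = 2 * d := by
            simp [Fintype.card_prod, Fintype.card_bool]
            ring
          rw [this]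
          ring
  have hint : ∀ (S : Set (ℕ × Site d)) (s : ℕ), s ≤ L → Integrable (fun η =>
      ∑ y ∈ boxF d L, (cE ρ S (Qt β h L s y) η) ^ 2) (law d ρ) := by
    intro S s hs
    refine integrable_finsetSum _ fun y _ => ?_
    refine Integrable.mono' (integrable_const 1)
      ((measurable_cE (measurable_Qt β h L s y) S).pow_const 2).aestronglyMeasurable
      (Eventually.of_forall fun η => ?_)
    rw [Real.norm_eq_abs, abs_of_nonneg (sq_nonneg _)]
    exact pow_le_one₀ (cE_nonneg (fun η => Qt_nonneg hd β h L _ y η) _ η)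
      (cE_le_one (measurable_Qt β h L s y) (fun η => Qt_nonneg hd β h L _ y η)
        (fun η => Qt_le_one hd β h hs y η) _ η)
  have hsum : ∑ t ∈ Finset.range L, ∫ η, ∑ y ∈ boxF d L, (cE ρ (Pa d t) (Qt β h L t y) η) ^ 2
      ∂(law d ρ) ≤ ∑ t ∈ Finset.range L, (2 * d : ℝ) ^ 2 * ∫ η, ∑ z ∈ boxF d L,
        (cE ρ {q | q.1 < t + 1} (Qt β h L (t + 1) z) η) ^ 2 ∂(law d ρ) := by
    refine Finset.sum_le_sum fun t ht => ?_
    have htL : t < L := Finset.mem_range.1 ht
    rw [← integral_const_mul]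
    exact integral_mono (hint _ t htL.le) ((hint _ (t + 1) htL).const_mul _) (hstep t ht)
  refine hsum.trans ?_
  rw [← Finset.mul_sum, mul_assoc]
  refine mul_le_mul_of_nonneg_left ?_ (by positivity)
  have h8 := hC h L
  refine le_trans (le_of_eq ?_) h8
  rw [Finset.range_eq_Ico, Finset.sum_Ico_add' (fun s => ∫ η, ∑ z ∈ boxF d L,
    (cE ρ {q | q.1 < s} (Qt β h L s z) η) ^ 2 ∂(law d ρ)) 0 L 1]
  refine Finset.sum_congr ?_ fun _ _ => rfl
  ext s
  simp only [Finset.mem_Ico, Finset.mem_Icc]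
  omega

end Pool.Agent.W_7d29a1_Q29.S98
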