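import Pool.Agent.W_7d29a1_Q29.Defs29

/-!
N1: the one site inequality. For the free energy as a function `x (r) = log (a + b e^(β r))` of the
value `r` of one site, `E (r - m) x (r) ≥ c E x' (r)`.
-/

namespace Pool.Agent.W_7d29a1_Q29

open MeasureTheory ProbabilityTheory Filter Topology Pool.Agent.W_MP_7d29a1_pr
  Pool.Agent.W_7d29a1_h46 Pool.Agent.W_7d29a1_h46u Pool.Agent.W_7d29a1_D2.B35

/-! ### One variable -/

lemma s39_low {q : ℝ} (hq0 : 0 ≤ q) (hq1 : q ≤ 1) (u : ℝ) :
    q * u ≤ Real.log (1 - q + q * Real.exp u) := by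
  have h1 := convexOn_exp.2 (Set.mem_univ (0 : ℝ)) (Set.mem_univ u) (sub_nonneg.2 hq1) hq0
    (by ring)
  simp only [smul_eq_mul, mul_zero, zero_add, Real.exp_zero, mul_one] at h1
  have h2 : 0 < 1 - q + q * Real.exp u := lt_of_lt_of_le (Real.exp_pos _) h1
  rwa [Real.le_log_iff_exp_le h2]

lemma s39_pos {q : ℝ} (hq0 : 0 ≤ q) (hq1 : q ≤ 1) (u : ℝ) : 0 < 1 - q + q * Real.exp u := by
  have h1 := Real.exp_pos u
  rcases eq_or_lt_of_le hq0 with h | h
  · rw [← h]; norm_num
  · have := mul_pos h h1
    linarith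

lemma s39_abs {q : ℝ} (hq0 : 0 ≤ q) (hq1 : q ≤ 1) (u : ℝ) :
    |Real.log (1 - q + q * Real.exp u)| ≤ |u| := by
  have hp := s39_pos hq0 hq1 u
  rcases le_total 0 u with hu | hu
  · have h1 : 1 ≤ Real.exp u := Real.one_le_exp hu
    have h2 : 1 - q + q * Real.exp u ≤ Real.exp u := by nlinarith
    have h3 : 1 ≤ 1 - q + q * Real.exp u := by nlinarith
    rw [abs_of_nonneg (Real.log_nonneg h3), abs_of_nonneg hu]
    exact (Real.log_le_log hp h2).trans (Real.log_exp u).le
  · have h1 : Real.exp u ≤ 1 := Real.exp_le_one_iff.2 hu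
    have h2 : Real.exp u ≤ 1 - q + q * Real.exp u := by nlinarith
    have h3 : 1 - q + q * Real.exp u ≤ 1 := by nlinarith
    rw [abs_of_nonpos (Real.log_nonpos hp.le h3), abs_of_nonpos hu]
    have := (Real.log_exp u).ge.trans (Real.log_le_log (Real.exp_pos u) h2)
    linarith

/-- The key pointwise inequality. -/
lemma s39_key {q : ℝ} (hq0 : 0 ≤ q) (hq1 : q ≤ 1) {β : ℝ} (hβ : 0 < β) (s : ℝ) :
    q * β * (max s 0) ^ 2 ≤ s * Real.log (1 - q + q * Real.exp (β * s)) := by
  rcases le_total 0 s with hs | hs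
  · rw [max_eq_left hs]
    have h1 := s39_low hq0 hq1 (β * s)
    nlinarith [mul_le_mul_of_nonneg_left h1 hs]
  · rw [max_eq_right hs]
    have h1 : Real.exp (β * s) ≤ 1 := Real.exp_le_one_iff.2 (by nlinarith)
    have h3 : 1 - q + q * Real.exp (β * s) ≤ 1 := by nlinarith
    have h4 := Real.log_nonpos (s39_pos hq0 hq1 (β * s)).le h3
    nlinarith

lemma s39_ratio {q : ℝ} (hq0 : 0 ≤ q) (hq1 : q ≤ 1) (u : ℝ) :
    q * Real.exp u / (1 - q + q * Real.exp u) ≤ q * Real.exp |u| := by
  have hp := s39_pos hq0 hq1 u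
  rw [mul_div_assoc]
  refine mul_le_mul_of_nonneg_left ?_ hq0
  rw [div_le_iff₀ hp]
  have h0 := Real.exp_pos u
  rcases le_total 0 u with hu | hu
  · rw [abs_of_nonneg hu]
    have h1 : 1 ≤ Real.exp u := Real.one_le_exp hu
    have h3 : 1 ≤ 1 - q + q * Real.exp u := by nlinarith
    nlinarith
  · have h1 : Real.exp u ≤ 1 := Real.exp_le_one_iff.2 hu
    have h2 : Real.exp u ≤ 1 - q + q * Real.exp u := by nlinarith
    have h3 : 1 ≤ Real.exp |u| := Real.one_le_exp (abs_nonneg u)
    nlinarith

/-! ### Moments -/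

variable {ρ : Measure ℝ} [IsProbabilityMeasure ρ]

lemma s39_int_exp_abs (hρ : EM ρ) (b m : ℝ) :
    Integrable (fun t => Real.exp (b * |t - m|)) ρ := by
  have h1 : Integrable (fun t => Real.exp (b * t) * Real.exp (-(b * m)) +
      Real.exp (-b * t) * Real.exp (b * m)) ρ :=
    ((hρ b).mul_const _).add ((hρ (-b)).mul_const _)
  refine h1.mono' (by fun_prop) (Eventually.of_forall fun t => ?_)
  rw [Real.norm_eq_abs, abs_of_pos (Real.exp_pos _), ← Real.exp_add, ← Real.exp_add]
  rcases le_total 0 (t - m) with h | h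
  · rw [abs_of_nonneg h]
    have e1 : b * (t - m) = b * t + -(b * m) := by ring
    rw [e1]
    have := Real.exp_pos (-b * t + b * m)
    linarith
  · rw [abs_of_nonpos h]
    have e1 : b * -(t - m) = -b * t + b * m := by ring
    rw [e1]
    have := Real.exp_pos (b * t + -(b * m))
    linarith

lemma s39_sq_le (s : ℝ) : s ^ 2 ≤ 2 * Real.exp (1 * |s|) := by
  have h1 := Real.quadratic_le_exp_of_nonneg (abs_nonneg s)
  have h2 := abs_nonneg s
  rw [one_mul]
  nlinarith [sq_abs s]

lemma s39_int_sq (hρ : EM ρ) (m : ℝ) : Integrable (fun t => (t - m) ^ 2) ρ := by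
  refine ((s39_int_exp_abs hρ 1 m).const_mul 2).mono' (by fun_prop)
    (Eventually.of_forall fun t => ?_)
  rw [Real.norm_eq_abs, abs_of_nonneg (sq_nonneg _)]
  exact s39_sq_le _

lemma s39_int_id (hρ : EM ρ) (m : ℝ) : Integrable (fun t => t - m) ρ := by
  refine (s39_int_exp_abs hρ 1 m).mono' (by fun_prop) (Eventually.of_forall fun t => ?_)
  rw [Real.norm_eq_abs, one_mul]
  have := Real.add_one_le_exp |t - m|
  linarith

lemma s39_mean (hρ : EM ρ) : ∫ r, (r - ∫ s, s ∂ρ) ∂ρ = 0 := by
  have h1 : Integrable (fun t : ℝ => t) ρ := by simpa using s39_int_id hρ 0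
  rw [integral_sub h1 (integrable_const _)]
  simp

lemma s39_int_max (hρ : EM ρ) (m : ℝ) : Integrable (fun t => (max (t - m) 0) ^ 2) ρ := by
  refine (s39_int_sq hρ m).mono' (by fun_prop) (Eventually.of_forall fun t => ?_)
  rw [Real.norm_eq_abs, abs_of_nonneg (sq_nonneg _)]
  rcases le_total 0 (t - m) with h | h
  · rw [max_eq_left h]
  · rw [max_eq_right h]
    simpa using sq_nonneg (t - m)

/-- The upper part of the variance is positive. -/
lemma s39_up_pos (hρ : EM ρ) (hnc : ∀ c : ℝ, ρ {c} ≠ 1) :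
    0 < ∫ r, (max (r - ∫ s, s ∂ρ) 0) ^ 2 ∂ρ := by
  set m : ℝ := ∫ s, s ∂ρ with hm
  refine lt_of_le_of_ne (integral_nonneg fun r => sq_nonneg _) fun h => hnc m ?_
  have h1 := (integral_eq_zero_iff_of_nonneg (fun r => sq_nonneg _) (s39_int_max hρ m)).1 h.symm
  have h2 : ∀ᵐ r ∂ρ, 0 ≤ m - r := by
    filter_upwards [h1] with r hr
    have h3 : max (r - m) 0 = 0 := by
      have : (max (r - m) 0) ^ 2 = 0 := hr
      exact pow_eq_zero_iff (two_ne_zero) |>.1 this
    have h4 := le_max_left (r - m) 0
    linarith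
  have h5 : ∫ r, (m - r) ∂ρ = 0 := by
    have h6 := s39_mean hρ
    have h7 : ∫ r, (m - r) ∂ρ = -∫ r, (r - m) ∂ρ := by
      rw [← integral_neg]
      refine integral_congr_ae (Eventually.of_forall fun r => ?_)
      show m - r = -(r - m)
      ring
    rw [h7, hm, h6, neg_zero]
  have h8 : Integrable (fun r => m - r) ρ := by
    have := (s39_int_id hρ m).neg
    refine this.congr (Eventually.of_forall fun r => ?_)
    show -(r - m) = m - r
    ring
  have h9 := (integral_eq_zero_iff_of_nonneg_ae h2 h8).1 h5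
  rw [← mem_ae_iff_prob_eq_one (measurableSet_singleton m)]
  filter_upwards [h9] with r hr
  have : m - r = 0 := hr
  rw [Set.mem_singleton_iff]
  linarith

/-- The scalar form of the one site inequality. -/
theorem scalar39 (hρ : EM ρ) (hnc : ∀ c : ℝ, ρ {c} ≠ 1) {β : ℝ} (hβ : 0 < β) :
    ∃ c > 0, ∀ a b : ℝ, 0 ≤ a → 0 ≤ b → 0 < a + b →
      c * ∫ r, b * Real.exp (β * r) / (a + b * Real.exp (β * r)) ∂ρ ≤
        ∫ r, (r - ∫ s, s ∂ρ) * Real.log (a + b * Real.exp (β * r)) ∂ρ := by
  set m : ℝ := ∫ s, s ∂ρ with hm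
  set V : ℝ := ∫ r, (max (r - m) 0) ^ 2 ∂ρ with hV
  set E : ℝ := ∫ r, Real.exp (β * |r - m|) ∂ρ with hE
  have hV0 : 0 < V := s39_up_pos hρ hnc
  have hE1 : 1 ≤ E := by
    have h1 := integral_mono (integrable_const (1 : ℝ)) (s39_int_exp_abs hρ β m)
      (fun r => Real.one_le_exp (mul_nonneg hβ.le (abs_nonneg (r - m))))
    simpa using h1
  refine ⟨β * V / E, by positivity, fun a b ha hb hab => ?_⟩
  set G : ℝ := a + b * Real.exp (β * m) with hG
  have hem := Real.exp_pos (β * m)
  have hG0 : 0 < G := by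
    rcases eq_or_lt_of_le hb with h | h
    · rw [hG, ← h]
      linarith
    · have := mul_pos h hem
      rw [hG]
      linarith
  set q : ℝ := b * Real.exp (β * m) / G with hq
  have hq0 : 0 ≤ q := by positivity
  have hq1 : q ≤ 1 := by
    rw [hq, div_le_one hG0, hG]
    linarith
  have hfac : ∀ r : ℝ, a + b * Real.exp (β * r) = G * (1 - q + q * Real.exp (β * (r - m))) := by
    intro r
    have e1 : Real.exp (β * r) = Real.exp (β * m) * Real.exp (β * (r - m)) := by
      rw [← Real.exp_add]
      congr 1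
      ring
    have e2 : G * q = b * Real.exp (β * m) := by
      rw [hq]
      field_simp
    have e3 : G * (1 - q + q * Real.exp (β * (r - m))) =
        G - G * q + G * q * Real.exp (β * (r - m)) := by ring
    rw [e3, e2, e1, hG]
    ring
  -- the left side
  have hL : ∫ r, b * Real.exp (β * r) / (a + b * Real.exp (β * r)) ∂ρ ≤ q * E := by
    have h1 : ∀ r : ℝ, b * Real.exp (β * r) / (a + b * Real.exp (β * r)) ≤
        q * Real.exp (β * |r - m|) := by
      intro r
      have e1 : b * Real.exp (β * r) = G * (q * Real.exp (β * (r - m))) := by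
        have := hfac r
        have e2 : G * q = b * Real.exp (β * m) := by
          rw [hq]
          field_simp
        have e4 : Real.exp (β * r) = Real.exp (β * m) * Real.exp (β * (r - m)) := by
          rw [← Real.exp_add]
          congr 1
          ring
        rw [e4, ← mul_assoc, ← e2]
        ring
      rw [hfac r, e1, mul_div_mul_left _ _ hG0.ne']
      have h2 := s39_ratio hq0 hq1 (β * (r - m))
      rwa [abs_mul, abs_of_pos hβ] at h2
    have h3 : ∀ r : ℝ, 0 ≤ b * Real.exp (β * r) / (a + b * Real.exp (β * r)) := by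
      intro r
      have := Real.exp_pos (β * r)
      positivity
    have h4 := integral_mono_of_nonneg (Eventually.of_forall h3)
      ((s39_int_exp_abs hρ β m).const_mul q) (Eventually.of_forall h1)
    rwa [integral_const_mul] at h4
  -- the right side
  have hw : Integrable (fun r => (r - m) * Real.log (1 - q + q * Real.exp (β * (r - m)))) ρ := by
    refine ((s39_int_sq hρ m).const_mul β).mono' ?_ (Eventually.of_forall fun r => ?_)
    · refine Measurable.aestronglyMeasurable ?_
      exact (measurable_id.sub_const m).mul (Real.measurable_log.comp (by fun_prop))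
    · rw [Real.norm_eq_abs, abs_mul]
      have h2 := s39_abs hq0 hq1 (β * (r - m))
      rw [abs_mul, abs_of_pos hβ] at h2
      calc |r - m| * |Real.log (1 - q + q * Real.exp (β * (r - m)))|
          ≤ |r - m| * (β * |r - m|) := mul_le_mul_of_nonneg_left h2 (abs_nonneg _)
        _ = β * (r - m) ^ 2 := by rw [← sq_abs (r - m)]; ring
  have hR : ∫ r, (r - m) * Real.log (a + b * Real.exp (β * r)) ∂ρ =
      ∫ r, (r - m) * Real.log (1 - q + q * Real.exp (β * (r - m))) ∂ρ := by
    have e1 : ∀ r : ℝ, (r - m) * Real.log (a + b * Real.exp (β * r)) =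
        (r - m) * Real.log (1 - q + q * Real.exp (β * (r - m))) + (r - m) * Real.log G := by
      intro r
      rw [hfac r, Real.log_mul hG0.ne' (s39_pos hq0 hq1 _).ne']
      ring
    simp only [e1]
    rw [integral_add hw ((s39_int_id hρ m).mul_const _), integral_mul_const, hm, s39_mean hρ]
    ring
  have hR2 : q * β * V ≤ ∫ r, (r - m) * Real.log (1 - q + q * Real.exp (β * (r - m))) ∂ρ := by
    rw [hV, ← integral_const_mul]
    refine integral_mono ((s39_int_max hρ m).const_mul _) hw fun r => ?_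
    exact s39_key hq0 hq1 hβ (r - m)
  rw [hR]
  refine le_trans ?_ hR2
  have hE0 : 0 < E := by linarith
  calc β * V / E * ∫ r, b * Real.exp (β * r) / (a + b * Real.exp (β * r)) ∂ρ
      ≤ β * V / E * (q * E) := mul_le_mul_of_nonneg_left hL (by positivity)
    _ = q * β * V := by field_simp

/-! ### The polymer as a function of one site -/

variable {d : ℕ}

/-- The weight of the walks through `(t, y)` is the product of past and future. -/
lemma s39_through (β : ℝ) (h : Vec d) (η : Env d) (t k : ℕ) (y : Site d) :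
    PP β h η t y * Z β h (sh t y η) k =
      ∑ s : Fin (t + k) → Step d, (if pos s t = y then wgt β h η s else 0) := by
  classical
  unfold PP ZT
  rw [Z_eq, sum_glue, Finset.sum_mul_sum]
  refine Finset.sum_congr rfl fun s _ => Finset.sum_congr rfl fun q _ => ?_
  have h1 : pos (Fin.append s q) t = pos s t := pos_glue_le s q le_rfl
  rw [h1, wgt_glue]
  by_cases hs : pos s t = y
  · rw [if_pos (show s ∈ {s : Fin t → Step d | pos s t = y} from hs), if_pos hs, hs]
  · rw [if_neg (show s ∉ {s : Fin t → Step d | pos s t = y} from hs), if_neg hs, zero_mul]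

open Classical in
lemma s39_energy {n : ℕ} (η : Env d) (s : Fin n → Step d) {t : ℕ} (y : Site d) (r : ℝ)
    (ht : 1 ≤ t) (htn : t ≤ n) :
    energy (Function.update η (t, y) r) s =
      energy (Function.update η (t, y) 0) s + (if pos s t = y then r else 0) := by
  unfold energy
  have h1 : ∀ i : Fin n, Function.update η (t, y) r ((i : ℕ) + 1, pos s ((i : ℕ) + 1)) =
      Function.update η (t, y) 0 ((i : ℕ) + 1, pos s ((i : ℕ) + 1)) +
        (if (i : ℕ) + 1 = t then (if pos s t = y then r else 0) else 0) := by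
    intro i
    by_cases hi : (i : ℕ) + 1 = t
    · rw [if_pos hi, hi]
      by_cases hy : pos s t = y
      · rw [if_pos hy, hy, Function.update_self, Function.update_self, zero_add]
      · rw [if_neg hy, add_zero, Function.update_of_ne, Function.update_of_ne]
        · intro h
          exact hy (Prod.ext_iff.1 h).2
        · intro h
          exact hy (Prod.ext_iff.1 h).2
    · rw [if_neg hi, add_zero, Function.update_of_ne, Function.update_of_ne]
      · intro h
        exact hi (Prod.ext_iff.1 h).1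
      · intro h
        exact hi (Prod.ext_iff.1 h).1
  simp only [h1]
  rw [Finset.sum_add_distrib]
  congr 1
  rw [Finset.sum_eq_single (⟨t - 1, by omega⟩ : Fin n)]
  · rw [if_pos]
    show t - 1 + 1 = t
    omega
  · intro i _ hi
    rw [if_neg]
    intro h
    apply hi
    ext
    show (i : ℕ) = t - 1
    omega
  · intro h
    exact absurd (Finset.mem_univ _) h

open Classical in
lemma s39_wgt {n : ℕ} (β : ℝ) (h : Vec d) (η : Env d) (s : Fin n → Step d) {t : ℕ} (y : Site d)
    (r : ℝ) (ht : 1 ≤ t) (htn : t ≤ n) :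
    wgt β h (Function.update η (t, y) r) s =
      (if pos s t = y then 0 else wgt β h (Function.update η (t, y) 0) s) +
      (if pos s t = y then wgt β h (Function.update η (t, y) 0) s else 0) * Real.exp (β * r) := by
  unfold wgt
  rw [s39_energy η s y r ht htn]
  by_cases hy : pos s t = y
  · rw [if_pos hy, if_pos hy, if_pos hy, zero_add, ← Real.exp_add]
    congr 1
    ring
  · rw [if_neg hy, if_neg hy, if_neg hy, add_zero, zero_mul, add_zero]

/-- The shape of the partition function as a function of the value of one site. -/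
lemma s39_shape (hd : 0 < d) (β : ℝ) (h : Vec d) (L t : ℕ) (y : Site d) (η : Env d) (ht : 1 ≤ t)
    (htL : t ≤ L) : ∃ a b : ℝ, 0 ≤ a ∧ 0 ≤ b ∧ 0 < a + b ∧ ∀ r : ℝ,
      Z β h (Function.update η (t, y) r) L = a + b * Real.exp (β * r) ∧
      Qt β h L t y (Function.update η (t, y) r) =
        b * Real.exp (β * r) / (a + b * Real.exp (β * r)) := by
  classical
  obtain ⟨k, rfl⟩ := Nat.exists_eq_add_of_le htL
  set a : ℝ := ∑ s : Fin (t + k) → Step d,
    (if pos s t = y then 0 else wgt β h (Function.update η (t, y) 0) s) with ha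
  set b : ℝ := ∑ s : Fin (t + k) → Step d,
    (if pos s t = y then wgt β h (Function.update η (t, y) 0) s else 0) with hb
  have ha0 : 0 ≤ a := Finset.sum_nonneg fun s _ => by
    split_ifs
    · exact le_rfl
    · exact (wgt_pos _ _ _ _).le
  have hb0 : 0 ≤ b := Finset.sum_nonneg fun s _ => by
    split_ifs
    · exact (wgt_pos _ _ _ _).le
    · exact le_rfl
  have hZ : ∀ r : ℝ, Z β h (Function.update η (t, y) r) (t + k) = a + b * Real.exp (β * r) := by
    intro r
    rw [Z_eq, ha, hb, Finset.sum_mul, ← Finset.sum_add_distrib]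
    exact Finset.sum_congr rfl fun s _ => s39_wgt β h η s y r ht htL
  have hab : 0 < a + b := by
    have h1 := hZ 0
    rw [mul_zero, Real.exp_zero, mul_one] at h1
    rw [← h1]
    exact Z_pos hd β h _ _
  refine ⟨a, b, ha0, hb0, hab, fun r => ⟨hZ r, ?_⟩⟩
  unfold Qt
  rw [hZ r, Nat.add_sub_cancel_left, s39_through]
  congr 1
  rw [hb, Finset.sum_mul]
  refine Finset.sum_congr rfl fun s _ => ?_
  by_cases hy : pos s t = y
  · rw [if_pos hy, if_pos hy, s39_wgt β h η s y r ht htL, if_pos hy, if_pos hy, zero_add]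
  · rw [if_neg hy, if_neg hy, zero_mul]

/-- N1: the one site inequality. -/
theorem site39 (hd : 0 < d) (hρ : EM ρ) (hnc : ∀ c : ℝ, ρ {c} ≠ 1) {β : ℝ} (hβ : 0 < β) :
    ∃ c > 0, ∀ (h : Vec d) (L t : ℕ) (y : Site d) (η : Env d), 1 ≤ t → t ≤ L →
      c * ∫ r, Qt β h L t y (Function.update η (t, y) r) ∂ρ ≤
        ∫ r, (r - ∫ s, s ∂ρ) * X β h (Function.update η (t, y) r) L ∂ρ := by
  obtain ⟨c, hc, hmain⟩ := scalar39 hρ hnc hβ
  refine ⟨c, hc, fun h L t y η ht htL => ?_⟩
  obtain ⟨a, b, ha, hb, hab, hsh⟩ := s39_shape hd β h L t y η ht htL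
  have h1 := hmain a b ha hb hab
  have e1 : ∀ r : ℝ, Qt β h L t y (Function.update η (t, y) r) =
      b * Real.exp (β * r) / (a + b * Real.exp (β * r)) := fun r => (hsh r).2
  have e2 : ∀ r : ℝ, X β h (Function.update η (t, y) r) L =
      Real.log (a + b * Real.exp (β * r)) := by
    intro r
    unfold X
    rw [(hsh r).1]
  simp only [e1, e2]
  exact h1

end Pool.Agent.W_7d29a1_Q29
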