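import Pool.Agent.W_7d29a1_Q29.Defs29
import Pool.Agent.W_7d29a1_Q29.Site39
import Pool.Agent.W_7d29a1_h46u.StrA

/-!
Transfer of the statements from the law of the environment to an arbitrary probability space.
-/

namespace Pool.Agent.W_7d29a1_Q29

open MeasureTheory ProbabilityTheory Filter Topology Pool.Agent.W_MP_7d29a1_pr
  Pool.Agent.W_7d29a1_h46 Pool.Agent.W_7d29a1_h46u Pool.Agent.W_7d29a1_D2.B35

variable {Ω : Type*} [MeasurableSpace Ω] {μ : Measure Ω} [IsProbabilityMeasure μ] {d : ℕ}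
  {ρ : Measure ℝ} [IsProbabilityMeasure ρ] {ω : ℕ × Site d → Ω → ℝ} {β : ℝ}

lemma mean29 (hd : 0 < d) (hω : IID μ ρ ω) (hρ : EM ρ) (h : Vec d) (n : ℕ) :
    ∫ z, Real.log (Zn β h (fun p => ω p z) n) ∂μ = A ρ β h n - Real.log ((2 * d : ℝ) ^ n) := by
  have hX := measurable_X (d := d) β h n
  set c := Real.log ((2 * d : ℝ) ^ n) with hc
  have e2 : ∫ z, Real.log (Zn β h (fun p => ω p z) n) ∂μ =
      ∫ z, (fun η : Env d => X β h η n - c) (fun p => ω p z) ∂μ :=
    integral_congr_ae (Filter.Eventually.of_forall fun z => StrA_log hd β h _ n)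
  rw [e2, StrA_int hω (hX.sub_const c), integral_sub (concU hd hρ β h n).1 (integrable_const c),
    integral_const]
  unfold A
  simp

lemma var29 (hd : 0 < d) (hω : IID μ ρ ω) (hρ : EM ρ) (h : Vec d) (n : ℕ) :
    Var[fun x => Real.log (Zn β h (fun p => ω p x) n); μ] = Va ρ β h n := by
  have hmp := mp_env hω
  have hm : AEMeasurable (fun x => Real.log (Zn β h (fun p => ω p x) n)) μ := by
    have h1 : (fun x => Real.log (Zn β h (fun p => ω p x) n)) =
        fun x => (fun η : Env d => X β h η n - Real.log ((2 * d : ℝ) ^ n)) (fun p => ω p x) := by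
      funext x
      exact StrA_log hd β h _ n
    rw [h1]
    exact (((measurable_X (d := d) β h n).sub_const _).comp hmp.measurable).aemeasurable
  rw [variance_eq_integral hm]
  have h2 := StrA_mom (β := β) hd hω hρ h n 2
  simp only [sq_abs] at h2
  exact h2

/-- The probability that the polymer at the time `t` is not in the window. -/
lemma pol29 (hd : 0 < d) (h : Vec d) (η : Env d) {L t : ℕ} (ht : t ≤ L) (W : Finset (Site d)) :
    PolT β h η {s : Fin L → Step d | pos s t ∉ W} = 1 - ∑ y ∈ W, Qt β h L t y η := by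
  obtain ⟨k, rfl⟩ := Nat.exists_eq_add_of_le ht
  classical
  have hZ : ZT β h η (Set.univ : Set (Fin (t + k) → Step d)) = Z β h η (t + k) := rfl
  have hpos := ZT_univ_pos (n := t + k) hd β h η
  have h1 : ∀ y, Qt β h (t + k) t y η =
      (∑ s : Fin (t + k) → Step d, (if pos s t = y then wgt β h η s else 0)) /
        ZT β h η (Set.univ : Set (Fin (t + k) → Step d)) := by
    intro y
    unfold Qt
    rw [Nat.add_sub_cancel_left, s39_through, hZ]
  simp only [h1]
  unfold PolT
  rw [← Finset.sum_div, eq_sub_iff_add_eq, ← add_div, div_eq_one_iff_eq hpos.ne']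
  unfold ZT
  rw [Finset.sum_comm, ← Finset.sum_add_distrib]
  refine Finset.sum_congr rfl fun s _ => ?_
  rw [Finset.sum_ite_eq W (pos s t) fun _ => wgt β h η s]
  by_cases hs : pos s t ∈ W
  · simp [hs]
  · simp [hs]

lemma win29 (hd : 0 < d) (hω : IID μ ρ ω) (h : Vec d) {L t : ℕ} (ht : t ≤ L)
    (W : Finset (Site d)) (hm : Measurable fun η : Env d => ∑ y ∈ W, Qt β h L t y η) :
    ∫ x, PolT β h (fun p => ω p x) {s : Fin L → Step d | pos s t ∉ W} ∂μ =
      ∫ η, (1 - ∑ y ∈ W, Qt β h L t y η) ∂(law d ρ) := by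
  rw [← StrA_int hω (hm.const_sub 1)]
  refine integral_congr_ae (Filter.Eventually.of_forall fun x => ?_)
  exact pol29 hd h _ ht W

end Pool.Agent.W_7d29a1_Q29
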