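import Pool.Agent.W_7d29a1_Q29.Defs29

/-!
Conditional expectations `cE` given a set of sites: basic rules.
-/

namespace Pool.Agent.W_7d29a1_Q29

open MeasureTheory ProbabilityTheory Filter Topology Pool.Agent.W_MP_7d29a1_pr
  Pool.Agent.W_7d29a1_h46 Pool.Agent.W_7d29a1_h46u

variable {d : ℕ} {ρ : Measure ℝ}

lemma spl_mem {S : Set (ℕ × Site d)} (η ξ : Env d) {p : ℕ × Site d} (hp : p ∈ S) :
    spl S η ξ p = η p := by
  unfold spl
  rw [if_pos hp]

lemma spl_not_mem {S : Set (ℕ × Site d)} (η ξ : Env d) {p : ℕ × Site d} (hp : p ∉ S) :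
    spl S η ξ p = ξ p := by
  unfold spl
  rw [if_neg hp]

lemma spl_compl (S : Set (ℕ × Site d)) (η ξ : Env d) : spl Sᶜ η ξ = spl S ξ η := by
  ext p
  by_cases hp : p ∈ S
  · rw [spl_mem _ _ hp, spl_not_mem (S := Sᶜ) _ _ (fun h => h hp)]
  · rw [spl_not_mem _ _ hp, spl_mem _ _ (show p ∈ Sᶜ from hp)]

lemma measurable_spl (S : Set (ℕ × Site d)) :
    Measurable fun w : Env d × Env d => spl S w.1 w.2 := by
  classical
  refine measurable_pi_iff.2 fun p => ?_
  by_cases hp : p ∈ S
  · simp only [spl_mem _ _ hp]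
    exact (measurable_pi_apply p).comp measurable_fst
  · simp only [spl_not_mem _ _ hp]
    exact (measurable_pi_apply p).comp measurable_snd

/-- Gluing two independent environments preserves the law. -/
lemma mp_spl [IsProbabilityMeasure ρ] (S : Set (ℕ × Site d)) :
    MeasurePreserving (fun w : Env d × Env d => spl S w.1 w.2) ((law d ρ).prod (law d ρ))
      (law d ρ) := by
  classical
  have hσ : Function.Injective (fun p : ℕ × Site d =>
      if p ∈ S then (Sum.inl p : (ℕ × Site d) ⊕ (ℕ × Site d)) else Sum.inr p) := by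
    intro p q h
    simp only at h
    split_ifs at h <;> simp_all
  have hmp : MeasurePreserving (fun w : Env d × Env d => fun p => Sum.elim w.1 w.2
      (if p ∈ S then (Sum.inl p : (ℕ × Site d) ⊕ (ℕ × Site d)) else Sum.inr p))
      ((law d ρ).prod (law d ρ)) (law d ρ) := LawU_elim hσ
  convert hmp using 3 with w p
  unfold spl
  split_ifs <;> rfl

lemma measurable_spl_right (S : Set (ℕ × Site d)) (η : Env d) :
    Measurable fun ξ : Env d => spl S η ξ :=
  (measurable_spl S).comp (measurable_const.prodMk measurable_id)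

/-- `cE ρ S F` is a function of the sites of `S`. -/
lemma cE_dep (S : Set (ℕ × Site d)) (F : Env d → ℝ) : DependsOn (cE ρ S F) S := by
  intro η η' h
  unfold cE
  have h1 : ∀ g, spl S η g = spl S η' g := by
    intro g
    ext p
    by_cases hp : p ∈ S
    · rw [spl_mem _ _ hp, spl_mem _ _ hp]
      exact h p hp
    · rw [spl_not_mem _ _ hp, spl_not_mem _ _ hp]
  simp only [h1]

lemma measurable_cE [IsProbabilityMeasure ρ] {F : Env d → ℝ} (hF : Measurable F)
    (S : Set (ℕ × Site d)) : Measurable (cE ρ S F) := by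
  have h1 : Measurable fun w : Env d × Env d => F (spl S w.1 w.2) :=
    hF.comp (measurable_spl S)
  exact (h1.stronglyMeasurable.integral_prod_right (ν := law d ρ)).measurable

lemma cE_nonneg {F : Env d → ℝ} (hF : ∀ η, 0 ≤ F η) (S : Set (ℕ × Site d)) (η : Env d) :
    0 ≤ cE ρ S F η := integral_nonneg fun _ => hF _

/-- A bounded measurable function is integrable along the resampling. -/
lemma integrable_spl [IsProbabilityMeasure ρ] {F : Env d → ℝ} (hm : Measurable F) {b : ℝ}
    (hb : ∀ η, |F η| ≤ b) (S : Set (ℕ × Site d)) (η : Env d) :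
    Integrable (fun ξ => F (spl S η ξ)) (law d ρ) :=
  Integrable.mono' (integrable_const b) (hm.comp (measurable_spl_right S η)).aestronglyMeasurable
    (Eventually.of_forall fun _ => hb _)

lemma cE_le [IsProbabilityMeasure ρ] {F : Env d → ℝ} (hm : Measurable F) {a b : ℝ}
    (ha : ∀ η, a ≤ F η) (hb : ∀ η, F η ≤ b) (S : Set (ℕ × Site d)) (η : Env d) :
    cE ρ S F η ≤ b := by
  have h1 := integrable_spl (ρ := ρ) hm (fun η => abs_le_max_abs_abs (ha η) (hb η)) S η
  have h2 := integral_mono h1 (integrable_const b) (fun ξ => hb (spl S η ξ))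
  simpa [cE] using h2

lemma cE_abs_le [IsProbabilityMeasure ρ] {F : Env d → ℝ} {b : ℝ}
    (hb : ∀ η, |F η| ≤ b) (S : Set (ℕ × Site d)) (η : Env d) : |cE ρ S F η| ≤ b := by
  have h1 := norm_integral_le_of_norm_le_const (μ := law d ρ) (f := fun ξ => F (spl S η ξ))
    (C := b) (Eventually.of_forall fun ξ => hb _)
  simpa [cE] using h1

/-- The tower rule against a function `H` of the sites of `S`. -/
lemma int_mul_cE [IsProbabilityMeasure ρ] (S : Set (ℕ × Site d)) {F H : Env d → ℝ}
    (hFH : Integrable (fun η => F η * H η) (law d ρ)) (hH : DependsOn H S) :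
    ∫ η, F η * H η ∂(law d ρ) = ∫ η, cE ρ S F η * H η ∂(law d ρ) := by
  have h1 := LawU_integral (F := fun g => F g * H g) (mp_spl (ρ := ρ) S)
    hFH.aestronglyMeasurable
  have h2 : Integrable (fun w : Env d × Env d => F (spl S w.1 w.2) * H (spl S w.1 w.2))
      ((law d ρ).prod (law d ρ)) := (mp_spl (ρ := ρ) S).integrable_comp_of_integrable hFH
  rw [← h1, integral_prod _ h2]
  refine integral_congr_ae (Filter.Eventually.of_forall fun g => ?_)
  show ∫ g', F (spl S g g') * H (spl S g g') ∂(law d ρ) = (∫ g', F (spl S g g') ∂(law d ρ)) * H g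
  rw [← integral_mul_const]
  refine integral_congr_ae (Filter.Eventually.of_forall fun g' => ?_)
  show F (spl S g g') * H (spl S g g') = F (spl S g g') * H g
  rw [hH (x := spl S g g') (y := g) fun p hp => spl_mem _ _ hp]

lemma int_cE [IsProbabilityMeasure ρ] (S : Set (ℕ × Site d)) {F : Env d → ℝ}
    (hF : Integrable F (law d ρ)) :
    ∫ η, cE ρ S F η ∂(law d ρ) = ∫ η, F η ∂(law d ρ) := by
  have h1 := int_mul_cE (ρ := ρ) S (F := F) (H := fun _ => (1 : ℝ)) (by simpa using hF)
    (fun _ _ _ => rfl)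
  simpa using h1.symm

/-- The square of a conditional expectation: `E cE^2 = E F cE`. -/
lemma int_cE_sq [IsProbabilityMeasure ρ] (S : Set (ℕ × Site d)) {F : Env d → ℝ}
    (hm : Measurable F) {b : ℝ} (hb : ∀ η, |F η| ≤ b) :
    ∫ η, (cE ρ S F η) ^ 2 ∂(law d ρ) = ∫ η, F η * cE ρ S F η ∂(law d ρ) := by
  have hb0 : 0 ≤ b := (abs_nonneg _).trans (hb (fun _ => 0))
  have h1 : Integrable (fun η => F η * cE ρ S F η) (law d ρ) := by
    refine Integrable.mono' (integrable_const (b * b))
      (hm.mul (measurable_cE hm S)).aestronglyMeasurable (Eventually.of_forall fun η => ?_)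
    rw [Real.norm_eq_abs, abs_mul]
    exact mul_le_mul (hb η) (cE_abs_le hb S η) (abs_nonneg _) hb0
  rw [int_mul_cE S h1 (cE_dep S F)]
  refine integral_congr_ae (Filter.Eventually.of_forall fun η => ?_)
  show cE ρ S F η ^ 2 = cE ρ S F η * cE ρ S F η
  ring

lemma cE_add {S : Set (ℕ × Site d)} {F G : Env d → ℝ} (η : Env d)
    (hF : Integrable (fun ξ => F (spl S η ξ)) (law d ρ))
    (hG : Integrable (fun ξ => G (spl S η ξ)) (law d ρ)) :
    cE ρ S (fun η => F η + G η) η = cE ρ S F η + cE ρ S G η := integral_add hF hG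

lemma cE_sum {ι : Type*} (s : Finset ι) {S : Set (ℕ × Site d)} {F : ι → Env d → ℝ} (η : Env d)
    (hF : ∀ i ∈ s, Integrable (fun ξ => F i (spl S η ξ)) (law d ρ)) :
    cE ρ S (fun η => ∑ i ∈ s, F i η) η = ∑ i ∈ s, cE ρ S (F i) η := by
  unfold cE
  exact integral_finsetSum s hF

/-- A function of the sites of `S` comes out. -/
lemma cE_mul (S : Set (ℕ × Site d)) (F : Env d → ℝ) {H : Env d → ℝ} (hH : DependsOn H S)
    (η : Env d) : cE ρ S (fun η => F η * H η) η = cE ρ S F η * H η := by
  unfold cE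
  rw [← integral_mul_const]
  refine integral_congr_ae (Filter.Eventually.of_forall fun g' => ?_)
  show F (spl S η g') * H (spl S η g') = F (spl S η g') * H η
  rw [hH (x := spl S η g') (y := η) fun p hp => spl_mem _ _ hp]

lemma cE_of_dep [IsProbabilityMeasure ρ] (S : Set (ℕ × Site d)) {H : Env d → ℝ}
    (hH : DependsOn H S) (η : Env d) : cE ρ S H η = H η := by
  unfold cE
  have h1 : ∀ g', H (spl S η g') = H η := fun g' =>
    hH (x := spl S η g') (y := η) fun p hp => spl_mem _ _ hp
  simp only [h1]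
  simp

/-- The conditional mean of a function of the other sites is its mean. -/
lemma cE_of_indep (S : Set (ℕ × Site d)) {H : Env d → ℝ} (hH : DependsOn H Sᶜ) (η : Env d) :
    cE ρ S H η = ∫ ξ, H ξ ∂(law d ρ) := by
  unfold cE
  have h1 : ∀ g', H (spl S η g') = H g' := fun g' =>
    hH (x := spl S η g') (y := g') fun p hp => spl_not_mem _ _ hp
  simp only [h1]

lemma cE_mono (S : Set (ℕ × Site d)) {F G : Env d → ℝ} (hFG : ∀ η, F η ≤ G η) (η : Env d)
    (hF : Integrable (fun ξ => F (spl S η ξ)) (law d ρ))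
    (hG : Integrable (fun ξ => G (spl S η ξ)) (law d ρ)) :
    cE ρ S F η ≤ cE ρ S G η := integral_mono hF hG fun _ => hFG _

end Pool.Agent.W_7d29a1_Q29
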