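import Pool.Agent.W_7d29a1_Q29.Ce39
import Pool.Agent.W_7d29a1_Q29.Site39

/-!
Facts on the polymer marginals `Qt`.
-/

namespace Pool.Agent.W_7d29a1_Q29

open MeasureTheory ProbabilityTheory Filter Topology Pool.Agent.W_MP_7d29a1_pr
  Pool.Agent.W_7d29a1_h46 Pool.Agent.W_7d29a1_h46u Pool.Agent.W_7d29a1_D2.B35

variable {d : ℕ} {ρ : Measure ℝ}

lemma measurable_PP39 (β : ℝ) (h : Vec d) (t : ℕ) (y : Site d) :
    Measurable fun η : Env d => PP β h η t y := measurable_ZT β h _

lemma measurable_Qt39 (β : ℝ) (h : Vec d) (L t : ℕ) (y : Site d) :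
    Measurable (Qt β h L t y) := by
  unfold Qt
  exact ((measurable_PP39 β h t y).mul
    ((measurable_Z β h (L - t)).comp (measurable_sh t y))).div (measurable_Z β h L)

lemma Qt_nonneg39 (β : ℝ) (h : Vec d) (L t : ℕ) (y : Site d) (η : Env d) :
    0 ≤ Qt β h L t y η := by
  unfold Qt
  exact div_nonneg (mul_nonneg (PP_nonneg _ _ _ _ _) (ZT_nonneg _ _ _ _)) (ZT_nonneg _ _ _ _)

open Classical in
/-- `Qt` as a ratio of sums over walks. -/
lemma Qt_eq39 (β : ℝ) (h : Vec d) {L t : ℕ} (htL : t ≤ L) (y : Site d) (η : Env d) :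
    Qt β h L t y η =
      (∑ s : Fin L → Step d, (if pos s t = y then wgt β h η s else 0)) / Z β h η L := by
  obtain ⟨k, rfl⟩ := Nat.exists_eq_add_of_le htL
  unfold Qt
  rw [Nat.add_sub_cancel_left, s39_through]

lemma Qt_le_one39 (β : ℝ) (h : Vec d) {L t : ℕ} (htL : t ≤ L) (y : Site d)
    (η : Env d) : Qt β h L t y η ≤ 1 := by
  classical
  rw [Qt_eq39 β h htL]
  refine div_le_one_of_le₀ ?_ (ZT_nonneg _ _ _ _)
  rw [Z_eq]
  refine Finset.sum_le_sum fun s _ => ?_
  split_ifs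
  · exact le_rfl
  · exact (wgt_pos _ _ _ _).le

/-- The marginals have total mass one. -/
lemma Qt_sum39 (hd : 0 < d) (β : ℝ) (h : Vec d) {L t : ℕ} (htL : t ≤ L) (η : Env d)
    {B : Finset (Site d)} (hB : ∀ s : Fin L → Step d, pos s t ∈ B) :
    ∑ y ∈ B, Qt β h L t y η = 1 := by
  classical
  have h1 : ∀ y ∈ B, Qt β h L t y η =
      (∑ s : Fin L → Step d, (if pos s t = y then wgt β h η s else 0)) / Z β h η L :=
    fun y _ => Qt_eq39 β h htL y η
  rw [Finset.sum_congr rfl h1, ← Finset.sum_div, Finset.sum_comm]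
  have h2 : ∀ s : Fin L → Step d, ∑ y ∈ B, (if pos s t = y then wgt β h η s else 0) =
      wgt β h η s := by
    intro s
    rw [Finset.sum_ite_eq]
    rw [if_pos (hB s)]
  simp only [h2]
  rw [← Z_eq, div_self (Z_pos hd β h η L).ne']

lemma nrm_pos_le39 {n : ℕ} (s : Fin n → Step d) (i : ℕ) : nrm (pos s i) ≤ i := by
  unfold pos
  refine (nrm_sum_le _ _).trans ?_
  have h : ∀ j : Fin n, nrm (if (j : ℕ) < i then vec (s j) else 0) ≤
      (if (j : ℕ) < i then (1 : ℝ) else 0) := by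
    intro j
    split_ifs
    · rw [nrm_vec]
    · rw [nrm_zero]
  refine (Finset.sum_le_sum fun j _ => h j).trans ?_
  rw [← Finset.sum_filter, Finset.sum_const, nsmul_eq_mul, mul_one]
  have h2 : (Finset.univ.filter fun j : Fin n => (j : ℕ) < i).card ≤ (Finset.range i).card := by
    refine Finset.card_le_card_of_injOn (fun j : Fin n => (j : ℕ)) ?_ ?_
    · intro j hj
      have hj' := (Finset.mem_filter.1 (Finset.mem_coe.1 hj)).2
      exact Finset.mem_coe.2 (Finset.mem_range.2 hj')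
    · intro a _ b _ hab
      exact Fin.ext hab
  rw [Finset.card_range] at h2
  exact_mod_cast h2

/-- The box of radius `r ≥ t` contains the position at the time `t`. -/
lemma pos_mem_boxF39 {n : ℕ} (s : Fin n → Step d) {t r : ℕ} (htr : t ≤ r) :
    pos s t ∈ boxF d r := by
  rw [mem_boxF]
  intro j
  have h1 := (abs_le_nrm (pos s t) j).trans (nrm_pos_le39 s t)
  have h2 : |(pos s t) j| ≤ (t : ℤ) := by exact_mod_cast h1
  exact h2.trans (by exact_mod_cast htr)

/-- Total mass one over every box of radius at least `t`. -/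
lemma Qt_sum_box39 (hd : 0 < d) (β : ℝ) (h : Vec d) {L t r : ℕ} (htL : t ≤ L) (htr : t ≤ r)
    (η : Env d) : ∑ y ∈ boxF d r, Qt β h L t y η = 1 :=
  Qt_sum39 hd β h htL η fun s => pos_mem_boxF39 s htr

/-- Off the box of radius `t` the marginal vanishes. -/
lemma Qt_off39 (β : ℝ) (h : Vec d) {L t : ℕ} (htL : t ≤ L) {y : Site d} (hy : y ∉ boxF d t)
    (η : Env d) : Qt β h L t y η = 0 := by
  classical
  rw [Qt_eq39 β h htL]
  rw [Finset.sum_eq_zero, zero_div]
  intro s _
  rw [if_neg]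
  intro h1
  exact hy (h1 ▸ pos_mem_boxF39 s le_rfl)

end Pool.Agent.W_7d29a1_Q29
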