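import Pool.Agent.W_7d29a1_Q29.Asm72

/-!
The window property from the polymer measure, and the exclusion of bounded variance together with
diffusive tightness.
-/

namespace Pool.Agent.W_7d29a1_Q29

open MeasureTheory ProbabilityTheory Filter Topology Pool.Agent.W_MP_7d29a1_pr
  Pool.Agent.W_7d29a1_h46 Pool.Agent.W_7d29a1_h46u Pool.Agent.W_7d29a1_D2.B35

variable {d : ℕ} {ρ : Measure ℝ} {β : ℝ}

open Classical in
/-- The walks in `W` at the time `t`. -/
theorem ZT_at (β : ℝ) (h : Vec d) (η : Env d) (t m : ℕ) (W : Finset (Site d)) :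
    ZT β h η {s : Fin (t + m) → Step d | pos s t ∈ W} =
      ∑ y ∈ W, PP β h η t y * Z β h (sh t y η) m := by
  have h1 : ∀ y ∈ W, PP β h η t y * Z β h (sh t y η) m =
      ∑ s : Fin t → Step d, if pos s t = y then wgt β h η s * Z β h (sh t (pos s t) η) m else 0 := by
    intro y _
    unfold PP ZT
    rw [Finset.sum_mul]
    refine Finset.sum_congr rfl fun s _ => ?_
    by_cases hs : pos s t = y
    · rw [if_pos (show s ∈ {s : Fin t → Step d | pos s t = y} from hs), if_pos hs, hs]
    · rw [if_neg (show s ∉ {s : Fin t → Step d | pos s t = y} from hs), if_neg hs, zero_mul]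
  rw [Finset.sum_congr rfl h1, Finset.sum_comm]
  unfold ZT
  rw [sum_glue]
  refine Finset.sum_congr rfl fun s _ => ?_
  have h2 : ∀ q : Fin m → Step d,
      (Fin.append s q ∈ {s : Fin (t + m) → Step d | pos s t ∈ W}) ↔ pos s t ∈ W := by
    intro q
    rw [Set.mem_setOf_eq, pos_glue_le s q le_rfl]
  by_cases hW : pos s t ∈ W
  · rw [Finset.sum_ite_eq, if_pos hW, Z_eq, Finset.mul_sum]
    refine Finset.sum_congr rfl fun q _ => ?_
    rw [if_pos ((h2 q).2 hW), wgt_glue]
  · rw [Finset.sum_ite_eq, if_neg hW]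
    refine Finset.sum_eq_zero fun q _ => ?_
    rw [if_neg (fun h => hW ((h2 q).1 h))]

/-- The law of `S_t` under the polymer measure of length `L`. -/
theorem sum_Qt {L t : ℕ} (ht : t ≤ L) (h : Vec d) (W : Finset (Site d)) (η : Env d) :
    ∑ y ∈ W, Qt β h L t y η = PolT β h η {s : Fin L → Step d | pos s t ∈ W} := by
  obtain ⟨m, rfl⟩ := Nat.exists_eq_add_of_le ht
  unfold PolT
  rw [ZT_at, Finset.sum_div]
  refine Finset.sum_congr rfl fun y _ => ?_
  unfold Qt
  rw [Nat.add_sub_cancel_left]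
  rfl

open Classical in
/-- The lattice points in the ball of radius `w` around `x`. -/
noncomputable def ballW (x : Vec d) (w : ℝ) : Finset (Site d) :=
  Fintype.piFinset fun i => Finset.Icc ⌈x i - w⌉ ⌊x i + w⌋

theorem mem_ballW {x : Vec d} {w : ℝ} {y : Site d} (hy : ‖emb y - x‖ ≤ w) : y ∈ ballW x w := by
  classical
  unfold ballW
  rw [Fintype.mem_piFinset]
  intro i
  have h1 : |(emb y - x) i| ≤ w := by
    have h2 : ‖(emb y - x) i‖ ≤ ‖emb y - x‖ := EuclideanSpace.norm_eq (emb y - x) ▸ by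
      refine Real.le_sqrt_of_sq_le ?_
      have : ‖(emb y - x) i‖ ^ 2 ≤ ∑ j, ‖(emb y - x) j‖ ^ 2 :=
        Finset.single_le_sum (f := fun j => ‖(emb y - x) j‖ ^ 2) (fun j _ => sq_nonneg _)
          (Finset.mem_univ i)
      exact this
    rw [Real.norm_eq_abs] at h2
    exact h2.trans hy
  have h3 : (emb y - x) i = (y i : ℝ) - x i := by simp [emb]
  rw [h3, abs_le] at h1
  rw [Finset.mem_Icc]
  refine ⟨Int.ceil_le.2 ?_, Int.le_floor.2 ?_⟩ <;> linarith [h1.1, h1.2]

theorem card_ballW (x : Vec d) {w : ℝ} (hw : 0 ≤ w) : ((ballW x w).card : ℝ) ≤ (2 * w + 1) ^ d := by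
  classical
  unfold ballW
  rw [Fintype.card_piFinset]
  push_cast
  calc ∏ i : Fin d, ((Finset.Icc ⌈x i - w⌉ ⌊x i + w⌋).card : ℝ)
      ≤ ∏ _i : Fin d, (2 * w + 1) := by
        refine Finset.prod_le_prod (fun i _ => Nat.cast_nonneg _) fun i _ => ?_
        rw [Int.card_Icc]
        rcases le_or_gt (⌊x i + w⌋ + 1 - ⌈x i - w⌉) 0 with h0 | h0
        · rw [Int.toNat_of_nonpos h0]
          push_cast
          linarith
        · have h1 : ((⌊x i + w⌋ + 1 - ⌈x i - w⌉).toNat : ℝ) =
              ((⌊x i + w⌋ + 1 - ⌈x i - w⌉ : ℤ) : ℝ) := by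
            have := Int.toNat_of_nonneg h0.le
            exact_mod_cast this
          rw [h1]
          push_cast
          have h2 := Int.floor_le (x i + w)
          have h3 := Int.le_ceil (x i - w)
          linarith
    _ = (2 * w + 1) ^ d := by simp

theorem integrable_PolT72 [IsProbabilityMeasure ρ] (β : ℝ) (h : Vec d) {n : ℕ}
    (E : Set (Fin n → Step d)) : Integrable (fun η => PolT β h η E) (law d ρ) := by
  refine Integrable.of_bound (measurable_PolT β h E).aestronglyMeasurable 1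
    (Eventually.of_forall fun η => ?_)
  rw [Real.norm_eq_abs, abs_of_nonneg (PolT_nonneg _ _ _ _)]
  exact PolT_le_one _ _ _ _

/-- The window property from the polymer measure. -/
theorem win_of_pol [IsProbabilityMeasure ρ] {L t : ℕ} (ht : t ≤ L) (h v : Vec d) {w δ : ℝ}
    (hw : 0 ≤ w)
    (hδ : ∫ η, (1 - PolT β h η {s : Fin L → Step d | ‖emb (pos s t) - (t : ℝ) • v‖ ≤ w})
      ∂(law d ρ) ≤ δ) : Win ρ β h L t ((2 * w + 1) ^ d) δ := by
  refine ⟨ballW ((t : ℝ) • v) w, card_ballW _ hw, le_trans ?_ hδ⟩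
  have h3 : (fun η : Env d => 1 - ∑ y ∈ ballW ((t : ℝ) • v) w, Qt β h L t y η) =
      fun η => 1 - PolT β h η {s : Fin L → Step d | pos s t ∈ ballW ((t : ℝ) • v) w} := by
    funext η
    rw [sum_Qt ht]
  rw [h3]
  refine integral_mono ((integrable_const 1).sub (integrable_PolT72 β h _))
    ((integrable_const 1).sub (integrable_PolT72 β h _)) fun η => ?_
  have h2 := PolT_mono β h η (show {s : Fin L → Step d | ‖emb (pos s t) - (t : ℝ) • v‖ ≤ w} ⊆
    {s : Fin L → Step d | pos s t ∈ ballW ((t : ℝ) • v) w} from fun s hs => mem_ballW hs)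
  simp only
  linarith

/-- The window property is monotone. -/
theorem Win.mono {h : Vec d} {L t : ℕ} {N N' δ : ℝ} (hW : Win ρ β h L t N δ) (hN : N ≤ N') :
    Win ρ β h L t N' δ := by
  obtain ⟨W, h1, h2⟩ := hW
  exact ⟨W, h1.trans hN, h2⟩

/-- The variances and the windows of `a n` sites cannot both be bounded: every tilt of very strong
disorder, every dimension. -/
theorem notBoth72 (hM : MainQ d ρ β) {h : Vec d} (hh : VSD ρ β h) (K a : ℝ)
    (hV : ∀ n : ℕ, Va ρ β h n ≤ K) :
    ∃ n₀ : ℕ, ∀ n : ℕ, n₀ ≤ n → ∃ t : ℕ, t < n ∧ ¬ Win ρ β h (2 * n) t (a * n) (1 / 32) := by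
  classical
  obtain ⟨c, hc, hM⟩ := hM (Real.log (Phi h) + Real.log (∫ t, Real.exp (β * t) ∂ρ) - lam ρ β h)
    (sub_pos.2 hh)
  have hM := hM h (by linarith)
  set a' : ℝ := max a 1 with ha'
  have ha1 : 0 < a' := lt_of_lt_of_le one_pos (le_max_right _ _)
  set K' : ℝ := max K 1 with hK'
  have hK1 : 0 < K' := lt_of_lt_of_le one_pos (le_max_right _ _)
  have hlim : Tendsto (fun n : ℕ => c * Real.log ((n : ℝ) / K')) atTop atTop := by
    refine Tendsto.const_mul_atTop hc (Real.tendsto_log_atTop.comp ?_)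
    exact (tendsto_natCast_atTop_atTop (R := ℝ)).atTop_div_const hK1
  obtain ⟨n₀, hn₀⟩ := eventually_atTop.1
    (hlim.eventually (eventually_gt_atTop (1 + Real.sqrt K' + K' * Real.sqrt a')))
  refine ⟨max n₀ 1, fun n hn => ?_⟩
  have hn1 : 1 ≤ n := (le_max_right _ _).trans hn
  have hn' : (0 : ℝ) < n := by exact_mod_cast hn1
  by_contra hcon
  push_neg at hcon
  have h1 := hM n hn1 K' (a' * n) (by positivity) (fun m _ => (hV m).trans (le_max_left _ _)) (by
    have h2 : (Finset.range n).filter (fun t => ¬ Win ρ β h (2 * n) t (a' * n) (1 / 32)) = ∅ := by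
      rw [Finset.filter_eq_empty_iff]
      intro t ht
      rw [not_not]
      exact (hcon t (Finset.mem_range.1 ht)).mono
        (mul_le_mul_of_nonneg_right (le_max_left _ _) hn'.le)
    rw [h2, Finset.card_empty]
    push_cast
    positivity)
  rw [mul_div_cancel_right₀ _ hn'.ne'] at h1
  exact absurd h1 (not_le.2 (hn₀ n ((le_max_left _ _).trans hn)))

end Pool.Agent.W_7d29a1_Q29
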