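import Pool.Agent.W_7d29a1_Q29.Defs29

/-!
Newman - Piza by duality, abstract form (N0, helper85): `c² ∑ E G_p² ≤ Var ω · Var F` if
`E[(ω_p - m) F | rest] ≥ c E[Q_p | rest]`, `G_p` does not depend on the site `p`, `E G_p Q_p =
E G_p²`, and for two different sites one of the two functions does not depend on the other site.
-/

namespace Pool.Agent.W_7d29a1_Q29

open MeasureTheory ProbabilityTheory Filter Topology Pool.Agent.W_MP_7d29a1_pr
  Pool.Agent.W_7d29a1_h46 Pool.Agent.W_7d29a1_h46u Pool.Agent.W_7d29a1_D2.B35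

namespace D85

variable {d : ℕ} {ρ : Measure ℝ} [IsProbabilityMeasure ρ]

lemma mp_coord (p : ℕ × Site d) : MeasurePreserving (fun g : Env d => g p) (law d ρ) ρ :=
  measurePreserving_eval_infinitePi (fun _ : ℕ × Site d => ρ) p

open Classical in
/-- Resampling one site preserves the law. -/
lemma mp_update (p : ℕ × Site d) :
    MeasurePreserving (fun w : Env d × ℝ => Function.update w.1 p w.2) ((law d ρ).prod ρ)
      (law d ρ) := by
  have hσ : Function.Injective (fun q : ℕ × Site d =>
      if q = p then (Sum.inr q : (ℕ × Site d) ⊕ (ℕ × Site d)) else Sum.inl q) := by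
    intro q q' h
    simp only at h
    split_ifs at h <;> simp_all
  have h1 : MeasurePreserving (fun w : Env d × Env d => fun q => Sum.elim w.1 w.2
      (if q = p then (Sum.inr q : (ℕ × Site d) ⊕ (ℕ × Site d)) else Sum.inl q))
      ((law d ρ).prod (law d ρ)) (law d ρ) := LawU_elim hσ
  have h2 : MeasurePreserving (fun w : Env d × Env d => (w.1, w.2 p)) ((law d ρ).prod (law d ρ))
      ((law d ρ).prod ρ) := (MeasurePreserving.id _).prod (mp_coord p)
  have hm : Measurable (fun w : Env d × ℝ => Function.update w.1 p w.2) := by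
    refine measurable_pi_iff.2 fun q => ?_
    by_cases hq : q = p
    · subst hq
      simp only [Function.update_self]
      exact measurable_snd
    · simp only [Function.update_of_ne hq]
      fun_prop
  refine ⟨hm, ?_⟩
  rw [← h2.map_eq, Measure.map_map hm h2.measurable]
  refine Eq.trans ?_ h1.map_eq
  congr 1
  funext w q
  by_cases hq : q = p
  · subst hq
    simp
  · simp [hq]

open Classical in
lemma integral_upd (p : ℕ × Site d) {F : Env d → ℝ} (hF : Integrable F (law d ρ)) :
    ∫ g, F g ∂(law d ρ) = ∫ g, ∫ u, F (Function.update g p u) ∂ρ ∂(law d ρ) := by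
  have h1 := mp_update (ρ := ρ) p
  have h2 : Integrable (fun w : Env d × ℝ => F (Function.update w.1 p w.2)) ((law d ρ).prod ρ) :=
    h1.integrable_comp_of_integrable hF
  rw [← integral_prod (fun w : Env d × ℝ => F (Function.update w.1 p w.2)) h2]
  exact (LawU_integral h1 hF.aestronglyMeasurable).symm

open Classical in
lemma integrable_upd (p : ℕ × Site d) {F : Env d → ℝ} (hF : Integrable F (law d ρ)) :
    Integrable (fun g => ∫ u, F (Function.update g p u) ∂ρ) (law d ρ) := by
  have h1 := mp_update (ρ := ρ) p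
  have h2 : Integrable (fun w : Env d × ℝ => F (Function.update w.1 p w.2)) ((law d ρ).prod ρ) :=
    h1.integrable_comp_of_integrable hF
  exact h2.integral_prod_left

open Classical in
lemma dep_upd {p : ℕ × Site d} {G : Env d → ℝ} (h : DependsOn G {p}ᶜ) (η : Env d) (r : ℝ) :
    G (Function.update η p r) = G η := by
  refine h fun q hq => ?_
  have : q ≠ p := hq
  rw [Function.update_of_ne this]

omit [IsProbabilityMeasure ρ] in
lemma em_id (hρ : EM ρ) : Integrable (fun t : ℝ => t) ρ := by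
  have h := (hρ 1).add (hρ (-1))
  refine h.mono' measurable_id.aestronglyMeasurable (Eventually.of_forall fun t => ?_)
  have h1 := Real.add_one_le_exp t
  have h2 := Real.add_one_le_exp (-t)
  have h3 := (Real.exp_pos t).le
  have h4 := (Real.exp_pos (-t)).le
  show ‖t‖ ≤ Real.exp (1 * t) + Real.exp (-1 * t)
  rw [Real.norm_eq_abs, one_mul, neg_one_mul, abs_le]
  constructor <;> linarith

omit [IsProbabilityMeasure ρ] in
lemma em_sq (hρ : EM ρ) : Integrable (fun t : ℝ => t ^ 2) ρ := by
  have h := ((hρ 1).add (hρ (-1))).const_mul 2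
  refine h.mono' (measurable_id.pow_const 2).aestronglyMeasurable
    (Eventually.of_forall fun t => ?_)
  show ‖t ^ 2‖ ≤ 2 * (Real.exp (1 * t) + Real.exp (-1 * t))
  rw [Real.norm_eq_abs, one_mul, neg_one_mul, abs_of_nonneg (sq_nonneg t)]
  have h3 := (Real.exp_pos t).le
  have h4 := (Real.exp_pos (-t)).le
  rcases le_total 0 t with ht | ht
  · have := Real.quadratic_le_exp_of_nonneg ht
    nlinarith
  · have := Real.quadratic_le_exp_of_nonneg (x := -t) (by linarith)
    nlinarith

lemma em_cen (hρ : EM ρ) : Integrable (fun t : ℝ => (t - ∫ s, s ∂ρ) ^ 2) ρ := by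
  have h : (fun t : ℝ => (t - ∫ s, s ∂ρ) ^ 2) =
      fun t : ℝ => t ^ 2 - 2 * (∫ s, s ∂ρ) * t + (∫ s, s ∂ρ) ^ 2 := by
    funext t
    ring
  rw [h]
  exact ((em_sq hρ).sub ((em_id hρ).const_mul _)).add (integrable_const _)

lemma cen_zero (hρ : EM ρ) : ∫ t, (t - ∫ s, s ∂ρ) ∂ρ = 0 := by
  rw [integral_sub (em_id hρ) (integrable_const _), integral_const]
  simp

/-- The centred site. -/
lemma memLp_site (hρ : EM ρ) (p : ℕ × Site d) :
    MemLp (fun η : Env d => η p - ∫ s, s ∂ρ) 2 (law d ρ) := by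
  rw [memLp_two_iff_integrable_sq]
  · exact (mp_coord (ρ := ρ) p).integrable_comp_of_integrable (em_cen hρ)
  · exact ((measurable_pi_apply p).sub_const _).aestronglyMeasurable

lemma memLp_T (hρ : EM ρ) (p : ℕ × Site d) {G : Env d → ℝ} (hGm : Measurable G)
    (hG : ∀ η, 0 ≤ G η ∧ G η ≤ 1) :
    MemLp (fun η : Env d => G η * (η p - ∫ s, s ∂ρ)) 2 (law d ρ) := by
  refine (memLp_site hρ p).mono
    (hGm.mul ((measurable_pi_apply p).sub_const _)).aestronglyMeasurable
    (Eventually.of_forall fun η => ?_)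
  rw [norm_mul, Real.norm_eq_abs, abs_of_nonneg (hG η).1]
  exact mul_le_of_le_one_left (norm_nonneg _) (hG η).2

open Classical in
/-- A function whose other factor does not depend on `p` is orthogonal to the centred site. -/
lemma orth (hρ : EM ρ) (p : ℕ × Site d) {H : Env d → ℝ} (hH : DependsOn H {p}ᶜ)
    (hi : Integrable (fun η : Env d => H η * (η p - ∫ s, s ∂ρ)) (law d ρ)) :
    ∫ η, H η * (η p - ∫ s, s ∂ρ) ∂(law d ρ) = 0 := by
  rw [integral_upd p hi]
  have h1 : ∀ η : Env d, ∫ r, H (Function.update η p r) *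
      (Function.update η p r p - ∫ s, s ∂ρ) ∂ρ = 0 := by
    intro η
    simp only [dep_upd hH, Function.update_self]
    rw [integral_const_mul, cen_zero hρ, mul_zero]
  simp only [h1, integral_zero]

end D85

open D85

open Classical in
theorem dual85 {d : ℕ} {ρ : Measure ℝ} [IsProbabilityMeasure ρ] (hρ : EM ρ)
    (I : Finset (ℕ × Site d)) (F : Env d → ℝ) (hF : Measurable F)
    (hF2 : Integrable (fun η => F η ^ 2) (law d ρ)) (G Q : ℕ × Site d → Env d → ℝ)
    (hGm : ∀ p ∈ I, Measurable (G p)) (hQm : ∀ p ∈ I, Measurable (Q p))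
    (hG : ∀ p ∈ I, ∀ η, 0 ≤ G p η ∧ G p η ≤ 1) (hQ : ∀ p ∈ I, ∀ η, 0 ≤ Q p η ∧ Q p η ≤ 1)
    (hdep : ∀ p ∈ I, DependsOn (G p) {p}ᶜ)
    (hO : ∀ p ∈ I, ∀ q ∈ I, p ≠ q → DependsOn (G q) {p}ᶜ ∨ DependsOn (G p) {q}ᶜ)
    (hGQ : ∀ p ∈ I, ∫ η, G p η * Q p η ∂(law d ρ) = ∫ η, G p η ^ 2 ∂(law d ρ))
    {c : ℝ} (hc : 0 ≤ c)
    (h1 : ∀ p ∈ I, ∀ η : Env d, c * ∫ r, Q p (Function.update η p r) ∂ρ ≤
      ∫ r, (r - ∫ s, s ∂ρ) * F (Function.update η p r) ∂ρ) (A0 : ℝ) :
    c ^ 2 * ∑ p ∈ I, ∫ η, G p η ^ 2 ∂(law d ρ) ≤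
      (∫ t, (t - ∫ s, s ∂ρ) ^ 2 ∂ρ) * ∫ η, (F η - A0) ^ 2 ∂(law d ρ) := by
  obtain ⟨m, hm⟩ : ∃ m, m = ∫ s, s ∂ρ := ⟨_, rfl⟩
  have hFL : MemLp F 2 (law d ρ) := by
    rw [memLp_two_iff_integrable_sq hF.aestronglyMeasurable]
    exact hF2
  have hFA : MemLp (fun η => F η - A0) 2 (law d ρ) := hFL.sub (memLp_const A0)
  have hT : ∀ p ∈ I, MemLp (fun η : Env d => G p η * (η p - m)) 2 (law d ρ) := by
    intro p hp
    rw [hm]
    exact memLp_T hρ p (hGm p hp) (hG p hp)
  have hS : MemLp (fun η : Env d => ∑ p ∈ I, G p η * (η p - m)) 2 (law d ρ) :=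
    memLp_finsetSum I hT
  -- dependence of the centred site
  have hsite : ∀ p q : ℕ × Site d, p ≠ q →
      DependsOn (fun η : Env d => η q - m) ({p}ᶜ : Set (ℕ × Site d)) := by
    intro p q hpq x y hxy
    have : q ∈ ({p}ᶜ : Set (ℕ × Site d)) := fun h => hpq h.symm
    show x q - m = y q - m
    rw [hxy q this]
  have hmul : ∀ {H K : Env d → ℝ} {S : Set (ℕ × Site d)}, DependsOn H S → DependsOn K S →
      DependsOn (fun η => H η * K η) S := by
    intro H K S hH hK x y hxy
    show H x * K x = H y * K y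
    rw [hH hxy, hK hxy]
  -- the second moment of the sum
  have hdiag : ∀ p ∈ I, ∫ η : Env d, (G p η * (η p - m)) * (G p η * (η p - m)) ∂(law d ρ) =
      (∫ t, (t - m) ^ 2 ∂ρ) * ∫ η, G p η ^ 2 ∂(law d ρ) := by
    intro p hp
    have hi : Integrable (fun η : Env d => (G p η * (η p - m)) * (G p η * (η p - m)))
        (law d ρ) := (hT p hp).integrable_mul (hT p hp)
    rw [integral_upd p hi]
    have h2 : ∀ η : Env d, ∫ r, (G p (Function.update η p r) * (Function.update η p r p - m)) *
        (G p (Function.update η p r) * (Function.update η p r p - m)) ∂ρ =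
        (∫ t, (t - m) ^ 2 ∂ρ) * G p η ^ 2 := by
      intro η
      simp only [dep_upd (hdep p hp), Function.update_self]
      rw [← integral_mul_const]
      refine integral_congr_ae (Eventually.of_forall fun r => ?_)
      ring
    simp only [h2]
    rw [integral_const_mul]
  have hoff : ∀ p ∈ I, ∀ q ∈ I, p ≠ q →
      ∫ η : Env d, (G p η * (η p - m)) * (G q η * (η q - m)) ∂(law d ρ) = 0 := by
    intro p hp q hq hpq
    have hi : Integrable (fun η : Env d => (G p η * (η p - m)) * (G q η * (η q - m)))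
        (law d ρ) := (hT p hp).integrable_mul (hT q hq)
    rcases hO p hp q hq hpq with h | h
    · have h2 : (fun η : Env d => (G p η * (η p - m)) * (G q η * (η q - m))) =
          fun η : Env d => (G p η * (G q η * (η q - m))) * (η p - ∫ s, s ∂ρ) := by
        funext η
        rw [← hm]
        ring
      rw [h2] at hi ⊢
      exact orth hρ p (hmul (hdep p hp) (hmul h (hsite p q hpq))) hi
    · have h2 : (fun η : Env d => (G p η * (η p - m)) * (G q η * (η q - m))) =
          fun η : Env d => (G q η * (G p η * (η p - m))) * (η q - ∫ s, s ∂ρ) := by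
        funext η
        rw [← hm]
        ring
      rw [h2] at hi ⊢
      exact orth hρ q (hmul (hdep q hq) (hmul h (hsite q p hpq.symm))) hi
  have hSS : ∫ η : Env d, (∑ p ∈ I, G p η * (η p - m)) ^ 2 ∂(law d ρ) =
      (∫ t, (t - m) ^ 2 ∂ρ) * ∑ p ∈ I, ∫ η, G p η ^ 2 ∂(law d ρ) := by
    have h2 : (fun η : Env d => (∑ p ∈ I, G p η * (η p - m)) ^ 2) =
        fun η => ∑ p ∈ I, ∑ q ∈ I, (G p η * (η p - m)) * (G q η * (η q - m)) := by
      funext η
      rw [sq, Finset.sum_mul_sum]
    rw [h2, integral_finsetSum]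
    · rw [Finset.mul_sum]
      refine Finset.sum_congr rfl fun p hp => ?_
      rw [integral_finsetSum]
      · rw [Finset.sum_eq_single_of_mem p hp, hdiag p hp]
        intro q hq hqp
        exact hoff p hp q hq hqp.symm
      · intro q hq
        exact (hT p hp).integrable_mul (hT q hq)
    · intro p hp
      refine integrable_finsetSum I fun q hq => ?_
      exact (hT p hp).integrable_mul (hT q hq)
  -- the mean of the sum against `F`
  have hTF : ∀ p ∈ I, c * ∫ η, G p η ^ 2 ∂(law d ρ) ≤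
      ∫ η : Env d, (G p η * (η p - m)) * (F η - A0) ∂(law d ρ) := by
    intro p hp
    have hi0 : Integrable (fun η : Env d => (G p η * (η p - m)) * F η) (law d ρ) :=
      (hT p hp).integrable_mul hFL
    have hi1 : Integrable (fun η : Env d => G p η * (η p - ∫ s, s ∂ρ)) (law d ρ) := by
      rw [← hm]
      exact (hT p hp).integrable (by norm_num)
    have h2 : ∫ η : Env d, (G p η * (η p - m)) * (F η - A0) ∂(law d ρ) =
        ∫ η : Env d, (G p η * (η p - m)) * F η ∂(law d ρ) := by
      have h3 : (fun η : Env d => (G p η * (η p - m)) * (F η - A0)) =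
          fun η : Env d => (G p η * (η p - m)) * F η - A0 * (G p η * (η p - ∫ s, s ∂ρ)) := by
        funext η
        rw [← hm]
        ring
      rw [h3, integral_sub hi0 (hi1.const_mul A0), integral_const_mul,
        orth hρ p (hdep p hp) hi1, mul_zero, sub_zero]
    have hGQi : Integrable (fun η => G p η * Q p η) (law d ρ) := by
      refine Integrable.mono' (integrable_const (1 : ℝ))
        ((hGm p hp).mul (hQm p hp)).aestronglyMeasurable (Eventually.of_forall fun η => ?_)
      rw [Real.norm_eq_abs, abs_of_nonneg (mul_nonneg (hG p hp η).1 (hQ p hp η).1)]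
      exact mul_le_one₀ (hG p hp η).2 (hQ p hp η).1 (hQ p hp η).2
    rw [h2, ← hGQ p hp, ← integral_const_mul, integral_upd p hi0]
    have hi2 : Integrable (fun η => c * (G p η * Q p η)) (law d ρ) := hGQi.const_mul c
    rw [integral_upd p hi2]
    refine integral_mono (integrable_upd p hi2) (integrable_upd p hi0) fun η => ?_
    show ∫ r, c * (G p (Function.update η p r) * Q p (Function.update η p r)) ∂ρ ≤
      ∫ r, (G p (Function.update η p r) * (Function.update η p r p - m)) *
        F (Function.update η p r) ∂ρ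
    simp only [dep_upd (hdep p hp), Function.update_self]
    have h4 : ∫ r, c * (G p η * Q p (Function.update η p r)) ∂ρ =
        G p η * (c * ∫ r, Q p (Function.update η p r) ∂ρ) := by
      rw [← integral_const_mul, ← integral_const_mul]
      refine integral_congr_ae (Eventually.of_forall fun r => ?_)
      show c * (G p η * Q p (Function.update η p r)) = G p η * (c * Q p (Function.update η p r))
      ring
    have h5 : ∫ r, (G p η * (r - m)) * F (Function.update η p r) ∂ρ =
        G p η * ∫ r, (r - ∫ s, s ∂ρ) * F (Function.update η p r) ∂ρ := by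
      rw [← integral_const_mul]
      refine integral_congr_ae (Eventually.of_forall fun r => ?_)
      show (G p η * (r - m)) * F (Function.update η p r) =
        G p η * ((r - ∫ s, s ∂ρ) * F (Function.update η p r))
      rw [← hm]
      ring
    rw [h4, h5]
    exact mul_le_mul_of_nonneg_left (h1 p hp η) (hG p hp η).1
  have hSF : c * ∑ p ∈ I, ∫ η, G p η ^ 2 ∂(law d ρ) ≤
      ∫ η : Env d, (∑ p ∈ I, G p η * (η p - m)) * (F η - A0) ∂(law d ρ) := by
    have h2 : (fun η : Env d => (∑ p ∈ I, G p η * (η p - m)) * (F η - A0)) =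
        fun η => ∑ p ∈ I, (G p η * (η p - m)) * (F η - A0) := by
      funext η
      rw [Finset.sum_mul]
    rw [h2, integral_finsetSum, Finset.mul_sum]
    · exact Finset.sum_le_sum hTF
    · intro p hp
      exact (hT p hp).integrable_mul hFA
  -- the quadratic inequality
  obtain ⟨Γ, hΓ⟩ : ∃ Γ, Γ = ∑ p ∈ I, ∫ η, G p η ^ 2 ∂(law d ρ) := ⟨_, rfl⟩
  obtain ⟨V, hV⟩ : ∃ V, V = ∫ η, (F η - A0) ^ 2 ∂(law d ρ) := ⟨_, rfl⟩
  obtain ⟨σ, hσ⟩ : ∃ σ, σ = ∫ t, (t - m) ^ 2 ∂ρ := ⟨_, rfl⟩
  rw [← hm, ← hΓ, ← hV, ← hσ]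
  rw [← hΓ] at hSF hSS
  rw [← hσ] at hSS
  have hΓ0 : 0 ≤ Γ := by
    rw [hΓ]
    exact Finset.sum_nonneg fun p _ => integral_nonneg fun η => sq_nonneg _
  have hσ0 : 0 ≤ σ := by
    rw [hσ]
    exact integral_nonneg fun t => sq_nonneg _
  have hV0 : 0 ≤ V := by
    rw [hV]
    exact integral_nonneg fun η => sq_nonneg _
  have key : ∀ a : ℝ, 0 ≤ a → 2 * a * (c * Γ) ≤ a ^ 2 * (σ * Γ) + V := by
    intro a ha
    have h2 : 0 ≤ ∫ η : Env d, (a * (∑ p ∈ I, G p η * (η p - m)) - (F η - A0)) ^ 2 ∂(law d ρ) :=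
      integral_nonneg fun η => sq_nonneg _
    have h3 : (fun η : Env d => (a * (∑ p ∈ I, G p η * (η p - m)) - (F η - A0)) ^ 2) =
        fun η => a ^ 2 * (∑ p ∈ I, G p η * (η p - m)) ^ 2 -
          2 * a * ((∑ p ∈ I, G p η * (η p - m)) * (F η - A0)) + (F η - A0) ^ 2 := by
      funext η
      ring
    have i1 : Integrable (fun η : Env d => (∑ p ∈ I, G p η * (η p - m)) ^ 2) (law d ρ) :=
      hS.integrable_sq
    have i2 : Integrable (fun η : Env d => (∑ p ∈ I, G p η * (η p - m)) * (F η - A0))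
        (law d ρ) := hS.integrable_mul hFA
    have i3 : Integrable (fun η : Env d => (F η - A0) ^ 2) (law d ρ) := hFA.integrable_sq
    have i4 : Integrable (fun η : Env d => a ^ 2 * (∑ p ∈ I, G p η * (η p - m)) ^ 2 -
        2 * a * ((∑ p ∈ I, G p η * (η p - m)) * (F η - A0))) (law d ρ) :=
      (i1.const_mul (a ^ 2)).sub (i2.const_mul (2 * a))
    rw [h3, integral_add i4 i3, integral_sub (i1.const_mul (a ^ 2)) (i2.const_mul (2 * a)),
      integral_const_mul, integral_const_mul, hSS, ← hV] at h2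
    have h6 := mul_le_mul_of_nonneg_left hSF (mul_nonneg (by norm_num : (0 : ℝ) ≤ 2) ha)
    linarith
  rcases hσ0.eq_or_lt with hs | hs
  · -- no variance
    have h7 : c * Γ ≤ 0 := by
      by_contra hcon
      push Not at hcon
      have h8 := key ((V + 1) / (c * Γ)) (by positivity)
      rw [← hs] at h8
      have h9 : 2 * ((V + 1) / (c * Γ)) * (c * Γ) = 2 * (V + 1) := by
        rw [mul_assoc, div_mul_cancel₀ _ hcon.ne']
      rw [h9] at h8
      linarith
    have h10 : c ^ 2 * Γ = c * (c * Γ) := by ring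
    rw [h10, ← hs, zero_mul]
    exact mul_nonpos_of_nonneg_of_nonpos hc h7
  · have h8 := key (c / σ) (by positivity)
    have h9 : 2 * (c / σ) * (c * Γ) = 2 * (c ^ 2 * Γ / σ) := by
      field_simp
    have h10 : (c / σ) ^ 2 * (σ * Γ) = c ^ 2 * Γ / σ := by
      field_simp
    rw [h9, h10] at h8
    have h11 : c ^ 2 * Γ / σ ≤ V := by linarith
    rw [div_le_iff₀ hs] at h11
    linarith

end Pool.Agent.W_7d29a1_Q29
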