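import Pool.Agent.W_7d29a1_Q29.Qf39
import Pool.Agent.W_7d29a1_Q29.Dual85
import Pool.Agent.W_7d29a1_h46u.ConcV

/-!
N2 backward: `∑_t E ∑_y E[Q_t(y) | rows > t]^2 ≤ C Var log Z_L`.
-/

namespace Pool.Agent.W_7d29a1_Q29

open MeasureTheory ProbabilityTheory Filter Topology Pool.Agent.W_MP_7d29a1_pr
  Pool.Agent.W_7d29a1_h46 Pool.Agent.W_7d29a1_h46u Pool.Agent.W_7d29a1_D2.B35

variable {d : ℕ} {ρ : Measure ℝ} [IsProbabilityMeasure ρ]

/-- The free energy is square integrable. -/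
lemma integrable_X_sq39 (hd : 0 < d) (hρ : EM ρ) (β : ℝ) (h : Vec d) (L : ℕ) :
    Integrable (fun η => X β h η L ^ 2) (law d ρ) := by
  rcases Nat.eq_zero_or_pos L with rfl | hL
  · have h1 : ∀ η : Env d, X β h η 0 ^ 2 = 0 := by
      intro η
      unfold X
      rw [Z_zero, Real.log_one]
      norm_num
    simp only [h1]
    exact integrable_const _
  · obtain ⟨C, _, hC⟩ := momU (ρ := ρ) hd hρ β 2
    have h1 := (hC h L hL).1
    have h2 : MemLp (fun η => X β h η L - A ρ β h L) 2 (law d ρ) := by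
      rw [memLp_two_iff_integrable_sq ((measurable_X β h L).sub_const _).aestronglyMeasurable]
      refine h1.congr (Eventually.of_forall fun η => ?_)
      show |X β h η L - A ρ β h L| ^ 2 = (X β h η L - A ρ β h L) ^ 2
      exact sq_abs _
    have h3 : MemLp (fun η => X β h η L) 2 (law d ρ) := by
      have := h2.add (memLp_const (A ρ β h L))
      refine this.ae_eq (Eventually.of_forall fun η => ?_)
      show X β h η L - A ρ β h L + A ρ β h L = X β h η L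
      ring
    rwa [memLp_two_iff_integrable_sq (measurable_X β h L).aestronglyMeasurable] at h3

/-- The duality bound for a family of conditional expectations of the marginals. -/
theorem npg39 (hd : 0 < d) (hρ : EM ρ) (hnc : ∀ c : ℝ, ρ {c} ≠ 1) {β : ℝ} (hβ : 0 < β) :
    ∃ C : ℝ, 0 ≤ C ∧ ∀ (h : Vec d) (L : ℕ) (I : Finset (ℕ × Site d))
      (T : ℕ × Site d → Set (ℕ × Site d)), (∀ p ∈ I, 1 ≤ p.1 ∧ p.1 ≤ L) →
      (∀ p ∈ I, p ∉ T p) → (∀ p ∈ I, ∀ q ∈ I, p ≠ q → p ∉ T q ∨ q ∉ T p) →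
      ∑ p ∈ I, ∫ η, (cE ρ (T p) (Qt β h L p.1 p.2) η) ^ 2 ∂(law d ρ) ≤ C * Va ρ β h L := by
  classical
  obtain ⟨c, hc, hsite⟩ := site39 (d := d) hd hρ hnc hβ
  set V : ℝ := ∫ t, (t - ∫ s, s ∂ρ) ^ 2 ∂ρ with hV
  have hV0 : 0 ≤ V := integral_nonneg fun _ => sq_nonneg _
  refine ⟨V / c ^ 2, by positivity, fun h L I T hI hT hO => ?_⟩
  have hb : ∀ p ∈ I, ∀ η, |Qt β h L p.1 p.2 η| ≤ 1 := by
    intro p hp η
    rw [abs_of_nonneg (Qt_nonneg39 _ _ _ _ _ _)]
    exact Qt_le_one39 β h (hI p hp).2 _ _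
  have hdep : ∀ (p q : ℕ × Site d), p ∉ T q →
      DependsOn (cE ρ (T q) (Qt β h L q.1 q.2)) {p}ᶜ := by
    intro p q hpq η η' hηη
    refine cE_dep (T q) _ fun r hr => hηη r ?_
    intro h1
    rw [Set.mem_singleton_iff] at h1
    exact hpq (h1 ▸ hr)
  have hmain := dual85 hρ I (fun η => X β h η L) (measurable_X β h L)
    (integrable_X_sq39 hd hρ β h L)
    (fun p => cE ρ (T p) (Qt β h L p.1 p.2)) (fun p => Qt β h L p.1 p.2)
    (fun p _ => measurable_cE (measurable_Qt39 β h L p.1 p.2) _)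
    (fun p _ => measurable_Qt39 β h L p.1 p.2)
    (fun p hp η => ⟨cE_nonneg (fun _ => Qt_nonneg39 _ _ _ _ _ _) _ _,
      cE_le (measurable_Qt39 β h L p.1 p.2) (fun _ => Qt_nonneg39 _ _ _ _ _ _)
        (fun _ => Qt_le_one39 β h (hI p hp).2 _ _) _ _⟩)
    (fun p hp η => ⟨Qt_nonneg39 _ _ _ _ _ _, Qt_le_one39 β h (hI p hp).2 _ _⟩)
    (fun p hp => hdep p p (hT p hp))
    (fun p hp q hq hpq => (hO p hp q hq hpq).imp (hdep p q) (hdep q p))
    (fun p hp => by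
      rw [int_cE_sq (T p) (measurable_Qt39 β h L p.1 p.2) (hb p hp)]
      refine integral_congr_ae (Eventually.of_forall fun η => ?_)
      show cE ρ (T p) (Qt β h L p.1 p.2) η * Qt β h L p.1 p.2 η = _
      ring)
    hc.le (fun p hp η => hsite h L p.1 p.2 η (hI p hp).1 (hI p hp).2) (A ρ β h L)
  have hVa : ∫ η, (X β h η L - A ρ β h L) ^ 2 ∂(law d ρ) = Va ρ β h L := rfl
  rw [hVa] at hmain
  have hc2 : 0 < c ^ 2 := by positivity
  rw [div_mul_eq_mul_div, le_div_iff₀ hc2]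
  calc (∑ p ∈ I, ∫ η, (cE ρ (T p) (Qt β h L p.1 p.2) η) ^ 2 ∂(law d ρ)) * c ^ 2
      = c ^ 2 * ∑ p ∈ I, ∫ η, (cE ρ (T p) (Qt β h L p.1 p.2) η) ^ 2 ∂(law d ρ) := by ring
    _ ≤ V * Va ρ β h L := hmain

lemma integrable_cE_sq39 (S : Set (ℕ × Site d)) (β : ℝ) (h : Vec d) {L t : ℕ} (htL : t ≤ L)
    (y : Site d) : Integrable (fun η => (cE ρ S (Qt β h L t y) η) ^ 2) (law d ρ) := by
  refine Integrable.mono' (integrable_const (1 : ℝ))
    ((measurable_cE (measurable_Qt39 β h L t y) S).pow_const 2).aestronglyMeasurable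
    (Eventually.of_forall fun η => ?_)
  have h0 := cE_nonneg (ρ := ρ) (fun η => Qt_nonneg39 β h L t y η) S η
  have h1 := cE_le (ρ := ρ) (measurable_Qt39 β h L t y) (fun η => Qt_nonneg39 β h L t y η)
    (fun η => Qt_le_one39 β h htL y η) S η
  rw [Real.norm_eq_abs, abs_of_nonneg (sq_nonneg _)]
  nlinarith

/-- N2, backward. -/
theorem npb39 (hd : 0 < d) (hρ : EM ρ) (hnc : ∀ c : ℝ, ρ {c} ≠ 1) {β : ℝ} (hβ : 0 < β) :
    NPB d ρ β := by
  classical
  obtain ⟨C, hC, hmain⟩ := npg39 (d := d) hd hρ hnc hβ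
  refine ⟨C, hC, fun h L => ?_⟩
  have h1 := hmain h L (Finset.Icc 1 L ×ˢ boxF d L) (fun p => (Pa d p.1)ᶜ)
    (fun p hp => Finset.mem_Icc.1 (Finset.mem_product.1 hp).1)
    (fun p _ hp => hp (show p.1 ≤ p.1 from le_rfl))
    (fun p _ q _ _ => by
      rcases le_total p.1 q.1 with h2 | h2
      · exact Or.inl fun h3 => h3 (show p.1 ≤ q.1 from h2)
      · exact Or.inr fun h3 => h3 (show q.1 ≤ p.1 from h2))
  rw [Finset.sum_product] at h1
  refine le_trans (le_of_eq ?_) h1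
  refine Finset.sum_congr rfl fun t ht => ?_
  rw [integral_finsetSum]
  intro y _
  exact integrable_cE_sq39 _ β h (Finset.mem_Icc.1 ht).2 y

end Pool.Agent.W_7d29a1_Q29
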