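import Pool.Agent.W_7d29a1_Q29.MainL72

/-!
The main inequality with balls of the polymer measure as windows.
-/

namespace Pool.Agent.W_7d29a1_Q29

open MeasureTheory ProbabilityTheory Filter Topology Pool.Agent.W_MP_7d29a1_pr
  Pool.Agent.W_7d29a1_h46 Pool.Agent.W_7d29a1_h46u Pool.Agent.W_7d29a1_D2.B35

variable {d : ℕ} {ρ : Measure ℝ} {β : ℝ}

/-- The window property from a ball. -/
theorem win_of_ball [IsProbabilityMeasure ρ] {L t : ℕ} (ht : t ≤ L) (h x : Vec d) {w δ : ℝ}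
    (hw : 0 ≤ w)
    (hδ : ∫ η, (1 - PolT β h η {s : Fin L → Step d | ‖emb (pos s t) - x‖ ≤ w})
      ∂(law d ρ) ≤ δ) : Win ρ β h L t ((2 * w + 1) ^ d) δ := by
  refine ⟨ballW x w, card_ballW _ hw, le_trans ?_ hδ⟩
  have h3 : (fun η : Env d => 1 - ∑ y ∈ ballW x w, Qt β h L t y η) =
      fun η => 1 - PolT β h η {s : Fin L → Step d | pos s t ∈ ballW x w} := by
    funext η
    rw [sum_Qt ht]
  rw [h3]
  refine integral_mono ((integrable_const 1).sub (integrable_PolT72 β h _))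
    ((integrable_const 1).sub (integrable_PolT72 β h _)) fun η => ?_
  have h2 := PolT_mono β h η (show {s : Fin L → Step d | ‖emb (pos s t) - x‖ ≤ w} ⊆
    {s : Fin L → Step d | pos s t ∈ ballW x w} from fun s hs => mem_ballW hs)
  simp only
  linarith

/-- Fluctuations against wandering: if at every time `t < n` the polymer of length `2 n` is in some
ball of radius `w` with averaged probability at least `31 / 32` then
`c log n ≤ (max_{m ≤ 2 n} Var log Z_m) √((2 w + 1) ^ d / n)`. -/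
theorem ballL72 [IsProbabilityMeasure ρ] (hL : MainL d ρ β) {g : ℝ} (hg : 0 < g) :
    ∃ c : ℝ, 0 < c ∧ ∀ h : Vec d,
      lam ρ β h + g ≤ Real.log (Phi h) + Real.log (∫ t, Real.exp (β * t) ∂ρ) →
      ∀ n : ℕ, 1 ≤ n → ∀ K w : ℝ, 0 ≤ w → (∀ m : ℕ, m ≤ 2 * n → Va ρ β h m ≤ K) →
        (∀ t : ℕ, t < n → ∃ x : Vec d, ∫ η, (1 - PolT β h η
          {s : Fin (2 * n) → Step d | ‖emb (pos s t) - x‖ ≤ w}) ∂(law d ρ) ≤ 1 / 32) →
        c * Real.log n ≤ K * Real.sqrt ((2 * w + 1) ^ d / n) := by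
  classical
  obtain ⟨c, hc, hL⟩ := hL g hg
  refine ⟨c, hc, fun h hh n hn K w hw hV hW => ?_⟩
  have hn' : (0 : ℝ) < n := by exact_mod_cast hn
  refine hL h hh n hn K ((2 * w + 1) ^ d) (by positivity) hV ?_
  have h2 : (Finset.range n).filter
      (fun t => ¬ Win ρ β h (2 * n) t ((2 * w + 1) ^ d) (1 / 32)) = ∅ := by
    rw [Finset.filter_eq_empty_iff]
    intro t ht
    rw [not_not]
    have htn := Finset.mem_range.1 ht
    obtain ⟨x, hx⟩ := hW t htn
    exact win_of_ball (by omega) h x hw hx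
  rw [h2, Finset.card_empty]
  push_cast
  positivity

/-- Bounded variances exclude diffusive tightness in dimension `2`, at every tilt of very strong
disorder. -/
theorem notBothBall72 {ρ : Measure ℝ} {β : ℝ} [IsProbabilityMeasure ρ] (hM : MainQ 2 ρ β)
    {h : Vec 2} (hh : VSD ρ β h) (K R : ℝ) (hR : 0 ≤ R) (hV : ∀ n : ℕ, Va ρ β h n ≤ K) :
    ∃ n₀ : ℕ, ∀ n : ℕ, n₀ ≤ n → ∃ t : ℕ, t < n ∧ ∀ x : Vec 2, 1 / 32 < ∫ η, (1 - PolT β h η
      {s : Fin (2 * n) → Step 2 | ‖emb (pos s t) - x‖ ≤ R * Real.sqrt n}) ∂(law 2 ρ) := by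
  obtain ⟨n₀, hn₀⟩ := notBoth72 hM hh K ((2 * R + 1) ^ 2) hV
  refine ⟨max n₀ 1, fun n hn => ?_⟩
  obtain ⟨t, ht, hW⟩ := hn₀ n ((le_max_left _ _).trans hn)
  have hn1 : (1 : ℝ) ≤ n := by exact_mod_cast (le_max_right _ _).trans hn
  refine ⟨t, ht, fun x => ?_⟩
  by_contra hcon
  push_neg at hcon
  refine hW ((win_of_ball (by omega) h x (by positivity) hcon).mono ?_)
  have h1 : 1 ≤ Real.sqrt n := by rw [Real.one_le_sqrt]; exact hn1
  have h2 : Real.sqrt n ^ 2 = n := Real.sq_sqrt (by linarith)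
  have h3 : 2 * (R * Real.sqrt n) + 1 ≤ (2 * R + 1) * Real.sqrt n := by nlinarith
  calc (2 * (R * Real.sqrt n) + 1) ^ 2 ≤ ((2 * R + 1) * Real.sqrt n) ^ 2 :=
        pow_le_pow_left₀ (by positivity) h3 2
    _ = (2 * R + 1) ^ 2 * n := by rw [mul_pow, h2]

end Pool.Agent.W_7d29a1_Q29
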