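import Pool.Agent.W_7d29a1_Q29.Defs29
import Pool.Agent.W_7d29a1_h46u.Walk

/-!
Assembly: the nonrandom gap and the main inequality from the two sums of Newman and Piza, the
localisation of the end point and the two estimates at one time.
-/

namespace Pool.Agent.W_7d29a1_Q29

open MeasureTheory ProbabilityTheory Filter Topology Pool.Agent.W_MP_7d29a1_pr
  Pool.Agent.W_7d29a1_h46 Pool.Agent.W_7d29a1_h46u Pool.Agent.W_7d29a1_D2.B35

/-- One time, upper bound of the nonrandom gap, with any constant. -/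
def UpB (d : ℕ) (ρ : Measure ℝ) (β B : ℝ) : Prop := ∀ (K N S : ℝ) (h : Vec d) (L t : ℕ), t ≤ L →
  Va ρ β h L ≤ K → Va ρ β h t ≤ K → Va ρ β h (L - t) ≤ K → Win ρ β h L t N (1 / 32) →
  ∫ η, ∑ y ∈ boxF d L, (cE ρ (Pa d t)ᶜ (Qt β h L t y) η) ^ 2 ∂(law d ρ) ≤ S →
    A ρ β h L - A ρ β h t - A ρ β h (L - t) ≤
      B * (1 + Real.sqrt K + Real.sqrt (K * N * S))

/-- Markov's inequality for a finite sum. -/
theorem card_markov {s : Finset ℕ} {f : ℕ → ℝ} (hf : ∀ t ∈ s, 0 ≤ f t) {S B : ℝ} (hS : 0 < S)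
    (hB : ∑ t ∈ s, f t ≤ B) : ((s.filter fun t => ¬ f t ≤ S).card : ℝ) * S ≤ B := by
  refine le_trans ?_ hB
  calc ((s.filter fun t => ¬ f t ≤ S).card : ℝ) * S
      = ∑ t ∈ s.filter (fun t => ¬ f t ≤ S), S := by rw [Finset.sum_const, nsmul_eq_mul]
    _ ≤ ∑ t ∈ s.filter (fun t => ¬ f t ≤ S), f t := by
        refine Finset.sum_le_sum fun t ht => ?_
        have := (Finset.mem_filter.1 ht).2
        exact (not_le.1 this).le
    _ ≤ ∑ t ∈ s, f t := Finset.sum_le_sum_of_subset_of_nonneg (Finset.filter_subset _ _)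
        fun t ht _ => hf t ht

variable {d : ℕ} {ρ : Measure ℝ} {β : ℝ}

theorem va_nonneg (h : Vec d) (L : ℕ) : 0 ≤ Va ρ β h L :=
  integral_nonneg fun _ => sq_nonneg _

theorem sum_sq_nonneg (h : Vec d) (L t : ℕ) (S : Set (ℕ × Site d)) :
    0 ≤ ∫ η, ∑ y ∈ boxF d L, (cE ρ S (Qt β h L t y) η) ^ 2 ∂(law d ρ) :=
  integral_nonneg fun _ => Finset.sum_nonneg fun _ _ => sq_nonneg _

open Classical in
/-- The nonrandom gap at a positive fraction of the times. -/
theorem gapQ72 (hF : NPF d ρ β) (hL : LocE d ρ β) (hG : LowP d ρ β) : GapQ d ρ β := by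
  obtain ⟨C₁, hC₁, hF⟩ := hF
  intro g hg
  obtain ⟨c₀, hc₀, hL⟩ := hL g hg
  have hD : (0 : ℝ) < 2 * (C₁ + 1) := by positivity
  refine ⟨c₀ / 2, |c₀ / 2 * Real.log (2 * (C₁ + 1) / c₀ ^ 4)|, by positivity, abs_nonneg _,
    fun h hh n hn K hK hV => ?_⟩
  have hL := hL h hh
  have hn' : (0 : ℝ) < n := by exact_mod_cast hn
  have hc₁ : c₀ ≤ 1 := by
    have h1 := hL 1
    have h2 : (((Finset.range 1).filter fun t =>
      c₀ ≤ (law d ρ).real {η | ∃ y ∈ boxF d t, c₀ * Z β h η t ≤ PP β h η t y}).card : ℝ) ≤ 1 := by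
      have := Finset.card_filter_le (Finset.range 1) (fun t =>
        c₀ ≤ (law d ρ).real {η | ∃ y ∈ boxF d t, c₀ * Z β h η t ≤ PP β h η t y})
      rw [Finset.card_range] at this
      exact_mod_cast this
    simp only [Nat.cast_one, mul_one] at h1
    linarith
  set S : ℝ := 2 * (C₁ + 1) * K / (c₀ * n) with hSdef
  have hS : 0 < S := by positivity
  set f : ℕ → ℝ := fun t =>
    ∫ η, ∑ y ∈ boxF d (2 * n), (cE ρ (Pa d t) (Qt β h (2 * n) t y) η) ^ 2 ∂(law d ρ) with hf
  have hfn : ∀ t, 0 ≤ f t := fun t => sum_sq_nonneg h (2 * n) t (Pa d t)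
  have hsum : ∑ t ∈ Finset.range n, f t ≤ (C₁ + 1) * K := by
    have h1 : ∑ t ∈ Finset.range n, f t ≤ ∑ t ∈ Finset.range (2 * n), f t :=
      Finset.sum_le_sum_of_subset_of_nonneg (Finset.range_mono (by omega)) fun t _ _ => hfn t
    have h2 := hF h (2 * n)
    have h3 : C₁ * Va ρ β h (2 * n) ≤ C₁ * K := mul_le_mul_of_nonneg_left hV hC₁
    have h4 : C₁ * K ≤ (C₁ + 1) * K := by nlinarith
    exact h1.trans (h2.trans (h3.trans h4))
  have hM := card_markov (s := Finset.range n) (fun t _ => hfn t) hS hsum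
  have hbad : (((Finset.range n).filter fun t => ¬ f t ≤ S).card : ℝ) ≤ c₀ / 2 * n := by
    have h1 : (c₀ / 2 * n) * S = (C₁ + 1) * K := by
      rw [hSdef]; field_simp
    have h2 : (((Finset.range n).filter fun t => ¬ f t ≤ S).card : ℝ) * S ≤ (c₀ / 2 * n) * S := by
      rw [h1]; exact hM
    exact le_of_mul_le_mul_right h2 hS
  have hsub : ((Finset.range n).filter fun t =>
      c₀ ≤ (law d ρ).real {η | ∃ y ∈ boxF d t, c₀ * Z β h η t ≤ PP β h η t y}) ⊆
      ((Finset.range n).filter fun t => c₀ / 2 * Real.log (n / K) ≤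
        |c₀ / 2 * Real.log (2 * (C₁ + 1) / c₀ ^ 4)| +
          (A ρ β h (2 * n) - A ρ β h t - A ρ β h (2 * n - t))) ∪
      ((Finset.range n).filter fun t => ¬ f t ≤ S) := by
    intro t ht
    rw [Finset.mem_filter] at ht
    rw [Finset.mem_union, Finset.mem_filter, Finset.mem_filter]
    by_cases hft : f t ≤ S
    · left
      refine ⟨ht.1, ?_⟩
      have htn : t ≤ 2 * n := by have := Finset.mem_range.1 ht.1; omega
      have h1 := hG c₀ S hc₀ hS h (2 * n) t htn ht.2 hft
      have h2 : Real.log (c₀ ^ 3 / S) =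
          Real.log (n / K) - Real.log (2 * (C₁ + 1) / c₀ ^ 4) := by
        rw [← Real.log_div (by positivity) (by positivity)]
        congr 1
        rw [hSdef]; field_simp
      rw [h2] at h1
      have h3 := le_abs_self (c₀ / 2 * Real.log (2 * (C₁ + 1) / c₀ ^ 4))
      linarith
    · right
      exact ⟨ht.1, hft⟩
  have hcard := (Finset.card_le_card hsub).trans (Finset.card_union_le _ _)
  have hcard' : (((Finset.range n).filter fun t =>
      c₀ ≤ (law d ρ).real {η | ∃ y ∈ boxF d t, c₀ * Z β h η t ≤ PP β h η t y}).card : ℝ) ≤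
      (((Finset.range n).filter fun t => c₀ / 2 * Real.log (n / K) ≤
        |c₀ / 2 * Real.log (2 * (C₁ + 1) / c₀ ^ 4)| +
          (A ρ β h (2 * n) - A ρ β h t - A ρ β h (2 * n - t))).card : ℝ) +
      (((Finset.range n).filter fun t => ¬ f t ≤ S).card : ℝ) := by exact_mod_cast hcard
  have := hL n
  linarith

open Classical in
/-- The main inequality. -/
theorem mainQ_of_upB [IsProbabilityMeasure ρ] (hF : NPF d ρ β) (hB : NPB d ρ β)
    (hL : LocE d ρ β) (hG : LowP d ρ β) {B : ℝ} (hB0 : 1 ≤ B) (hU : UpB d ρ β B) :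
    MainQ d ρ β := by
  obtain ⟨C₁, hC₁, hF⟩ := hF
  obtain ⟨C₂, hC₂, hB⟩ := hB
  intro g hg
  obtain ⟨c₀, hc₀, hL⟩ := hL g hg
  set D : ℝ := 8 * (C₁ + C₂ + 1) with hD
  have hDpos : 0 < D := by positivity
  set M : ℝ := B * (1 + c₀ * |Real.log (D / c₀ ^ 4)| + Real.sqrt (D / c₀)) with hM
  have hM1 : 1 ≤ M := by
    have h1 : 0 ≤ c₀ * |Real.log (D / c₀ ^ 4)| := by positivity
    have h2 : 0 ≤ Real.sqrt (D / c₀) := by positivity
    rw [hM]
    nlinarith
  have hMpos : 0 < M := by linarith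
  refine ⟨min (c₀ / 8) (c₀ / 2 / M), lt_min (by positivity) (by positivity),
    fun h hh n hn K N hN hV hW => ?_⟩
  have hn' : (0 : ℝ) < n := by exact_mod_cast hn
  have hK0 : 0 ≤ K := (va_nonneg (ρ := ρ) (β := β) h 0).trans (hV 0 (by omega))
  have hL := hL h hh
  set R : ℝ := 1 + Real.sqrt K + K * Real.sqrt (N / n) with hR
  have hR0 : 0 ≤ R := by positivity
  rcases hK0.eq_or_lt with hK | hK
  · have h0 : Real.log ((n : ℝ) / K) = 0 := by rw [← hK]; simp
    rw [h0, mul_zero]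
    exact hR0
  have hc₁ : c₀ ≤ 1 := by
    have h1 := hL 1
    have h2 : (((Finset.range 1).filter fun t =>
      c₀ ≤ (law d ρ).real {η | ∃ y ∈ boxF d t, c₀ * Z β h η t ≤ PP β h η t y}).card : ℝ) ≤ 1 := by
      have := Finset.card_filter_le (Finset.range 1) (fun t =>
        c₀ ≤ (law d ρ).real {η | ∃ y ∈ boxF d t, c₀ * Z β h η t ≤ PP β h η t y})
      rw [Finset.card_range] at this
      exact_mod_cast this
    simp only [Nat.cast_one, mul_one] at h1
    linarith
  set S : ℝ := D * K / (c₀ * n) with hSdef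
  have hS : 0 < S := by positivity
  set f : ℕ → ℝ := fun t =>
    ∫ η, ∑ y ∈ boxF d (2 * n), (cE ρ (Pa d t) (Qt β h (2 * n) t y) η) ^ 2 ∂(law d ρ) with hf
  set b : ℕ → ℝ := fun t =>
    ∫ η, ∑ y ∈ boxF d (2 * n), (cE ρ (Pa d t)ᶜ (Qt β h (2 * n) t y) η) ^ 2 ∂(law d ρ) with hb
  have hfn : ∀ t, 0 ≤ f t := fun t => sum_sq_nonneg h (2 * n) t (Pa d t)
  have hbn : ∀ t, 0 ≤ b t := fun t => sum_sq_nonneg h (2 * n) t (Pa d t)ᶜ
  have hV2 := hV (2 * n) le_rfl
  have hsumf : ∑ t ∈ Finset.range n, f t ≤ D / 8 * K := by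
    have h1 : ∑ t ∈ Finset.range n, f t ≤ ∑ t ∈ Finset.range (2 * n), f t :=
      Finset.sum_le_sum_of_subset_of_nonneg (Finset.range_mono (by omega)) fun t _ _ => hfn t
    have h2 := hF h (2 * n)
    have h3 : C₁ * Va ρ β h (2 * n) ≤ C₁ * K := mul_le_mul_of_nonneg_left hV2 hC₁
    have h4 : C₁ * K ≤ D / 8 * K := by rw [hD]; nlinarith
    exact h1.trans (h2.trans (h3.trans h4))
  have hsumb : ∑ t ∈ Finset.Ico 1 n, b t ≤ D / 8 * K := by
    have h1 : ∑ t ∈ Finset.Ico 1 n, b t ≤ ∑ t ∈ Finset.Icc 1 (2 * n), b t :=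
      Finset.sum_le_sum_of_subset_of_nonneg (fun t ht => by
        rw [Finset.mem_Ico] at ht; rw [Finset.mem_Icc]; omega) fun t _ _ => hbn t
    have h2 := hB h (2 * n)
    have h3 : C₂ * Va ρ β h (2 * n) ≤ C₂ * K := mul_le_mul_of_nonneg_left hV2 hC₂
    have h4 : C₂ * K ≤ D / 8 * K := by rw [hD]; nlinarith
    exact h1.trans (h2.trans (h3.trans h4))
  have hSn : (c₀ / 8 * n) * S = D / 8 * K := by rw [hSdef]; field_simp
  have hbadf : (((Finset.range n).filter fun t => ¬ f t ≤ S).card : ℝ) ≤ c₀ / 8 * n := by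
    have hM := card_markov (s := Finset.range n) (fun t _ => hfn t) hS hsumf
    rw [← hSn] at hM
    exact le_of_mul_le_mul_right hM hS
  have hbadb : (((Finset.Ico 1 n).filter fun t => ¬ b t ≤ S).card : ℝ) ≤ c₀ / 8 * n := by
    have hM := card_markov (s := Finset.Ico 1 n) (fun t _ => hbn t) hS hsumb
    rw [← hSn] at hM
    exact le_of_mul_le_mul_right hM hS
  have hbadW : (((Finset.range n).filter fun t => ¬ Win ρ β h (2 * n) t N (1 / 32)).card : ℝ) ≤
      c₀ / 8 * n := by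
    refine hW.trans ?_
    exact mul_le_mul_of_nonneg_right (min_le_left _ _) hn'.le
  obtain ⟨t, ht, hloc, htf, htb, htW⟩ : ∃ t ∈ Finset.range n,
      (c₀ ≤ (law d ρ).real {η | ∃ y ∈ boxF d t, c₀ * Z β h η t ≤ PP β h η t y}) ∧ f t ≤ S ∧
        (t ≠ 0 → b t ≤ S) ∧ Win ρ β h (2 * n) t N (1 / 32) := by
    by_contra hcon
    push_neg at hcon
    have hsub : ((Finset.range n).filter fun t =>
        c₀ ≤ (law d ρ).real {η | ∃ y ∈ boxF d t, c₀ * Z β h η t ≤ PP β h η t y}) ⊆
        (((Finset.range n).filter fun t => ¬ f t ≤ S) ∪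
        ((Finset.Ico 1 n).filter fun t => ¬ b t ≤ S)) ∪
        ((Finset.range n).filter fun t => ¬ Win ρ β h (2 * n) t N (1 / 32)) := by
      intro t ht
      rw [Finset.mem_filter] at ht
      rw [Finset.mem_union, Finset.mem_union, Finset.mem_filter, Finset.mem_filter,
        Finset.mem_filter]
      by_cases hft : f t ≤ S
      · by_cases hbt : t ≠ 0 → b t ≤ S
        · right
          exact ⟨ht.1, hcon t ht.1 ht.2 hft hbt⟩
        · left; right
          push_neg at hbt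
          refine ⟨?_, not_le.2 hbt.2⟩
          rw [Finset.mem_Ico]
          exact ⟨Nat.one_le_iff_ne_zero.2 hbt.1, Finset.mem_range.1 ht.1⟩
      · left; left
        exact ⟨ht.1, hft⟩
    have hcard := ((Finset.card_le_card hsub).trans (Finset.card_union_le _ _)).trans
      (Nat.add_le_add_right (Finset.card_union_le _ _) _)
    have hcard' : (((Finset.range n).filter fun t =>
        c₀ ≤ (law d ρ).real {η | ∃ y ∈ boxF d t, c₀ * Z β h η t ≤ PP β h η t y}).card : ℝ) ≤
        (((Finset.range n).filter fun t => ¬ f t ≤ S).card : ℝ) +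
        (((Finset.Ico 1 n).filter fun t => ¬ b t ≤ S).card : ℝ) +
        (((Finset.range n).filter fun t => ¬ Win ρ β h (2 * n) t N (1 / 32)).card : ℝ) := by
      exact_mod_cast hcard
    have h5 := hL n
    have h6 : 0 < c₀ * n := by positivity
    linarith
  have htn : t < n := Finset.mem_range.1 ht
  have h1 := hG c₀ S hc₀ hS h (2 * n) t (by omega) hloc htf
  have h2 : A ρ β h (2 * n) - A ρ β h t - A ρ β h (2 * n - t) ≤
      B * (1 + Real.sqrt K + Real.sqrt (K * N * S)) := by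
    rcases Nat.eq_zero_or_pos t with h0 | h0
    · subst h0
      have hA0 : A ρ β h 0 = 0 := by
        unfold A X
        simp [Z_zero]
      rw [hA0]
      have : (0 : ℝ) ≤ B * (1 + Real.sqrt K + Real.sqrt (K * N * S)) := by positivity
      simpa using this
    · exact hU K N S h (2 * n) t (by omega) hV2 (hV t (by omega)) (hV (2 * n - t) (by omega)) htW
        (htb (by omega))
  have hlog : Real.log (c₀ ^ 3 / S) = Real.log (n / K) - Real.log (D / c₀ ^ 4) := by
    rw [← Real.log_div (by positivity) (by positivity)]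
    congr 1
    rw [hSdef]; field_simp
  have hsq : Real.sqrt (K * N * S) = K * (Real.sqrt (D / c₀) * Real.sqrt (N / n)) := by
    have h3 : K * N * S = K ^ 2 * ((D / c₀) * (N / n)) := by rw [hSdef]; field_simp
    rw [h3, Real.sqrt_mul (sq_nonneg K), Real.sqrt_sq hK.le, Real.sqrt_mul (by positivity)]
  have h3 : c₀ / 2 * Real.log (n / K) ≤ M * R := by
    rw [hlog] at h1
    rw [hsq] at h2
    have h4 : c₀ / 2 * Real.log (D / c₀ ^ 4) ≤ c₀ * |Real.log (D / c₀ ^ 4)| := by
      have := le_abs_self (Real.log (D / c₀ ^ 4))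
      have h5 := abs_nonneg (Real.log (D / c₀ ^ 4))
      nlinarith
    have h6 : 0 ≤ Real.sqrt K := Real.sqrt_nonneg K
    have h7 : 0 ≤ K * Real.sqrt (N / n) := by positivity
    have h8 : 0 ≤ c₀ * |Real.log (D / c₀ ^ 4)| := by positivity
    have h9 : 0 ≤ Real.sqrt (D / c₀) := by positivity
    set x := c₀ * |Real.log (D / c₀ ^ 4)| with hx
    set q := Real.sqrt (D / c₀) with hq
    set y := K * Real.sqrt (N / n) with hy
    set z := Real.sqrt K with hz
    have h10 : K * (q * Real.sqrt (N / n)) = q * y := by rw [hy]; ring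
    rw [h10] at h2
    have h5 : c₀ / 2 * Real.log (n / K) ≤ B * (1 + z + q * y) + x := by linarith
    have h11 : B * (1 + z + q * y) + x ≤ B * (1 + x + q) * (1 + z + y) := by
      have e1 : B * (1 + x + q) * (1 + z + y) - (B * (1 + z + q * y) + x) =
          (B - 1) * x + B * (y + x * z + x * y + q + q * z) := by ring
      have e2 : 0 ≤ (B - 1) * x + B * (y + x * z + x * y + q + q * z) := by
        have := mul_nonneg (sub_nonneg.2 hB0) h8
        positivity
      linarith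
    rw [hM, hR]
    exact h5.trans h11
  rcases le_or_gt (Real.log (n / K)) 0 with hneg | hpos
  · have h4 : min (c₀ / 8) (c₀ / 2 / M) * Real.log (n / K) ≤ 0 :=
      mul_nonpos_of_nonneg_of_nonpos (le_min (by positivity) (by positivity)) hneg
    linarith
  · have h4 : min (c₀ / 8) (c₀ / 2 / M) * Real.log (n / K) ≤
        c₀ / 2 / M * Real.log (n / K) :=
      mul_le_mul_of_nonneg_right (min_le_right _ _) hpos.le
    refine h4.trans ?_
    rw [div_mul_eq_mul_div, div_le_iff₀ hMpos]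
    linarith

/-- The main inequality, over the frozen statements. -/
theorem mainQ72 [IsProbabilityMeasure ρ] (hF : NPF d ρ β) (hB : NPB d ρ β)
    (hL : LocE d ρ β) (hG : LowP d ρ β) (hU : UpP d ρ β) : MainQ d ρ β := by
  refine mainQ_of_upB hF hB hL hG (B := 4) (by norm_num) ?_
  intro K N S h L t ht hVL hVt hVLt hW hS
  have h1 := hU K N S h L t ht hVL hVt hVLt hW hS
  have h2 := Real.sqrt_nonneg K
  have h3 := Real.sqrt_nonneg (K * N * S)
  linarith

end Pool.Agent.W_7d29a1_Q29
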