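import Pool.Agent.W_7d29a1_D2.Blk35
import Pool.Agent.W_7d29a1_h46u.LawU

/-!
Fluctuations against wandering: definitions and frozen statements of the leaves.
-/

namespace Pool.Agent.W_7d29a1_Q29

open MeasureTheory ProbabilityTheory Filter Topology Pool.Agent.W_MP_7d29a1_pr
  Pool.Agent.W_7d29a1_h46 Pool.Agent.W_7d29a1_h46u Pool.Agent.W_7d29a1_D2.B35

open Classical in
/-- The environment `η` on the sites of `S`, the environment `ξ` on the other sites. -/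
noncomputable def spl {d : ℕ} (S : Set (ℕ × Site d)) (η ξ : Env d) : Env d :=
  fun p => if p ∈ S then η p else ξ p

/-- The conditional expectation of `F` given the sites of `S`. -/
noncomputable def cE {d : ℕ} (ρ : Measure ℝ) (S : Set (ℕ × Site d)) (F : Env d → ℝ) (η : Env d) :
    ℝ := ∫ ξ, F (spl S η ξ) ∂(law d ρ)

/-- The sites of the rows `≤ t`. -/
def Pa (d t : ℕ) : Set (ℕ × Site d) := {p | p.1 ≤ t}

/-- The law of `S_t` under the polymer measure of length `L`. -/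
noncomputable def Qt {d : ℕ} (β : ℝ) (h : Vec d) (L t : ℕ) (y : Site d) (η : Env d) : ℝ :=
  PP β h η t y * Z β h (sh t y η) (L - t) / Z β h η L

/-- The variance of the free energy. -/
noncomputable def Va {d : ℕ} (ρ : Measure ℝ) (β : ℝ) (h : Vec d) (L : ℕ) : ℝ :=
  ∫ η, (X β h η L - A ρ β h L) ^ 2 ∂(law d ρ)

/-- The sum of the weights of the steps. -/
noncomputable def Phi {d : ℕ} (h : Vec d) : ℝ := ∑ e : Step d, Real.exp (inner ℝ h (emb (vec e)))

/-- Very strong disorder at the tilt `h`. -/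
def VSD {d : ℕ} (ρ : Measure ℝ) (β : ℝ) (h : Vec d) : Prop :=
  lam ρ β h < Real.log (Phi h) + Real.log (∫ t, Real.exp (β * t) ∂ρ)

section Leaves

variable (d : ℕ) (ρ : Measure ℝ) (β : ℝ)

/-- N2, backward: the future does not know the position. -/
def NPB : Prop := ∃ C : ℝ, 0 ≤ C ∧ ∀ (h : Vec d) (L : ℕ),
  ∑ t ∈ Finset.Icc 1 L, ∫ η, ∑ y ∈ boxF d L, (cE ρ (Pa d t)ᶜ (Qt β h L t y) η) ^ 2 ∂(law d ρ) ≤
    C * Va ρ β h L

/-- N2, forward: the past does not know the position. -/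
def NPF : Prop := ∃ C : ℝ, 0 ≤ C ∧ ∀ (h : Vec d) (L : ℕ),
  ∑ t ∈ Finset.range L, ∫ η, ∑ y ∈ boxF d L, (cE ρ (Pa d t) (Qt β h L t y) η) ^ 2 ∂(law d ρ) ≤
    C * Va ρ β h L

open Classical in
/-- N3: the end point is localised at a positive fraction of the times, uniformly in the tilt when
the gap is at least `g`. -/
def LocE : Prop := ∀ g : ℝ, 0 < g → ∃ c₀ : ℝ, 0 < c₀ ∧ ∀ h : Vec d,
  lam ρ β h + g ≤ Real.log (Phi h) + Real.log (∫ t, Real.exp (β * t) ∂ρ) → ∀ n : ℕ,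
  c₀ * n ≤ (((Finset.range n).filter fun t =>
    c₀ ≤ (law d ρ).real {η | ∃ y ∈ boxF d t, c₀ * Z β h η t ≤ PP β h η t y}).card : ℝ)

/-- The window property at the time `t` for the polymer of length `L`. -/
def Win {d : ℕ} (ρ : Measure ℝ) (β : ℝ) (h : Vec d) (L t : ℕ) (N δ : ℝ) : Prop :=
  ∃ W : Finset (Site d), (W.card : ℝ) ≤ N ∧
    ∫ η, (1 - ∑ y ∈ W, Qt β h L t y η) ∂(law d ρ) ≤ δ

/-- N5, lower half: localisation and forward Newman-Piza make the gap large. -/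
def LowP : Prop := ∀ (c₀ S : ℝ), 0 < c₀ → 0 < S → ∀ (h : Vec d) (L t : ℕ), t ≤ L →
  c₀ ≤ (law d ρ).real {η | ∃ y ∈ boxF d t, c₀ * Z β h η t ≤ PP β h η t y} →
  ∫ η, ∑ y ∈ boxF d L, (cE ρ (Pa d t) (Qt β h L t y) η) ^ 2 ∂(law d ρ) ≤ S →
    c₀ / 2 * Real.log (c₀ ^ 3 / S) ≤ A ρ β h L - A ρ β h t - A ρ β h (L - t)

/-- N5, upper half: a window and backward Newman-Piza make the gap small. -/
def UpP : Prop := ∀ (K N S : ℝ) (h : Vec d) (L t : ℕ), t ≤ L →
  Va ρ β h L ≤ K → Va ρ β h t ≤ K → Va ρ β h (L - t) ≤ K → Win ρ β h L t N (1 / 32) →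
  ∫ η, ∑ y ∈ boxF d L, (cE ρ (Pa d t)ᶜ (Qt β h L t y) η) ^ 2 ∂(law d ρ) ≤ S →
    A ρ β h L - A ρ β h t - A ρ β h (L - t) ≤ 2 + 4 * Real.sqrt K + 4 * Real.sqrt (K * N * S)

/-- N6, first half: the nonrandom gap: for a positive fraction of the times `t < n` the mean free
energy of length `2n` exceeds the two parts by a multiple of `log (n / K)`, `K` the variance. -/
def GapQ : Prop := ∀ g : ℝ, 0 < g → ∃ c C : ℝ, 0 < c ∧ 0 ≤ C ∧ ∀ h : Vec d,
  lam ρ β h + g ≤ Real.log (Phi h) + Real.log (∫ t, Real.exp (β * t) ∂ρ) → ∀ n : ℕ, 1 ≤ n →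
    ∀ K : ℝ, 0 < K → Va ρ β h (2 * n) ≤ K →
      c * n ≤ (((Finset.range n).filter fun t => c * Real.log (n / K) ≤
        C + (A ρ β h (2 * n) - A ρ β h t - A ρ β h (2 * n - t))).card : ℝ)

open Classical in
/-- N6, second half: the main inequality, the constant depends on the gap only. -/
def MainQ : Prop := ∀ g : ℝ, 0 < g → ∃ c : ℝ, 0 < c ∧ ∀ h : Vec d,
  lam ρ β h + g ≤ Real.log (Phi h) + Real.log (∫ t, Real.exp (β * t) ∂ρ) → ∀ n : ℕ, 1 ≤ n →
    ∀ K N : ℝ, 0 < N → (∀ m : ℕ, m ≤ 2 * n → Va ρ β h m ≤ K) →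
      (((Finset.range n).filter fun t => ¬ Win ρ β h (2 * n) t N (1 / 32)).card : ℝ) ≤ c * n →
        c * Real.log (n / K) ≤ 1 + Real.sqrt K + K * Real.sqrt (N / n)

end Leaves

end Pool.Agent.W_7d29a1_Q29
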