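import Pool.Agent.W_7d29a1_Q29.Csy42
import Pool.Agent.W_7d29a1_Q29.Defs29

/-!
Localisation of the end point in very strong disorder: a positive fraction of the times.
-/

namespace Pool.Agent.W_7d29a1_Q29.Csy42

open MeasureTheory ProbabilityTheory Filter Topology Pool.Agent.W_MP_7d29a1_pr
  Pool.Agent.W_7d29a1_h46 Pool.Agent.W_7d29a1_h46u Pool.Agent.W_7d29a1_D2
  Pool.Agent.W_7d29a1_D2.B35 Pool.Agent.W_7d29a1_V.Law2

variable {d : ℕ} {ρ : Measure ℝ} [IsProbabilityMeasure ρ]

/-- The weight of a step. -/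
noncomputable def Ew (h : Vec d) (e : Step d) : ℝ := Real.exp (inner ℝ h (emb (vec e)))

/-- The weight of the site `z` in the row `t + 1` before the row `t + 1` is seen. -/
noncomputable def Rw (β : ℝ) (h : Vec d) (t : ℕ) (η : Env d) (z : Site d) : ℝ :=
  ∑ e : Step d, Ew h e * PP β h η t (z - vec e)

lemma Ew_pos (h : Vec d) (e : Step d) : 0 < Ew h e := Real.exp_pos _

lemma Rw_nonneg (β : ℝ) (h : Vec d) (t : ℕ) (η : Env d) (z : Site d) : 0 ≤ Rw β h t η z :=
  Finset.sum_nonneg fun _ _ => mul_nonneg (Ew_pos _ _).le (PP_nonneg _ _ _ _ _)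

lemma box_step {t : ℕ} (q : Fin t → Step d) (e : Step d) : pos q t + vec e ∈ boxF d (t + 1) := by
  rw [mem_boxF]
  intro i
  have h1 := mem_boxF.1 (pos_mem_box q t) i
  have h2 : |(vec e) i| ≤ 1 := by
    unfold vec
    by_cases hi : i = e.1
    · subst hi
      rw [Pi.single_eq_same]
      split_ifs <;> simp
    · rw [Pi.single_eq_of_ne hi]
      simp
  have h3 : (pos q t + vec e) i = pos q t i + (vec e) i := rfl
  rw [h3]
  push_cast
  exact (abs_add_le _ _).trans (add_le_add h1 h2)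

lemma Rw_sum (β : ℝ) (h : Vec d) (t : ℕ) (η : Env d) (g : Site d → ℝ) :
    ∑ z ∈ boxF d (t + 1), Rw β h t η z * g z =
      ∑ q : Fin t → Step d, ∑ e : Step d, wgt β h η q * (Ew h e * g (pos q t + vec e)) := by
  classical
  unfold Rw PP ZT
  simp only [Finset.mul_sum, Finset.sum_mul]
  rw [Finset.sum_comm]
  rw [Finset.sum_comm (s := (Finset.univ : Finset (Fin t → Step d)))]
  refine Finset.sum_congr rfl fun e _ => ?_
  rw [Finset.sum_comm]
  refine Finset.sum_congr rfl fun q _ => ?_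
  rw [Finset.sum_eq_single (pos q t + vec e)]
  · rw [if_pos (show q ∈ {s : Fin t → Step d | pos s t = pos q t + vec e - vec e} from
      (add_sub_cancel_right _ _).symm)]
    ring
  · intro z _ hz
    rw [if_neg]
    · ring
    · intro hq
      have h1 : pos q t = z - vec e := hq
      exact hz (by rw [h1, sub_add_cancel])
  · intro hb
    exact absurd (box_step q e) hb

lemma Z_one (β : ℝ) (h : Vec d) (η : Env d) :
    Z β h η 1 = ∑ e : Step d, Ew h e * Real.exp (β * η (1, vec e)) := by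
  rw [Z_eq]
  refine Fintype.sum_equiv (Equiv.funUnique (Fin 1) (Step d)) _ _ fun q => ?_
  have h1 : pos q 1 = vec (q 0) := by
    unfold pos
    simp
  have h2 : (Equiv.funUnique (Fin 1) (Step d)) q = q 0 := rfl
  rw [h2]
  unfold wgt Ew energy
  rw [← Real.exp_add, h1, Fin.sum_univ_one]
  have h3 : pos q (((0 : Fin 1) : ℕ) + 1) = vec (q 0) := h1
  rw [h3]
  simp only [Fin.val_zero, zero_add]

lemma Z_succ (β : ℝ) (h : Vec d) (η : Env d) (t : ℕ) :
    Z β h η (t + 1) = ∑ z ∈ boxF d (t + 1), Rw β h t η z * Real.exp (β * η (t + 1, z)) := by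
  rw [Rw_sum, Z_add]
  refine Finset.sum_congr rfl fun q _ => ?_
  rw [Z_one, Finset.mul_sum]
  refine Finset.sum_congr rfl fun e _ => ?_
  unfold sh
  simp only
  rw [add_comm 1 t, add_comm (vec e) (pos q t)]

lemma Rw_tot (β : ℝ) (h : Vec d) (t : ℕ) (η : Env d) :
    ∑ z ∈ boxF d (t + 1), Rw β h t η z = Phi h * Z β h η t := by
  have h1 := Rw_sum β h t η (fun _ => 1)
  simp only [mul_one] at h1
  rw [h1, Z_eq, Finset.mul_sum]
  refine Finset.sum_congr rfl fun q _ => ?_
  rw [← Finset.mul_sum, mul_comm]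
  rfl

lemma PP_sp (β : ℝ) (h : Vec d) (t : ℕ) (y : Site d) (η ξ : Env d) :
    PP β h (sp {p : ℕ × Site d | p.1 ≤ t} η ξ) t y = PP β h η t y := by
  classical
  unfold PP ZT
  refine Finset.sum_congr rfl fun q _ => ?_
  have h1 : energy (sp {p : ℕ × Site d | p.1 ≤ t} η ξ) q = energy η q := by
    unfold energy
    refine Finset.sum_congr rfl fun i _ => sp_mem ?_
    change (i : ℕ) + 1 ≤ t
    exact i.2
  have h2 : wgt β h (sp {p : ℕ × Site d | p.1 ≤ t} η ξ) q = wgt β h η q := by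
    unfold wgt
    rw [h1]
  rw [h2]

lemma Z_sp (β : ℝ) (h : Vec d) (t : ℕ) (η ξ : Env d) :
    Z β h (sp {p : ℕ × Site d | p.1 ≤ t} η ξ) (t + 1) =
      ∑ z ∈ boxF d (t + 1), Rw β h t η z * Real.exp (β * ξ (t + 1, z)) := by
  rw [Z_succ]
  refine Finset.sum_congr rfl fun z _ => ?_
  unfold Rw
  simp only [PP_sp]
  rw [sp_not (show ((t + 1, z) : ℕ × Site d) ∉ {p : ℕ × Site d | p.1 ≤ t} from
    fun hc => absurd (show t + 1 ≤ t from hc) (by omega))]

/-- The mean overlap of two polymers in the row `t + 1` before this row is seen. -/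
noncomputable def It (β : ℝ) (h : Vec d) (t : ℕ) (η : Env d) : ℝ :=
  ∑ z ∈ boxF d (t + 1), (Rw β h t η z / ∑ z ∈ boxF d (t + 1), Rw β h t η z) ^ 2

lemma Phi_pos (hd : 0 < d) (h : Vec d) : 0 < Phi h :=
  Finset.sum_pos (fun _ _ => Real.exp_pos _) ⟨(⟨0, hd⟩, true), Finset.mem_univ _⟩

lemma Rw_tot_pos (hd : 0 < d) (β : ℝ) (h : Vec d) (t : ℕ) (η : Env d) :
    0 < ∑ z ∈ boxF d (t + 1), Rw β h t η z := by
  rw [Rw_tot]
  exact mul_pos (Phi_pos hd h) (Z_pos hd β h η t)

lemma It_nonneg (β : ℝ) (h : Vec d) (t : ℕ) (η : Env d) : 0 ≤ It β h t η :=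
  Finset.sum_nonneg fun _ _ => sq_nonneg _

lemma It_le_of (hd : 0 < d) (β : ℝ) (h : Vec d) (t : ℕ) (η : Env d) {c : ℝ}
    (hc : ∀ z ∈ boxF d (t + 1), Rw β h t η z / ∑ z ∈ boxF d (t + 1), Rw β h t η z ≤ c) :
    It β h t η ≤ c := by
  have hT := Rw_tot_pos hd β h t η
  have h1 : ∑ z ∈ boxF d (t + 1), Rw β h t η z / ∑ z ∈ boxF d (t + 1), Rw β h t η z = 1 := by
    rw [← Finset.sum_div, div_self hT.ne']
  calc It β h t η ≤ ∑ z ∈ boxF d (t + 1),
        c * (Rw β h t η z / ∑ z ∈ boxF d (t + 1), Rw β h t η z) := by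
        refine Finset.sum_le_sum fun z hz => ?_
        rw [sq]
        exact mul_le_mul_of_nonneg_right (hc z hz) (div_nonneg (Rw_nonneg _ _ _ _ _) hT.le)
    _ = c := by rw [← Finset.mul_sum, h1, mul_one]

lemma It_le_one (hd : 0 < d) (β : ℝ) (h : Vec d) (t : ℕ) (η : Env d) : It β h t η ≤ 1 := by
  have hT := Rw_tot_pos hd β h t η
  refine It_le_of hd β h t η fun z hz => ?_
  rw [div_le_one hT]
  exact Finset.single_le_sum (f := fun z => Rw β h t η z) (fun z _ => Rw_nonneg _ _ _ _ _) hz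

lemma It_meas (β : ℝ) (h : Vec d) (t : ℕ) : Measurable fun η : Env d => It β h t η := by
  have h1 : ∀ z, Measurable fun η : Env d => Rw β h t η z := fun z =>
    Finset.measurable_sum _ fun e _ => (measurable_ZT β h _).const_mul _
  unfold It
  exact Finset.measurable_sum _ fun z _ =>
    ((h1 z).div (Finset.measurable_sum _ fun z _ => h1 z)).pow_const 2

lemma sqrt_It_int (hd : 0 < d) (β : ℝ) (h : Vec d) (t : ℕ) :
    Integrable (fun η : Env d => Real.sqrt (It β h t η)) (law d ρ) := by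
  refine (integrable_const (1 : ℝ)).mono'
    (Real.continuous_sqrt.measurable.comp (It_meas β h t)).aestronglyMeasurable
    (Filter.Eventually.of_forall fun η => ?_)
  rw [Real.norm_eq_abs, abs_of_nonneg (Real.sqrt_nonneg _)]
  exact Real.sqrt_le_one.2 (It_le_one hd β h t η)

/-- One step of the mean free energy. -/
theorem step_A (hd : 0 < d) (hρ : EM ρ) (β : ℝ) (h : Vec d) (t : ℕ) :
    A ρ β h t + Real.log (Phi h) + cb ρ β -
      Cr ρ β * ∫ η, Real.sqrt (It β h t η) ∂(law d ρ) ≤ A ρ β h (t + 1) := by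
  have hmp := mp_sp (J := ℕ × Site d) (ρ := ρ) {p : ℕ × Site d | p.1 ≤ t}
  have hXi : Integrable (fun η : Env d => X β h η (t + 1)) (law d ρ) :=
    (concU hd hρ β h (t + 1)).1
  have h1 : A ρ β h (t + 1) = ∫ w : Env d × Env d,
      X β h (sp {p : ℕ × Site d | p.1 ≤ t} w.1 w.2) (t + 1) ∂((law d ρ).prod (law d ρ)) :=
    (LawU_integral hmp (F := fun η : Env d => X β h η (t + 1))
      (measurable_X β h (t + 1)).aestronglyMeasurable).symm
  have h2 : Integrable (fun w : Env d × Env d =>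
      X β h (sp {p : ℕ × Site d | p.1 ≤ t} w.1 w.2) (t + 1)) ((law d ρ).prod (law d ρ)) :=
    hmp.integrable_comp_of_integrable hXi
  rw [h1, integral_prod _ h2]
  have h3 : Integrable (fun η : Env d => ∫ ξ : Env d,
      X β h (sp {p : ℕ × Site d | p.1 ≤ t} η ξ) (t + 1) ∂(law d ρ)) (law d ρ) :=
    h2.integral_prod_left
  have hs := sqrt_It_int (ρ := ρ) hd β h t
  have hXt : Integrable (fun η : Env d => X β h η t) (law d ρ) := (concU hd hρ β h t).1
  have e1 : Integrable (fun η : Env d => X β h η t + (Real.log (Phi h) + cb ρ β)) (law d ρ) :=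
    hXt.add (integrable_const _)
  have e2 : Integrable (fun η : Env d => Cr ρ β * Real.sqrt (It β h t η)) (law d ρ) :=
    hs.const_mul _
  have h4 : ∫ η : Env d, (X β h η t + (Real.log (Phi h) + cb ρ β) -
      Cr ρ β * Real.sqrt (It β h t η)) ∂(law d ρ) ≤ ∫ η : Env d, ∫ ξ : Env d,
      X β h (sp {p : ℕ × Site d | p.1 ≤ t} η ξ) (t + 1) ∂(law d ρ) ∂(law d ρ) := by
    refine integral_mono (e1.sub e2) h3 fun η => ?_
    have h5 := (row_log (d := d) hρ β (t + 1) (boxF d (t + 1)) (Rw β h t η)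
      (fun z _ => Rw_nonneg _ _ _ _ _) (Rw_tot_pos hd β h t η)).2
    rw [Rw_tot, Real.log_mul (Phi_pos hd h).ne' (Z_pos hd β h η t).ne', ← Rw_tot] at h5
    have h6 : ∀ ξ : Env d, X β h (sp {p : ℕ × Site d | p.1 ≤ t} η ξ) (t + 1) =
        Real.log (∑ z ∈ boxF d (t + 1), Rw β h t η z * Real.exp (β * ξ (t + 1, z))) := by
      intro ξ
      unfold X
      rw [Z_sp]
    simp only [h6]
    refine le_trans (le_of_eq ?_) h5
    unfold X It
    ring
  rw [integral_sub e1 e2, integral_add hXt (integrable_const _), integral_const,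
    integral_const_mul] at h4
  simp only [probReal_univ, one_smul] at h4
  unfold A
  linarith

theorem sum_A (hd : 0 < d) (hρ : EM ρ) (β : ℝ) (h : Vec d) (n : ℕ) :
    n * (Real.log (Phi h) + cb ρ β) -
      Cr ρ β * ∑ t ∈ Finset.range n, ∫ η, Real.sqrt (It β h t η) ∂(law d ρ) ≤ A ρ β h n := by
  induction n with
  | zero =>
    have h1 : ∀ η : Env d, X β h η 0 = 0 := by
      intro η
      rw [X, Z_zero, Real.log_one]
    have h2 : A ρ β h 0 = 0 := by
      unfold A
      simp only [h1]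
      exact integral_zero _ _
    rw [h2]
    simp
  | succ n ih =>
    have h1 := step_A hd hρ β h n
    rw [Finset.sum_range_succ, mul_add]
    push_cast
    linarith

/-- A site with a large part of the mass. -/
lemma It_loc (hd : 0 < d) (β : ℝ) (h : Vec d) (t : ℕ) (η : Env d) {c : ℝ} (hc : 0 < c)
    (hI : c < It β h t η) : ∃ y ∈ boxF d t, c * Z β h η t ≤ PP β h η t y := by
  classical
  have hT := Rw_tot_pos hd β h t η
  have hZ := Z_pos hd β h η t
  have h1 : ∃ z ∈ boxF d (t + 1),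
      c < Rw β h t η z / ∑ z ∈ boxF d (t + 1), Rw β h t η z := by
    by_contra hcon
    push Not at hcon
    exact absurd (It_le_of hd β h t η hcon) (not_le.2 hI)
  obtain ⟨z, _, hz⟩ := h1
  rw [lt_div_iff₀ hT, Rw_tot] at hz
  have h2 : ∃ e : Step d, c * Z β h η t ≤ PP β h η t (z - vec e) := by
    by_contra hcon
    push Not at hcon
    have h3 : Rw β h t η z ≤ c * (Phi h * Z β h η t) := by
      have h4 : c * (Phi h * Z β h η t) = ∑ e : Step d, Ew h e * (c * Z β h η t) := by
        rw [← Finset.sum_mul]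
        unfold Phi Ew
        ring
      rw [h4]
      exact Finset.sum_le_sum fun e _ => mul_le_mul_of_nonneg_left (hcon e).le (Ew_pos _ _).le
    linarith
  obtain ⟨e, he⟩ := h2
  refine ⟨z - vec e, ?_, he⟩
  by_contra hb
  have h5 : PP β h η t (z - vec e) = 0 := by
    unfold PP ZT
    refine Finset.sum_eq_zero fun q _ => if_neg fun hq => hb ?_
    have h6 : pos q t = z - vec e := hq
    rw [← h6]
    exact pos_mem_box q t
  rw [h5] at he
  have h7 := mul_pos hc hZ
  linarith

/-- N3. -/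
theorem loc42 (hd : 0 < d) (hρ : EM ρ) (β : ℝ) : LocE d ρ β := by
  classical
  intro g hg
  have hCr := Cr_nonneg (ρ := ρ) β
  obtain ⟨C, hC⟩ : ∃ C : ℝ, C = Cr ρ β + 1 := ⟨_, rfl⟩
  have hC0 : 0 < C := by
    rw [hC]
    linarith
  obtain ⟨θ, hθ⟩ : ∃ θ : ℝ, θ = g / (2 * C) := ⟨_, rfl⟩
  have hθ0 : 0 < θ := by
    rw [hθ]
    positivity
  have hθC : g = 2 * C * θ := by
    rw [hθ]
    field_simp
  obtain ⟨c₁, hc₁⟩ : ∃ c₁ : ℝ, c₁ = (θ / 2) ^ 2 := ⟨_, rfl⟩
  have hc₁0 : 0 < c₁ := by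
    rw [hc₁]
    positivity
  refine ⟨min (θ / 2) (c₁ / 2), lt_min (by linarith) (by linarith), fun h hh n => ?_⟩
  obtain ⟨c₀, hc₀⟩ : ∃ c₀ : ℝ, c₀ = min (θ / 2) (c₁ / 2) := ⟨_, rfl⟩
  rw [← hc₀]
  have hc₀θ : c₀ ≤ θ / 2 := by
    rw [hc₀]
    exact min_le_left _ _
  have hc₀1 : c₀ ≤ c₁ / 2 := by
    rw [hc₀]
    exact min_le_right _ _
  have hc₀0 : 0 < c₀ := by
    rw [hc₀]
    exact lt_min (by linarith) (by linarith)
  obtain ⟨b, hb⟩ : ∃ b : ℕ → ℝ, b = fun t => ∫ η, Real.sqrt (It β h t η) ∂(law d ρ) := ⟨_, rfl⟩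
  have hb0 : ∀ t, 0 ≤ b t := fun t => by
    rw [hb]
    exact integral_nonneg fun η => Real.sqrt_nonneg _
  have hb1 : ∀ t, b t ≤ 1 := fun t => by
    rw [hb]
    have h1 : ∫ η, Real.sqrt (It β h t η) ∂(law d ρ) ≤ ∫ _ : Env d, (1 : ℝ) ∂(law d ρ) :=
      integral_mono (sqrt_It_int hd β h t) (integrable_const _) fun η =>
        Real.sqrt_le_one.2 (It_le_one hd β h t η)
    rw [integral_const] at h1
    simpa using h1
  -- the sum
  have hsum : n * g ≤ C * ∑ t ∈ Finset.range n, b t := by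
    have h1 := sum_A hd hρ β h n
    have h2 := A_le_lam hd hρ β h n
    have h3 : (n : ℝ) * (lam ρ β h + g) ≤ n * (Real.log (Phi h) + cb ρ β) :=
      mul_le_mul_of_nonneg_left hh (Nat.cast_nonneg n)
    have h4 : 0 ≤ ∑ t ∈ Finset.range n, b t := Finset.sum_nonneg fun t _ => hb0 t
    have h5 : Cr ρ β * ∑ t ∈ Finset.range n, b t ≤ C * ∑ t ∈ Finset.range n, b t :=
      mul_le_mul_of_nonneg_right (by rw [hC]; linarith) h4
    have h6 : ∑ t ∈ Finset.range n, ∫ η, Real.sqrt (It β h t η) ∂(law d ρ) =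
        ∑ t ∈ Finset.range n, b t := by rw [hb]
    rw [h6] at h1
    rw [mul_add] at h3
    linarith
  have hcount : (n : ℝ) * θ ≤ (((Finset.range n).filter fun t => θ ≤ b t).card : ℝ) := by
    have h1 : ∑ t ∈ Finset.range n, b t ≤
        (((Finset.range n).filter fun t => θ ≤ b t).card : ℝ) + n * θ := by
      have h2 : ∀ t ∈ Finset.range n, b t ≤ (if θ ≤ b t then 1 else 0) + θ := by
        intro t _
        split_ifs with h3
        · linarith [hb1 t]
        · linarith
      refine (Finset.sum_le_sum h2).trans (le_of_eq ?_)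
      rw [Finset.sum_add_distrib, Finset.sum_const, Finset.card_range, nsmul_eq_mul,
        Finset.sum_ite, Finset.sum_const_zero, add_zero, Finset.sum_const, nsmul_eq_mul, mul_one]
    have h4 : n * g ≤ C * ((((Finset.range n).filter fun t => θ ≤ b t).card : ℝ) + n * θ) :=
      hsum.trans (mul_le_mul_of_nonneg_left h1 hC0.le)
    rw [hθC] at h4
    have h5 : C * (n * θ) ≤ C * (((Finset.range n).filter fun t => θ ≤ b t).card : ℝ) := by
      nlinarith
    exact le_of_mul_le_mul_left h5 hC0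
  have hsub : ((Finset.range n).filter fun t => θ ≤ b t) ⊆ (Finset.range n).filter fun t =>
      c₀ ≤ (law d ρ).real {η | ∃ y ∈ boxF d t, c₀ * Z β h η t ≤ PP β h η t y} := by
    intro t ht
    rw [Finset.mem_filter] at ht ⊢
    refine ⟨ht.1, ?_⟩
    have hms : MeasurableSet {η : Env d | c₁ ≤ It β h t η} :=
      measurableSet_le measurable_const (It_meas β h t)
    have h1 : b t ≤ θ / 2 + (law d ρ).real {η : Env d | c₁ ≤ It β h t η} := by
      have h2 : ∫ η, Real.sqrt (It β h t η) ∂(law d ρ) ≤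
          ∫ η, (θ / 2 + {η : Env d | c₁ ≤ It β h t η}.indicator (fun _ => (1 : ℝ)) η)
            ∂(law d ρ) := by
        refine integral_mono (sqrt_It_int hd β h t) ((integrable_const _).add
          ((integrable_const (1 : ℝ)).indicator hms)) fun η => ?_
        by_cases h3 : η ∈ {η : Env d | c₁ ≤ It β h t η}
        · rw [Set.indicator_of_mem h3]
          have := Real.sqrt_le_one.2 (It_le_one hd β h t η)
          linarith
        · rw [Set.indicator_of_notMem h3, add_zero]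
          have h4 : It β h t η < c₁ := not_le.1 h3
          have h5 : Real.sqrt (It β h t η) ≤ Real.sqrt c₁ := Real.sqrt_le_sqrt h4.le
          rw [hc₁, Real.sqrt_sq (by linarith)] at h5
          exact h5
      rw [integral_add (integrable_const _) ((integrable_const (1 : ℝ)).indicator hms),
        integral_const, integral_indicator_const _ hms] at h2
      simp only [probReal_univ, smul_eq_mul, mul_one, one_mul] at h2
      rw [hb]
      exact h2
    have h6 : (law d ρ).real {η : Env d | c₁ ≤ It β h t η} ≤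
        (law d ρ).real {η | ∃ y ∈ boxF d t, c₀ * Z β h η t ≤ PP β h η t y} := by
      refine measureReal_mono (fun η hη => ?_) (measure_ne_top _ _)
      have h7 : c₁ ≤ It β h t η := hη
      exact It_loc hd β h t η hc₀0 (by linarith)
    have h8 := ht.2
    linarith
  have h9 : (((Finset.range n).filter fun t => θ ≤ b t).card : ℝ) ≤
      (((Finset.range n).filter fun t => c₀ ≤ (law d ρ).real
        {η | ∃ y ∈ boxF d t, c₀ * Z β h η t ≤ PP β h η t y}).card : ℝ) := by
    exact_mod_cast Finset.card_le_card hsub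
  have h10 : c₀ * n ≤ n * θ := by
    have : c₀ ≤ θ := by linarith
    rw [mul_comm]
    exact mul_le_mul_of_nonneg_left this (Nat.cast_nonneg n)
  refine (h10.trans (hcount.trans h9)).trans (le_of_eq ?_)
  congr!

end Pool.Agent.W_7d29a1_Q29.Csy42
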