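import Pool.Agent.W_7d29a1_Q29.Npf98
import Pool.Agent.W_7d29a1_Q29.Loc42
import Pool.Agent.W_7d29a1_Q29.Poly85
import Pool.Agent.W_7d29a1_Q29.Asm72

/-!
`GapQ` and `MainQ` with no hypothesis left (helper85).
-/

namespace Pool.Agent.W_7d29a1_Q29

open MeasureTheory ProbabilityTheory Filter Topology Pool.Agent.W_MP_7d29a1_pr
  Pool.Agent.W_7d29a1_h46 Pool.Agent.W_7d29a1_h46u Pool.Agent.W_7d29a1_D2.B35

variable {d : ℕ} {ρ : Measure ℝ} [IsProbabilityMeasure ρ]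

/-- The nonrandom gap at a positive fraction of the times. -/
theorem gapQ85 (hd : 0 < d) (hρ : EM ρ) (hnc : ∀ c : ℝ, ρ {c} ≠ 1) {β : ℝ} (hβ : 0 < β) :
    GapQ d ρ β :=
  gapQ72 (npf98 hd hρ hnc hβ) (Csy42.loc42 hd hρ β) (lowP85 hd hρ β)

/-- Fluctuations against wandering. -/
theorem mainQ85 (hd : 0 < d) (hρ : EM ρ) (hnc : ∀ c : ℝ, ρ {c} ≠ 1) {β : ℝ} (hβ : 0 < β) :
    MainQ d ρ β :=
  mainQ72 (npf98 hd hρ hnc hβ) (npb98 hd hρ hnc hβ) (Csy42.loc42 hd hρ β) (lowP85 hd hρ β)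
    (upP85 hd hρ β)

end Pool.Agent.W_7d29a1_Q29
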