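import Pool.Agent.W_7d29a1_Q29.Brid72
import Pool.Agent.W_7d29a1_Q29.Qf39

/-!
The main inequality in the form `c log n ≤ K √(N / n)`.
-/

namespace Pool.Agent.W_7d29a1_Q29

open MeasureTheory ProbabilityTheory Filter Topology Pool.Agent.W_MP_7d29a1_pr
  Pool.Agent.W_7d29a1_h46 Pool.Agent.W_7d29a1_h46u Pool.Agent.W_7d29a1_D2.B35

variable {d : ℕ} {ρ : Measure ℝ} {β : ℝ}

theorem abs_Qt_le72 {L t : ℕ} (ht : t ≤ L) (h : Vec d) (y : Site d) (η : Env d) :
    |Qt β h L t y η| ≤ 1 := by
  rw [abs_of_nonneg (Qt_nonneg39 β h L t y η)]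
  exact Qt_le_one39 β h ht y η

theorem int_cE72 [IsProbabilityMeasure ρ] {L t : ℕ} (ht : t ≤ L) (h : Vec d) (y : Site d)
    (S : Set (ℕ × Site d)) : Integrable (cE ρ S (Qt β h L t y)) (law d ρ) := by
  refine Integrable.mono' (integrable_const 1)
    (measurable_cE (measurable_Qt39 β h L t y) S).aestronglyMeasurable
    (Eventually.of_forall fun η => ?_)
  rw [Real.norm_eq_abs]
  exact cE_abs_le (fun η => abs_Qt_le72 ht h y η) S η

theorem int_cE_sq72 [IsProbabilityMeasure ρ] {L t : ℕ} (ht : t ≤ L) (h : Vec d) (y : Site d)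
    (S : Set (ℕ × Site d)) :
    Integrable (fun η => (cE ρ S (Qt β h L t y) η) ^ 2) (law d ρ) := by
  refine Integrable.mono' (integrable_const 1)
    ((measurable_cE (measurable_Qt39 β h L t y) S).pow_const 2).aestronglyMeasurable
    (Eventually.of_forall fun η => ?_)
  rw [Real.norm_eq_abs, abs_pow]
  have h1 := cE_abs_le (ρ := ρ) (fun η => abs_Qt_le72 (β := β) ht h y η) S η
  exact pow_le_one₀ (abs_nonneg _) h1

theorem int_Qt72 [IsProbabilityMeasure ρ] {L t : ℕ} (ht : t ≤ L) (h : Vec d) (y : Site d) :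
    Integrable (Qt β h L t y) (law d ρ) := by
  refine Integrable.mono' (integrable_const 1) (measurable_Qt39 β h L t y).aestronglyMeasurable
    (Eventually.of_forall fun η => ?_)
  rw [Real.norm_eq_abs]
  exact abs_Qt_le72 ht h y η

/-- A window with small leakage and a small sum of squares: many sites. -/
theorem win_np72 [IsProbabilityMeasure ρ] {L t : ℕ} (ht : t ≤ L) (h : Vec d) {N S : ℝ}
    (hW : Win ρ β h L t N (1 / 32)) (G : Set (ℕ × Site d))
    (hS : ∫ η, ∑ y ∈ boxF d L, (cE ρ G (Qt β h L t y) η) ^ 2 ∂(law d ρ) ≤ S) :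
    1 / 2 ≤ N * S := by
  classical
  obtain ⟨W, hWN, hWd⟩ := hW
  set W' := W.filter (· ∈ boxF d L) with hW'
  set m : Site d → ℝ := fun y => ∫ η, Qt β h L t y η ∂(law d ρ) with hm
  have hS0 : 0 ≤ S := le_trans (integral_nonneg fun η => Finset.sum_nonneg fun y _ => sq_nonneg _) hS
  have h1 : ∀ η : Env d, ∑ y ∈ W, Qt β h L t y η = ∑ y ∈ W', Qt β h L t y η := by
    intro η
    rw [hW', Finset.sum_filter]
    refine Finset.sum_congr rfl fun y _ => ?_
    split_ifs with hy
    · rfl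
    · exact Qt_off39 β h ht (fun h2 => hy (TubV_box ht h2)) η
  have h2 : 31 / 32 ≤ ∑ y ∈ W', m y := by
    have h3 : ∫ η, (1 - ∑ y ∈ W, Qt β h L t y η) ∂(law d ρ) = 1 - ∑ y ∈ W', m y := by
      simp_rw [h1]
      rw [integral_sub (integrable_const _) (integrable_finset_sum _ fun y _ => int_Qt72 ht h y),
        integral_finset_sum _ fun y _ => int_Qt72 ht h y]
      simp [hm]
    rw [h3] at hWd
    linarith
  have h4 : ∀ y, m y ^ 2 ≤ ∫ η, (cE ρ G (Qt β h L t y) η) ^ 2 ∂(law d ρ) := by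
    intro y
    have e1 : ∫ η, cE ρ G (Qt β h L t y) η ∂(law d ρ) = m y := int_cE G (int_Qt72 ht h y)
    have e2 : ∫ η, (2 * m y * cE ρ G (Qt β h L t y) η - m y ^ 2) ∂(law d ρ) = m y ^ 2 := by
      rw [integral_sub ((int_cE72 ht h y G).const_mul _) (integrable_const _),
        integral_const_mul, e1]
      simp
      ring
    rw [← e2]
    refine integral_mono (((int_cE72 ht h y G).const_mul _).sub (integrable_const _))
      (int_cE_sq72 ht h y G) fun η => ?_
    simp only
    nlinarith [sq_nonneg (cE ρ G (Qt β h L t y) η - m y)]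
  have h5 : (∑ y ∈ W', m y) ^ 2 ≤ (W'.card : ℝ) * ∑ y ∈ W', m y ^ 2 := sq_sum_le_card_mul_sum_sq
  have h6 : ∑ y ∈ W', m y ^ 2 ≤ S := by
    refine le_trans ?_ hS
    rw [integral_finset_sum _ fun y _ => int_cE_sq72 ht h y G]
    refine (Finset.sum_le_sum fun y _ => h4 y).trans ?_
    refine Finset.sum_le_sum_of_subset_of_nonneg (fun y hy => (Finset.mem_filter.1 hy).2)
      fun y _ _ => integral_nonneg fun η => sq_nonneg _
  have h7 : (W'.card : ℝ) ≤ N := by
    refine le_trans ?_ hWN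
    exact_mod_cast Finset.card_filter_le _ _
  have h8 : (W'.card : ℝ) * ∑ y ∈ W', m y ^ 2 ≤ N * S :=
    mul_le_mul h7 h6 (Finset.sum_nonneg fun y _ => sq_nonneg _)
      (le_trans (Nat.cast_nonneg _) h7)
  nlinarith

open Classical in
/-- The main inequality without lower order terms. -/
def MainL (d : ℕ) (ρ : Measure ℝ) (β : ℝ) : Prop := ∀ g : ℝ, 0 < g → ∃ c : ℝ, 0 < c ∧
  ∀ h : Vec d, lam ρ β h + g ≤ Real.log (Phi h) + Real.log (∫ t, Real.exp (β * t) ∂ρ) →
    ∀ n : ℕ, 1 ≤ n → ∀ K N : ℝ, 0 < N → (∀ m : ℕ, m ≤ 2 * n → Va ρ β h m ≤ K) →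
      (((Finset.range n).filter fun t => ¬ Win ρ β h (2 * n) t N (1 / 32)).card : ℝ) ≤ c * n →
        c * Real.log n ≤ K * Real.sqrt (N / n)

open Classical in
theorem mainL72 [IsProbabilityMeasure ρ] (hd : 0 < d) (hF : NPF d ρ β) (hM : MainQ d ρ β) :
    MainL d ρ β := by
  obtain ⟨C₁, hC₁, hF⟩ := hF
  intro g hg
  obtain ⟨c₁, hc₁, hM⟩ := hM g hg
  set κ : ℝ := 1 / (8 * (C₁ + 1)) with hκ
  have hκ0 : 0 < κ := by positivity
  set M : ℝ := 1 + 1 / κ + 1 / Real.sqrt κ + 1 / Real.sqrt κ with hMdef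
  have hM0 : 0 < M := by positivity
  refine ⟨min (min c₁ (1 / 4)) (min (c₁ / (2 * M)) (Real.sqrt κ / 4)),
    lt_min (lt_min hc₁ (by norm_num)) (lt_min (by positivity) (by positivity)),
    fun h hh n hn K N hN hV hW => ?_⟩
  have hn' : (0 : ℝ) < n := by exact_mod_cast hn
  have hn1 : (1 : ℝ) ≤ n := by exact_mod_cast hn
  have hlogn : 0 ≤ Real.log n := Real.log_nonneg hn1
  have hV2 := hV (2 * n) le_rfl
  set f : ℕ → ℝ := fun t =>
    ∫ η, ∑ y ∈ boxF d (2 * n), (cE ρ (Pa d t) (Qt β h (2 * n) t y) η) ^ 2 ∂(law d ρ) with hf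
  have hfn : ∀ t, 0 ≤ f t := fun t => sum_sq_nonneg h (2 * n) t (Pa d t)
  -- `K` is bounded below
  have hf0 : 1 ≤ f 0 := by
    have e1 : ∀ η : Env d, Qt β h (2 * n) 0 0 η = 1 := by
      intro η
      have e2 := Qt_sum_box39 hd β h (L := 2 * n) (t := 0) (r := 0) (by omega) le_rfl η
      have e3 : boxF d 0 = {0} := by
        ext y
        rw [mem_boxF, Finset.mem_singleton]
        constructor
        · intro hy
          ext i
          have := hy i
          simpa using this
        · intro hy i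
          rw [hy]
          simp
      rwa [e3, Finset.sum_singleton] at e2
    have e4 : ∀ η : Env d, (1 : ℝ) ≤ ∑ y ∈ boxF d (2 * n),
        (cE ρ (Pa d 0) (Qt β h (2 * n) 0 y) η) ^ 2 := by
      intro η
      have e5 : (cE ρ (Pa d 0) (Qt β h (2 * n) 0 0) η) ^ 2 = 1 := by
        have : cE ρ (Pa d 0) (Qt β h (2 * n) 0 0) η = 1 := by
          unfold cE
          simp [e1]
        rw [this]
        norm_num
      rw [← e5]
      exact Finset.single_le_sum (f := fun y => (cE ρ (Pa d 0) (Qt β h (2 * n) 0 y) η) ^ 2)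
        (fun y _ => sq_nonneg _) (zero_mem_boxF _)
    calc (1 : ℝ) = ∫ _η : Env d, (1 : ℝ) ∂(law d ρ) := by simp
      _ ≤ f 0 := integral_mono (integrable_const _)
          (integrable_finset_sum _ fun y _ => int_cE_sq72 (by omega) h y _) e4
  have hsumf : ∑ t ∈ Finset.range n, f t ≤ (C₁ + 1) * K := by
    have h1 : ∑ t ∈ Finset.range n, f t ≤ ∑ t ∈ Finset.range (2 * n), f t :=
      Finset.sum_le_sum_of_subset_of_nonneg (Finset.range_mono (by omega)) fun t _ _ => hfn t
    have h2 := hF h (2 * n)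
    have h3 : C₁ * Va ρ β h (2 * n) ≤ C₁ * K := mul_le_mul_of_nonneg_left hV2 hC₁
    have h4 : 0 ≤ K := (va_nonneg h (2 * n)).trans hV2
    nlinarith [h1.trans h2]
  have hK1 : 1 ≤ (C₁ + 1) * K := by
    refine hf0.trans (le_trans ?_ hsumf)
    exact Finset.single_le_sum (f := f) (fun t _ => hfn t) (Finset.mem_range.2 (by omega))
  have hK : 0 < K := by
    by_contra hcon
    push_neg at hcon
    nlinarith
  have hKκ : κ ≤ K := by
    rw [hκ, div_le_iff₀ (by positivity)]
    nlinarith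
  -- a good time
  set S : ℝ := 4 * (C₁ + 1) * K / n with hSdef
  have hS : 0 < S := by positivity
  have hbadf : (((Finset.range n).filter fun t => ¬ f t ≤ S).card : ℝ) ≤ n / 4 := by
    have hMk := card_markov (s := Finset.range n) (fun t _ => hfn t) hS hsumf
    have h1 : (C₁ + 1) * K = n / 4 * S := by rw [hSdef]; field_simp
    rw [h1] at hMk
    exact le_of_mul_le_mul_right hMk hS
  have hbadW : (((Finset.range n).filter fun t => ¬ Win ρ β h (2 * n) t N (1 / 32)).card : ℝ) ≤
      n / 4 := by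
    refine hW.trans ?_
    have : min (min c₁ (1 / 4)) (min (c₁ / (2 * M)) (Real.sqrt κ / 4)) ≤ 1 / 4 :=
      (min_le_left _ _).trans (min_le_right _ _)
    nlinarith
  obtain ⟨t, ht, htf, htW⟩ : ∃ t ∈ Finset.range n, f t ≤ S ∧
      Win ρ β h (2 * n) t N (1 / 32) := by
    by_contra hcon
    push_neg at hcon
    have hsub : Finset.range n ⊆ ((Finset.range n).filter fun t => ¬ f t ≤ S) ∪
        ((Finset.range n).filter fun t => ¬ Win ρ β h (2 * n) t N (1 / 32)) := by
      intro t ht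
      rw [Finset.mem_union, Finset.mem_filter, Finset.mem_filter]
      by_cases hft : f t ≤ S
      · right; exact ⟨ht, hcon t ht hft⟩
      · left; exact ⟨ht, hft⟩
    have hcard := (Finset.card_le_card hsub).trans (Finset.card_union_le _ _)
    rw [Finset.card_range] at hcard
    have hcard' : (n : ℝ) ≤ (((Finset.range n).filter fun t => ¬ f t ≤ S).card : ℝ) +
        (((Finset.range n).filter fun t => ¬ Win ρ β h (2 * n) t N (1 / 32)).card : ℝ) := by
      exact_mod_cast hcard
    linarith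
  have htn := Finset.mem_range.1 ht
  have hNS := win_np72 (by omega) h htW (Pa d t) htf
  have hKN : κ ≤ K * (N / n) := by
    have h1 : N * S = 4 * (C₁ + 1) * (K * (N / n)) := by rw [hSdef]; field_simp
    rw [h1] at hNS
    rw [hκ, div_le_iff₀ (by positivity)]
    linarith
  set Y : ℝ := K * Real.sqrt (N / n) with hY
  have hY1 : Y = Real.sqrt K * Real.sqrt (K * (N / n)) := by
    rw [hY, Real.sqrt_mul hK.le, ← mul_assoc, Real.mul_self_sqrt hK.le]
  have hsκ : Real.sqrt κ ≤ Real.sqrt (K * (N / n)) := Real.sqrt_le_sqrt hKN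
  have hsκ0 : 0 < Real.sqrt κ := Real.sqrt_pos.2 hκ0
  have hsK : Real.sqrt κ ≤ Real.sqrt K := Real.sqrt_le_sqrt hKκ
  have hY2 : Real.sqrt κ * Real.sqrt K ≤ Y := by
    rw [hY1, mul_comm]
    exact mul_le_mul_of_nonneg_left hsκ (Real.sqrt_nonneg _)
  have hY3 : κ ≤ Y := by
    have h1 : κ = Real.sqrt κ * Real.sqrt κ := (Real.mul_self_sqrt hκ0.le).symm
    have h2 : Real.sqrt κ * Real.sqrt κ ≤ Real.sqrt κ * Real.sqrt K :=
      mul_le_mul_of_nonneg_left hsK hsκ0.le
    linarith
  have hY0 : 0 < Y := hκ0.trans_le hY3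
  rcases le_or_gt (Real.sqrt n) K with hcase | hcase
  · -- `K` is large
    have h1 : Real.sqrt κ / 4 * Real.log n ≤ Y := by
      refine le_trans ?_ hY2
      have h2 : Real.log n ≤ 4 * Real.sqrt (Real.sqrt n) := by
        have h3 : Real.log n = 4 * Real.log (Real.sqrt (Real.sqrt n)) := by
          rw [Real.log_sqrt (Real.sqrt_nonneg _), Real.log_sqrt hn'.le]
          ring
        have h4 : Real.log (Real.sqrt (Real.sqrt n)) ≤ Real.sqrt (Real.sqrt n) :=
          (Real.log_le_sub_one_of_pos (Real.sqrt_pos.2 (Real.sqrt_pos.2 hn'))).trans (by linarith)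
        rw [h3]
        linarith
      have h5 : Real.sqrt (Real.sqrt n) ≤ Real.sqrt K := Real.sqrt_le_sqrt hcase
      nlinarith
    refine le_trans ?_ h1
    exact mul_le_mul_of_nonneg_right ((min_le_right _ _).trans (min_le_right _ _)) hlogn
  · -- `K` is small
    have h1 := hM h hh n hn K N hN hV (hW.trans (mul_le_mul_of_nonneg_right
      ((min_le_left _ _).trans (min_le_left _ _)) hn'.le))
    have h2 : Real.log n / 2 ≤ Real.log (n / K) := by
      have h3 : Real.sqrt n ≤ n / K := by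
        rw [le_div_iff₀ hK]
        have h4 : Real.sqrt n * Real.sqrt n = n := Real.mul_self_sqrt hn'.le
        nlinarith [Real.sqrt_nonneg (n : ℝ)]
      have h5 := Real.log_le_log (Real.sqrt_pos.2 hn') h3
      rw [Real.log_sqrt hn'.le] at h5
      exact h5
    have h3 : 1 + Real.sqrt K + Y ≤ M * Y := by
      have e1 : 1 ≤ 1 / κ * Y := by
        rw [one_div, inv_mul_eq_div, le_div_iff₀ hκ0]
        linarith
      have e2 : Real.sqrt K ≤ 1 / Real.sqrt κ * Y := by
        rw [one_div, inv_mul_eq_div, le_div_iff₀ hsκ0]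
        linarith
      have e3 : 0 ≤ 1 / Real.sqrt κ * Y := by positivity
      rw [hMdef]
      linarith [e1, e2, e3]
    have h4 : c₁ * (Real.log n / 2) ≤ M * Y :=
      (mul_le_mul_of_nonneg_left h2 hc₁.le).trans (h1.trans h3)
    have h5 : c₁ / (2 * M) * Real.log n ≤ Y := by
      rw [div_mul_eq_mul_div, div_le_iff₀ (by positivity)]
      linarith
    refine le_trans ?_ h5
    exact mul_le_mul_of_nonneg_right ((min_le_right _ _).trans (min_le_left _ _)) hlogn

end Pool.Agent.W_7d29a1_Q29
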