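import Pool.Agent.W_7d29a1_Q29.Tr29
import Pool.Agent.W_7d29a1_Q29.Clos85
import Pool.Agent.W_7d29a1_Q29.MainL72
import Pool.Agent.W_7d29a1_Q29.Ball72
import Pool.Agent.W_7d29a1_Q29.Vsd61
import Pool.Agent.W_7d29a1_R34.DefsR34

/-!
The final frame: the clauses for an arbitrary i.i.d. environment.
-/

namespace Pool.Agent.W_7d29a1_Q29

open MeasureTheory ProbabilityTheory Filter Topology Pool.Agent.W_MP_7d29a1_pr
  Pool.Agent.W_7d29a1_h46 Pool.Agent.W_7d29a1_h46u Pool.Agent.W_7d29a1_D2.B35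

variable {Ω : Type*} [MeasurableSpace Ω] {μ : Measure Ω} [IsProbabilityMeasure μ] {d : ℕ}
  {ρ : Measure ℝ} [IsProbabilityMeasure ρ] {ω : ℕ × Site d → Ω → ℝ} {β : ℝ}

/-- The normalised quenched free energy. -/
noncomputable def lamN {d : ℕ} (ρ : Measure ℝ) (β : ℝ) (h : Vec d) : ℝ :=
  lam ρ β h - Real.log (2 * d)

/-- The normalised annealed free energy. -/
noncomputable def annN {d : ℕ} (ρ : Measure ℝ) (β : ℝ) (h : Vec d) : ℝ :=
  Real.log (Phi h) + Real.log (∫ t, Real.exp (β * t) ∂ρ) - Real.log (2 * d)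

omit [IsProbabilityMeasure ρ] in
lemma vsd29 (h : Vec d) : lamN ρ β h < annN ρ β h ↔ VSD ρ β h := by
  unfold lamN annN VSD
  constructor <;> intro h1 <;> linarith

lemma mean29' (hd : 0 < d) (hω : IID μ ρ ω) (hρ : EM ρ) (h : Vec d) (n : ℕ) :
    ∫ z, Real.log (Zn β h (fun p => ω p z) n) ∂μ = A ρ β h n - n * Real.log (2 * d) := by
  rw [mean29 hd hω hρ, Real.log_pow]

/-- The means divided by the length converge. -/
lemma tend29 (hd : 0 < d) (hω : IID μ ρ ω) (hρ : EM ρ) (h : Vec d) :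
    Tendsto (fun n : ℕ => (∫ x, Real.log (Zn β h (fun p => ω p x) n) ∂μ) / n) atTop
      (𝓝 (lamN ρ β h)) := by
  have h1 := (tendsto_A hd hρ β h).sub_const (Real.log (2 * d))
  refine h1.congr' ?_
  filter_upwards [eventually_ge_atTop 1] with n hn
  have hn' : (n : ℝ) ≠ 0 := by positivity
  rw [mean29' hd hω hρ]
  field_simp

/-- The annealed partition function. -/
lemma ann29 (hd : 0 < d) (hω : IID μ ρ ω) (hρ : EM ρ) (h : Vec d) (n : ℕ) :
    ∫ x, Zn β h (fun p => ω p x) n ∂μ = Real.exp (n * annN ρ β h) := by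
  have hd' : (0 : ℝ) < d := by exact_mod_cast hd
  have h1 : (fun x => Zn β h (fun p => ω p x) n) =
      fun x => (fun η : Env d => Z β h η n / (2 * d : ℝ) ^ n) (fun p => ω p x) := rfl
  have hm : Measurable fun η : Env d => Z β h η n / (2 * d : ℝ) ^ n :=
    (measurable_Z β h n).div_const _
  rw [h1, StrA_int hω hm, integral_div, (annealed61 hρ β h n).2]
  have hP := Phi_pos61 hd h
  have hE : 0 < ∫ t, Real.exp (β * t) ∂ρ := integral_exp_pos (hρ β)
  unfold annN
  rw [← Real.log_mul hP.ne' hE.ne', ← Real.log_div (by positivity) (by positivity),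
    Real.exp_nat_mul, Real.exp_log (by positivity), div_pow]

/-- The deficiency of the mean. -/
lemma def29 (hd : 0 < d) (hω : IID μ ρ ω) (hρ : EM ρ) (h : Vec d) (m : ℕ) :
    m * lamN ρ β h - ∫ x, Real.log (Zn β h (fun p => ω p x) m) ∂μ =
      m * lam ρ β h - A ρ β h m := by
  rw [mean29' hd hω hρ]
  unfold lamN
  ring

open Classical in
/-- The main inequality for an arbitrary environment. -/
lemma mainL29 (hd : 0 < d) (hω : IID μ ρ ω) (hρ : EM ρ) (hL : MainL d ρ β) (h : Vec d)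
    (hh : lamN ρ β h < annN ρ β h) : ∃ c : ℝ, 0 < c ∧ ∀ n : ℕ, 1 ≤ n → ∀ K N : ℝ, 0 < N →
      (∀ m : ℕ, m ≤ 2 * n → Var[fun x => Real.log (Zn β h (fun p => ω p x) m); μ] ≤ K) →
      (((Finset.range n).filter fun t => ∀ W : Finset (Site d), (W.card : ℝ) ≤ N →
        1 / 32 < ∫ x, PolT β h (fun p => ω p x) {s : Fin (2 * n) → Step d | pos s t ∉ W} ∂μ).card
          : ℝ) ≤ c * n → c * Real.log n ≤ K * Real.sqrt (N / n) := by
  obtain ⟨c, hc, hL⟩ := hL (annN ρ β h - lamN ρ β h) (by linarith)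
  refine ⟨c, hc, fun n hn K N hN hV hW => hL h ?_ n hn K N hN ?_ ?_⟩
  · unfold annN lamN
    linarith
  · intro m hm
    rw [← var29 hd hω hρ]
    exact hV m hm
  · refine le_trans ?_ hW
    have h1 : ((Finset.range n).filter fun t => ¬ Win ρ β h (2 * n) t N (1 / 32)) ⊆
        (Finset.range n).filter fun t => ∀ W : Finset (Site d), (W.card : ℝ) ≤ N →
          1 / 32 < ∫ x, PolT β h (fun p => ω p x)
            {s : Fin (2 * n) → Step d | pos s t ∉ W} ∂μ := by
      intro t ht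
      rw [Finset.mem_filter] at ht ⊢
      refine ⟨ht.1, fun W hWN => ?_⟩
      have ht2 : t ≤ 2 * n := by
        have := Finset.mem_range.1 ht.1
        omega
      rw [win29 hd hω h ht2 W (Finset.measurable_sum W fun y _ => measurable_Qt39 β h _ _ y)]
      by_contra hcon
      exact ht.2 ⟨W, hWN, not_lt.1 hcon⟩
    exact_mod_cast Finset.card_le_card h1

/-- Bounded variance and tightness at the scale `√n` exclude each other in dimension `2`. -/
lemma ball29 {ω : ℕ × Site 2 → Ω → ℝ} (hω : IID μ ρ ω) (hρ : EM ρ)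
    (hM : MainQ 2 ρ β) (h : Vec 2) (hh : lamN ρ β h < annN ρ β h) (K R : ℝ) (hR : 0 ≤ R)
    (hV : ∀ n : ℕ, Var[fun x => Real.log (Zn β h (fun p => ω p x) n); μ] ≤ K) :
    ∀ᶠ n : ℕ in atTop, ∃ t < n, ∀ v : Vec 2, 1 / 32 < ∫ x, PolT β h (fun p => ω p x)
      {s : Fin (2 * n) → Step 2 | R * Real.sqrt n < ‖emb (pos s t) - v‖} ∂μ := by
  obtain ⟨n₀, hn₀⟩ := notBothBall72 hM ((vsd29 h).1 hh) K R hR fun n => by
    rw [← var29 (by norm_num) hω hρ]
    exact hV n
  filter_upwards [eventually_ge_atTop n₀] with n hn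
  obtain ⟨t, ht, h1⟩ := hn₀ n hn
  refine ⟨t, ht, fun v => lt_of_lt_of_eq (h1 v) ?_⟩
  have hm : Measurable fun η : Env 2 => 1 - PolT β h η
      {s : Fin (2 * n) → Step 2 | ‖emb (pos s t) - v‖ ≤ R * Real.sqrt n} :=
    measurable_const.sub (measurable_PolT β h _)
  rw [← StrA_int hω hm]
  refine integral_congr_ae (Filter.Eventually.of_forall fun x => ?_)
  beta_reduce
  have hpos := ZT_univ_pos (n := 2 * n) (d := 2) (by norm_num) β h (fun p => ω p x)
  unfold PolT
  rw [eq_comm, eq_sub_iff_add_eq, ← add_div, div_eq_one_iff_eq hpos.ne']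
  unfold ZT
  rw [← Finset.sum_add_distrib]
  refine Finset.sum_congr rfl fun s _ => ?_
  by_cases hs : ‖emb (pos s t) - v‖ ≤ R * Real.sqrt n
  · simp [hs]
  · simp [hs, not_le.1 hs]

end Pool.Agent.W_7d29a1_Q29
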