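import Pool.Agent.W_7d29a1_Q29.Vsd61

/-!
Very strong disorder: a nonempty open set of tilts in every dimension for every `β > 0`, and all
tilts when `β c'(β) - c(β) > log (2 d)`.
-/

namespace Pool.Agent.W_7d29a1_Q29

open MeasureTheory ProbabilityTheory Filter Topology Pool.Agent.W_MP_7d29a1_pr
  Pool.Agent.W_7d29a1_h46 Pool.Agent.W_7d29a1_h46u Pool.Agent.W_7d29a1_D2.B35

variable {d : ℕ} {ρ : Measure ℝ} [IsProbabilityMeasure ρ] {β : ℝ}

/-- The entropy of the step law is at most `log (2 d)`. -/
lemma ent_le72 (hd : 0 < d) (h : Vec d) :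
    Real.log (Phi h) ≤ Real.log (2 * d) +
      (∑ e : Step d, inner ℝ h (emb (vec e)) * Real.exp (inner ℝ h (emb (vec e)))) / Phi h := by
  have hP := Phi_pos61 hd h
  have hd' : (0 : ℝ) < d := by exact_mod_cast hd
  have h2d : (0 : ℝ) < 2 * d := by positivity
  have hpt : ∀ e : Step d, Real.exp (inner ℝ h (emb (vec e))) / Phi h *
      (Real.log (Phi h) - Real.log (2 * d) - inner ℝ h (emb (vec e))) ≤
      1 / (2 * d) - Real.exp (inner ℝ h (emb (vec e))) / Phi h := by
    intro e
    set x : ℝ := inner ℝ h (emb (vec e))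
    have hx := Real.exp_pos x
    have h1 := Real.log_le_sub_one_of_pos (div_pos hP (mul_pos h2d hx))
    rw [Real.log_div hP.ne' (mul_pos h2d hx).ne', Real.log_mul h2d.ne' hx.ne', Real.log_exp] at h1
    have h2 := mul_le_mul_of_nonneg_left h1 (div_pos hx hP).le
    have e1 : Real.exp x / Phi h * (Phi h / (2 * d * Real.exp x) - 1) =
        1 / (2 * d) - Real.exp x / Phi h := by
      field_simp
    rw [e1] at h2
    have e2 : Real.log (Phi h) - (Real.log (2 * d) + x) =
        Real.log (Phi h) - Real.log (2 * d) - x := by ring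
    rw [e2] at h2
    exact h2
  have hsum := Finset.sum_le_sum fun e (_ : e ∈ (Finset.univ : Finset (Step d))) => hpt e
  have hone : ∑ e : Step d, Real.exp (inner ℝ h (emb (vec e))) / Phi h = 1 := by
    rw [← Finset.sum_div]
    exact div_self hP.ne'
  have hl : ∑ e : Step d, Real.exp (inner ℝ h (emb (vec e))) / Phi h *
      (Real.log (Phi h) - Real.log (2 * d) - inner ℝ h (emb (vec e))) =
      (Real.log (Phi h) - Real.log (2 * d)) -
      (∑ e : Step d, inner ℝ h (emb (vec e)) * Real.exp (inner ℝ h (emb (vec e)))) / Phi h := by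
    have : ∀ e : Step d, Real.exp (inner ℝ h (emb (vec e))) / Phi h *
      (Real.log (Phi h) - Real.log (2 * d) - inner ℝ h (emb (vec e))) =
      Real.exp (inner ℝ h (emb (vec e))) / Phi h * (Real.log (Phi h) - Real.log (2 * d)) -
      inner ℝ h (emb (vec e)) * Real.exp (inner ℝ h (emb (vec e))) / Phi h := fun e => by ring
    rw [Finset.sum_congr rfl fun e _ => this e, Finset.sum_sub_distrib, ← Finset.sum_mul, hone,
      one_mul, Finset.sum_div]
  have hr : ∑ e : Step d, ((1 : ℝ) / (2 * d) - Real.exp (inner ℝ h (emb (vec e))) / Phi h) = 0 := by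
    rw [Finset.sum_sub_distrib, hone, Finset.sum_const, Finset.card_univ]
    simp only [Fintype.card_prod, Fintype.card_fin, Fintype.card_bool, nsmul_eq_mul]
    push_cast
    field_simp
    ring
  rw [hl, hr] at hsum
  linarith

/-- Every tilt is in very strong disorder if `β c'(β) - c(β) > log (2 d)`. -/
theorem vsd_all72 (hd : 0 < d) (hρ : EM ρ) (β : ℝ)
    (hlt : Real.log (2 * d) + Real.log (∫ t, Real.exp (β * t) ∂ρ) <
      β * (∫ t, t * Real.exp (β * t) ∂ρ) / ∫ t, Real.exp (β * t) ∂ρ) (h : Vec d) :
    VSD ρ β h := by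
  refine vsd_of_ent61 hd hρ β h ?_
  have := ent_le72 hd h
  linarith

/-- Strict Cauchy-Schwarz. -/
lemma half_lt72 (hρ : EM ρ) (hnc : ∀ c : ℝ, ρ {c} ≠ 1) (hβ : 0 < β) :
    (∫ t, Real.exp (1 / 2 * β * t) ∂ρ) ^ 2 < ∫ t, Real.exp (β * t) ∂ρ := by
  set f : ℝ → ℝ := fun t => Real.exp (1 / 2 * β * t) with hf
  have hfi : Integrable f ρ := hρ (1 / 2 * β)
  have hf2 : ∀ t, f t ^ 2 = Real.exp (β * t) := by
    intro t
    rw [hf, ← Real.exp_nat_mul]
    congr 1
    push_cast
    ring
  have hfi2 : Integrable (fun t => f t ^ 2) ρ := by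
    refine (hρ β).congr (Eventually.of_forall fun t => ?_)
    exact (hf2 t).symm
  set m := ∫ t, f t ∂ρ with hm
  have hvi : Integrable (fun t => (f t - m) ^ 2) ρ := by
    have : (fun t => (f t - m) ^ 2) = fun t => f t ^ 2 - 2 * m * f t + m ^ 2 := by
      funext t; ring
    rw [this]
    exact (hfi2.sub (hfi.const_mul (2 * m))).add (integrable_const _)
  have hv : ∫ t, (f t - m) ^ 2 ∂ρ = (∫ t, f t ^ 2 ∂ρ) - m ^ 2 := by
    have : (fun t => (f t - m) ^ 2) = fun t => f t ^ 2 - 2 * m * f t + m ^ 2 := by
      funext t; ring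
    have hi1 : Integrable (fun t => f t ^ 2 - 2 * m * f t) ρ :=
      hfi2.sub (hfi.const_mul (2 * m))
    have hc : ∫ _ : ℝ, m ^ 2 ∂ρ = m ^ 2 := by simp
    rw [this, integral_add hi1 (integrable_const _),
      integral_sub hfi2 (hfi.const_mul (2 * m)), integral_const_mul, ← hm, hc]
    ring
  have hE : ∫ t, f t ^ 2 ∂ρ = ∫ t, Real.exp (β * t) ∂ρ := integral_congr_ae
    (Eventually.of_forall hf2)
  rw [← hE]
  by_contra hcon
  push Not at hcon
  have h0 : ∫ t, (f t - m) ^ 2 ∂ρ = 0 := by
    refine le_antisymm ?_ (integral_nonneg fun t => sq_nonneg _)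
    rw [hv]
    linarith
  have h1 := (integral_eq_zero_iff_of_nonneg (fun t => sq_nonneg (f t - m)) hvi).1 h0
  have h2 : ∀ᵐ t ∂ρ, t = 2 * Real.log m / β := by
    filter_upwards [h1] with t ht
    have h3 : f t - m = 0 := by
      have : (f t - m) ^ 2 = 0 := ht
      exact pow_eq_zero_iff (two_ne_zero) |>.1 this
    have h4 : m = Real.exp (1 / 2 * β * t) := by
      rw [← sub_eq_zero.1 h3]
    rw [h4, Real.log_exp]
    field_simp
  refine hnc (2 * Real.log m / β) ?_
  have h5 : ρ {t | t = 2 * Real.log m / β} = 1 := (mem_ae_iff_prob_eq_one (measurableSet_singleton _)).1 h2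
  exact h5

lemma continuous_Phi72 : Continuous fun h : Vec d => Phi h := by
  unfold Phi
  exact continuous_finset_sum _ fun e _ =>
    Real.continuous_exp.comp (continuous_id.inner continuous_const)

lemma vec_le72 (j : Fin d) (e : Step d) : ((vec e j : ℤ) : ℝ) ≤ if e = (j, true) then 1 else 0 := by
  unfold vec
  by_cases he : e = (j, true)
  · subst he; simp
  · rw [if_neg he]
    rcases eq_or_ne e.1 j with h | h
    · have hb : e.2 = false := by
        by_contra hb
        apply he
        have : e.2 = true := by simpa using hb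
        exact Prod.ext h this
      rw [← h, hb]; simp
    · rw [Pi.single_eq_of_ne' h]; simp

/-- **A nonempty open set of tilts in very strong disorder, for every `β > 0`.** -/
theorem vsd_open72 (hd : 0 < d) (hρ : EM ρ) (hnc : ∀ c : ℝ, ρ {c} ≠ 1) (hβ : 0 < β) :
    ∃ U : Set (Vec d), IsOpen U ∧ U.Nonempty ∧ ∀ h ∈ U, VSD ρ β h := by
  set m1 := ∫ t, Real.exp (1 / 2 * β * t) ∂ρ with hm1
  set m2 := ∫ t, Real.exp (β * t) ∂ρ with hm2
  have hm1p : 0 < m1 := integral_exp_pos (hρ (1 / 2 * β))
  have hm2p : 0 < m2 := integral_exp_pos (hρ β)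
  have hlt : m1 ^ 2 < m2 := half_lt72 hρ hnc hβ
  have hk : 0 < Real.log m2 - 2 * Real.log m1 := by
    have := Real.log_lt_log (pow_pos hm1p 2) hlt
    rw [Real.log_pow] at this
    push_cast at this
    linarith
  set κ := Real.log m2 - 2 * Real.log m1 with hκ
  refine ⟨{h | Real.log (Phi ((1 / 2 : ℝ) • h)) + Real.log m1 <
    (1 / 2) * (Real.log (Phi h) + Real.log m2)}, ?_, ?_, ?_⟩
  · refine isOpen_lt ?_ ?_
    · refine Continuous.add (Continuous.log ?_ fun h => (Phi_pos61 hd _).ne') continuous_const
      exact continuous_Phi72.comp (continuous_const_smul (1 / 2 : ℝ))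
    · refine continuous_const.mul (Continuous.add (Continuous.log continuous_Phi72
        fun h => (Phi_pos61 hd _).ne') continuous_const)
  · -- `h = t e_1`
    set j : Fin d := ⟨0, hd⟩ with hj
    obtain ⟨t, ht0, ht⟩ : ∃ t : ℝ, 0 < t ∧ 2 * d * Real.exp (-(t / 2)) < κ / 2 := by
      have h1 : Tendsto (fun t : ℝ => 2 * (d : ℝ) * Real.exp (-(t / 2))) atTop (𝓝 (2 * d * 0)) := by
        refine Tendsto.const_mul _ (Real.tendsto_exp_neg_atTop_nhds_zero.comp ?_)
        exact tendsto_id.atTop_div_const (by norm_num)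
      rw [mul_zero] at h1
      have h2 := (h1.eventually (gt_mem_nhds (half_pos hk))).and (eventually_gt_atTop 0)
      obtain ⟨t, h3, h4⟩ := h2.exists
      exact ⟨t, h4, h3⟩
    have hin : ∀ (s : ℝ) (e : Step d), inner ℝ (EuclideanSpace.single j s : Vec d) (emb (vec e)) =
        s * ((vec e j : ℤ) : ℝ) := by
      intro s e
      rw [EuclideanSpace.inner_single_left]
      simp [emb]
    refine ⟨EuclideanSpace.single j t, ?_⟩
    have hsm : (1 / 2 : ℝ) • (EuclideanSpace.single j t : Vec d) =
        EuclideanSpace.single j (t / 2) := by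
      ext i
      by_cases hi : i = j
      · subst hi; simp; ring
      · simp [hi]
    change Real.log (Phi ((1 / 2 : ℝ) • (EuclideanSpace.single j t : Vec d))) + Real.log m1 <
      (1 / 2) * (Real.log (Phi (EuclideanSpace.single j t : Vec d)) + Real.log m2)
    rw [hsm]
    -- lower bound of `Phi`
    have hlow : t ≤ Real.log (Phi (EuclideanSpace.single j t : Vec d)) := by
      rw [Real.le_log_iff_exp_le (Phi_pos61 hd _)]
      unfold Phi
      have h1 := Finset.single_le_sum (f := fun e : Step d =>
        Real.exp (inner ℝ (EuclideanSpace.single j t : Vec d) (emb (vec e))))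
        (fun e _ => (Real.exp_pos _).le) (Finset.mem_univ ((j, true) : Step d))
      refine le_trans (le_of_eq ?_) h1
      simp only [hin]
      simp [vec]
    -- upper bound of `Phi`
    have hup : Real.log (Phi (EuclideanSpace.single j (t / 2) : Vec d)) ≤ t / 2 + κ / 2 - 0 ∧
        Real.log (Phi (EuclideanSpace.single j (t / 2) : Vec d)) <
          t / 2 + κ / 2 := by
      have h1 : Phi (EuclideanSpace.single j (t / 2) : Vec d) ≤ Real.exp (t / 2) + 2 * d := by
        unfold Phi
        have h2 : ∀ e : Step d, Real.exp (inner ℝ (EuclideanSpace.single j (t / 2) : Vec d)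
            (emb (vec e))) ≤ (if e = (j, true) then Real.exp (t / 2) else 0) + 1 := by
          intro e
          rw [hin]
          have h3 := vec_le72 j e
          by_cases he : e = (j, true)
          · rw [if_pos he] at h3 ⊢
            have : Real.exp (t / 2 * ((vec e j : ℤ) : ℝ)) ≤ Real.exp (t / 2) := by
              refine Real.exp_le_exp.2 ?_
              nlinarith
            linarith
          · rw [if_neg he] at h3 ⊢
            have : Real.exp (t / 2 * ((vec e j : ℤ) : ℝ)) ≤ Real.exp 0 := by
              refine Real.exp_le_exp.2 ?_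
              nlinarith
            rw [Real.exp_zero] at this
            linarith
        refine (Finset.sum_le_sum fun e _ => h2 e).trans (le_of_eq ?_)
        rw [Finset.sum_add_distrib, Finset.sum_ite_eq' Finset.univ ((j, true) : Step d)
          (fun _ => Real.exp (t / 2)), if_pos (Finset.mem_univ _), Finset.sum_const,
          Finset.card_univ]
        simp only [Fintype.card_prod, Fintype.card_fin, Fintype.card_bool, nsmul_eq_mul]
        push_cast
        ring
      have h3 : Real.exp (t / 2) + 2 * d = Real.exp (t / 2) * (1 + 2 * d * Real.exp (-(t / 2))) := by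
        have : Real.exp (t / 2) * Real.exp (-(t / 2)) = 1 := by rw [← Real.exp_add]; simp
        rw [mul_add, mul_one]
        rw [show Real.exp (t / 2) * (2 * d * Real.exp (-(t / 2))) =
          2 * d * (Real.exp (t / 2) * Real.exp (-(t / 2))) by ring, this, mul_one]
      have h4 : Real.log (Phi (EuclideanSpace.single j (t / 2) : Vec d)) ≤
          t / 2 + 2 * d * Real.exp (-(t / 2)) := by
        refine (Real.log_le_log (Phi_pos61 hd _) h1).trans ?_
        have hpos : 0 < 1 + 2 * d * Real.exp (-(t / 2)) := by positivity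
        rw [h3, Real.log_mul (Real.exp_pos _).ne' hpos.ne', Real.log_exp]
        have := Real.log_le_sub_one_of_pos hpos
        linarith
      constructor <;> linarith
    have := hup.2
    rw [hκ] at this
    linarith
  · intro h hh
    refine vsd_of_frac61 hd hρ β h (θ := 1 / 2) (by norm_num) (by norm_num) ?_
    exact hh

end Pool.Agent.W_7d29a1_Q29
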