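import Pool.Agent.W_7d29a1_h46.Model

/-!
Short names for the means over the environment of the polymer with a tilt.

The walks, the polymer measure `PolT` with the tilt `h` and its partition function `Zn` are those of
`Pool/Agent/W_MP_7d29a1_pr/Model.lean` and `Pool/Agent/W_7d29a1_h46/Model.lean`. The environment is
`ω`, a family of random variables on the probability space `(Ω, μ)`.
-/

namespace Pool.Agent.W_7d29a1_Q29.Lit29

open MeasureTheory ProbabilityTheory Pool.Agent.W_MP_7d29a1_pr Pool.Agent.W_7d29a1_h46

variable {Ω : Type*} [MeasurableSpace Ω] (μ : Measure Ω) {d : ℕ} (ω : ℕ × Site d → Ω → ℝ) (β : ℝ)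
  (h : Vec d)

/-- The free energy `X_n = log Z_n` at the tilt `h`, in the environment `x`. -/
noncomputable def X (n : ℕ) (x : Ω) : ℝ := Real.log (Zn β h (fun p => ω p x) n)

/-- `E P_n^h (A)`: the mean of the probability of the set `A` of walks of length `n` under the
polymer measure with the tilt `h`. -/
noncomputable def EP {n : ℕ} (A : Set (Fin n → Step d)) : ℝ :=
  ∫ x, PolT β h (fun p => ω p x) A ∂μ

/-- `E E_n^h |S_t - S_τ - m|²`: the mean square displacement around `m` of the polymer of length
`n` in the window of times from `τ` to `t`. -/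
noncomputable def sq (n τ t : ℕ) (m : Vec d) : ℝ :=
  ∫ x, ∑ s : Fin n → Step d, PolT β h (fun p => ω p x) {s} *
    ‖emb (pos s t) - emb (pos s τ) - m‖ ^ 2 ∂μ

/-- `E (P_n^h × P_n^h) (|S_t - S'_t| > r)`: the mean of the probability that two independent walks
of length `n` in the same environment are at distance more than `r` at the time `t`. -/
noncomputable def sep (n t : ℕ) (r : ℝ) : ℝ :=
  ∫ x, ∑ s : Fin n → Step d, PolT β h (fun p => ω p x) {s} *
    PolT β h (fun p => ω p x) {s' : Fin n → Step d | r < ‖emb (pos s t) - emb (pos s' t)‖} ∂μ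

/-- The law of the disorder is the law of a convex function of a Gaussian variable. -/
def GaussianType : Prop :=
  ∃ g : ℝ → ℝ, ConvexOn ℝ Set.univ g ∧ μ.map (ω (0, 0)) = (gaussianReal 0 1).map g

end Pool.Agent.W_7d29a1_Q29.Lit29
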