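import Pool.Agent.W_7d29a1_Q29.SumA98

/-!
More facts on the law of the position at the time `t`.
-/

namespace Pool.Agent.W_7d29a1_Q29.S98

open MeasureTheory ProbabilityTheory Filter Topology Pool.Agent.W_MP_7d29a1_pr
  Pool.Agent.W_7d29a1_h46 Pool.Agent.W_7d29a1_h46u Pool.Agent.W_7d29a1_D2.B35
  Pool.Agent.W_7d29a1_Q29

variable {d : ℕ} {ρ : Measure ℝ} [IsProbabilityMeasure ρ]

lemma boxF_mono {r s : ℕ} (h : r ≤ s) : boxF d r ⊆ boxF d s := by
  intro x hx
  rw [mem_boxF] at hx ⊢
  intro i
  exact (hx i).trans (by exact_mod_cast h)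

lemma Qt_sum' (hd : 0 < d) (β : ℝ) (h : Vec d) {L t : ℕ} (ht : t ≤ L) (η : Env d) :
    ∑ y ∈ boxF d L, Qt β h L t y η = 1 := by
  rw [← Qt_sum hd β h ht η]
  symm
  refine Finset.sum_subset (boxF_mono ht) fun y _ hy => Qt_off hy η

/-- The weight of a point depends on the rows up to its time. -/
lemma PP_dep (β : ℝ) (h : Vec d) (t : ℕ) (y : Site d) :
    DependsOn (fun η : Env d => PP β h η t y) (Pa d t) := by
  classical
  intro η η' hη
  simp only
  unfold PP ZT
  refine Finset.sum_congr rfl fun s _ => ?_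
  have h1 : energy η s = energy η' s := by
    unfold energy
    refine Finset.sum_congr rfl fun i _ => hη _ ?_
    exact i.2
  unfold wgt
  rw [h1]

/-- The weight of the future does not depend on the past. -/
lemma Zsh_dep (β : ℝ) (h : Vec d) (t m : ℕ) (y : Site d) :
    DependsOn (fun η : Env d => Z β h (sh t y η) m) (Pa d t)ᶜ := by
  intro η η' hη
  refine dependsOn_Z β h m fun p hp => ?_
  refine hη (p.1 + t, p.2 + y) ?_
  have := hp.1
  change ¬ (p.1 + t ≤ t)
  omega

lemma Z_dep (β : ℝ) (h : Vec d) (t : ℕ) :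
    DependsOn (fun η : Env d => Z β h η t) (Pa d t) :=
  (dependsOn_Z β h t).mono fun _ hp => hp.2

lemma Qt_zero_zero (hd : 0 < d) (β : ℝ) (h : Vec d) (L : ℕ) (η : Env d) :
    Qt β h L 0 0 η = 1 := by
  have h1 := Qt_sum hd β h (Nat.zero_le L) η
  have h2 : boxF d 0 = {0} := by
    ext x
    rw [mem_boxF, Finset.mem_singleton]
    constructor
    · intro hx
      funext i
      have h3 := hx i
      simp only [Nat.cast_zero, abs_nonpos_iff] at h3
      exact h3
    · rintro rfl i
      simp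
  rw [h2, Finset.sum_singleton] at h1
  exact h1

end Pool.Agent.W_7d29a1_Q29.S98
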