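import Pool.Agent.W_7d29a1_Q29.Qt98
import Pool.Agent.W_7d29a1_h46u.LamU

/-!
The box inequality: the mass of a set of positions at the time `t` on which the past gives little.
-/

namespace Pool.Agent.W_7d29a1_Q29.S98

open MeasureTheory ProbabilityTheory Filter Topology Pool.Agent.W_MP_7d29a1_pr
  Pool.Agent.W_7d29a1_h46 Pool.Agent.W_7d29a1_h46u Pool.Agent.W_7d29a1_D2.B35
  Pool.Agent.W_7d29a1_Q29

variable {d : ℕ} {ρ : Measure ℝ} [IsProbabilityMeasure ρ]

lemma sqrt_of_all {x A B : ℝ} (hA : 0 ≤ A) (hB : 0 ≤ B)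
    (h : ∀ s : ℝ, 0 < s → 2 * x ≤ s * A + B / s) : x ≤ Real.sqrt (B * A) := by
  rcases le_or_gt x 0 with hx | hx
  · exact hx.trans (Real.sqrt_nonneg _)
  refine Real.le_sqrt_of_sq_le ?_
  rcases hA.eq_or_lt with hA0 | hA0
  · exfalso
    have h1 := h ((B + 1) / x) (by positivity)
    rw [← hA0, mul_zero, zero_add, div_div_eq_mul_div] at h1
    have h2 : B * x / (B + 1) < x := by
      rw [div_lt_iff₀ (by linarith)]
      nlinarith
    linarith
  · have h1 := h (x / A) (by positivity)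
    rw [div_mul_cancel₀ _ hA0.ne', div_div_eq_mul_div] at h1
    have h2 : x ≤ B * A / x := by linarith
    rw [le_div_iff₀ hx] at h2
    nlinarith

lemma X_dev_int (hd : 0 < d) (hρ : EM ρ) (β : ℝ) (h : Vec d) (m : ℕ) :
    Integrable (fun η => (X β h η m - A ρ β h m) ^ 2) (law d ρ) := by
  rcases Nat.eq_zero_or_pos m with rfl | hm
  · have h1 : ∀ η : Env d, X β h η 0 = 0 := fun η => by
      unfold X
      rw [Z_zero, Real.log_one]
    simp only [h1]
    exact integrable_const _
  · obtain ⟨C, _, hC⟩ := momU (ρ := ρ) hd hρ β 2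
    refine (hC h m hm).1.congr (Eventually.of_forall fun η => ?_)
    simp only
    rw [sq_abs]

lemma V_dev_int (hd : 0 < d) (hρ : EM ρ) (β : ℝ) (h : Vec d) (t m : ℕ) (y : Site d) :
    Integrable (fun η => (X β h (sh t y η) m - A ρ β h m) ^ 2) (law d ρ) :=
  (mp_sh t y).integrable_comp_of_integrable (X_dev_int hd hρ β h m)

lemma V_dev_eq (β : ℝ) (h : Vec d) (t m : ℕ) (y : Site d) :
    ∫ η, (X β h (sh t y η) m - A ρ β h m) ^ 2 ∂(law d ρ) = Va ρ β h m :=
  integral_sh t y (F := fun η => (X β h η m - A ρ β h m) ^ 2)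
    (((measurable_X β h m).sub_const _).pow_const 2)

lemma V_abs_int (hd : 0 < d) (hρ : EM ρ) (β : ℝ) (h : Vec d) (t m : ℕ) (y : Site d) :
    Integrable (fun η => |X β h (sh t y η) m - A ρ β h m|) (law d ρ) := by
  have h1 : Integrable (fun η => X β h η m) (law d ρ) := (concU hd hρ β h m).1
  exact (((mp_sh t y).integrable_comp_of_integrable h1).sub (integrable_const _)).abs

lemma Va_nonneg (ρ : Measure ℝ) (β : ℝ) (h : Vec d) (m : ℕ) : 0 ≤ Va ρ β h m :=
  integral_nonneg fun _ => sq_nonneg _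

/-- The window inequality: the mean of the centred future over a finite set of positions. -/
theorem winV98 (hd : 0 < d) (hρ : EM ρ) {β : ℝ} {h : Vec d} {n t : ℕ} (ht : t ≤ n)
    (R : Finset (Site d)) {K N S : ℝ} (hN : (R.card : ℝ) ≤ N) (hK : Va ρ β h (n - t) ≤ K)
    (hS : ∫ η, ∑ y ∈ boxF d n, (cE ρ (Pa d t)ᶜ (Qt β h n t y) η) ^ 2 ∂(law d ρ) ≤ S) :
    ∫ η, ∑ y ∈ R, Qt β h n t y η * |X β h (sh t y η) (n - t) - A ρ β h (n - t)| ∂(law d ρ) ≤
      Real.sqrt (K * N * S) := by
  set P : Measure (Env d) := law d ρ with hP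
  set m := n - t with hm
  set g : Site d → Env d → ℝ := fun y => cE ρ (Pa d t)ᶜ (Qt β h n t y) with hg
  set V : Site d → Env d → ℝ := fun y η => |X β h (sh t y η) m - A ρ β h m| with hV
  have hgm : ∀ y, Measurable (g y) := fun y => measurable_cE (measurable_Qt β h n t y) _
  have hg0 : ∀ y η, 0 ≤ g y η := fun y η => cE_nonneg (fun η => Qt_nonneg hd β h n t y η) _ η
  have hg1 : ∀ y η, g y η ≤ 1 := fun y η => cE_le_one (measurable_Qt β h n t y)
    (fun η => Qt_nonneg hd β h n t y η) (fun η => Qt_le_one hd β h ht y η) _ η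
  have hVm : ∀ y, Measurable (V y) := fun y =>
    (((measurable_X β h m).comp (measurable_sh t y)).sub_const _).abs
  have hVi : ∀ y, Integrable (V y) P := fun y => V_abs_int hd hρ β h t m y
  have hVd : ∀ y, DependsOn (V y) (Pa d t)ᶜ := by
    intro y η η' hη
    have h1 := Zsh_dep β h t m y hη
    simp only [hV]
    unfold X
    simp only at h1
    rw [h1]
  have hQVi : ∀ y, Integrable (fun η => V y η * Qt β h n t y η) P := by
    intro y
    refine (hVi y).mono' ((hVm y).mul (measurable_Qt β h n t y)).aestronglyMeasurable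
      (Eventually.of_forall fun η => ?_)
    rw [Real.norm_eq_abs, abs_mul, abs_abs]
    exact mul_le_of_le_one_right (abs_nonneg _) (Qt_abs hd β h ht y η)
  have hgVi : ∀ y, Integrable (fun η => V y η * g y η) P := by
    intro y
    refine (hVi y).mono' ((hVm y).mul (hgm y)).aestronglyMeasurable
      (Eventually.of_forall fun η => ?_)
    rw [Real.norm_eq_abs, abs_mul, abs_abs, abs_of_nonneg (hg0 y η)]
    exact mul_le_of_le_one_right (abs_nonneg _) (hg1 y η)
  have hg2i : ∀ y, Integrable (fun η => g y η ^ 2) P := by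
    intro y
    refine Integrable.mono' (integrable_const 1) ((hgm y).pow_const 2).aestronglyMeasurable
      (Eventually.of_forall fun η => ?_)
    rw [Real.norm_eq_abs, abs_of_nonneg (sq_nonneg _)]
    exact pow_le_one₀ (hg0 y η) (hg1 y η)
  have hK0 : 0 ≤ K := (Va_nonneg ρ β h m).trans hK
  have hN0 : 0 ≤ N := (Nat.cast_nonneg _).trans hN
  have hoff : ∀ y, y ∉ boxF d n → ∀ η, g y η = 0 := by
    intro y hy η
    have hy' : y ∉ boxF d t := fun h1 => hy (boxF_mono ht h1)
    simp only [hg]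
    unfold cE
    simp only [Qt_off hy']
    simp
  have hsum : ∑ y ∈ R, ∫ η, g y η ^ 2 ∂P ≤ S := by
    refine le_trans ?_ hS
    rw [integral_finsetSum _ fun y _ => hg2i y]
    classical
    have h1 : ∑ y ∈ R, ∫ η, g y η ^ 2 ∂P = ∑ y ∈ R ∩ boxF d n, ∫ η, g y η ^ 2 ∂P := by
      symm
      refine Finset.sum_subset Finset.inter_subset_left fun y hy hy' => ?_
      have h2 : y ∉ boxF d n := fun h3 => hy' (Finset.mem_inter.2 ⟨hy, h3⟩)
      simp only [hoff y h2]
      simp
    rw [h1]
    exact Finset.sum_le_sum_of_subset_of_nonneg Finset.inter_subset_right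
      fun _ _ _ => integral_nonneg fun _ => sq_nonneg _
  have hS0 : 0 ≤ S := le_trans (Finset.sum_nonneg fun y _ =>
    integral_nonneg fun _ => sq_nonneg _) hsum
  have e0 : ∫ η, ∑ y ∈ R, Qt β h n t y η * |X β h (sh t y η) m - A ρ β h m| ∂P =
      ∑ y ∈ R, ∫ η, V y η * g y η ∂P := by
    have e1 : ∀ η, ∑ y ∈ R, Qt β h n t y η * |X β h (sh t y η) m - A ρ β h m| =
        ∑ y ∈ R, V y η * Qt β h n t y η := fun η =>
      Finset.sum_congr rfl fun y _ => mul_comm _ _
    simp only [e1]
    rw [integral_finsetSum _ fun y _ => hQVi y]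
    exact Finset.sum_congr rfl fun y _ => int_mul_cE _ (hQVi y) (hVd y)
  rw [e0]
  refine sqrt_of_all hS0 (mul_nonneg hK0 hN0) fun s hs => ?_
  have h1 : ∀ y ∈ R, 2 * ∫ η, V y η * g y η ∂P ≤ s * ∫ η, g y η ^ 2 ∂P + K / s := by
    intro y _
    have h2 : ∫ η, 2 * (V y η * g y η) ∂P ≤ ∫ η, (s * g y η ^ 2 +
        1 / s * (X β h (sh t y η) m - A ρ β h m) ^ 2) ∂P := by
      refine integral_mono ((hgVi y).const_mul 2) (((hg2i y).const_mul s).add
        ((V_dev_int hd hρ β h t m y).const_mul (1 / s))) fun η => ?_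
      simp only [hV]
      rw [← sq_abs (X β h (sh t y η) m - A ρ β h m)]
      set x := |X β h (sh t y η) m - A ρ β h m|
      set z := g y η
      have h3 : 0 ≤ (s * z - x) ^ 2 / s := by positivity
      have h4 : (s * z - x) ^ 2 / s = s * z ^ 2 + 1 / s * x ^ 2 - 2 * (x * z) := by
        field_simp
        ring
      linarith
    rw [integral_const_mul, integral_add ((hg2i y).const_mul s)
      ((V_dev_int hd hρ β h t m y).const_mul (1 / s)), integral_const_mul, integral_const_mul,
      V_dev_eq] at h2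
    have h5 : 1 / s * Va ρ β h m ≤ K / s := by
      rw [one_div_mul_eq_div]
      exact div_le_div_of_nonneg_right hK hs.le
    linarith
  calc 2 * ∑ y ∈ R, ∫ η, V y η * g y η ∂P
      = ∑ y ∈ R, 2 * ∫ η, V y η * g y η ∂P := Finset.mul_sum _ _ _
    _ ≤ ∑ y ∈ R, (s * ∫ η, g y η ^ 2 ∂P + K / s) := Finset.sum_le_sum h1
    _ = s * ∑ y ∈ R, ∫ η, g y η ^ 2 ∂P + R.card * (K / s) := by
        rw [Finset.sum_add_distrib, Finset.mul_sum, Finset.sum_const, nsmul_eq_mul]
    _ ≤ s * S + K * N / s := by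
        have h6 : (R.card : ℝ) * (K / s) ≤ N * (K / s) :=
          mul_le_mul_of_nonneg_right hN (by positivity)
        have h7 : N * (K / s) = K * N / s := by ring
        have h8 := mul_le_mul_of_nonneg_left hsum hs.le
        linarith

/-- The box inequality. -/
theorem box98e (hd : 0 < d) (hρ : EM ρ) {β : ℝ} {h : Vec d} {n t : ℕ} (ht : t ≤ n)
    (R : Finset (Site d)) {K N S r q : ℝ} (hr : 0 < r) (hN : (R.card : ℝ) ≤ N)
    (hKn : Va ρ β h n ≤ K) (hKt : Va ρ β h (n - t) ≤ K)
    (hS : ∫ η, ∑ y ∈ boxF d n, (cE ρ (Pa d t)ᶜ (Qt β h n t y) η) ^ 2 ∂(law d ρ) ≤ S)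
    (hq : (law d ρ).real {η | Real.exp (A ρ β h t - r) < ∑ y ∈ R, PP β h η t y} ≤ q) :
    ∫ η, ∑ y ∈ R, Qt β h n t y η ∂(law d ρ) ≤
      q + 16 * K / r ^ 2 + Real.exp (-(r / 4)) + 2 / r * Real.sqrt (K * N * S) := by
  have hW := winV98 hd hρ ht R hN hKt hS
  set m := n - t with hm
  set E₁ : Set (Env d) := {η | Real.exp (A ρ β h t - r) < ∑ y ∈ R, PP β h η t y} with hE
  have hPm : Measurable fun η : Env d => ∑ y ∈ R, PP β h η t y :=
    Finset.measurable_sum _ fun y _ => measurable_PP β h t y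
  have hE₁ : MeasurableSet E₁ :=
    measurableSet_lt measurable_const hPm
  have hadd : A ρ β h t + A ρ β h m ≤ A ρ β h n := by
    have h1 := A_add_le hd hρ β h t m
    rwa [hm, Nat.add_sub_cancel' ht] at h1
  -- pointwise
  have hone : ∀ η, ∑ y ∈ R, Qt β h n t y η ≤ 1 := by
    intro η
    classical
    rw [← Qt_sum hd β h ht η]
    have h1 : ∑ y ∈ R, Qt β h n t y η = ∑ y ∈ R ∩ boxF d t, Qt β h n t y η := by
      symm
      refine Finset.sum_subset Finset.inter_subset_left fun y hy hy' => ?_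
      exact Qt_off (fun h3 => hy' (Finset.mem_inter.2 ⟨hy, h3⟩)) η
    rw [h1]
    exact Finset.sum_le_sum_of_subset_of_nonneg Finset.inter_subset_right
      fun y _ _ => Qt_nonneg hd β h n t y η
  have hR0 : ∀ η, 0 ≤ ∑ y ∈ R, Qt β h n t y η * |X β h (sh t y η) m - A ρ β h m| := fun η =>
    Finset.sum_nonneg fun y _ => mul_nonneg (Qt_nonneg hd β h n t y η) (abs_nonneg _)
  have hpt : ∀ η, ∑ y ∈ R, Qt β h n t y η ≤ E₁.indicator (fun _ => (1 : ℝ)) η +
      16 / r ^ 2 * (X β h η n - A ρ β h n) ^ 2 + Real.exp (-(r / 4)) +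
      2 / r * ∑ y ∈ R, Qt β h n t y η * |X β h (sh t y η) m - A ρ β h m| := by
    intro η
    have ha : 0 ≤ E₁.indicator (fun _ => (1 : ℝ)) η := Set.indicator_nonneg (fun _ _ => zero_le_one) η
    have hb : 0 ≤ 16 / r ^ 2 * (X β h η n - A ρ β h n) ^ 2 := by positivity
    have hc := Real.exp_pos (-(r / 4))
    have hd' : 0 ≤ 2 / r * ∑ y ∈ R, Qt β h n t y η * |X β h (sh t y η) m - A ρ β h m| :=
      mul_nonneg (by positivity) (hR0 η)
    by_cases h1 : η ∈ E₁
    · rw [Set.indicator_of_mem h1] at ha ⊢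
      have := hone η
      linarith
    by_cases h2 : X β h η n < A ρ β h n - r / 4
    · have h3 : r / 4 ≤ |X β h η n - A ρ β h n| := by
        rw [abs_sub_comm]
        exact le_trans (by linarith) (le_abs_self _)
      have h4 : (r / 4) ^ 2 ≤ (X β h η n - A ρ β h n) ^ 2 := by
        rw [← sq_abs (X β h η n - A ρ β h n)]
        exact pow_le_pow_left₀ (by positivity) h3 2
      have h5 : 1 ≤ 16 / r ^ 2 * (X β h η n - A ρ β h n) ^ 2 := by
        rw [div_mul_eq_mul_div, le_div_iff₀ (by positivity)]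
        nlinarith
      have := hone η
      linarith
    push Not at h2
    -- the good event
    have hZ : Z β h η n = Real.exp (X β h η n) := (Real.exp_log (Z_pos hd β h η n)).symm
    have hstep : ∀ y ∈ R, Qt β h n t y η ≤
        2 / r * (Qt β h n t y η * |X β h (sh t y η) m - A ρ β h m|) +
          PP β h η t y * Real.exp (A ρ β h m + r / 2 - (A ρ β h n - r / 4)) := by
      intro y _
      have hQ0 := Qt_nonneg hd β h n t y η
      have hP0 := PP_nonneg β h η t y
      rcases le_or_gt (X β h (sh t y η) m - A ρ β h m) (r / 2) with h3 | h3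
      · have h4 : Qt β h n t y η ≤
            PP β h η t y * Real.exp (A ρ β h m + r / 2 - (A ρ β h n - r / 4)) := by
          unfold Qt
          rw [hZ, mul_div_assoc]
          refine mul_le_mul_of_nonneg_left ?_ hP0
          have h5 : Z β h (sh t y η) (n - t) = Real.exp (X β h (sh t y η) m) :=
            (Real.exp_log (Z_pos hd β h _ _)).symm
          rw [h5, ← Real.exp_sub]
          exact Real.exp_le_exp.2 (by linarith)
        have h6 : 0 ≤ 2 / r * (Qt β h n t y η * |X β h (sh t y η) m - A ρ β h m|) := by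
          positivity
        linarith
      · have h4 : r / 2 ≤ |X β h (sh t y η) m - A ρ β h m| := h3.le.trans (le_abs_self _)
        have h5 : Qt β h n t y η ≤
            2 / r * (Qt β h n t y η * |X β h (sh t y η) m - A ρ β h m|) := by
          have h6 := mul_le_mul_of_nonneg_left h4 hQ0
          rw [div_mul_eq_mul_div, le_div_iff₀ hr]
          linarith
        have h7 : 0 ≤ PP β h η t y * Real.exp (A ρ β h m + r / 2 - (A ρ β h n - r / 4)) := by
          positivity
        linarith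
    have hsum := Finset.sum_le_sum hstep
    rw [Finset.sum_add_distrib, ← Finset.mul_sum, ← Finset.sum_mul] at hsum
    have hlast : (∑ y ∈ R, PP β h η t y) *
        Real.exp (A ρ β h m + r / 2 - (A ρ β h n - r / 4)) ≤ Real.exp (-(r / 4)) := by
      have h4 : ∑ y ∈ R, PP β h η t y ≤ Real.exp (A ρ β h t - r) := not_lt.1 h1
      refine (mul_le_mul_of_nonneg_right h4 (Real.exp_pos _).le).trans ?_
      rw [← Real.exp_add]
      exact Real.exp_le_exp.2 (by linarith)
    linarith
  -- integrate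
  have hi1 : Integrable (E₁.indicator fun _ => (1 : ℝ)) (law d ρ) :=
    (integrable_const 1).indicator hE₁
  have hi2 : Integrable (fun η => 16 / r ^ 2 * (X β h η n - A ρ β h n) ^ 2) (law d ρ) :=
    (X_dev_int hd hρ β h n).const_mul _
  have hi3 : Integrable (fun η => ∑ y ∈ R, Qt β h n t y η *
      |X β h (sh t y η) m - A ρ β h m|) (law d ρ) := by
    refine integrable_finsetSum _ fun y _ => ?_
    refine (V_abs_int hd hρ β h t m y).mono' ((measurable_Qt β h n t y).mul
      (((measurable_X β h m).comp (measurable_sh t y)).sub_const _).abs).aestronglyMeasurable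
      (Eventually.of_forall fun η => ?_)
    rw [Real.norm_eq_abs, abs_mul, abs_abs]
    exact mul_le_of_le_one_left (abs_nonneg _) (Qt_abs hd β h ht y η)
  have hi0 : Integrable (fun η => ∑ y ∈ R, Qt β h n t y η) (law d ρ) := by
    refine Integrable.mono' (integrable_const 1) (Finset.measurable_sum _ fun y _ =>
      measurable_Qt β h n t y).aestronglyMeasurable (Eventually.of_forall fun η => ?_)
    rw [Real.norm_eq_abs, abs_of_nonneg (Finset.sum_nonneg fun y _ => Qt_nonneg hd β h n t y η)]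
    exact hone η
  have hs1 : Integrable (fun η => E₁.indicator (fun _ => (1 : ℝ)) η +
      16 / r ^ 2 * (X β h η n - A ρ β h n) ^ 2) (law d ρ) := hi1.add hi2
  have hs2 : Integrable (fun η => E₁.indicator (fun _ => (1 : ℝ)) η +
      16 / r ^ 2 * (X β h η n - A ρ β h n) ^ 2 + Real.exp (-(r / 4))) (law d ρ) :=
    hs1.add (integrable_const _)
  have hfin := integral_mono hi0 (hs2.add (hi3.const_mul (2 / r))) hpt
  simp only [Pi.add_apply] at hfin
  rw [integral_add hs2 (hi3.const_mul _), integral_add hs1 (integrable_const _),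
    integral_add hi1 hi2, integral_const_mul, integral_const_mul] at hfin
  have e1 : ∫ η, E₁.indicator (fun _ => (1 : ℝ)) η ∂(law d ρ) = (law d ρ).real E₁ := by
    rw [integral_indicator hE₁]
    simp
  have e2 : ∫ _ : Env d, Real.exp (-(r / 4)) ∂(law d ρ) = Real.exp (-(r / 4)) := by simp
  have e3 : 16 / r ^ 2 * ∫ η, (X β h η n - A ρ β h n) ^ 2 ∂(law d ρ) ≤ 16 * K / r ^ 2 := by
    rw [div_mul_eq_mul_div]
    exact div_le_div_of_nonneg_right (mul_le_mul_of_nonneg_left hKn (by norm_num))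
      (by positivity)
  rw [e1, e2] at hfin
  have e4 := mul_le_mul_of_nonneg_left hW (show 0 ≤ 2 / r by positivity)
  linarith

/-- The box inequality, with the logarithm. -/
theorem box98 (hd : 0 < d) (hρ : EM ρ) {β : ℝ} {h : Vec d} {n t : ℕ} (ht : t ≤ n)
    (R : Finset (Site d)) {K N S r q : ℝ} (hr : 0 < r) (hN : (R.card : ℝ) ≤ N)
    (hKn : Va ρ β h n ≤ K) (hKt : Va ρ β h (n - t) ≤ K)
    (hS : ∫ η, ∑ y ∈ boxF d n, (cE ρ (Pa d t)ᶜ (Qt β h n t y) η) ^ 2 ∂(law d ρ) ≤ S)
    (hq : (law d ρ).real {η | A ρ β h t - r < Real.log (∑ y ∈ R, PP β h η t y)} ≤ q) :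
    ∫ η, ∑ y ∈ R, Qt β h n t y η ∂(law d ρ) ≤
      q + 16 * K / r ^ 2 + Real.exp (-(r / 4)) + 2 / r * Real.sqrt (K * N * S) := by
  refine box98e hd hρ ht R hr hN hKn hKt hS (le_trans (measureReal_mono ?_) hq)
  intro η hη
  exact (Real.lt_log_iff_exp_lt ((Real.exp_pos _).trans hη)).2 hη

end Pool.Agent.W_7d29a1_Q29.S98
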