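import Pool.Agent.W_7d29a1_Q29.Sum98
import Pool.Agent.W_7d29a1_Q29.Dual85
import Pool.Agent.W_7d29a1_Q29.Site39

/-!
The backward and forward sums of squares are at most a constant times the variance.
-/

namespace Pool.Agent.W_7d29a1_Q29

open MeasureTheory ProbabilityTheory Filter Topology Pool.Agent.W_MP_7d29a1_pr
  Pool.Agent.W_7d29a1_h46 Pool.Agent.W_7d29a1_h46u Pool.Agent.W_7d29a1_D2.B35

variable {d : ℕ} {ρ : Measure ℝ} [IsProbabilityMeasure ρ]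

lemma S98.dualP (hρ : EM ρ) : S98.DualP d ρ := by
  intro I F hF hF2 G Q hGm hQm hG hQ hdep hO hGQ c hc h1 A0
  exact dual85 hρ I F hF hF2 G Q hGm hQm hG hQ hdep hO hGQ hc h1 A0

lemma S98.siteP (hd : 0 < d) (hρ : EM ρ) (hnc : ∀ c : ℝ, ρ {c} ≠ 1) {β : ℝ} (hβ : 0 < β) :
    S98.SiteP d ρ β := by
  obtain ⟨c, hc, h⟩ := site39 (ρ := ρ) hd hρ hnc hβ
  exact ⟨c, hc, h⟩

/-- N2, backward. -/
theorem npb98 (hd : 0 < d) (hρ : EM ρ) (hnc : ∀ c : ℝ, ρ {c} ≠ 1) {β : ℝ} (hβ : 0 < β) :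
    NPB d ρ β := S98.npb hd hρ (S98.dualP hρ) (S98.siteP hd hρ hnc hβ)

/-- N2, forward. -/
theorem npf98 (hd : 0 < d) (hρ : EM ρ) (hnc : ∀ c : ℝ, ρ {c} ≠ 1) {β : ℝ} (hβ : 0 < β) :
    NPF d ρ β := S98.npf hd hρ (S98.dualP hρ) (S98.siteP hd hρ hnc hβ)

end Pool.Agent.W_7d29a1_Q29
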