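import Pool.Agent.W_7d29a1_Q29.Cher94
import Pool.Agent.W_7d29a1_h46u.TubV

/-!
Chernoff bounds at an intermediate time: the polymer, pointwise in the environment; subgradients of
the mean free energy.
-/

namespace Pool.Agent.W_7d29a1_Q29

open MeasureTheory ProbabilityTheory Filter Topology Pool.Agent.W_MP_7d29a1_pr
  Pool.Agent.W_7d29a1_h46 Pool.Agent.W_7d29a1_h46u Pool.Agent.W_7d29a1_D2.B35

variable {d : ℕ}

lemma X_exp94 (hd : 0 < d) (β : ℝ) (h : Vec d) (η : Env d) (n : ℕ) :
    Real.exp (X β h η n) = Z β h η n := Real.exp_log (Z_pos hd β h η n)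

lemma sumPPZ94 (β : ℝ) (h : Vec d) (η : Env d) (t k : ℕ) (Y : Finset (Site d)) :
    ∑ y ∈ Y, PP β h η t y * Z β h (sh t y η) k ≤ Z β h η (t + k) := by
  classical
  rw [Z_add]
  have h1 : ∀ y ∈ Y, PP β h η t y * Z β h (sh t y η) k = ∑ s : Fin t → Step d,
      (if pos s t = y then wgt β h η s * Z β h (sh t (pos s t) η) k else 0) := by
    intro y _
    unfold PP ZT
    rw [Finset.sum_mul]
    refine Finset.sum_congr rfl fun s _ => ?_
    by_cases hs : pos s t = y
    · rw [if_pos hs, if_pos (show s ∈ {s : Fin t → Step d | pos s t = y} from hs), hs]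
    · rw [if_neg hs, if_neg (show s ∉ {s : Fin t → Step d | pos s t = y} from hs), zero_mul]
  rw [Finset.sum_congr rfl h1, Finset.sum_comm]
  refine Finset.sum_le_sum fun s _ => ?_
  rw [Finset.sum_ite_eq]
  split_ifs
  · exact le_rfl
  · exact mul_nonneg (wgt_pos _ _ _ _).le (ZT_nonneg _ _ _ _)

lemma sumPPZ94' (β : ℝ) (h : Vec d) (η : Env d) (t k : ℕ) {Y : Finset (Site d)}
    (hY : boxF d t ⊆ Y) :
    ∑ y ∈ Y, PP β h η t y * Z β h (sh t y η) k = Z β h η (t + k) := by
  classical
  rw [Z_add]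
  have h1 : ∀ y ∈ Y, PP β h η t y * Z β h (sh t y η) k = ∑ s : Fin t → Step d,
      (if pos s t = y then wgt β h η s * Z β h (sh t (pos s t) η) k else 0) := by
    intro y _
    unfold PP ZT
    rw [Finset.sum_mul]
    refine Finset.sum_congr rfl fun s _ => ?_
    by_cases hs : pos s t = y
    · rw [if_pos hs, if_pos (show s ∈ {s : Fin t → Step d | pos s t = y} from hs), hs]
    · rw [if_neg hs, if_neg (show s ∉ {s : Fin t → Step d | pos s t = y} from hs), zero_mul]
  rw [Finset.sum_congr rfl h1, Finset.sum_comm]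
  refine Finset.sum_congr rfl fun s _ => ?_
  rw [Finset.sum_ite_eq, if_pos (hY (pos_mem_box s t))]

lemma Qt_nonneg94 (β : ℝ) (h : Vec d) (L t : ℕ) (y : Site d) (η : Env d) :
    0 ≤ Qt β h L t y η := by
  unfold Qt
  exact div_nonneg (mul_nonneg (PP_nonneg _ _ _ _ _) (ZT_nonneg _ _ _ _)) (ZT_nonneg _ _ _ _)

lemma sumQt_le94 (hd : 0 < d) (β : ℝ) (h : Vec d) {L t : ℕ} (ht : t ≤ L) (Y : Finset (Site d))
    (η : Env d) : ∑ y ∈ Y, Qt β h L t y η ≤ 1 := by
  unfold Qt
  rw [← Finset.sum_div, div_le_one (Z_pos hd β h η L)]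
  refine (sumPPZ94 β h η t (L - t) Y).trans (le_of_eq ?_)
  rw [Nat.add_sub_cancel' ht]

lemma sumQt_eq94 (hd : 0 < d) (β : ℝ) (h : Vec d) {L t : ℕ} (ht : t ≤ L) {Y : Finset (Site d)}
    (hY : boxF d t ⊆ Y) (η : Env d) : ∑ y ∈ Y, Qt β h L t y η = 1 := by
  unfold Qt
  rw [← Finset.sum_div, sumPPZ94' β h η t (L - t) hY, Nat.add_sub_cancel' ht,
    div_self (Z_pos hd β h η L).ne']

lemma Qt_le_one94 (hd : 0 < d) (β : ℝ) (h : Vec d) {L t : ℕ} (ht : t ≤ L) (y : Site d)
    (η : Env d) : Qt β h L t y η ≤ 1 := by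
  have := sumQt_le94 hd β h ht {y} η
  rwa [Finset.sum_singleton] at this

lemma measurable_PP94 (β : ℝ) (h : Vec d) (m : ℕ) (z : Site d) :
    Measurable fun η : Env d => PP β h η m z := measurable_ZT β h _

lemma measurable_Qt94 (β : ℝ) (h : Vec d) (L t : ℕ) (y : Site d) :
    Measurable (Qt β h L t y : Env d → ℝ) := by
  unfold Qt
  exact ((measurable_PP94 β h t y).mul
    ((measurable_Z β h (L - t)).comp (measurable_sh t y))).div (measurable_Z β h L)

/-- The mass of the sites of `Y`, all far in the direction of `u`, with good future. -/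
lemma chern94 (hd : 0 < d) (β : ℝ) (h u c : Vec d) (η : Env d) {L t : ℕ} (ht : t ≤ L)
    (Y : Finset (Site d)) {v δ : ℝ} (hY : ∀ y ∈ Y, v ≤ inner ℝ u (emb y - c))
    (hδ : ∀ y ∈ Y, X β h (sh t y η) (L - t) ≤ X β (h + u) (sh t y η) (L - t) + δ) :
    ∑ y ∈ Y, Qt β h L t y η ≤
      Real.exp (-v - inner ℝ u c + δ + X β (h + u) η L - X β h η L) := by
  have hL : t + (L - t) = L := Nat.add_sub_cancel' ht
  have h1 : ∀ y ∈ Y, PP β h η t y * Z β h (sh t y η) (L - t) ≤
      Real.exp (-v - inner ℝ u c + δ) *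
        (PP β (h + u) η t y * Z β (h + u) (sh t y η) (L - t)) := by
    intro y hy
    have h2 : PP β (h + u) η t y = Real.exp (inner ℝ u (emb y)) * PP β h η t y :=
      PP_tilt β h u η t y
    have h3 : Z β h (sh t y η) (L - t) ≤
        Real.exp δ * Z β (h + u) (sh t y η) (L - t) := by
      rw [← X_exp94 hd, ← X_exp94 hd, ← Real.exp_add]
      apply Real.exp_le_exp.2
      have := hδ y hy
      linarith
    have h4 : 1 ≤ Real.exp (-v - inner ℝ u c) * Real.exp (inner ℝ u (emb y)) := by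
      rw [← Real.exp_add]
      apply Real.one_le_exp
      have := hY y hy
      rw [inner_sub_right] at this
      linarith
    have h5 : PP β h η t y ≤ Real.exp (-v - inner ℝ u c) * PP β (h + u) η t y := by
      rw [h2, ← mul_assoc]
      exact le_mul_of_one_le_left (PP_nonneg _ _ _ _ _) h4
    calc PP β h η t y * Z β h (sh t y η) (L - t)
        ≤ (Real.exp (-v - inner ℝ u c) * PP β (h + u) η t y) *
            (Real.exp δ * Z β (h + u) (sh t y η) (L - t)) :=
          mul_le_mul h5 h3 (ZT_nonneg _ _ _ _)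
            (mul_nonneg (Real.exp_pos _).le (PP_nonneg _ _ _ _ _))
      _ = _ := by
          rw [Real.exp_add (-v - inner ℝ u c) δ]
          ring
  unfold Qt
  rw [← Finset.sum_div, div_le_iff₀ (Z_pos hd β h η L)]
  have h6 := Finset.sum_le_sum h1
  rw [← Finset.mul_sum] at h6
  refine h6.trans ?_
  have h7 := mul_le_mul_of_nonneg_left (sumPPZ94 β (h + u) η t (L - t) Y)
    (Real.exp_pos (-v - inner ℝ u c + δ)).le
  refine h7.trans (le_of_eq ?_)
  rw [hL, ← X_exp94 hd β (h + u), ← X_exp94 hd β h, ← Real.exp_add, ← Real.exp_add]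
  congr 1
  ring

/-- The quenched mean of a coordinate of the end point. -/
noncomputable def mn94 (β : ℝ) (h : Vec d) (m : ℕ) (k : Fin d) (η : Env d) : ℝ :=
  (∑ s : Fin m → Step d, wgt β h η s * (emb (pos s m)) k) / Z β h η m

lemma mn94_abs (hd : 0 < d) (β : ℝ) (h : Vec d) (m : ℕ) (k : Fin d) (η : Env d) :
    |mn94 β h m k η| ≤ m := by
  have hZ := Z_pos hd β h η m
  unfold mn94
  rw [abs_div, abs_of_pos hZ, div_le_iff₀ hZ, Z_eq, Finset.mul_sum]
  refine (Finset.abs_sum_le_sum_abs _ _).trans (Finset.sum_le_sum fun s _ => ?_)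
  rw [abs_mul, abs_of_pos (wgt_pos β h η s), mul_comm]
  refine mul_le_mul_of_nonneg_right ?_ (wgt_pos _ _ _ _).le
  refine (abs_coord94 _ k).trans ?_
  rw [norm_emb]
  exact nrm_pos_le s m

lemma mn94_meas (β : ℝ) (h : Vec d) (m : ℕ) (k : Fin d) : Measurable (mn94 β h m k : Env d → ℝ) := by
  unfold mn94
  exact (Finset.measurable_sum _ fun s _ => (measurable_wgt β h s).mul_const _).div
    (measurable_Z β h m)

lemma mn94_le (hd : 0 < d) (β : ℝ) (h q : Vec d) (m : ℕ) (η : Env d) :
    X β h η m + ∑ k, q k * mn94 β h m k η ≤ X β (h + q) η m := by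
  have hZ := Z_pos hd β h η m
  obtain ⟨M, hM⟩ : ∃ M, M = ∑ k, q k * mn94 β h m k η := ⟨_, rfl⟩
  have e1 : M * Z β h η m = ∑ s : Fin m → Step d, wgt β h η s * inner ℝ q (emb (pos s m)) := by
    rw [hM, Finset.sum_mul]
    have h1 : ∀ k : Fin d, q k * mn94 β h m k η * Z β h η m =
        ∑ s : Fin m → Step d, wgt β h η s * (q k * (emb (pos s m)) k) := by
      intro k
      unfold mn94
      rw [mul_assoc, div_mul_cancel₀ _ hZ.ne', Finset.mul_sum]
      exact Finset.sum_congr rfl fun s _ => by ring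
    rw [Finset.sum_congr rfl fun k _ => h1 k, Finset.sum_comm]
    refine Finset.sum_congr rfl fun s _ => ?_
    rw [inner_sum94, Finset.mul_sum]
  rw [← hM]
  have h2 : Real.exp M * Z β h η m ≤ Z β (h + q) η m := by
    have h3 : ∀ s : Fin m → Step d, Real.exp M * (wgt β h η s * (1 - M)) +
        Real.exp M * (wgt β h η s * inner ℝ q (emb (pos s m))) ≤ wgt β (h + q) η s := by
      intro s
      have h4 : wgt β (h + q) η s = Real.exp (inner ℝ q (emb (pos s m))) * wgt β h η s := by
        unfold wgt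
        rw [← Real.exp_add, inner_add_left]
        congr 1
        ring
      have h5 := Real.add_one_le_exp (inner ℝ q (emb (pos s m)) - M)
      have h6 : Real.exp M * (inner ℝ q (emb (pos s m)) - M + 1) ≤
          Real.exp (inner ℝ q (emb (pos s m))) := by
        have := mul_le_mul_of_nonneg_left h5 (Real.exp_pos M).le
        rwa [← Real.exp_add, add_sub_cancel] at this
      rw [h4]
      have := mul_le_mul_of_nonneg_right h6 (wgt_pos β h η s).le
      linarith
    have h7 := Finset.sum_le_sum fun s (_ : s ∈ Finset.univ) => h3 s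
    rw [Finset.sum_add_distrib, ← Finset.mul_sum, ← Finset.mul_sum, ← Finset.sum_mul, ← Z_eq,
      ← e1, ← Z_eq] at h7
    refine le_trans (le_of_eq ?_) h7
    ring
  rw [← X_exp94 hd, ← X_exp94 hd, ← Real.exp_add, Real.exp_le_exp] at h2
  linarith

variable {ρ : Measure ℝ} [IsProbabilityMeasure ρ]

lemma sub94 (hd : 0 < d) (hρ : EM ρ) (β : ℝ) (h : Vec d) (m : ℕ) :
    ∃ a : Vec d, (∀ k, |a k| ≤ m) ∧ ∀ q, A ρ β h m + inner ℝ a q ≤ A ρ β (h + q) m := by
  have hint : ∀ k, Integrable (fun η => mn94 β h m k η) (law d ρ) := fun k =>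
    Integrable.mono' (integrable_const (m : ℝ)) (mn94_meas β h m k).aestronglyMeasurable
      (Eventually.of_forall fun η => mn94_abs hd β h m k η)
  refine ⟨WithLp.toLp 2 fun k => ∫ η, mn94 β h m k η ∂(law d ρ), fun k => ?_, fun q => ?_⟩
  · show |∫ η, mn94 β h m k η ∂(law d ρ)| ≤ m
    have h1 := norm_integral_le_of_norm_le_const (μ := law d ρ) (f := mn94 β h m k) (C := m)
      (Eventually.of_forall fun η => mn94_abs hd β h m k η)
    simpa using h1
  · have h1 := integral_mono (μ := law d ρ)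
      (((concU hd hρ β h m).1).add (integrable_finsetSum Finset.univ
        fun k _ => (hint k).const_mul (q k))) (concU hd hρ β (h + q) m).1
      fun η => mn94_le hd β h q m η
    have h2 : ∫ η, (X β h η m + ∑ k, q k * mn94 β h m k η) ∂(law d ρ) =
        A ρ β h m + ∑ k, q k * ∫ η, mn94 β h m k η ∂(law d ρ) := by
      rw [integral_add (concU hd hρ β h m).1 (integrable_finsetSum Finset.univ
        fun k _ => (hint k).const_mul (q k)), integral_finsetSum Finset.univ
        fun k _ => (hint k).const_mul (q k)]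
      simp only [integral_const_mul]
      rfl
    rw [inner_sum94]
    have h3 : ∑ k, (WithLp.toLp 2 fun k => ∫ η, mn94 β h m k η ∂(law d ρ) : Vec d) k * q k =
        ∑ k, q k * ∫ η, mn94 β h m k η ∂(law d ρ) :=
      Finset.sum_congr rfl fun k _ => mul_comm _ _
    rw [h3, ← h2]
    exact h1

end Pool.Agent.W_7d29a1_Q29
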