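import Mathlib

/-!
Two facts of analysis for the almost every tilt form of project Q: a set of positive measure
contains, near most of its points, points in every direction at every small distance (Lebesgue
density); and a convex function over a box is controlled by its second differences along the axes.
-/

namespace Pool.Agent.W_7d29a1_Q29.D65

open MeasureTheory Metric Filter Topology Set

variable {E : Type*} [NormedAddCommGroup E] [NormedSpace ℝ E] [FiniteDimensional ℝ E]
  [MeasurableSpace E] [BorelSpace E]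

/-- If `T` misses a ball of radius `ε ‖v‖` about `x + v`, its density in the ball of radius
`(1 + ε) ‖v‖` about `x` is at most `1 - (ε / (1 + ε)) ^ dim`. -/
theorem miss (μ : Measure E) [μ.IsAddHaarMeasure] (T : Set E) {ε : ℝ} (hε : 0 < ε) (x v : E)
    (hv : v ≠ 0) (hm : ∀ y ∈ T, ε * ‖v‖ < ‖y - x - v‖) :
    μ (T ∩ closedBall x ((1 + ε) * ‖v‖)) / μ (closedBall x ((1 + ε) * ‖v‖)) ≤
      1 - ENNReal.ofReal ((ε / (1 + ε)) ^ Module.finrank ℝ E) := by
  have hn : 0 < ‖v‖ := norm_pos_iff.mpr hv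
  have hR : 0 < (1 + ε) * ‖v‖ := by positivity
  set R := (1 + ε) * ‖v‖ with hRdef
  have hsub : closedBall (x + v) (ε * ‖v‖) ⊆ closedBall x R := by
    intro y hy
    rw [mem_closedBall, dist_eq_norm] at hy ⊢
    calc ‖y - x‖ = ‖(y - (x + v)) + v‖ := by congr 1; abel
      _ ≤ ‖y - (x + v)‖ + ‖v‖ := norm_add_le _ _
      _ ≤ ε * ‖v‖ + ‖v‖ := by linarith
      _ = R := by rw [hRdef]; ring
  have hdisj : Disjoint (T ∩ closedBall x R) (closedBall (x + v) (ε * ‖v‖)) := by
    rw [Set.disjoint_left]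
    rintro y ⟨hyT, -⟩ hy
    have := hm y hyT
    rw [mem_closedBall, dist_eq_norm] at hy
    have e : y - (x + v) = y - x - v := by abel
    rw [e] at hy
    linarith
  have hfin : μ (closedBall x R) ≠ ⊤ := measure_closedBall_lt_top.ne
  have hpos : μ (closedBall x R) ≠ 0 := (measure_closedBall_pos μ x hR).ne'
  have hunion : μ (T ∩ closedBall x R) + μ (closedBall (x + v) (ε * ‖v‖)) ≤
      μ (closedBall x R) := by
    rw [← measure_union hdisj isClosed_closedBall.measurableSet]
    exact measure_mono (Set.union_subset Set.inter_subset_right hsub)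
  have hsm : μ (closedBall (x + v) (ε * ‖v‖)) =
      ENNReal.ofReal ((ε / (1 + ε)) ^ Module.finrank ℝ E) * μ (closedBall x R) := by
    rw [Measure.addHaar_closedBall' μ _ (by positivity : 0 ≤ ε * ‖v‖),
      Measure.addHaar_closedBall' μ _ hR.le, ← mul_assoc, ← ENNReal.ofReal_mul (by positivity)]
    congr 2
    rw [← mul_pow]
    congr 1
    rw [hRdef]
    field_simp
  rw [hsm] at hunion
  have h1 : ENNReal.ofReal ((ε / (1 + ε)) ^ Module.finrank ℝ E) ≠ ⊤ := ENNReal.ofReal_ne_top
  refine ENNReal.le_sub_of_add_le_right h1 ?_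
  have : μ (T ∩ closedBall x R) / μ (closedBall x R) +
      ENNReal.ofReal ((ε / (1 + ε)) ^ Module.finrank ℝ E) =
      (μ (T ∩ closedBall x R) + ENNReal.ofReal ((ε / (1 + ε)) ^ Module.finrank ℝ E) *
        μ (closedBall x R)) / μ (closedBall x R) := by
    rw [ENNReal.add_div, ENNReal.mul_div_cancel_right hpos hfin]
  rw [this]
  exact ENNReal.div_le_of_le_mul (by rwa [one_mul])

/-- **Density leaf.** Any measurable set `T` of positive measure has a subset `T'` of positive outer
measure at every point `x` of which, for every small `v ≠ 0`, some point of `T` is within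
`ε ‖v‖` of `x + v`. -/
theorem density_leaf (μ : Measure E) [μ.IsAddHaarMeasure] (T : Set E) (hTm : MeasurableSet T)
    (hT : μ T ≠ 0) {ε : ℝ} (hε : 0 < ε) : ∃ r₀ : ℝ, 0 < r₀ ∧ ∃ T' ⊆ T, μ T' ≠ 0 ∧ ∀ x ∈ T', ∀ v : E, v ≠ 0 → ‖v‖ ≤ r₀ →
      ∃ y ∈ T, ‖y - x - v‖ ≤ ε * ‖v‖ := by
  let G : ℕ → Set E := fun n => {x ∈ T | ∀ v : E, v ≠ 0 → ‖v‖ ≤ 1 / ((n : ℝ) + 1) →
      ∃ y ∈ T, ‖y - x - v‖ ≤ ε * ‖v‖}
  have hex : ∃ n, μ (G n) ≠ 0 := by
    by_contra hcon
    push Not at hcon
    have hU : μ (⋃ n, G n) = 0 := measure_iUnion_null hcon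
    have hae := Besicovitch.ae_tendsto_measure_inter_div μ T
    have hfrac : 0 < ENNReal.ofReal ((ε / (1 + ε)) ^ Module.finrank ℝ E) :=
      ENNReal.ofReal_pos.mpr (by positivity)
    have hlt : 1 - ENNReal.ofReal ((ε / (1 + ε)) ^ Module.finrank ℝ E) < 1 :=
      ENNReal.sub_lt_self ENNReal.one_ne_top one_ne_zero hfrac.ne'
    have hcov : ∀ᵐ x ∂(μ.restrict T), x ∈ T → x ∈ ⋃ n, G n := by
      filter_upwards [hae] with x hx hxT
      have hev := hx.eventually (lt_mem_nhds hlt)
      rw [eventually_nhdsWithin_iff, Metric.eventually_nhds_iff] at hev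
      obtain ⟨δ, hδ, hball⟩ := hev
      obtain ⟨n, hn⟩ := exists_nat_one_div_lt (show 0 < δ / (1 + ε) by positivity)
      refine Set.mem_iUnion.mpr ⟨n, hxT, fun v hv hvn => ?_⟩
      by_contra hno
      push Not at hno
      have hvpos : 0 < ‖v‖ := norm_pos_iff.mpr hv
      have hle := miss μ T hε x v hv hno
      have hR : (1 + ε) * ‖v‖ < δ := by
        have : ‖v‖ < δ / (1 + ε) := lt_of_le_of_lt hvn hn
        rw [lt_div_iff₀ (by positivity)] at this
        linarith
      have h2 := hball (y := (1 + ε) * ‖v‖) (by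
        rw [Real.dist_eq, sub_zero, abs_of_pos (by positivity)]; exact hR)
        (Set.mem_Ioi.mpr (by positivity))
      exact absurd hle (not_le.mpr h2)
    have hnull : μ T = 0 := by
      have h2 : ∀ᵐ x ∂μ, x ∈ T → x ∈ ⋃ n, G n := by
        have := (ae_restrict_iff' hTm).mp hcov
        filter_upwards [this] with x hx hxT
        exact hx hxT hxT
      have h3 : μ {x | ¬ (x ∈ T → x ∈ ⋃ n, G n)} = 0 := h2
      have h4 : T ⊆ (⋃ n, G n) ∪ {x | ¬ (x ∈ T → x ∈ ⋃ n, G n)} := by
        intro x hx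
        by_cases hxG : x ∈ ⋃ n, G n
        · exact Or.inl hxG
        · exact Or.inr (fun hi => hxG (hi hx))
      have h5 := measure_mono (μ := μ) h4
      have h6 := measure_union_le (μ := μ) (⋃ n, G n) {x | ¬ (x ∈ T → x ∈ ⋃ n, G n)}
      rw [hU, h3, add_zero] at h6
      exact le_antisymm (h5.trans h6) bot_le
    exact hT hnull
  obtain ⟨n, hn⟩ := hex
  exact ⟨1 / ((n : ℝ) + 1), by positivity, G n, fun x hx => hx.1, hn, fun x hx => hx.2⟩

section Convex

variable {F : Type*} [AddCommGroup F] [Module ℝ F]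

/-- A nonnegative convex function on a segment `[-v, v]` is at most the sum of its end values. -/
theorem seg_le (D : F → ℝ) (hD : ConvexOn ℝ univ D) (h0 : ∀ q, 0 ≤ D q) (v : F) {s : ℝ}
    (hs : |s| ≤ 1) : D (s • v) ≤ D v + D (-v) := by
  obtain ⟨h1, h2⟩ := abs_le.mp hs
  have hc := hD.2 (mem_univ v) (mem_univ (-v)) (show 0 ≤ (1 + s) / 2 by linarith)
    (show 0 ≤ (1 - s) / 2 by linarith) (by ring)
  have he : ((1 + s) / 2) • v + ((1 - s) / 2) • (-v) = s • v := by
    rw [smul_neg, ← sub_eq_add_neg, ← sub_smul]; congr 1; ring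
  rw [he] at hc
  simp only [smul_eq_mul] at hc
  have := h0 v
  have := h0 (-v)
  nlinarith

/-- **Convexity leaf**, general directions. If `f` is convex with subgradient `g` (a linear form) at
`h` and `q = ∑ s_i v_i` with `|s_i| ≤ 1`, then `f (h + q) - f h - g q` is at most the average over
`i` of the second differences of `f` at `h` along `m v_i`, `m` the number of directions. -/
theorem cvx_dirs {ι : Type*} [Fintype ι] [Nonempty ι] (f : F → ℝ) (hf : ConvexOn ℝ univ f) (h : F)
    (g : F →ₗ[ℝ] ℝ) (hg : ∀ q, f h + g q ≤ f (h + q)) (v : ι → F) (s : ι → ℝ)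
    (hs : ∀ i, |s i| ≤ 1) :
    (Fintype.card ι : ℝ) * (f (h + ∑ i, s i • v i) - f h - g (∑ i, s i • v i)) ≤
      ∑ i, (f (h + (Fintype.card ι : ℝ) • v i) + f (h - (Fintype.card ι : ℝ) • v i) - 2 * f h) := by
  set m : ℝ := (Fintype.card ι : ℝ) with hm
  have hm0 : 0 < m := by rw [hm]; exact_mod_cast Fintype.card_pos
  let D : F → ℝ := fun q => f (h + q) - f h - g q
  have hDc : ConvexOn ℝ univ D := by
    refine ⟨convex_univ, fun x _ y _ a b ha hb hab => ?_⟩
    have := hf.2 (mem_univ (h + x)) (mem_univ (h + y)) ha hb hab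
    have e : a • (h + x) + b • (h + y) = h + (a • x + b • y) := by
      rw [smul_add, smul_add]
      have : a • h + b • h = h := by rw [← add_smul, hab, one_smul]
      calc a • h + a • x + (b • h + b • y) = (a • h + b • h) + (a • x + b • y) := by abel
        _ = _ := by rw [this]
    rw [e] at this
    simp only [smul_eq_mul] at this
    simp only [D, map_add, map_smul, smul_eq_mul]
    have hb' : b = 1 - a := by linarith
    subst hb'
    nlinarith
  have hD0 : ∀ q, 0 ≤ D q := fun q => by have := hg q; simp only [D]; linarith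
  have hjen : D (∑ i, s i • v i) ≤ ∑ i, (1 / m) * D (m • (s i • v i)) := by
    have := hDc.map_sum_le (t := Finset.univ) (w := fun _ : ι => 1 / m)
      (p := fun i => m • (s i • v i)) (fun _ _ => by positivity)
      (by rw [Finset.sum_const, Finset.card_univ, nsmul_eq_mul, ← hm]; field_simp)
      (fun _ _ => mem_univ _)
    have e : ∑ i, (1 / m) • (m • (s i • v i)) = ∑ i, s i • v i := by
      refine Finset.sum_congr rfl fun i _ => ?_
      rw [smul_smul, one_div, inv_mul_cancel₀ hm0.ne', one_smul]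
    rw [e] at this
    simpa only [smul_eq_mul] using this
  have hterm : ∀ i, D (m • (s i • v i)) ≤ f (h + m • v i) + f (h - m • v i) - 2 * f h := by
    intro i
    have := seg_le D hDc hD0 (m • v i) (hs i)
    rw [smul_comm] at this
    refine this.trans (le_of_eq ?_)
    simp only [D, map_neg, ← sub_eq_add_neg]
    ring
  have hDq : D (∑ i, s i • v i) = f (h + ∑ i, s i • v i) - f h - g (∑ i, s i • v i) := rfl
  rw [← hDq]
  calc m * D (∑ i, s i • v i) ≤ m * ∑ i, (1 / m) * D (m • (s i • v i)) :=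
        mul_le_mul_of_nonneg_left hjen hm0.le
    _ = ∑ i, D (m • (s i • v i)) := by
        rw [Finset.mul_sum]
        refine Finset.sum_congr rfl fun i _ => ?_
        field_simp
    _ ≤ _ := Finset.sum_le_sum fun i _ => hterm i

/-- **Convexity leaf**, coordinate form in `ℝ ^ d`. -/
theorem cvx_box {d : ℕ} (f : EuclideanSpace ℝ (Fin d) → ℝ) (hf : ConvexOn ℝ univ f)
    (h g : EuclideanSpace ℝ (Fin d)) (hg : ∀ q, f h + inner ℝ g q ≤ f (h + q)) {r : ℝ}
    (hr : 0 < r) (q : EuclideanSpace ℝ (Fin d)) (hq : ∀ i, |q i| ≤ r) :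
    (d : ℝ) * (f (h + q) - f h - inner ℝ g q) ≤
      ∑ i, (f (h + (d * r) • EuclideanSpace.single i (1 : ℝ)) +
        f (h - (d * r) • EuclideanSpace.single i (1 : ℝ)) - 2 * f h) := by
  rcases Nat.eq_zero_or_pos d with rfl | hd
  · simp
  have : Nonempty (Fin d) := ⟨⟨0, hd⟩⟩
  have hqs : q = ∑ i, (q i / r) • (r • EuclideanSpace.single i (1 : ℝ)) := by
    ext j
    simp only [WithLp.ofLp_sum, WithLp.ofLp_smul, PiLp.ofLp_single, Finset.sum_apply,
      Pi.smul_apply, smul_eq_mul, Pi.single_apply, mul_ite, mul_one, mul_zero]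
    rw [Finset.sum_ite_eq, if_pos (Finset.mem_univ j)]
    field_simp
  have key := cvx_dirs f hf h (innerₛₗ ℝ g) (fun q => hg q)
    (fun i => r • EuclideanSpace.single i (1 : ℝ)) (fun i => q i / r) (fun i => by
      rw [abs_div, abs_of_pos hr, div_le_one hr]; exact hq i)
  rw [← hqs, Fintype.card_fin] at key
  simpa only [smul_smul, innerₛₗ_apply_apply] using key

end Convex

end Pool.Agent.W_7d29a1_Q29.D65
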