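import Pool.Agent.W_7d29a1_Q29.Fin29
import Pool.Agent.W_7d29a1_P78.Tr

/-!
The theorem over the last leaves.
-/

namespace Pool.Agent.W_7d29a1_Q29

open MeasureTheory ProbabilityTheory Filter Topology Pool.Agent.W_MP_7d29a1_pr
  Pool.Agent.W_7d29a1_h46 Pool.Agent.W_7d29a1_h46u Pool.Agent.W_7d29a1_D2.B35

/-- R+ (`d = 2`): almost every tilt of very strong disorder. -/
def AeV (ρ : Measure ℝ) (β : ℝ) : Prop := ∀ᵐ h : Vec 2, VSD ρ β h → ∃ c : ℝ, 0 < c ∧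
  ∃ᶠ n : ℕ in atTop, c * Real.log n ≤ Va ρ β h n

/-- SL: the variance is almost linear or the deficiency of the mean is not logarithmic. -/
def SLQ (d : ℕ) (ρ : Measure ℝ) (β : ℝ) : Prop := ∀ h : Vec d, VSD ρ β h →
  ∀ ε M : ℝ, 0 < ε → ∀ᶠ n : ℕ in atTop, (n : ℝ) ^ (1 - ε) ≤ Va ρ β h n ∨
    ∃ m ≤ n, M * Real.log n ≤ m * lam ρ β h - A ρ β h m

/-- NV: the variance is not bounded. -/
def NVQ (d : ℕ) (ρ : Measure ℝ) (β : ℝ) : Prop := ∀ h : Vec d, VSD ρ β h →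
  ∀ K : ℝ, ∃ n : ℕ, K < Va ρ β h n

/-- The nonrandom fluctuation is not logarithmic at almost every tilt of very strong disorder. -/
def AeD (d : ℕ) (ρ : Measure ℝ) (β : ℝ) : Prop := ∀ᵐ h : Vec d, VSD ρ β h →
  ∀ M : ℝ, ∃ᶠ n : ℕ in atTop, M * Real.log n ≤ n * lam ρ β h - A ρ β h n

/-- The theorem. -/
theorem top29 {Ω : Type*} [MeasurableSpace Ω] (μ : Measure Ω) [IsProbabilityMeasure μ] {d : ℕ}
    (hd : 1 ≤ d) (ω : ℕ × Site d → Ω → ℝ) (hmeas : ∀ p, Measurable (ω p))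
    (hindep : iIndepFun ω μ) (hident : ∀ p q, IdentDistrib (ω p) (ω q) μ μ)
    (hnc : ¬ ∃ c : ℝ, ∀ᵐ x ∂μ, ω (0, 0) x = c)
    (hexp : ∀ b : ℝ, Integrable (fun x => Real.exp (b * ω (0, 0) x)) μ) {β : ℝ} (hβ : 0 < β)
    (hR : ∀ ρ : Measure ℝ, IsProbabilityMeasure ρ → EM ρ → (∀ c : ℝ, ρ {c} ≠ 1) →
      W_7d29a1_R34.AeR ρ β)
    (hRV : ∀ ρ : Measure ℝ, IsProbabilityMeasure ρ → EM ρ → (∀ c : ℝ, ρ {c} ≠ 1) → AeV ρ β)
    (hSL : ∀ ρ : Measure ℝ, IsProbabilityMeasure ρ → EM ρ → (∀ c : ℝ, ρ {c} ≠ 1) → SLQ d ρ β)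
    (hD : ∀ ρ : Measure ℝ, IsProbabilityMeasure ρ → EM ρ → (∀ c : ℝ, ρ {c} ≠ 1) → AeD d ρ β) :
    ∃ lam ann : Vec d → ℝ,
      (∀ h, Tendsto (fun n : ℕ => (∫ x, Real.log (Zn β h (fun p => ω p x) n) ∂μ) / n) atTop
        (𝓝 (lam h))) ∧
      (∀ h, ∀ n : ℕ, ∫ x, Zn β h (fun p => ω p x) n ∂μ = Real.exp (n * ann h)) ∧
      -- dimension two, almost every tilt
      (d = 2 → ∀ᵐ h : Vec d, ∃ c : ℝ, 0 < c ∧ ∃ᶠ n : ℕ in atTop,
        c * Real.log n ^ (2 / 3 : ℝ) ≤ Var[fun x => Real.log (Zn β h (fun p => ω p x) n); μ]) ∧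
      (d = 2 → ∀ᵐ h : Vec d, lam h < ann h → ∃ c : ℝ, 0 < c ∧ ∃ᶠ n : ℕ in atTop,
        c * Real.log n ≤ Var[fun x => Real.log (Zn β h (fun p => ω p x) n); μ]) ∧
      -- every dimension, almost every tilt of very strong disorder
      (∀ᵐ h : Vec d, lam h < ann h → ∀ M : ℝ, ∃ᶠ n : ℕ in atTop,
        M * Real.log n ≤ n * lam h - ∫ x, Real.log (Zn β h (fun p => ω p x) n) ∂μ) ∧
      -- every dimension, every tilt of very strong disorder
      (∀ h, lam h < ann h →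
        (∀ ε M : ℝ, 0 < ε → ∀ᶠ n : ℕ in atTop,
          (n : ℝ) ^ (1 - ε) ≤ Var[fun x => Real.log (Zn β h (fun p => ω p x) n); μ] ∨
          ∃ m ≤ n, M * Real.log n ≤
            m * lam h - ∫ x, Real.log (Zn β h (fun p => ω p x) m) ∂μ) ∧
        (∀ t : ℝ, 0 < t → ∃ c : ℝ, 0 < c ∧ ∀ᶠ n : ℕ in atTop,
          Real.exp (n * (t * lam h + c)) ≤ ∫ x, Zn β h (fun p => ω p x) n ^ t ∂μ) ∧
        (∃ c : ℝ, 0 < c ∧ ∀ n : ℕ, 1 ≤ n → ∀ K N : ℝ, 0 < N →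
          (∀ m : ℕ, m ≤ 2 * n → Var[fun x => Real.log (Zn β h (fun p => ω p x) m); μ] ≤ K) →
          (Set.ncard {t : ℕ | t < n ∧ ∀ W : Finset (Site d), (W.card : ℝ) ≤ N →
            1 / 32 < ∫ x, PolT β h (fun p => ω p x)
              {s : Fin (2 * n) → Step d | pos s t ∉ W} ∂μ} : ℝ) ≤ c * n →
          c * Real.log n ≤ K * Real.sqrt (N / n)) ∧
        (d = 2 → ∀ K R : ℝ,
          (∀ n : ℕ, Var[fun x => Real.log (Zn β h (fun p => ω p x) n); μ] ≤ K) →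
          ∀ᶠ n : ℕ in atTop, ∃ t < n, ∀ v : Vec d, 1 / 32 < ∫ x, PolT β h (fun p => ω p x)
            {s : Fin (2 * n) → Step d | R * Real.sqrt n < ‖emb (pos s t) - v‖} ∂μ)) := by
  set p0 : ℕ × Site d := (0, 0) with hp0
  set ρ : Measure ℝ := μ.map (ω p0) with hρ
  have : IsProbabilityMeasure ρ := Measure.isProbabilityMeasure_map (hmeas p0).aemeasurable
  have hω : IID μ ρ ω := ⟨hmeas, hindep, fun p => (hident p p0).map_eq⟩
  have hnc' : ∀ c : ℝ, ρ {c} ≠ 1 := by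
    intro c hc
    apply hnc
    refine ⟨c, ?_⟩
    rw [hρ, Measure.map_apply (hmeas p0) (measurableSet_singleton c)] at hc
    have h1 : MeasurableSet (ω p0 ⁻¹' {c}) := hmeas p0 (measurableSet_singleton c)
    exact (prob_compl_eq_zero_iff h1).2 hc
  have hexp' : EM ρ := by
    intro b
    rw [hρ, integrable_map_measure (by fun_prop) (hmeas p0).aemeasurable]
    exact hexp b
  have hd0 : 0 < d := hd
  refine ⟨lamN ρ β, annN ρ β, fun h => tend29 hd0 hω hexp' h, fun h n => ann29 hd0 hω hexp' h n,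
    ?_, ?_, ?_, fun h hh => ⟨?_, ?_, ?_, ?_⟩⟩
  · rintro rfl
    filter_upwards [hR ρ this hexp' hnc'] with h hh
    obtain ⟨c, hc, h1⟩ := hh
    refine ⟨c, hc, h1.mono fun n hn => ?_⟩
    rw [var29 hd0 hω hexp']
    exact hn
  · rintro rfl
    filter_upwards [hRV ρ this hexp' hnc'] with h hh hv
    obtain ⟨c, hc, h1⟩ := hh ((vsd29 h).1 hv)
    refine ⟨c, hc, h1.mono fun n hn => ?_⟩
    rw [var29 hd0 hω hexp']
    exact hn
  · filter_upwards [hD ρ this hexp' hnc'] with h hh hv M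
    refine (hh ((vsd29 h).1 hv) M).mono fun n hn => ?_
    rw [def29 hd0 hω hexp']
    exact hn
  · intro ε M hε
    filter_upwards [hSL ρ this hexp' hnc' h ((vsd29 h).1 hh) ε M hε] with n hn
    rw [var29 hd0 hω hexp']
    refine hn.imp id ?_
    rintro ⟨m, hm, h1⟩
    refine ⟨m, hm, ?_⟩
    rw [def29 hd0 hω hexp']
    exact h1
  · exact fun t ht => W_7d29a1_P78.mainPZ78 hd0 hω hexp' ((vsd29 h).1 hh) ht
  · obtain ⟨c, hc, h1⟩ := mainL29 hd0 hω hexp'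
      (mainL72 hd0 (npf98 hd0 hexp' hnc' hβ) (mainQ85 hd0 hexp' hnc' hβ)) h hh
    refine ⟨c, hc, fun n hn K N hN hV hW => h1 n hn K N hN hV (le_trans (le_of_eq ?_) hW)⟩
    rw [← Set.ncard_coe_finset]
    congr 3
    ext t
    simp
  · rintro rfl
    intro K R hV
    have h1 := ball29 hω hexp' (mainQ85 hd0 hexp' hnc' hβ) h hh K |R| (abs_nonneg R) hV
    filter_upwards [h1] with n hn
    obtain ⟨t, ht, h2⟩ := hn
    refine ⟨t, ht, fun v => lt_of_lt_of_le (h2 v) ?_⟩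
    refine integral_mono ?_ ?_ fun x => ?_
    · exact (mp_env hω).integrable_comp_of_integrable (integrable_PolT72 β h _)
    · exact (mp_env hω).integrable_comp_of_integrable (integrable_PolT72 β h _)
    · refine PolT_mono β h _ fun s hs => ?_
      have h3 : |R| * Real.sqrt n < ‖emb (pos s t) - v‖ := hs
      have h4 : R * Real.sqrt n < ‖emb (pos s t) - v‖ :=
        lt_of_le_of_lt (mul_le_mul_of_nonneg_right (le_abs_self R) (Real.sqrt_nonneg _)) h3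
      exact h4

end Pool.Agent.W_7d29a1_Q29
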