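import Pool.Agent.W_7d29a1_Q29.Cvx56

/-!
The mean free energy is Lipschitz in the tilt.
-/

namespace Pool.Agent.W_7d29a1_Q29

open MeasureTheory ProbabilityTheory Filter Topology Pool.Agent.W_MP_7d29a1_pr
  Pool.Agent.W_7d29a1_h46 Pool.Agent.W_7d29a1_h46u

variable {d : ℕ} {ρ : Measure ℝ} [IsProbabilityMeasure ρ]

/-- One sided form. -/
lemma A_le56 (hd : 0 < d) (hρ : EM ρ) (β : ℝ) (n : ℕ) (x y : Vec d) :
    A ρ β x n ≤ A ρ β y n + n * ‖x - y‖ := by
  have i1 := (concU hd hρ β x n).1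
  have i2 := (concU hd hρ β y n).1
  have h1 := integral_mono i1 (i2.add (integrable_const (‖x - y‖ * n))) fun η => by
    have h := X_tilt hd β y (x - y) η n
    rw [add_sub_cancel] at h
    exact h
  simp only [Pi.add_apply] at h1
  rw [integral_add i2 (integrable_const _), integral_const] at h1
  simp only [probReal_univ, one_smul] at h1
  rw [mul_comm (n : ℝ)]
  exact h1

/-- The mean free energy is Lipschitz in the tilt. -/
theorem A_lip56 (hd : 0 < d) (hρ : EM ρ) (β : ℝ) (n : ℕ) (x y : Vec d) :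
    |A ρ β x n - A ρ β y n| ≤ 1 * n * ‖x - y‖ := by
  rw [one_mul, abs_le]
  constructor
  · have h := A_le56 hd hρ β n y x
    rw [norm_sub_rev] at h
    linarith
  · have h := A_le56 hd hρ β n x y
    linarith

/-- `avg56` for the mean free energy. -/
theorem avgA56 (hd : 0 < d) (hρ : EM ρ) (β : ℝ) {R : ℝ} {E : Set (Vec d)}
    (hE : E ⊆ Metric.closedBall 0 R) (hpos : volume E ≠ 0) :
    ∃ C : ℝ, 0 < C ∧ ∀ n : ℕ, 1 ≤ n →
      ∃ h ∈ E, ∀ (j : ℕ) (i : Fin d), A ρ β (h + (2 ^ j / Real.sqrt n) • ej i) (2 * n) +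
        A ρ β (h - (2 ^ j / Real.sqrt n) • ej i) (2 * n) - 2 * A ρ β h (2 * n) ≤ C * 8 ^ j := by
  obtain ⟨C, hC, H⟩ := avg56 (C0 := 2) hE hpos
  refine ⟨C, hC, fun n hn => ?_⟩
  refine H n hn (fun h => A ρ β h (2 * n)) (A_convex hd hρ β (2 * n)) fun x y => ?_
  have h1 := A_lip56 hd hρ β (2 * n) x y
  push_cast at h1
  rwa [one_mul] at h1

end Pool.Agent.W_7d29a1_Q29
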