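import Pool.Agent.W_7d29a1_Q29.Defs29
import Pool.Agent.W_7d29a1_Q29.Lip56

/-!
Three pieces of the assembly of the almost every tilt theorem: weights over the times, continuity of
the variance in the tilt, the passage from sets of positive measure to almost every point.
-/

namespace Pool.Agent.W_7d29a1_Q29

open MeasureTheory ProbabilityTheory Filter Topology Pool.Agent.W_MP_7d29a1_pr
  Pool.Agent.W_7d29a1_h46 Pool.Agent.W_7d29a1_h46u
open scoped ENNReal

open Classical in
/-- Weights over the times: if every bad set has measure at most `η` and `T` has (outer) measure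
more than `4 η`, some point of `T` is good at times which carry three quarters of the weight. -/
theorem wts65 {α : Type*} [MeasurableSpace α] (μ : Measure α) (T : Set α) (bad : ℕ → Set α)
    (hbad : ∀ t, MeasurableSet (bad t)) (η : ℝ≥0∞) (hη : ∀ t, μ (bad t) ≤ η) (hT : 4 * η < μ T)
    (s : Finset ℕ) (w : ℕ → ℝ) (hw : ∀ t ∈ s, 0 ≤ w t) :
    ∃ x ∈ T, (3 / 4) * ∑ t ∈ s, w t ≤ ∑ t ∈ s with x ∉ bad t, w t := by
  set W := ∑ t ∈ s, w t with hW
  have hW0 : 0 ≤ W := Finset.sum_nonneg hw
  rcases hW0.eq_or_lt with h0 | hpos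
  · have hne : T.Nonempty := nonempty_of_measure_ne_zero ((zero_le).trans_lt hT).ne'
    obtain ⟨x, hx⟩ := hne
    refine ⟨x, hx, ?_⟩
    rw [← h0, mul_zero]
    exact Finset.sum_nonneg fun t ht => hw t (Finset.mem_filter.1 ht).1
  · let f : α → ℝ≥0∞ := fun x => ∑ t ∈ s, (bad t).indicator (fun _ => ENNReal.ofReal (w t)) x
    have hf : Measurable f :=
      Finset.measurable_sum _ fun t _ => measurable_const.indicator (hbad t)
    have hint : ∫⁻ x, f x ∂μ ≤ ENNReal.ofReal W * η := by
      have h1 : ∫⁻ x, f x ∂μ = ∑ t ∈ s, ENNReal.ofReal (w t) * μ (bad t) := by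
        rw [lintegral_finsetSum _ fun t _ => measurable_const.indicator (hbad t)]
        refine Finset.sum_congr rfl fun t _ => ?_
        rw [lintegral_indicator_const (hbad t)]
      rw [h1, hW, ENNReal.ofReal_sum_of_nonneg hw, Finset.sum_mul]
      exact Finset.sum_le_sum fun t _ => by gcongr; exact hη t
    have hq : ENNReal.ofReal (W / 4) ≠ 0 := (ENNReal.ofReal_pos.2 (by linarith)).ne'
    have hM : μ {x | ENNReal.ofReal (W / 4) ≤ f x} ≤ 4 * η := by
      have h2 := mul_meas_ge_le_lintegral (μ := μ) hf (ENNReal.ofReal (W / 4))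
      have h3 : ENNReal.ofReal (W / 4) * μ {x | ENNReal.ofReal (W / 4) ≤ f x} ≤
          ENNReal.ofReal (W / 4) * (4 * η) := by
        refine (h2.trans hint).trans (le_of_eq ?_)
        rw [← mul_assoc]
        congr 1
        rw [show (4 : ℝ≥0∞) = ENNReal.ofReal 4 by norm_num,
          ← ENNReal.ofReal_mul (by linarith : (0 : ℝ) ≤ W / 4)]
        congr 1
        ring
      exact (ENNReal.mul_le_mul_iff_right hq ENNReal.ofReal_ne_top).1 h3
    by_contra hcon
    push Not at hcon
    refine absurd (lt_of_lt_of_le hT ((measure_mono ?_).trans hM)) (lt_irrefl _)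
    intro x hx
    have h4 := hcon x hx
    have h5 := Finset.sum_filter_add_sum_filter_not s (fun t => x ∉ bad t) w
    have h6 : W / 4 ≤ ∑ t ∈ s with ¬ (x ∉ bad t), w t := by
      rw [← hW] at h5
      linarith
    have h7 : f x = ENNReal.ofReal (∑ t ∈ s with ¬ (x ∉ bad t), w t) := by
      rw [ENNReal.ofReal_sum_of_nonneg fun t ht => hw t (Finset.mem_filter.1 ht).1,
        Finset.sum_filter]
      refine Finset.sum_congr rfl fun t _ => ?_
      by_cases hxt : x ∈ bad t
      · simp [hxt]
      · simp [hxt]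
    rw [Set.mem_ofPred_eq, h7]
    exact ENNReal.ofReal_le_ofReal h6

section Cont

variable {d : ℕ} {ρ : Measure ℝ} [IsProbabilityMeasure ρ]

/-- The free energy is Lipschitz in the tilt. -/
lemma X_abs65 (hd : 0 < d) (β : ℝ) (x y : Vec d) (η : Env d) (n : ℕ) :
    |X β x η n - X β y η n| ≤ n * ‖x - y‖ := by
  have h1 := X_tilt hd β y (x - y) η n
  have h2 := X_tilt hd β x (y - x) η n
  rw [add_sub_cancel] at h1 h2
  rw [norm_sub_rev] at h2
  rw [abs_le]
  constructor <;> nlinarith

lemma sq_int65 (hd : 0 < d) (hρ : EM ρ) (β : ℝ) (h : Vec d) (n : ℕ) (c : ℝ) :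
    Integrable (fun η => (|X β h η n - A ρ β h n| + c) ^ 2) (law d ρ) := by
  have hc := concU hd hρ β h n
  have hY : Measurable fun η : Env d => X β h η n - A ρ β h n :=
    (measurable_X β h n).sub_const _
  have h1 := (hc.2 1 (by norm_num)).1
  have h2 := (hc.2 (-1) (by norm_num)).1
  have h3 : Integrable (fun η => (X β h η n - A ρ β h n) ^ 2) (law d ρ) := by
    refine Integrable.mono' ((h1.add h2).const_mul 2) (hY.pow_const 2).aestronglyMeasurable
      (Eventually.of_forall fun η => ?_)
    have : ∀ x : ℝ, x ^ 2 ≤ 2 * (Real.exp x + Real.exp (-x)) := by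
      intro x
      have e1 := Real.add_one_le_exp x
      have e2 := Real.add_one_le_exp (-x)
      have e3 := Real.quadratic_le_exp_of_nonneg (x := |x|) (abs_nonneg x)
      have e4 : Real.exp |x| ≤ Real.exp x + Real.exp (-x) := by
        rcases abs_cases x with ⟨h, -⟩ | ⟨h, -⟩ <;> rw [h]
        · linarith [Real.exp_pos (-x)]
        · linarith [Real.exp_pos x]
      have e5 := sq_abs x
      nlinarith [abs_nonneg x]
    simp only [Pi.add_apply]
    rw [Real.norm_eq_abs, abs_of_nonneg (sq_nonneg _)]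
    have h4 := this (X β h η n - A ρ β h n)
    simpa only [one_mul, neg_mul, neg_one_mul] using h4
  refine Integrable.mono' ((h3.const_mul 2).add (integrable_const (2 * c ^ 2)))
    ((hY.abs.add_const c).pow_const 2).aestronglyMeasurable (Eventually.of_forall fun η => ?_)
  simp only [Pi.add_apply]
  rw [Real.norm_eq_abs, abs_of_nonneg (sq_nonneg _)]
  have := sq_abs (X β h η n - A ρ β h n)
  nlinarith [sq_nonneg (|X β h η n - A ρ β h n| - c)]

/-- The variance is continuous in the tilt. -/
theorem cont65 (hd : 0 < d) (hρ : EM ρ) (β : ℝ) (n : ℕ) : Continuous fun h : Vec d => Va ρ β h n := by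
  rw [continuous_iff_continuousAt]
  intro h0
  unfold Va
  have hXc : ∀ η : Env d, Continuous fun h : Vec d => X β h η n := fun η => by
    refine (LipschitzWith.of_dist_le_mul (K := (n : NNReal)) fun x y => ?_).continuous
    rw [Real.dist_eq, dist_eq_norm]
    simpa using X_abs65 hd β x y η n
  have hAc : Continuous fun h : Vec d => A ρ β h n := by
    refine (LipschitzWith.of_dist_le_mul (K := (n : NNReal)) fun x y => ?_).continuous
    rw [Real.dist_eq, dist_eq_norm]
    have := A_lip56 hd hρ β n x y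
    rw [one_mul] at this
    simpa using this
  refine continuousAt_of_dominated (bound := fun η => (|X β h0 η n - A ρ β h0 n| + 2 * n) ^ 2)
    (Eventually.of_forall fun h => (((measurable_X β h n).sub_const _).pow_const 2).aestronglyMeasurable)
    ?_ (sq_int65 hd hρ β h0 n (2 * n)) (Eventually.of_forall fun η =>
      (((hXc η).sub hAc).pow 2).continuousAt)
  have hball : ∀ᶠ h in 𝓝 h0, ‖h - h0‖ ≤ 1 := by
    have := Metric.closedBall_mem_nhds h0 (show (0 : ℝ) < 1 by norm_num)
    filter_upwards [this] with h hh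
    rwa [Metric.mem_closedBall, dist_eq_norm] at hh
  filter_upwards [hball] with h hh
  refine Eventually.of_forall fun η => ?_
  rw [Real.norm_eq_abs, abs_of_nonneg (sq_nonneg _)]
  have h1 := X_abs65 hd β h h0 η n
  have h2 := A_lip56 hd hρ β n h h0
  have hn : (0 : ℝ) ≤ n := Nat.cast_nonneg n
  have h3 : |X β h η n - A ρ β h n| ≤ |X β h0 η n - A ρ β h0 n| + 2 * n := by
    have e : X β h η n - A ρ β h n = (X β h0 η n - A ρ β h0 n) + (X β h η n - X β h0 η n) -
        (A ρ β h n - A ρ β h0 n) := by ring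
    rw [e]
    have h4 := abs_sub (X β h0 η n - A ρ β h0 n + (X β h η n - X β h0 η n)) (A ρ β h n - A ρ β h0 n)
    have h5 := abs_add_le (X β h0 η n - A ρ β h0 n) (X β h η n - X β h0 η n)
    nlinarith
  rw [← sq_abs (X β h η n - A ρ β h n)]
  exact pow_le_pow_left₀ (abs_nonneg _) h3 2

/-- From sets of positive measure to almost every point, with a rate. -/
theorem ego65 {d : ℕ} {a : ℝ} (ha : 0 < a) (f : ℕ → Vec d → ℝ) (hf : ∀ n, Continuous (f n))
    (hf0 : ∀ n h, 0 ≤ f n h)
    (H : ∀ B : Set (Vec d), Bornology.IsBounded B → MeasurableSet B → volume B ≠ 0 →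
      ∃ c > 0, ∃ n₀ : ℕ, ∀ n ≥ n₀, ∀ K : ℝ, (∀ h ∈ B, ∀ m ≤ n, f m h ≤ K) →
        c * (Real.log n) ^ a ≤ K) :
    ∀ᵐ h : Vec d, ∃ c > 0, ∃ᶠ n : ℕ in atTop, c * (Real.log n) ^ a ≤ f n h := by
  set g : ℕ → Vec d → ℝ := fun n h => f n h / (Real.log n) ^ a with hg
  have hlog : ∀ n : ℕ, 3 ≤ n → 0 < (Real.log n) ^ a := fun n hn =>
    Real.rpow_pos_of_pos (Real.log_pos (by exact_mod_cast (by omega : 1 < n))) a
  set N : Set (Vec d) := {h | Tendsto (fun n => g n h) atTop (𝓝 0)} with hN
  have hNm : MeasurableSet N := measurableSet_tendsto (𝓝 0) fun n =>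
    (hf n).measurable.div_const _
  have hsub : {h : Vec d | ¬ ∃ c > 0, ∃ᶠ n : ℕ in atTop, c * (Real.log n) ^ a ≤ f n h} ⊆ N := by
    intro h hh
    rw [Set.mem_ofPred_eq] at hh
    push Not at hh
    rw [hN, Set.mem_ofPred_eq, Metric.tendsto_atTop]
    intro ε hε
    have h1 := hh ε hε
    rw [eventually_atTop] at h1
    obtain ⟨n1, h1⟩ := h1
    refine ⟨max n1 3, fun n hn => ?_⟩
    have h2 := h1 n ((le_max_left _ _).trans hn)
    have h3 := hlog n ((le_max_right _ _).trans hn)
    rw [Real.dist_eq, sub_zero, hg]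
    simp only
    rw [abs_of_nonneg (div_nonneg (hf0 n h) h3.le), div_lt_iff₀ h3]
    exact h2
  rw [ae_iff]
  refine measure_mono_null hsub ?_
  by_contra hpos
  have hU : N = ⋃ R : ℕ, N ∩ Metric.closedBall 0 R := by
    rw [← Set.inter_iUnion, Metric.iUnion_closedBall_nat, Set.inter_univ]
  have hex : ∃ R : ℕ, volume (N ∩ Metric.closedBall (0 : Vec d) R) ≠ 0 := by
    by_contra hcon
    push Not at hcon
    exact hpos (by rw [hU]; exact measure_iUnion_null hcon)
  obtain ⟨R, hR⟩ := hex
  set s := N ∩ Metric.closedBall (0 : Vec d) R with hs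
  have hsm : MeasurableSet s := hNm.inter Metric.isClosed_closedBall.measurableSet
  have hsfin : volume s ≠ ⊤ :=
    ((measure_mono Set.inter_subset_right).trans_lt measure_closedBall_lt_top).ne
  have hsr : 0 < (volume s).toReal := ENNReal.toReal_pos hR hsfin
  obtain ⟨t, hts, htm, htv, hunif⟩ := tendstoUniformlyOn_of_ae_tendsto (μ := volume) (f := g)
    (g := fun _ => (0 : ℝ)) (s := s)
    (fun n => ((hf n).measurable.div_const _).stronglyMeasurable) stronglyMeasurable_const hsm
    hsfin (Eventually.of_forall fun h hh => hh.1) (half_pos hsr)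
  have hBpos : volume (s \ t) ≠ 0 := by
    intro h0
    have h1 : volume s ≤ volume (s \ t) + volume t := by
      have := measure_union_le (μ := (volume : Measure (Vec d))) (s \ t) t
      rw [Set.sdiff_union_of_subset hts] at this
      exact this
    rw [h0, zero_add] at h1
    have h2 : volume s ≤ ENNReal.ofReal ((volume s).toReal / 2) := h1.trans htv
    have h3 : (volume s).toReal ≤ (volume s).toReal / 2 := by
      have := ENNReal.toReal_mono ENNReal.ofReal_ne_top h2
      rwa [ENNReal.toReal_ofReal (by linarith)] at this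
    linarith
  have hBb : Bornology.IsBounded (s \ t) :=
    (Metric.isBounded_closedBall (x := (0 : Vec d)) (r := R)).subset
      (Set.sdiff_subset.trans Set.inter_subset_right)
  obtain ⟨c, hc, n₀, Hc⟩ := H (s \ t) hBb (hsm.diff htm) hBpos
  rw [Metric.tendstoUniformlyOn_iff] at hunif
  have h4 := hunif (c / 4) (by positivity)
  rw [eventually_atTop] at h4
  obtain ⟨n1, h4⟩ := h4
  -- bound for the small indices
  have hbd : ∀ m : ℕ, ∃ M : ℝ, ∀ h ∈ Metric.closedBall (0 : Vec d) R, f m h ≤ M := by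
    intro m
    obtain ⟨M, hM⟩ := (isCompact_closedBall (0 : Vec d) (R : ℝ)).bddAbove_image
      (hf m).continuousOn
    exact ⟨M, fun h hh => hM (Set.mem_image_of_mem _ hh)⟩
  choose M hM using hbd
  set M' : ℝ := ∑ m ∈ Finset.range (max n1 3), |M m| with hM'
  have hM'0 : 0 ≤ M' := Finset.sum_nonneg fun _ _ => abs_nonneg _
  have hsmall : ∀ m < max n1 3, ∀ h ∈ s \ t, f m h ≤ M' := by
    intro m hm h hh
    refine (hM m h hh.1.2).trans ((le_abs_self _).trans ?_)
    exact Finset.single_le_sum (f := fun m => |M m|) (fun _ _ => abs_nonneg _)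
      (Finset.mem_range.2 hm)
  have hK : ∀ n : ℕ, ∀ h ∈ s \ t, ∀ m ≤ n, f m h ≤ M' + c / 4 * (Real.log n) ^ a := by
    intro n h hh m hmn
    have hlogn : 0 ≤ (Real.log n) ^ a := Real.rpow_nonneg (Real.log_natCast_nonneg n) a
    rcases lt_or_ge m (max n1 3) with hm | hm
    · have := hsmall m hm h hh
      have : 0 ≤ c / 4 * (Real.log n) ^ a := by positivity
      linarith
    · have h5 := h4 m ((le_max_left _ _).trans hm) h hh
      have h6 := hlog m ((le_max_right _ _).trans hm)
      rw [Real.dist_eq, zero_sub, abs_neg, hg] at h5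
      simp only at h5
      rw [abs_of_nonneg (div_nonneg (hf0 m h) h6.le), div_lt_iff₀ h6] at h5
      have h7 : (Real.log m) ^ a ≤ (Real.log n) ^ a := by
        refine Real.rpow_le_rpow (Real.log_natCast_nonneg m) ?_ ha.le
        refine Real.log_le_log ?_ (by exact_mod_cast hmn)
        have : 3 ≤ m := (le_max_right _ _).trans hm
        exact_mod_cast (by omega : 0 < m)
      nlinarith
  have hfin : ∀ n ≥ n₀, c * (Real.log n) ^ a ≤ M' + c / 4 * (Real.log n) ^ a := fun n hn =>
    Hc n hn _ (hK n)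
  have htend : Tendsto (fun n : ℕ => (Real.log n) ^ a) atTop atTop :=
    (tendsto_rpow_atTop ha).comp (Real.tendsto_log_atTop.comp tendsto_natCast_atTop_atTop)
  have hev := htend.eventually_gt_atTop (2 * M' / c)
  obtain ⟨n, hn1, hn2⟩ := (hev.and (eventually_ge_atTop n₀)).exists
  have h8 := hfin n hn2
  rw [div_lt_iff₀ hc] at hn1
  nlinarith

end Cont

end Pool.Agent.W_7d29a1_Q29
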