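import Pool.Agent.W_7d29a1_Q29.Defs29
import Pool.Agent.W_7d29a1_Q29.Den65
import Pool.Agent.W_7d29a1_D2.Baire21

/-!
Almost every tilt in dimension two: the variance of the free energy is not bounded, and it is not
eventually below any multiple of the fourth root of the logarithm (assembly).
-/

namespace Pool.Agent.W_7d29a1_Q29

open MeasureTheory ProbabilityTheory Filter Topology Pool.Agent.W_MP_7d29a1_pr
  Pool.Agent.W_7d29a1_h46 Pool.Agent.W_7d29a1_h46u Pool.Agent.W_7d29a1_D2.B35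

section Density

open Metric Set

variable {E : Type*} [NormedAddCommGroup E] [NormedSpace ℝ E] [FiniteDimensional ℝ E]
  [MeasurableSpace E] [BorelSpace E]

/-- **Density leaf** for any set (outer measure), after `D65.density_leaf`. -/
theorem dens77 (μ : Measure E) [μ.IsAddHaarMeasure] (T : Set E)
    (hT : μ T ≠ 0) {ε : ℝ} (hε : 0 < ε) : ∃ r₀ : ℝ, 0 < r₀ ∧ ∃ T' ⊆ T, μ T' ≠ 0 ∧
      ∀ x ∈ T', ∀ v : E, v ≠ 0 → ‖v‖ ≤ r₀ → ∃ y ∈ T, ‖y - x - v‖ ≤ ε * ‖v‖ := by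
  let G : ℕ → Set E := fun n => {x ∈ T | ∀ v : E, v ≠ 0 → ‖v‖ ≤ 1 / ((n : ℝ) + 1) →
      ∃ y ∈ T, ‖y - x - v‖ ≤ ε * ‖v‖}
  have hex : ∃ n, μ (G n) ≠ 0 := by
    by_contra hcon
    push Not at hcon
    have hU : μ (⋃ n, G n) = 0 := measure_iUnion_null hcon
    have hae := Besicovitch.ae_tendsto_measure_inter_div μ T
    have hfrac : 0 < ENNReal.ofReal ((ε / (1 + ε)) ^ Module.finrank ℝ E) :=
      ENNReal.ofReal_pos.mpr (by positivity)
    have hlt : 1 - ENNReal.ofReal ((ε / (1 + ε)) ^ Module.finrank ℝ E) < 1 :=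
      ENNReal.sub_lt_self ENNReal.one_ne_top one_ne_zero hfrac.ne'
    have hcov : ∀ᵐ x ∂(μ.restrict T), x ∈ T → x ∈ ⋃ n, G n := by
      filter_upwards [hae] with x hx hxT
      have hev := hx.eventually (lt_mem_nhds hlt)
      rw [eventually_nhdsWithin_iff, Metric.eventually_nhds_iff] at hev
      obtain ⟨δ, hδ, hball⟩ := hev
      obtain ⟨n, hn⟩ := exists_nat_one_div_lt (show 0 < δ / (1 + ε) by positivity)
      refine Set.mem_iUnion.mpr ⟨n, hxT, fun v hv hvn => ?_⟩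
      by_contra hno
      push Not at hno
      have hvpos : 0 < ‖v‖ := norm_pos_iff.mpr hv
      have hle := D65.miss μ T hε x v hv hno
      have hR : (1 + ε) * ‖v‖ < δ := by
        have : ‖v‖ < δ / (1 + ε) := lt_of_le_of_lt hvn hn
        rw [lt_div_iff₀ (by positivity)] at this
        linarith
      have h2 := hball (y := (1 + ε) * ‖v‖) (by
        rw [Real.dist_eq, sub_zero, abs_of_pos (by positivity)]; exact hR)
        (Set.mem_Ioi.mpr (by positivity))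
      exact absurd hle (not_le.mpr h2)
    have hnull : μ T = 0 := by
      obtain ⟨B, hB⟩ : ∃ B : Set E, B = {x | ¬ (x ∈ T → x ∈ ⋃ n, G n)} := ⟨_, rfl⟩
      have h3 : μ.restrict T B = 0 := by
        rw [hB]
        exact hcov
      have hBT : B ⊆ T := by
        intro x hx
        rw [hB] at hx
        by_contra hxT
        exact hx fun h => absurd h hxT
      have h3' : μ B = 0 := by
        have h := Measure.le_restrict_apply (μ := μ) T B
        rw [Set.inter_eq_left.2 hBT, h3] at h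
        exact le_antisymm h bot_le
      have h4 : T ⊆ (⋃ n, G n) ∪ B := by
        intro x hx
        by_cases hxG : x ∈ ⋃ n, G n
        · exact Or.inl hxG
        · refine Or.inr ?_
          rw [hB]
          exact fun hi => hxG (hi hx)
      have h5 := measure_mono (μ := μ) h4
      have h6 := measure_union_le (μ := μ) (⋃ n, G n) B
      rw [hU, h3', add_zero] at h6
      exact le_antisymm (h5.trans h6) bot_le
    exact hT hnull
  obtain ⟨n, hn⟩ := hex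
  exact ⟨1 / ((n : ℝ) + 1), by positivity, G n, fun x hx => hx.1, hn, fun x hx => hx.2⟩

end Density

/-- The averaging leaf: over a set of tilts of positive outer measure some tilt has all its second
differences at the scales `2 ^ j / √n` under control. -/
def AvgL (d : ℕ) : Prop := ∀ (R C₀ : ℝ) (E : Set (Vec d)), E ⊆ Metric.closedBall 0 R →
  volume E ≠ 0 → ∃ C : ℝ, 0 < C ∧ ∀ n : ℕ, 1 ≤ n → ∀ f : Vec d → ℝ, ConvexOn ℝ Set.univ f →
    (∀ x y, |f x - f y| ≤ C₀ * n * ‖x - y‖) → ∃ h ∈ E, ∀ (j : ℕ) (i : Fin d),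
      f (h + ((2 : ℝ) ^ j / √(n : ℝ)) • ej i) + f (h - ((2 : ℝ) ^ j / √(n : ℝ)) • ej i) - 2 * f h ≤
        C * 8 ^ j

/-- The window leaf (two dimensions). -/
def WinL (ρ : Measure ℝ) (β : ℝ) : Prop := ∀ C₁ C₂ : ℝ, 0 ≤ C₁ → 0 < C₂ → ∃ C : ℝ, 0 < C ∧
  ∀ (h : Vec 2) (n t : ℕ) (K : ℝ), 1 ≤ n → t ≤ 2 * n → 1 ≤ K →
  (∀ m : ℕ, m ≤ 2 * n → Va ρ β h m ≤ K) →
  (∀ (j : ℕ) (i : Fin 2), (2 : ℝ) ^ j ≤ C * (n : ℝ) ^ (1 / 4 : ℝ) → ∀ s : ℝ, s = 1 ∨ s = -1 →
    ∃ u : Vec 2, ‖u - (s * ((2 : ℝ) ^ j / √(n : ℝ))) • ej i‖ ≤ ((2 : ℝ) ^ j / √(n : ℝ)) / 4 ∧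
      ∀ m : ℕ, m ≤ 2 * n → Va ρ β (h + u) m ≤ K) →
  (∀ (j : ℕ) (i : Fin 2), A ρ β (h + ((2 : ℝ) ^ j / √(n : ℝ)) • ej i) (2 * n) +
    A ρ β (h - ((2 : ℝ) ^ j / √(n : ℝ)) • ej i) (2 * n) - 2 * A ρ β h (2 * n) ≤ C₂ * 8 ^ j) →
  ∫ η, ∑ y ∈ boxF 2 (2 * n), (cE ρ (Pa 2 t)ᶜ (Qt β h (2 * n) t y) η) ^ 2 ∂(law 2 ρ) ≤
    C₁ * K / n →
  ∀ j : ℕ, Win ρ β h (2 * n) t (C * 16 ^ j * n) (C * K / 2 ^ j)

variable {ρ : Measure ℝ} [IsProbabilityMeasure ρ] {β : ℝ}

omit [IsProbabilityMeasure ρ] in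
theorem Va_nonneg77 {d : ℕ} (h : Vec d) (L : ℕ) : 0 ≤ Va ρ β h L :=
  integral_nonneg fun _ => sq_nonneg _

omit [IsProbabilityMeasure ρ] in
theorem Win_mono77 {d : ℕ} {h : Vec d} {L t : ℕ} {N N' δ δ' : ℝ} (hN : N ≤ N') (hδ : δ ≤ δ')
    (hw : Win ρ β h L t N δ) : Win ρ β h L t N' δ' := by
  obtain ⟨W, h1, h2⟩ := hw
  exact ⟨W, h1.trans hN, h2.trans hδ⟩

/-- The fourth root of the logarithm. -/
noncomputable def lo77 (m : ℕ) : ℝ := (Real.log m) ^ (1 / 4 : ℝ)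

theorem lo77_nonneg (m : ℕ) : 0 ≤ lo77 m := Real.rpow_nonneg (Real.log_natCast_nonneg m) _

theorem lo77_mono {m n : ℕ} (h : m ≤ n) : lo77 m ≤ lo77 n := by
  unfold lo77
  rcases Nat.eq_zero_or_pos m with rfl | hm
  · rw [Nat.cast_zero, Real.log_zero, Real.zero_rpow (by norm_num)]
    exact lo77_nonneg n
  · refine Real.rpow_le_rpow (Real.log_natCast_nonneg m) ?_ (by norm_num)
    exact Real.log_le_log (by exact_mod_cast hm) (by exact_mod_cast h)

theorem lo77_pow (m : ℕ) : lo77 m ^ 4 = Real.log m := by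
  unfold lo77
  rw [← Real.rpow_natCast, ← Real.rpow_mul (Real.log_natCast_nonneg m)]
  norm_num

theorem lo77_tendsto : Tendsto (fun n : ℕ => lo77 (2 * n)) atTop atTop := by
  have h1 : Tendsto (fun n : ℕ => ((2 * n : ℕ) : ℝ)) atTop atTop :=
    tendsto_natCast_atTop_atTop.comp
      (tendsto_atTop_mono (fun n => by omega : ∀ n : ℕ, n ≤ 2 * n) tendsto_id)
  exact (tendsto_rpow_atTop (by norm_num : (0 : ℝ) < 1 / 4)).comp (Real.tendsto_log_atTop.comp h1)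

/-- The tilts with a gap, in a ball, with small variances. -/
def SetE77 (ρ : Measure ℝ) (β g R K₀ C₀ : ℝ) : Set (Vec 2) :=
  {h | lam ρ β h + g ≤ Real.log (Phi h) + Real.log (∫ t, Real.exp (β * t) ∂ρ) ∧ ‖h‖ ≤ R ∧
    ∀ m : ℕ, Va ρ β h m ≤ K₀ + C₀ * lo77 m}

/-- The bad times of the backward Newman-Piza inequality. -/
theorem bad77 {a : ℕ → ℝ} (ha : ∀ t, 0 ≤ a t) {L : ℕ} {V s : ℝ} (hs : 0 < s)
    (h : ∑ t ∈ Finset.Icc 1 L, a t ≤ V) :
    (((Finset.Icc 1 L).filter fun t => ¬ a t ≤ s).card : ℝ) ≤ V / s := by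
  rw [le_div_iff₀ hs]
  calc (((Finset.Icc 1 L).filter fun t => ¬ a t ≤ s).card : ℝ) * s
      = ∑ t ∈ (Finset.Icc 1 L).filter fun t => ¬ a t ≤ s, s := by
        rw [Finset.sum_const, nsmul_eq_mul]
    _ ≤ ∑ t ∈ (Finset.Icc 1 L).filter fun t => ¬ a t ≤ s, a t :=
        Finset.sum_le_sum fun t ht => (not_le.1 (Finset.mem_filter.1 ht).2).le
    _ ≤ ∑ t ∈ Finset.Icc 1 L, a t :=
        Finset.sum_le_sum_of_subset_of_nonneg (Finset.filter_subset _ _) fun t _ _ => ha t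
    _ ≤ V := h

open Classical in
theorem null77 (hρ : EM ρ) (hMain : MainQ 2 ρ β) (hNPB : NPB 2 ρ β) (hAvg : AvgL 2)
    (hWin : WinL ρ β) {g R K₀ C₀ : ℝ} (hg : 0 < g) (hK₀ : 1 ≤ K₀) (hC₀ : 0 ≤ C₀) :
    volume (SetE77 ρ β g R K₀ C₀) = 0 := by
  by_contra hne
  obtain ⟨r₀, hr₀, T, hTE, hT, hden⟩ := dens77 (volume : Measure (Vec 2)) (SetE77 ρ β g R K₀ C₀) hne
    (ε := 1 / 4) (by norm_num)
  obtain ⟨CN, hCN, hNP⟩ := hNPB
  obtain ⟨c, hc, hM⟩ := hMain g hg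
  obtain ⟨Ca, hCa, hav⟩ := hAvg R 2 T (fun x hx => by
    rw [mem_closedBall_zero_iff]
    exact (hTE hx).2.1) hT
  obtain ⟨C₁, hC₁⟩ : ∃ C₁ : ℝ, C₁ = 2 * CN / c + 1 := ⟨_, rfl⟩
  have hC₁0 : 0 < C₁ := by rw [hC₁]; positivity
  obtain ⟨C, hC, hW⟩ := hWin C₁ Ca hC₁0.le hCa
  obtain ⟨D, hD⟩ : ∃ D : ℝ, D = C * (64 * C + 2) ^ 4 := ⟨_, rfl⟩
  have hD0 : 0 < D := by rw [hD]; positivity
  -- the small scales
  have hsm : Tendsto (fun n : ℕ => C * ((n : ℝ) ^ (1 / 4 : ℝ))⁻¹) atTop (𝓝 0) := by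
    have := (tendsto_rpow_atTop (by norm_num : (0 : ℝ) < 1 / 4)).comp
      tendsto_natCast_atTop_atTop
    have h2 := (tendsto_inv_atTop_zero.comp this).const_mul C
    rw [mul_zero] at h2
    exact h2
  have hn1 : ∀ᶠ n : ℕ in atTop, C * ((n : ℝ) ^ (1 / 4 : ℝ))⁻¹ < r₀ := hsm.eventually_lt_const hr₀
  have hn2 : ∀ᶠ n : ℕ in atTop, 2 / c ≤ (n : ℝ) :=
    tendsto_natCast_atTop_atTop.eventually_ge_atTop _
  obtain ⟨B, hB⟩ : ∃ B : ℝ, B = (2 + √D + c) * (K₀ + C₀) ^ 3 + 1 + c * Real.log 2 := ⟨_, rfl⟩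
  have hn3 : ∀ᶠ n : ℕ in atTop, B / c + 1 ≤ lo77 (2 * n) := lo77_tendsto.eventually_ge_atTop _
  obtain ⟨n, hr, hn2, hn3, hn⟩ := (hn1.and (hn2.and (hn3.and (eventually_ge_atTop 1)))).exists
  have hnR : (0 : ℝ) < n := by exact_mod_cast hn
  obtain ⟨x, hx⟩ : ∃ x : ℝ, x = lo77 (2 * n) := ⟨_, rfl⟩
  rw [← hx] at hn3
  have hlog2 : 0 ≤ Real.log 2 := Real.log_nonneg (by norm_num)
  have hKC : 1 ≤ K₀ + C₀ := by linarith
  have hB0 : 0 < B := by
    rw [hB]
    have : 0 ≤ √D := Real.sqrt_nonneg _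
    positivity
  have hx1 : 1 ≤ x := by
    have : 0 ≤ B / c := by positivity
    linarith
  obtain ⟨K, hK⟩ : ∃ K : ℝ, K = K₀ + C₀ * x := ⟨_, rfl⟩
  have hK1 : 1 ≤ K := by
    rw [hK]
    have : 0 ≤ C₀ * x := mul_nonneg hC₀ (by linarith)
    linarith
  have hKx : K ≤ (K₀ + C₀) * x := by
    rw [hK]
    nlinarith
  have hVE : ∀ h ∈ SetE77 ρ β g R K₀ C₀, ∀ m : ℕ, m ≤ 2 * n → Va ρ β h m ≤ K := by
    intro h hh m hm
    refine (hh.2.2 m).trans ?_
    rw [hK, hx]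
    have := mul_le_mul_of_nonneg_left (lo77_mono hm) hC₀
    linarith
  -- the tilt
  obtain ⟨h, hhT, hsd⟩ := hav n hn (fun h => A ρ β h (2 * n)) (A_convex two_pos hρ β (2 * n))
    (fun p q => by
      have := Pool.Agent.W_7d29a1_D2.A_lip21 two_pos hρ β q p (2 * n)
      refine this.trans (le_of_eq ?_)
      push_cast
      ring)
  have hhE := hTE hhT
  have hgap := hhE.1
  -- the good times
  obtain ⟨a, ha⟩ : ∃ a : ℕ → ℝ, a = fun t => ∫ η, ∑ y ∈ boxF 2 (2 * n),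
      (cE ρ (Pa 2 t)ᶜ (Qt β h (2 * n) t y) η) ^ 2 ∂(law 2 ρ) := ⟨_, rfl⟩
  have ha0 : ∀ t, 0 ≤ a t := by
    intro t
    rw [ha]
    exact integral_nonneg fun η => Finset.sum_nonneg fun y _ => sq_nonneg _
  have hsum : ∑ t ∈ Finset.Icc 1 (2 * n), a t ≤ CN * K := by
    rw [ha]
    exact (hNP h (2 * n)).trans (mul_le_mul_of_nonneg_left (hVE h hhE _ le_rfl) hCN)
  have hs : 0 < C₁ * K / n := by positivity
  have hbad := bad77 ha0 hs hsum
  have hbad2 : CN * K / (C₁ * K / n) ≤ c / 2 * n := by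
    have hK0 : (0 : ℝ) < K := by linarith
    have e : CN * K / (C₁ * K / n) = CN / C₁ * n := by
      field_simp
    rw [e]
    refine mul_le_mul_of_nonneg_right ?_ hnR.le
    rw [div_le_iff₀ hC₁0, hC₁]
    have : c / 2 * (2 * CN / c + 1) = CN + c / 2 := by field_simp
    rw [this]
    linarith
  -- the window
  obtain ⟨p, hp1, hp2⟩ := exists_nat_pow_near (show (1 : ℝ) ≤ 32 * C * K + 1 by
    have : 0 < 32 * C * K := by positivity
    linarith) (one_lt_two)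
  have hwin : ∀ t ∈ Finset.range n, t ≠ 0 → a t ≤ C₁ * K / n →
      Win ρ β h (2 * n) t (D * K ^ 4 * n) (1 / 32) := by
    intro t ht ht0 hat
    have htn := Finset.mem_range.1 ht
    have hw := hW h n t K hn (by omega) hK1 (hVE h hhE) ?_ hsd (by rw [ha] at hat; exact hat) (p + 1)
    · refine Win_mono77 ?_ ?_ hw
      · refine mul_le_mul_of_nonneg_right ?_ hnR.le
        have h16 : (16 : ℝ) ^ (p + 1) = (2 ^ (p + 1)) ^ 4 := by
          rw [← pow_mul, mul_comm (p + 1) 4, pow_mul]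
          norm_num
        rw [h16, hD, mul_assoc]
        refine mul_le_mul_of_nonneg_left ?_ hC.le
        rw [← mul_pow]
        refine pow_le_pow_left₀ (by positivity) ?_ 4
        rw [pow_succ]
        nlinarith
      · rw [div_le_iff₀ (by positivity)]
        linarith
    · intro j i hj s hs1
      obtain ⟨v, hv⟩ : ∃ v : Vec 2, v = (s * ((2 : ℝ) ^ j / √(n : ℝ))) • ej i := ⟨_, rfl⟩
      have hsq : 0 < √(n : ℝ) := Real.sqrt_pos.2 hnR
      have habs : |s| = 1 := by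
        rcases hs1 with rfl | rfl
        · exact abs_one
        · rw [abs_neg, abs_one]
      have hvn : ‖v‖ = (2 : ℝ) ^ j / √(n : ℝ) := by
        rw [hv, norm_smul, Real.norm_eq_abs, abs_mul, habs, one_mul,
          abs_of_pos (by positivity : (0 : ℝ) < 2 ^ j / √(n : ℝ))]
        unfold ej
        rw [PiLp.norm_single, norm_one, mul_one]
      have hv0 : v ≠ 0 := by
        rw [← norm_pos_iff, hvn]
        positivity
      have hvr : ‖v‖ ≤ r₀ := by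
        rw [hvn]
        refine le_trans ?_ hr.le
        rw [div_le_iff₀ hsq]
        refine hj.trans (le_of_eq ?_)
        have e : √(n : ℝ) = (n : ℝ) ^ (1 / 4 : ℝ) * (n : ℝ) ^ (1 / 4 : ℝ) := by
          rw [← Real.rpow_add hnR, Real.sqrt_eq_rpow]
          norm_num
        have hq : (0 : ℝ) < (n : ℝ) ^ (1 / 4 : ℝ) := Real.rpow_pos_of_pos hnR _
        rw [e]
        field_simp
      obtain ⟨y, hyE, hy⟩ := hden h hhT v hv0 hvr
      refine ⟨y - h, ?_, ?_⟩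
      · rw [← hv]
        refine hy.trans (le_of_eq ?_)
        rw [hvn]
        ring
      · intro m hm
        rw [add_sub_cancel]
        exact hVE y hyE m hm
  -- the count
  have hcard : (((Finset.range n).filter fun t =>
      ¬ Win ρ β h (2 * n) t (D * K ^ 4 * n) (1 / 32)).card : ℝ) ≤ c * n := by
    have hsub : ((Finset.range n).filter fun t =>
        ¬ Win ρ β h (2 * n) t (D * K ^ 4 * n) (1 / 32)) ⊆
        insert 0 ((Finset.Icc 1 (2 * n)).filter fun t => ¬ a t ≤ C₁ * K / n) := by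
      intro t ht
      rw [Finset.mem_filter] at ht
      rw [Finset.mem_insert, Finset.mem_filter, Finset.mem_Icc]
      by_cases h0 : t = 0
      · exact Or.inl h0
      · refine Or.inr ⟨⟨by omega, by have := Finset.mem_range.1 ht.1; omega⟩, fun hat => ?_⟩
        exact ht.2 (hwin t ht.1 h0 hat)
    have h1 := (Finset.card_le_card hsub).trans (Finset.card_insert_le _ _)
    have h2 : (((Finset.range n).filter fun t =>
      ¬ Win ρ β h (2 * n) t (D * K ^ 4 * n) (1 / 32)).card : ℝ) ≤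
        (((Finset.Icc 1 (2 * n)).filter fun t => ¬ a t ≤ C₁ * K / n).card : ℝ) + 1 := by
      exact_mod_cast h1
    have h3 : 1 ≤ c / 2 * n := by
      rw [div_le_iff₀ hc] at hn2
      linarith
    linarith
  -- the contradiction
  have hfin := hM h hgap n hn K (D * K ^ 4 * n) (by positivity) (hVE h hhE) hcard
  have hK0 : (0 : ℝ) < K := by linarith
  have e1 : √(D * K ^ 4 * n / n) = √D * K ^ 2 := by
    rw [mul_div_assoc, div_self hnR.ne', mul_one, Real.sqrt_mul hD0.le,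
      show K ^ 4 = (K ^ 2) ^ 2 by ring, Real.sqrt_sq (by positivity)]
  rw [e1] at hfin
  have hsK : √K ≤ K := by
    rw [Real.sqrt_le_left hK0.le]
    nlinarith
  have hK3 : K ≤ K ^ 3 := by
    nlinarith [mul_nonneg hK0.le (show 0 ≤ K ^ 2 - 1 by nlinarith)]
  have hlogK : Real.log K ≤ K := (Real.log_le_sub_one_of_pos hK0).trans (by linarith)
  have hlogn : Real.log (n / K) = x ^ 4 - Real.log 2 - Real.log K := by
    rw [hx, lo77_pow]
    push_cast
    rw [Real.log_mul two_ne_zero hnR.ne', Real.log_div hnR.ne' hK0.ne']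
    ring
  rw [hlogn] at hfin
  have hcube : K ^ 3 ≤ (K₀ + C₀) ^ 3 * x ^ 3 := by
    rw [← mul_pow]
    exact pow_le_pow_left₀ hK0.le hKx 3
  have hx3 : 1 ≤ x ^ 3 := one_le_pow₀ hx1
  have hsD : 0 ≤ √D := Real.sqrt_nonneg _
  -- `c x ^ 4 ≤ B x ^ 3`
  have hle : c * x ^ 4 ≤ B * x ^ 3 := by
    have h1 : c * x ^ 4 ≤ 1 + √K + K * (√D * K ^ 2) + c * Real.log 2 + c * Real.log K := by
      linarith
    have h2 : 1 + √K + K * (√D * K ^ 2) + c * Real.log 2 + c * Real.log K ≤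
        1 + c * Real.log 2 + (1 + √D + c) * K ^ 3 := by
      have : c * Real.log K ≤ c * K ^ 3 := mul_le_mul_of_nonneg_left (hlogK.trans hK3) hc.le
      have : K * (√D * K ^ 2) = √D * K ^ 3 := by ring
      linarith
    have h3 : (1 + √D + c) * K ^ 3 ≤ (1 + √D + c) * ((K₀ + C₀) ^ 3 * x ^ 3) :=
      mul_le_mul_of_nonneg_left hcube (by positivity)
    have h4 : 1 + c * Real.log 2 ≤ (1 + c * Real.log 2) * x ^ 3 := by
      have : 0 ≤ 1 + c * Real.log 2 := by positivity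
      nlinarith
    have h5 : 0 ≤ (K₀ + C₀) ^ 3 * x ^ 3 := by positivity
    rw [hB]
    nlinarith
  have hx30 : 0 < x ^ 3 := by linarith
  have hcx : c * x ≤ B := by
    have : c * x * x ^ 3 ≤ B * x ^ 3 := by
      calc c * x * x ^ 3 = c * x ^ 4 := by ring
        _ ≤ _ := hle
    exact le_of_mul_le_mul_right this hx30
  have hcx2 : B + c ≤ c * x := by
    have h := mul_le_mul_of_nonneg_left hn3 hc.le
    have e : c * (B / c + 1) = B + c := by field_simp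
    rw [e] at h
    exact h
  linarith

/-- **Almost every tilt** (two dimensions): very strong disorder and the windows force the variance
above every multiple of the fourth root of the logarithm, infinitely often. -/
theorem ae77 (hρ : EM ρ) (hMain : MainQ 2 ρ β) (hNPB : NPB 2 ρ β) (hAvg : AvgL 2)
    (hWin : WinL ρ β) : ∀ᵐ h : Vec 2, VSD ρ β h → ∀ C : ℝ, ∃ᶠ n : ℕ in atTop,
      C * (Real.log n) ^ (1 / 4 : ℝ) < Va ρ β h n := by
  have hall : ∀ᵐ h : Vec 2, ∀ k R K₀ C₀ : ℕ,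
      h ∉ SetE77 ρ β (1 / ((k : ℝ) + 1)) R ((K₀ : ℝ) + 1) C₀ := by
    rw [ae_all_iff]
    intro k
    rw [ae_all_iff]
    intro R
    rw [ae_all_iff]
    intro K₀
    rw [ae_all_iff]
    intro C₀
    exact measure_eq_zero_iff_ae_notMem.1 (null77 hρ hMain hNPB hAvg hWin (by positivity)
      (by have : (0 : ℝ) ≤ K₀ := Nat.cast_nonneg _; linarith) (Nat.cast_nonneg _))
  filter_upwards [hall] with h hh hV C
  by_contra hcon
  rw [not_frequently, eventually_atTop] at hcon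
  obtain ⟨n₁, hn₁⟩ := hcon
  unfold VSD at hV
  obtain ⟨k, hk⟩ := exists_nat_one_div_lt (sub_pos.2 hV)
  obtain ⟨R, hR⟩ := exists_nat_ge ‖h‖
  obtain ⟨C₀, hC₀⟩ := exists_nat_ge C
  obtain ⟨K₀, hK₀⟩ := exists_nat_ge (∑ m ∈ Finset.range n₁, Va ρ β h m)
  refine hh k R K₀ C₀ ⟨by linarith, hR, fun m => ?_⟩
  have hl := lo77_nonneg m
  have hCl : 0 ≤ (C₀ : ℝ) * lo77 m := mul_nonneg (Nat.cast_nonneg _) hl
  rcases lt_or_ge m n₁ with hm | hm
  · have := Finset.single_le_sum (f := fun m => Va ρ β h m) (fun m _ => Va_nonneg77 h m)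
      (Finset.mem_range.2 hm)
    linarith
  · have h1 := not_lt.1 (hn₁ m hm)
    have h2 : C * lo77 m ≤ C₀ * lo77 m := mul_le_mul_of_nonneg_right hC₀ hl
    have h3 : (0 : ℝ) ≤ K₀ := Nat.cast_nonneg _
    have h4 : C * (Real.log m) ^ (1 / 4 : ℝ) = C * lo77 m := rfl
    linarith

end Pool.Agent.W_7d29a1_Q29
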