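import Pool.Agent.W_7d29a1_Q29.Top29
import Pool.Agent.W_7d29a1_V.Main46
import Pool.Agent.W_7d29a1_D2.Dich31
import Pool.Agent.W_7d29a1_D2.TrF53
import Pool.Agent.W_7d29a1_P89.SL

/-!
The nonrandom fluctuation is not logarithmic at almost every tilt of very strong disorder.
-/

namespace Pool.Agent.W_7d29a1_Q29

open MeasureTheory ProbabilityTheory Filter Topology Pool.Agent.W_MP_7d29a1_pr
  Pool.Agent.W_7d29a1_h46 Pool.Agent.W_7d29a1_h46u Pool.Agent.W_7d29a1_D2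

variable {d : ℕ} {ρ : Measure ℝ} [IsProbabilityMeasure ρ] {β : ℝ}

/-- A tilt with `χ* < 2 / 5`: the variance is smaller than `n ^ (9 / 10)`. -/
theorem va_small67 (hd : 0 < d) (hρ : EM ρ) {h : Vec d}
    (hχ : chiF (law d ρ) β (fun p (η : Env d) => η p) h < 2 / 5) :
    ∀ᶠ n : ℕ in atTop, Va ρ β h n < (n : ℝ) ^ (1 - 1 / 10 : ℝ) := by
  obtain ⟨x, hx, hx1⟩ := exists_lt_of_csInf_lt
    ⟨_, half_mem_chiSetF (μ := law d ρ) (β := β) hd FreeV_iid hρ h⟩ hχ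
  obtain ⟨hx0, hF⟩ := (mem_chiSetF (μ := law d ρ) (β := β) hd FreeV_iid hρ h x).1 hx
  obtain ⟨C, hC⟩ := hF 2
  have h1 : Tendsto (fun n : ℕ => (n : ℝ) ^ (1 / 10 : ℝ)) atTop atTop :=
    (tendsto_rpow_atTop (by norm_num)).comp tendsto_natCast_atTop_atTop
  filter_upwards [h1.eventually_gt_atTop C, eventually_ge_atTop 1] with n hn hn1
  have hn1' : (1 : ℝ) ≤ n := by exact_mod_cast hn1
  have e1 : Va ρ β h n ≤ C * (n : ℝ) ^ (x * (2 : ℕ)) := by
    refine le_trans (le_of_eq ?_) (hC n hn1)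
    unfold Va
    exact integral_congr_ae (ae_of_all _ fun η => (sq_abs _).symm)
  have hC0 : 0 ≤ C := by
    have h2 : 0 ≤ Va ρ β h 1 := integral_nonneg fun η => sq_nonneg _
    have h3 : Va ρ β h 1 ≤ C * ((1 : ℕ) : ℝ) ^ (x * (2 : ℕ)) := by
      refine le_trans (le_of_eq ?_) (hC 1 le_rfl)
      unfold Va
      exact integral_congr_ae (ae_of_all _ fun η => (sq_abs _).symm)
    rw [Nat.cast_one, Real.one_rpow, mul_one] at h3
    linarith
  have e2 : (n : ℝ) ^ (x * (2 : ℕ)) ≤ (n : ℝ) ^ (4 / 5 : ℝ) := by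
    refine Real.rpow_le_rpow_of_exponent_le hn1' ?_
    push_cast
    linarith
  have e3 : (n : ℝ) ^ (1 - 1 / 10 : ℝ) = (n : ℝ) ^ (1 / 10 : ℝ) * (n : ℝ) ^ (4 / 5 : ℝ) := by
    rw [← Real.rpow_add (by linarith)]
    norm_num
  have e4 : 0 < (n : ℝ) ^ (4 / 5 : ℝ) := Real.rpow_pos_of_pos (by linarith) _
  rw [e3]
  calc Va ρ β h n ≤ C * (n : ℝ) ^ (x * (2 : ℕ)) := e1
    _ ≤ C * (n : ℝ) ^ (4 / 5 : ℝ) := mul_le_mul_of_nonneg_left e2 hC0
    _ < _ := mul_lt_mul_of_pos_right hn e4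

/-- SL and a small variance: the deficiency is not logarithmic. -/
theorem def_of_SL67 {h : Vec d} (hSL : ∀ M : ℝ, ∀ᶠ n : ℕ in atTop,
      (n : ℝ) ^ (1 - 1 / 10 : ℝ) ≤ Va ρ β h n ∨ ∃ m ≤ n,
        M * Real.log n ≤ m * lam ρ β h - A ρ β h m)
    (hVa : ∀ᶠ n : ℕ in atTop, Va ρ β h n < (n : ℝ) ^ (1 - 1 / 10 : ℝ)) (M : ℝ) :
    ∃ᶠ n : ℕ in atTop, M * Real.log n ≤ n * lam ρ β h - A ρ β h n := by
  rw [frequently_atTop]
  intro N
  have h0 : ∃ B : ℝ, ∀ m < N, m * lam ρ β h - A ρ β h m ≤ B := by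
    refine ⟨∑ m ∈ Finset.range N, |(m : ℝ) * lam ρ β h - A ρ β h m|, fun m hm => ?_⟩
    refine (le_abs_self _).trans ?_
    exact Finset.single_le_sum (f := fun m : ℕ => |(m : ℝ) * lam ρ β h - A ρ β h m|)
      (fun i _ => abs_nonneg _) (Finset.mem_range.2 hm)
  obtain ⟨B, hB⟩ := h0
  have h1 : Tendsto (fun n : ℕ => Real.log n) atTop atTop :=
    Real.tendsto_log_atTop.comp tendsto_natCast_atTop_atTop
  obtain ⟨n, hn, hV, hl, hn1⟩ := ((hSL (|M| + 1)).and (hVa.and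
    ((h1.eventually_gt_atTop |B|).and (eventually_ge_atTop 1)))).exists
  rcases hn with hn | ⟨m, hm, hn⟩
  · exact absurd hV (not_lt.2 hn)
  have hlog0 : 0 ≤ Real.log n := Real.log_nonneg (by exact_mod_cast hn1)
  have hmN : N ≤ m := by
    by_contra hc
    push Not at hc
    have h2 := hB m hc
    have h3 : Real.log n ≤ (|M| + 1) * Real.log n := by
      nlinarith [abs_nonneg M]
    have h4 := le_abs_self B
    linarith
  refine ⟨m, hmN, ?_⟩
  have h5 : Real.log m ≤ Real.log n := by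
    rcases Nat.eq_zero_or_pos m with rfl | hm0
    · simpa using hlog0
    · exact Real.log_le_log (by exact_mod_cast hm0) (by exact_mod_cast hm)
  have h6 : 0 ≤ Real.log m := Real.log_natCast_nonneg m
  calc M * Real.log m ≤ |M| * Real.log m := mul_le_mul_of_nonneg_right (le_abs_self M) h6
    _ ≤ |M| * Real.log n := mul_le_mul_of_nonneg_left h5 (abs_nonneg M)
    _ ≤ (|M| + 1) * Real.log n := by nlinarith
    _ ≤ _ := hn

/-- **The nonrandom fluctuation at almost every tilt of very strong disorder.** -/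
theorem aeD67 (hd : 0 < d) (hρ : EM ρ) (hSL : SLQ d ρ β) : AeD d ρ β := by
  unfold AeD
  filter_upwards [Dich31.ae_dich31 (lam_convex hd hρ β)] with h hh hV M
  obtain ⟨v, hsub, hU, -⟩ := hh
  have h1 := (W_7d29a1_V.AE_main46 (μ := law d ρ) (β := β) hd FreeV_iid hρ one_lt_two hsub hU).2
  refine def_of_SL67 (fun M => hSL h hV (1 / 10) M (by norm_num)) (va_small67 hd hρ ?_) M
  norm_num at h1 ⊢
  linarith

/-- The property SL. -/
theorem slQ67 (hd : 0 < d) (hρ : EM ρ) : SLQ d ρ β :=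
  fun h hV ε M hε => W_7d29a1_P89.mainSL hd hρ β h hV hε M

/-- AeD without hypothesis. -/
theorem aeD (hd : 0 < d) (hρ : EM ρ) : AeD d ρ β := aeD67 hd hρ (slQ67 hd hρ)

end Pool.Agent.W_7d29a1_Q29
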