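import Pool.Agent.W_7d29a1_Q29.Defs29
import Pool.Agent.W_7d29a1_h46u.LamU

/-!
The nonrandom fluctuations: unless the variance is almost linear, `m lam - E log Z_m` is at least
a multiple of `log m` for a positive fraction of the lengths `m`.
-/

namespace Pool.Agent.W_7d29a1_Q29.NT66

open MeasureTheory ProbabilityTheory Filter Topology Pool.Agent.W_MP_7d29a1_pr
  Pool.Agent.W_7d29a1_h46 Pool.Agent.W_7d29a1_h46u Pool.Agent.W_7d29a1_D2.B35
  Pool.Agent.W_7d29a1_Q29

variable {d : ℕ} {ρ : Measure ℝ} [IsProbabilityMeasure ρ]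

open Classical in
/-- Either the variance at the length `2 n` is large, or the nonrandom fluctuations are large at a
positive fraction of the lengths `≤ 2 n`. -/
theorem dichotG (hd : 0 < d) (hρ : EM ρ) {β : ℝ} (hG : GapQ d ρ β) :
    ∀ g : ℝ, 0 < g → ∀ ε : ℝ, 0 < ε → ε ≤ 1 → ∃ c : ℝ, 0 < c ∧ ∃ n₀ : ℕ, ∀ h : Vec d,
      lam ρ β h + g ≤ Real.log (Phi h) + Real.log (∫ t, Real.exp (β * t) ∂ρ) →
      ∀ n : ℕ, n₀ ≤ n → (n : ℝ) ^ (1 - ε) < Va ρ β h (2 * n) ∨
        c * n ≤ (((Finset.range (2 * n + 1)).filter fun m : ℕ =>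
          c * Real.log n ≤ m * lam ρ β h - A ρ β h m).card : ℝ) := by
  intro g hg ε hε hε1
  obtain ⟨c, C, hc, hC, hGQ⟩ := hG g hg
  set K : ℝ := Real.exp (2 * C / (c * ε)) with hK
  obtain ⟨n₁, hn₁⟩ := exists_nat_gt K
  have hcε : c * ε / 4 ≤ c := by nlinarith
  refine ⟨c * ε / 4, by positivity, n₁ + 2, fun h hh n hn => ?_⟩
  by_cases hV : (n : ℝ) ^ (1 - ε) < Va ρ β h (2 * n)
  · exact Or.inl hV
  refine Or.inr ?_
  rw [not_lt] at hV
  have hn2 : (2 : ℝ) ≤ n := by exact_mod_cast (by omega : 2 ≤ n)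
  have hn0 : (0 : ℝ) < n := by linarith
  have hlog : 0 < Real.log n := Real.log_pos (by linarith)
  have hlogC : C ≤ c * ε / 2 * Real.log n := by
    have h1 : K ≤ n := hn₁.le.trans (by exact_mod_cast (by omega : n₁ ≤ n))
    have h2 := Real.log_le_log (Real.exp_pos _) h1
    rw [Real.log_exp, div_le_iff₀ (by positivity)] at h2
    linarith
  have h3 := hGQ h hh n (by omega) ((n : ℝ) ^ (1 - ε)) (Real.rpow_pos_of_pos hn0 _) hV
  have h4 : Real.log (n / (n : ℝ) ^ (1 - ε)) = ε * Real.log n := by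
    rw [Real.log_div hn0.ne' (Real.rpow_pos_of_pos hn0 _).ne', Real.log_rpow hn0]
    ring
  rw [h4] at h3
  have h5 : ∀ t ∈ (Finset.range n).filter (fun t => c * (ε * Real.log n) ≤
      C + (A ρ β h (2 * n) - A ρ β h t - A ρ β h (2 * n - t))),
      c * ε / 4 * Real.log n ≤ t * lam ρ β h - A ρ β h t ∨
      c * ε / 4 * Real.log n ≤ (2 * n - t : ℕ) * lam ρ β h - A ρ β h (2 * n - t) := by
    intro t ht
    obtain ⟨h6, h7⟩ := Finset.mem_filter.1 ht
    have h8 := Finset.mem_range.1 h6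
    by_contra hcon
    rw [not_or, not_le, not_le] at hcon
    have h9 := A_le_lam hd hρ β h (2 * n)
    have h10 : ((2 * n - t : ℕ) : ℝ) = ((2 * n : ℕ) : ℝ) - t := Nat.cast_sub (by omega)
    rw [h10] at hcon
    nlinarith [hcon.1, hcon.2]
  have h6 : ((Finset.range n).filter (fun t => c * (ε * Real.log n) ≤
      C + (A ρ β h (2 * n) - A ρ β h t - A ρ β h (2 * n - t)))).card ≤
      ((Finset.range (2 * n + 1)).filter fun m : ℕ =>
          c * ε / 4 * Real.log n ≤ m * lam ρ β h - A ρ β h m).card := by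
    refine Finset.card_le_card_of_injOn (fun t =>
      if c * ε / 4 * Real.log n ≤ t * lam ρ β h - A ρ β h t then t else 2 * n - t) ?_ ?_
    · intro t ht
      have h7 := Finset.mem_range.1 (Finset.mem_filter.1 ht).1
      simp only
      split_ifs with h8
      · exact Finset.mem_filter.2 ⟨Finset.mem_range.2 (by omega), h8⟩
      · refine Finset.mem_filter.2 ⟨Finset.mem_range.2 (by omega), ?_⟩
        exact (h5 t ht).resolve_left h8
    · intro t ht s hs hts
      have h1 := Finset.mem_range.1 (Finset.mem_filter.1 ht).1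
      have h2 := Finset.mem_range.1 (Finset.mem_filter.1 hs).1
      simp only at hts
      split_ifs at hts <;> omega
  have h7 : (((Finset.range n).filter (fun t => c * (ε * Real.log n) ≤
      C + (A ρ β h (2 * n) - A ρ β h t - A ρ β h (2 * n - t)))).card : ℝ) ≤
      (((Finset.range (2 * n + 1)).filter fun m : ℕ =>
          c * ε / 4 * Real.log n ≤ m * lam ρ β h - A ρ β h m).card : ℝ) := by exact_mod_cast h6
  have h8 : c * ε / 4 * n ≤ c * n := mul_le_mul_of_nonneg_right hcε hn0.le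
  exact h8.trans (h3.trans h7)

open Classical in
/-- Very strong disorder, uniformly in the tilt when the gap is at least `g`. -/
theorem densG (hd : 0 < d) (hρ : EM ρ) {β : ℝ} (hG : GapQ d ρ β) :
    ∀ g : ℝ, 0 < g → ∀ ε : ℝ, 0 < ε → ε ≤ 1 → ∃ c : ℝ, 0 < c ∧ ∃ N₀ : ℕ, ∀ h : Vec d,
      lam ρ β h + g ≤ Real.log (Phi h) + Real.log (∫ t, Real.exp (β * t) ∂ρ) →
      ∀ N : ℕ, N₀ ≤ N → c * N ≤ (((Finset.range (N + 1)).filter fun m : ℕ =>
        c * (N : ℝ) ^ (1 - ε) ≤ Va ρ β h m ∨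
          c * Real.log N ≤ m * lam ρ β h - A ρ β h m).card : ℝ) := by
  intro g hg ε hε hε1
  obtain ⟨c₀, hc, n₀, hdi⟩ := dichotG hd hρ hG g hg ε hε hε1
  set c : ℝ := min (1 / 8) (c₀ / 8) with hcdef
  have hc1 : c ≤ 1 / 8 := min_le_left _ _
  have hc2 : c ≤ c₀ / 8 := min_le_right _ _
  have hcp : 0 < c := lt_min (by norm_num) (by positivity)
  refine ⟨c, hcp, 4 * n₀ + 64, fun h hh N hN => ?_⟩
  set k : ℕ := N / 4 with hk
  have hk1 : n₀ ≤ k := by omega
  have hk4 : 4 * k ≤ N := by omega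
  have hk8 : N ≤ 8 * k := by omega
  have hNR : (64 : ℝ) ≤ N := by exact_mod_cast (by omega : 64 ≤ N)
  have hkR : (N : ℝ) ≤ 8 * k := by exact_mod_cast hk8
  have hk0 : (0 : ℝ) < k := by linarith
  have hlogN : 0 < Real.log N := Real.log_pos (by linarith)
  have hlogk : Real.log N / 2 ≤ Real.log k := by
    have h1 : (N : ℝ) ≤ (k : ℝ) ^ 2 := by
      have h2 : (8 : ℝ) ≤ k := by linarith
      nlinarith
    have h3 := Real.log_le_log (by linarith) h1
    rw [Real.log_pow] at h3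
    push_cast at h3
    linarith
  have hp : c * (N : ℝ) ^ (1 - ε) ≤ (k : ℝ) ^ (1 - ε) := by
    have h1 : (N : ℝ) ^ (1 - ε) ≤ (8 * k : ℝ) ^ (1 - ε) :=
      Real.rpow_le_rpow (by linarith) hkR (by linarith)
    rw [Real.mul_rpow (by norm_num) hk0.le] at h1
    have h2 : (8 : ℝ) ^ (1 - ε) ≤ 8 := by
      calc (8 : ℝ) ^ (1 - ε) ≤ (8 : ℝ) ^ (1 : ℝ) :=
            Real.rpow_le_rpow_of_exponent_le (by norm_num) (by linarith)
        _ = 8 := Real.rpow_one _
    have h3 : 0 < (k : ℝ) ^ (1 - ε) := Real.rpow_pos_of_pos hk0 _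
    have h4 : 0 < (N : ℝ) ^ (1 - ε) := Real.rpow_pos_of_pos (by linarith) _
    nlinarith
  by_cases hall : ∀ n ∈ Finset.Icc k (2 * k), (n : ℝ) ^ (1 - ε) < Va ρ β h (2 * n)
  · have h1 : (Finset.Icc k (2 * k)).card ≤ ((Finset.range (N + 1)).filter fun m : ℕ =>
        c * (N : ℝ) ^ (1 - ε) ≤ Va ρ β h m ∨
          c * Real.log N ≤ m * lam ρ β h - A ρ β h m).card := by
      refine Finset.card_le_card_of_injOn (fun n => 2 * n) ?_ ?_
      · intro n hn
        have h2 := Finset.mem_Icc.1 hn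
        refine Finset.mem_filter.2 ⟨Finset.mem_range.2 (by simp only; omega), Or.inl ?_⟩
        refine hp.trans (le_trans ?_ (hall n hn).le)
        exact Real.rpow_le_rpow hk0.le (by exact_mod_cast h2.1) (by linarith)
      · intro a _ b _ hab
        simp only at hab
        omega
    rw [Nat.card_Icc] at h1
    have h3 : ((2 * k + 1 - k : ℕ) : ℝ) ≤ (((Finset.range (N + 1)).filter fun m : ℕ =>
        c * (N : ℝ) ^ (1 - ε) ≤ Va ρ β h m ∨
          c * Real.log N ≤ m * lam ρ β h - A ρ β h m).card : ℝ) := by exact_mod_cast h1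
    refine le_trans ?_ h3
    have h4 : (k : ℝ) ≤ ((2 * k + 1 - k : ℕ) : ℝ) := by exact_mod_cast (by omega)
    have h5 : c * N ≤ 1 / 8 * N := mul_le_mul_of_nonneg_right hc1 (by linarith)
    linarith
  · push Not at hall
    obtain ⟨n, hn, hle⟩ := hall
    obtain ⟨hn1, hn2⟩ := Finset.mem_Icc.1 hn
    rcases hdi h hh n (hk1.trans hn1) with h1 | h1
    · exact absurd h1 (not_lt.2 hle)
    · have h7 : (k : ℝ) ≤ n := by exact_mod_cast hn1
      have hthr : c * Real.log N ≤ c₀ * Real.log n := by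
        have h8 : Real.log N / 2 ≤ Real.log n := hlogk.trans (Real.log_le_log hk0 h7)
        have h9 : c * Real.log N ≤ c₀ / 8 * Real.log N :=
          mul_le_mul_of_nonneg_right hc2 hlogN.le
        have h10 : c₀ * (Real.log N / 2) ≤ c₀ * Real.log n := mul_le_mul_of_nonneg_left h8 hc.le
        have h11 : 0 ≤ c₀ * Real.log N := by positivity
        linarith
      have h2 : ((Finset.range (2 * n + 1)).filter fun m : ℕ =>
          c₀ * Real.log n ≤ m * lam ρ β h - A ρ β h m).card ≤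
          ((Finset.range (N + 1)).filter fun m : ℕ =>
          c * (N : ℝ) ^ (1 - ε) ≤ Va ρ β h m ∨
            c * Real.log N ≤ m * lam ρ β h - A ρ β h m).card := by
        refine Finset.card_le_card fun m hm => ?_
        obtain ⟨h3, h4⟩ := Finset.mem_filter.1 hm
        have h5 := Finset.mem_range.1 h3
        exact Finset.mem_filter.2 ⟨Finset.mem_range.2 (by omega), Or.inr (hthr.trans h4)⟩
      have h6 : (((Finset.range (2 * n + 1)).filter fun m : ℕ =>
          c₀ * Real.log n ≤ m * lam ρ β h - A ρ β h m).card : ℝ) ≤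
          (((Finset.range (N + 1)).filter fun m : ℕ =>
          c * (N : ℝ) ^ (1 - ε) ≤ Va ρ β h m ∨
            c * Real.log N ≤ m * lam ρ β h - A ρ β h m).card : ℝ) := by exact_mod_cast h2
      refine le_trans ?_ (h1.trans h6)
      have h8 : c * N ≤ c₀ / 8 * N := mul_le_mul_of_nonneg_right hc2 (by linarith)
      have h9 : c₀ * k ≤ c₀ * n := mul_le_mul_of_nonneg_left h7 hc.le
      have h10 : c₀ / 8 * N ≤ c₀ / 8 * (8 * k) := mul_le_mul_of_nonneg_left hkR (by positivity)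
      linarith

open Classical in
/-- One tilt of very strong disorder: for at least `c N` of the lengths `m ≤ N` the variance of
`log Z_m` is at least `c N ^ (1 - ε)` or `m lam - E log Z_m` is at least `c log N`. -/
theorem nonRandom66 (hd : 0 < d) (hρ : EM ρ) {β : ℝ} (hG : GapQ d ρ β) :
    ∀ h : Vec d, VSD ρ β h → ∀ ε : ℝ, 0 < ε → ∃ c : ℝ, 0 < c ∧ ∃ N₀ : ℕ, ∀ N : ℕ, N₀ ≤ N →
      c * N ≤ (((Finset.range (N + 1)).filter fun m : ℕ =>
        c * (N : ℝ) ^ (1 - ε) ≤ Va ρ β h m ∨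
          c * Real.log N ≤ m * lam ρ β h - A ρ β h m).card : ℝ) := by
  intro h hV ε hε
  unfold VSD at hV
  obtain ⟨c, hc, N₀, hN⟩ := densG hd hρ hG
    (Real.log (Phi h) + Real.log (∫ t, Real.exp (β * t) ∂ρ) - lam ρ β h) (by linarith)
    (min ε 1) (lt_min hε one_pos) (min_le_right _ _)
  refine ⟨c, hc, N₀ + 1, fun N hN' => (hN h (by linarith) N (by omega)).trans ?_⟩
  have hN1 : (1 : ℝ) ≤ N := by exact_mod_cast (by omega : 1 ≤ N)
  have h1 : ((Finset.range (N + 1)).filter fun m : ℕ =>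
        c * (N : ℝ) ^ (1 - min ε 1) ≤ Va ρ β h m ∨
          c * Real.log N ≤ m * lam ρ β h - A ρ β h m).card ≤
      ((Finset.range (N + 1)).filter fun m : ℕ =>
        c * (N : ℝ) ^ (1 - ε) ≤ Va ρ β h m ∨
          c * Real.log N ≤ m * lam ρ β h - A ρ β h m).card := by
    refine Finset.card_le_card fun m hm => ?_
    obtain ⟨h3, h4⟩ := Finset.mem_filter.1 hm
    refine Finset.mem_filter.2 ⟨h3, h4.imp_left fun h5 => le_trans ?_ h5⟩
    refine mul_le_mul_of_nonneg_left ?_ hc.le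
    exact Real.rpow_le_rpow_of_exponent_le hN1 (by linarith [min_le_left ε 1])
  exact_mod_cast h1

end Pool.Agent.W_7d29a1_Q29.NT66
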