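import Pool.Agent.W_7d29a1_Q29.NT66
import Pool.Agent.W_7d29a1_Q29.NG66
import Pool.Agent.W_7d29a1_Q29.Asm72
import Pool.Agent.W_7d29a1_Q29.Npf98
import Pool.Agent.W_7d29a1_Q29.Loc42
import Pool.Agent.W_7d29a1_Q29.Poly85

/-!
Clause (0) without hypotheses: every dimension, every tilt of very strong disorder.
-/

namespace Pool.Agent.W_7d29a1_Q29.NT66

open MeasureTheory ProbabilityTheory Filter Topology Pool.Agent.W_MP_7d29a1_pr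
  Pool.Agent.W_7d29a1_h46 Pool.Agent.W_7d29a1_h46u Pool.Agent.W_7d29a1_D2.B35
  Pool.Agent.W_7d29a1_Q29

variable {d : ℕ} {ρ : Measure ℝ} [IsProbabilityMeasure ρ]

theorem gapQ66 (hd : 0 < d) (hρ : EM ρ) (hnc : ∀ c : ℝ, ρ {c} ≠ 1) {β : ℝ} (hβ : 0 < β) :
    GapQ d ρ β :=
  gapQ72 (npf98 hd hρ hnc hβ) (Csy42.loc42 hd hρ β) (lowP85 hd hρ β)

open Classical in
theorem clause0 (hd : 0 < d) (hρ : EM ρ) (hnc : ∀ c : ℝ, ρ {c} ≠ 1) {β : ℝ} (hβ : 0 < β) :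
    ∀ h : Vec d, VSD ρ β h → ∃ c : ℝ, 0 < c ∧ ∃ N₀ : ℕ, ∀ N : ℕ, N₀ ≤ N →
      c * N ≤ (((Finset.range (N + 1)).filter fun m => c * (Real.log N) ^ 2 ≤
        ∫ η, (X β h η m - m * lam ρ β h) ^ 2 ∂(law d ρ)).card : ℝ) :=
  notTight66 hd hρ (npf98 hd hρ hnc hβ) (Csy42.loc42 hd hρ β)

open Classical in
theorem clause0' (hd : 0 < d) (hρ : EM ρ) (hnc : ∀ c : ℝ, ρ {c} ≠ 1) {β : ℝ} (hβ : 0 < β) :
    ∀ h : Vec d, VSD ρ β h → ∀ ε : ℝ, 0 < ε → ∃ c : ℝ, 0 < c ∧ ∃ N₀ : ℕ, ∀ N : ℕ, N₀ ≤ N →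
      c * N ≤ (((Finset.range (N + 1)).filter fun m : ℕ =>
        c * (N : ℝ) ^ (1 - ε) ≤ Va ρ β h m ∨
          c * Real.log N ≤ m * lam ρ β h - A ρ β h m).card : ℝ) :=
  nonRandom66 hd hρ (gapQ66 hd hρ hnc hβ)

end Pool.Agent.W_7d29a1_Q29.NT66
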