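import Pool.Agent.W_7d29a1_Q29.Lip56

/-!
The set of tilts with a large second difference at some scale is small.
-/

namespace Pool.Agent.W_7d29a1_Q29

open MeasureTheory ProbabilityTheory Filter Topology Pool.Agent.W_MP_7d29a1_pr
  Pool.Agent.W_7d29a1_h46 Pool.Agent.W_7d29a1_h46u

/-- The tilts of norm `≤ R` at which some second difference of `f` at a scale `ρ j` exceeds
`b j`. -/
def BadS {d : ℕ} (R : ℝ) (f : Vec d → ℝ) (ρ b : ℕ → ℝ) : Set (Vec d) :=
  {h | h ∈ Metric.closedBall 0 R ∧ ∃ (j : ℕ) (i : Fin d),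
    b j < f (h + ρ j • ej i) + f (h - ρ j • ej i) - 2 * f h}

open Cvx56 in
/-- The bad set is measurable and small. -/
theorem badS56 (d : ℕ) (R : ℝ) : ∃ C : ℝ, 0 < C ∧ ∀ (f : Vec d → ℝ) (L : ℝ), 0 ≤ L →
    ConvexOn ℝ Set.univ f → (∀ x y, |f x - f y| ≤ L * ‖x - y‖) → ∀ ρ b : ℕ → ℝ,
      (∀ j, 0 < ρ j) → (∀ j, 0 < b j) → Summable (fun j => ρ j ^ 2 / b j) →
        MeasurableSet (BadS R f ρ b) ∧
          volume (BadS R f ρ b) ≤ ENNReal.ofReal (C * L * ∑' j, ρ j ^ 2 / b j) := by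
  set r : ℝ := max R 1 with hr
  have hr0 : 0 < r := lt_of_lt_of_le one_pos (le_max_right R 1)
  set C : ℝ := d * ((2 * r) ^ d / r) + 1 with hC
  have hC0 : 0 < C := by positivity
  refine ⟨C, hC0, fun f L hL0 hf hL ρ b hρ hb hs => ?_⟩
  have hfc : Continuous f := by
    have hL' : LipschitzWith (Real.toNNReal L) f := by
      refine LipschitzWith.of_dist_le_mul fun x y => ?_
      rw [Real.dist_eq, dist_eq_norm]
      refine (hL x y).trans (mul_le_mul_of_nonneg_right ?_ (norm_nonneg _))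
      exact Real.le_coe_toNNReal L
    exact hL'.continuous
  refine ⟨?_, ?_⟩
  · have h1 : BadS R f ρ b = Metric.closedBall 0 R ∩ ⋃ j : ℕ, ⋃ i : Fin d,
        {h | b j < f (h + ρ j • ej i) + f (h - ρ j • ej i) - 2 * f h} := by
      ext h
      simp [BadS]
    rw [h1]
    refine measurableSet_closedBall.inter (MeasurableSet.iUnion fun j => MeasurableSet.iUnion
      fun i => (isOpen_lt continuous_const ?_).measurableSet)
    exact ((hfc.comp (continuous_id.add continuous_const)).add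
      (hfc.comp (continuous_id.sub continuous_const))).sub (continuous_const.mul hfc)
  set e := MeasurableEquiv.toLp 2 (Fin d → ℝ) with he
  have hmp : MeasurePreserving e :=
    (EuclideanSpace.volume_preserving_symm_measurableEquiv_toLp (Fin d)).symm
  set E' : Set (Fin d → ℝ) := e ⁻¹' (BadS R f ρ b) with hE'
  have hvol : volume E' = volume (BadS R f ρ b) := hmp.measure_preimage_equiv _
  have hBm : MeasurableSet (Bx (0 : Fin d → ℝ) r) := measurableSet_Icc
  have hsub : E' ⊆ Bx 0 r := by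
    intro x hx
    have h1 : (WithLp.toLp 2 x : Vec d) ∈ BadS R f ρ b := hx
    have h2 := h1.1
    rw [Metric.mem_closedBall, dist_zero_right] at h2
    rw [mem_Bx]
    intro j
    have h3 : |x j| ≤ r := by
      have h4 := PiLp.norm_apply_le (WithLp.toLp 2 x : Vec d) j
      rw [Real.norm_eq_abs] at h4
      exact (h4.trans h2).trans (le_max_left R 1)
    have h5 := abs_le.1 h3
    simp only [Pi.zero_apply]
    constructor <;> linarith [h5.1, h5.2]
  set μ := volume.restrict (Bx (0 : Fin d → ℝ) r) with hμ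
  have hfinμ : IsFiniteMeasure μ := ⟨by
    rw [hμ, Measure.restrict_apply_univ]
    exact isCompact_Icc.measure_lt_top⟩
  set B : ℕ → Fin d → Set (Fin d → ℝ) := fun j i => {x | b j ≤
    f (WithLp.toLp 2 x + ρ j • ej i) + f (WithLp.toLp 2 x - ρ j • ej i) -
      2 * f (WithLp.toLp 2 x)} with hB
  have hbd : ∀ j i, μ (B j i) ≤ ENNReal.ofReal ((2 * r) ^ d / r * L * (ρ j ^ 2 / b j)) := by
    intro j i
    have h1 := bad hf hr0 (hρ j) hL i (hb j)
    have h2 : L * ρ j ^ 2 / r * (2 * r) ^ d / b j = (2 * r) ^ d / r * L * (ρ j ^ 2 / b j) := by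
      ring
    rw [h2] at h1
    rw [← ENNReal.ofReal_toReal (measure_ne_top μ (B j i))]
    exact ENNReal.ofReal_le_ofReal h1
  have hcov : E' ⊆ ⋃ j, ⋃ i, B j i := by
    intro x hx
    have hx' : (WithLp.toLp 2 x : Vec d) ∈ BadS R f ρ b := hx
    obtain ⟨-, j, i, hji⟩ := hx'
    rw [Set.mem_iUnion]
    refine ⟨j, ?_⟩
    rw [Set.mem_iUnion]
    exact ⟨i, hji.le⟩
  have h1 : volume E' ≤ μ (⋃ j, ⋃ i, B j i) := by
    rw [hμ, Measure.restrict_apply' hBm]
    exact measure_mono (Set.subset_inter hcov hsub)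
  have hpos : ∀ j, 0 ≤ ρ j ^ 2 / b j := fun j => div_nonneg (sq_nonneg _) (hb j).le
  have hk : 0 ≤ (2 * r) ^ d / r * L := by positivity
  have h2 : μ (⋃ j, ⋃ i, B j i) ≤
      ∑' j : ℕ, ENNReal.ofReal (d * ((2 * r) ^ d / r * L) * (ρ j ^ 2 / b j)) := by
    refine (measure_iUnion_le _).trans (ENNReal.tsum_le_tsum fun j => ?_)
    refine (measure_iUnion_le _).trans ?_
    rw [tsum_fintype]
    refine (Finset.sum_le_sum fun i _ => hbd j i).trans (le_of_eq ?_)
    rw [Finset.sum_const, Finset.card_univ, Fintype.card_fin, nsmul_eq_mul,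
      mul_assoc (d : ℝ), ENNReal.ofReal_mul (p := (d : ℝ)) (by positivity),
      ENNReal.ofReal_natCast]
  have h3 : ∑' j : ℕ, ENNReal.ofReal (d * ((2 * r) ^ d / r * L) * (ρ j ^ 2 / b j)) =
      ENNReal.ofReal (d * ((2 * r) ^ d / r * L) * ∑' j, ρ j ^ 2 / b j) := by
    rw [← ENNReal.ofReal_tsum_of_nonneg (fun j => mul_nonneg (by positivity) (hpos j))
      (hs.mul_left _), tsum_mul_left]
  rw [← hvol]
  refine (h1.trans (h2.trans h3.le)).trans (ENNReal.ofReal_le_ofReal ?_)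
  have h4 : 0 ≤ ∑' j, ρ j ^ 2 / b j := tsum_nonneg hpos
  have h5 : d * ((2 * r) ^ d / r * L) ≤ C * L := by
    rw [hC]
    nlinarith
  exact mul_le_mul_of_nonneg_right h5 h4

variable {d : ℕ} {ρ : Measure ℝ} [IsProbabilityMeasure ρ]

/-- The bad set of the mean free energy of length `t`, with the radii `s j` and the thresholds
`M a j t (s j) ^ 2`, where `∑ 1 / a j ≤ S`. -/
theorem badA56 (hd : 0 < d) (hρ : EM ρ) (β R : ℝ) : ∃ C : ℝ, 0 < C ∧
    ∀ (t : ℕ), 1 ≤ t → ∀ (s a : ℕ → ℝ) (M : ℝ), (∀ j, 0 < s j) → (∀ j, 0 < a j) → 0 < M →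
      Summable (fun j => (a j)⁻¹) →
        MeasurableSet (BadS R (fun h : Vec d => A ρ β h t) s
            fun j => M * a j * (t * s j ^ 2)) ∧
          volume (BadS R (fun h : Vec d => A ρ β h t) s
            fun j => M * a j * (t * s j ^ 2)) ≤
            ENNReal.ofReal (C * (∑' j, (a j)⁻¹) / M) := by
  obtain ⟨C, hC, H⟩ := badS56 d R
  refine ⟨C, hC, fun t ht s a M hs ha hM hsum => ?_⟩
  have ht0 : (0 : ℝ) < t := by exact_mod_cast ht
  have e1 : ∀ j, s j ^ 2 / (M * a j * (t * s j ^ 2)) = (M * t)⁻¹ * (a j)⁻¹ := by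
    intro j
    have h1 := (hs j).ne'
    have h2 := (ha j).ne'
    have h3 := hM.ne'
    have h4 := ht0.ne'
    field_simp
  have e2 : (fun j => s j ^ 2 / (M * a j * (t * s j ^ 2))) = fun j => (M * t)⁻¹ * (a j)⁻¹ :=
    funext e1
  have h := H (fun h => A ρ β h t) t ht0.le (A_convex hd hρ β t) (fun x y => by
    have h1 := A_lip56 hd hρ β t x y
    rwa [one_mul] at h1) s (fun j => M * a j * (t * s j ^ 2)) hs (fun j => by
      have := hs j
      have := ha j
      positivity) (by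
      rw [e2]
      exact hsum.mul_left _)
  refine ⟨h.1, h.2.trans (ENNReal.ofReal_le_ofReal (le_of_eq ?_))⟩
  rw [e2, tsum_mul_left]
  have h3 := hM.ne'
  have h4 := ht0.ne'
  field_simp

end Pool.Agent.W_7d29a1_Q29
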