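import Pool.Agent.W_7d29a1_Q29.One85

/-!
The polymer sits where the future is lucky (helper93): when the gap is at least `4 G`, the mass of a
set of `N` positions is at most `e^(-G) + K / G² + √(K N S) / G`.
-/

namespace Pool.Agent.W_7d29a1_Q29

open MeasureTheory ProbabilityTheory Filter Topology

namespace Hab

variable {Ω₁ Ω₂ ι : Type*} [MeasurableSpace Ω₁] [MeasurableSpace Ω₂]
  {P₁ : Measure Ω₁} {P₂ : Measure Ω₂} [IsProbabilityMeasure P₁] [IsProbabilityMeasure P₂]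
  {Bx : Finset ι} {a : ι → Ω₁ → ℝ} {b : ι → Ω₂ → ℝ} {m F0 A0 : ℝ}

omit [IsProbabilityMeasure P₁] [IsProbabilityMeasure P₂] in
/-- The pointwise inequality. -/
lemma mass_le93 (H : Hab P₁ P₂ Bx a b m F0 A0) {G : ℝ} (hG : 0 < G) (hg : 4 * G ≤ F0 - A0 - m)
    {W : Finset ι} (hW : W ⊆ Bx) (w : Ω₁ × Ω₂) :
    ∑ i ∈ W, Qab Bx a b i w ≤ Real.exp (-G) +
      1 / G * ∑ i ∈ W, Qab Bx a b i w * |Real.log (b i w.2) - m| +
      1 / (2 * G ^ 2) * ((Real.log (Zab Bx a b w) - F0) ^ 2 +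
        (Real.log (∑ i ∈ Bx, a i w.1) - A0) ^ 2) := by
  have hs0 : 0 ≤ ∑ i ∈ W, Qab Bx a b i w * |Real.log (b i w.2) - m| :=
    Finset.sum_nonneg fun i hi => mul_nonneg (H.Q_nonneg (hW hi) w) (abs_nonneg _)
  have hU := U_eq (Bx := Bx) (a := a) (b := b) (m := m) (F0 := F0) (A0 := A0) w
  obtain ⟨x, hx⟩ : ∃ x, x = Real.log (Zab Bx a b w) - F0 := ⟨_, rfl⟩
  obtain ⟨y, hy⟩ : ∃ y, y = Real.log (∑ i ∈ Bx, a i w.1) - A0 := ⟨_, rfl⟩
  rw [← hx, ← hy] at hU ⊢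
  have hG2 : 0 < 2 * G ^ 2 := by positivity
  have hexp := Real.exp_pos (-G)
  rcases le_or_gt (2 * G) (U Bx a b m w) with h | h
  · -- the future is lucky at the typical position
    have h1 : ∀ i ∈ W, Qab Bx a b i w ≤ a i w.1 / (∑ j ∈ Bx, a j w.1) * Real.exp (-G) +
        1 / G * (Qab Bx a b i w * |Real.log (b i w.2) - m|) := by
      intro i hi
      have hμ : 0 ≤ a i w.1 / (∑ j ∈ Bx, a j w.1) :=
        div_nonneg (H.ha0 i (hW hi) w.1) (H.hs w.1).le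
      have hQ0 := H.Q_nonneg (hW hi) w
      rcases le_or_gt (Real.log (b i w.2) - m) G with h2 | h2
      · have h3 : Qab Bx a b i w ≤ a i w.1 / (∑ j ∈ Bx, a j w.1) * Real.exp (-G) := by
          rw [H.Q_eq (hW hi) w]
          refine mul_le_mul_of_nonneg_left (Real.exp_le_exp.2 ?_) hμ
          linarith
        have h4 : 0 ≤ 1 / G * (Qab Bx a b i w * |Real.log (b i w.2) - m|) := by positivity
        linarith
      · have h3 : Qab Bx a b i w ≤ 1 / G * (Qab Bx a b i w * |Real.log (b i w.2) - m|) := by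
          have h4 : G ≤ |Real.log (b i w.2) - m| := h2.le.trans (le_abs_self _)
          have h5 := mul_le_mul_of_nonneg_left h4 hQ0
          rw [one_div, inv_mul_eq_div, le_div_iff₀ hG]
          exact h5
        have h4 : 0 ≤ a i w.1 / (∑ j ∈ Bx, a j w.1) * Real.exp (-G) :=
          mul_nonneg hμ hexp.le
        linarith
    have h6 := Finset.sum_le_sum h1
    rw [Finset.sum_add_distrib, ← Finset.sum_mul, ← Finset.mul_sum] at h6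
    have h7 : ∑ i ∈ W, a i w.1 / (∑ j ∈ Bx, a j w.1) ≤ 1 := by
      rw [← Finset.sum_div, div_le_one (H.hs w.1)]
      exact Finset.sum_le_sum_of_subset_of_nonneg hW fun i hi _ => H.ha0 i hi w.1
    have h8 : (∑ i ∈ W, a i w.1 / (∑ j ∈ Bx, a j w.1)) * Real.exp (-G) ≤ Real.exp (-G) :=
      mul_le_of_le_one_left hexp.le h7
    have h9 : 0 ≤ 1 / (2 * G ^ 2) * (x ^ 2 + y ^ 2) := by positivity
    linarith
  · -- the exceptional event
    have h1 : ∑ i ∈ W, Qab Bx a b i w ≤ 1 := by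
      rw [← H.Q_sum w]
      exact Finset.sum_le_sum_of_subset_of_nonneg hW fun i hi _ => H.Q_nonneg hi w
    have h2 : 2 * G ≤ y - x := by linarith
    have h3 : 4 * G ^ 2 ≤ (y - x) ^ 2 := by nlinarith
    have h4 : 2 * G ^ 2 ≤ x ^ 2 + y ^ 2 := by nlinarith [sq_nonneg (x + y)]
    have h5 : 1 ≤ 1 / (2 * G ^ 2) * (x ^ 2 + y ^ 2) := by
      rw [one_div, inv_mul_eq_div, le_div_iff₀ hG2]
      linarith
    have h6 : 0 ≤ 1 / G * ∑ i ∈ W, Qab Bx a b i w * |Real.log (b i w.2) - m| := by positivity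
    linarith

/-- **The polymer sits where the future is lucky.** -/
theorem boxG93 (H : Hab P₁ P₂ Bx a b m F0 A0) {K S N G : ℝ} {W : Finset ι} (hW : W ⊆ Bx)
    (hN : (W.card : ℝ) ≤ N) (hG : 0 < G) (hg : 4 * G ≤ F0 - A0 - m)
    (hK : ∀ i ∈ Bx, ∫ w, (Real.log (b i w) - m) ^ 2 ∂P₂ ≤ K)
    (hKZ : ∫ w, (Real.log (Zab Bx a b w) - F0) ^ 2 ∂(P₁.prod P₂) ≤ K)
    (hKA : ∫ w, (Real.log (∑ i ∈ Bx, a i w) - A0) ^ 2 ∂P₁ ≤ K)
    (hS : ∫ w₂, ∑ i ∈ Bx, (∫ w₁, Qab Bx a b i (w₁, w₂) ∂P₁) ^ 2 ∂P₂ ≤ S) :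
    ∫ w, ∑ i ∈ W, Qab Bx a b i w ∂(P₁.prod P₂) ≤
      Real.exp (-G) + K / G ^ 2 + 1 / G * √(K * N * S) := by
  have hK0 : 0 ≤ K := le_trans (integral_nonneg fun w => sq_nonneg _) hKZ
  obtain ⟨hqi, hqv⟩ := H.QV hW hN hK hK0 hS
  have hA2i : Integrable (fun w : Ω₁ × Ω₂ => (Real.log (∑ i ∈ Bx, a i w.1) - A0) ^ 2)
      (P₁.prod P₂) := H.hA2.comp_fst P₂
  have hA2 : ∫ w : Ω₁ × Ω₂, (Real.log (∑ i ∈ Bx, a i w.1) - A0) ^ 2 ∂(P₁.prod P₂) ≤ K := by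
    rw [integral_fun_fst (fun w => (Real.log (∑ i ∈ Bx, a i w) - A0) ^ 2)]
    simpa using hKA
  have hQi : Integrable (fun w => ∑ i ∈ W, Qab Bx a b i w) (P₁.prod P₂) := by
    refine integrable_finsetSum W fun i hi => ?_
    refine Integrable.mono' (integrable_const (1 : ℝ)) (H.meas_Q (hW hi)).aestronglyMeasurable
      (Eventually.of_forall fun w => ?_)
    rw [Real.norm_eq_abs, abs_of_nonneg (H.Q_nonneg (hW hi) w)]
    exact H.Q_le_one (hW hi) w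
  have i1 : Integrable (fun w : Ω₁ × Ω₂ => Real.exp (-G) +
      1 / G * ∑ i ∈ W, Qab Bx a b i w * |Real.log (b i w.2) - m|) (P₁.prod P₂) :=
    (integrable_const _).add (hqi.const_mul _)
  have i2 : Integrable (fun w : Ω₁ × Ω₂ => 1 / (2 * G ^ 2) *
      ((Real.log (Zab Bx a b w) - F0) ^ 2 + (Real.log (∑ i ∈ Bx, a i w.1) - A0) ^ 2))
      (P₁.prod P₂) := (H.hZ2.add hA2i).const_mul _
  have h1 := integral_mono hQi (i1.add i2) fun w => H.mass_le93 hG hg hW w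
  have e1 : ∫ w : Ω₁ × Ω₂, ((Real.exp (-G) +
      1 / G * ∑ i ∈ W, Qab Bx a b i w * |Real.log (b i w.2) - m|) + 1 / (2 * G ^ 2) *
      ((Real.log (Zab Bx a b w) - F0) ^ 2 + (Real.log (∑ i ∈ Bx, a i w.1) - A0) ^ 2))
      ∂(P₁.prod P₂) =
      (Real.exp (-G) + 1 / G * ∫ w : Ω₁ × Ω₂, ∑ i ∈ W, Qab Bx a b i w *
        |Real.log (b i w.2) - m| ∂(P₁.prod P₂)) + 1 / (2 * G ^ 2) *
      ((∫ w, (Real.log (Zab Bx a b w) - F0) ^ 2 ∂(P₁.prod P₂)) +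
        ∫ w : Ω₁ × Ω₂, (Real.log (∑ i ∈ Bx, a i w.1) - A0) ^ 2 ∂(P₁.prod P₂)) := by
    rw [integral_add i1 i2, integral_add (integrable_const _) (hqi.const_mul _),
      integral_const_mul, integral_const_mul, integral_add H.hZ2 hA2i]
    simp
  have h2 : ∫ w, ∑ i ∈ W, Qab Bx a b i w ∂(P₁.prod P₂) ≤
      (Real.exp (-G) + 1 / G * ∫ w : Ω₁ × Ω₂, ∑ i ∈ W, Qab Bx a b i w *
        |Real.log (b i w.2) - m| ∂(P₁.prod P₂)) + 1 / (2 * G ^ 2) *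
      ((∫ w, (Real.log (Zab Bx a b w) - F0) ^ 2 ∂(P₁.prod P₂)) +
        ∫ w : Ω₁ × Ω₂, (Real.log (∑ i ∈ Bx, a i w.1) - A0) ^ 2 ∂(P₁.prod P₂)) :=
    h1.trans (le_of_eq e1)
  have h3 : 1 / G * (∫ w : Ω₁ × Ω₂, ∑ i ∈ W, Qab Bx a b i w *
      |Real.log (b i w.2) - m| ∂(P₁.prod P₂)) ≤ 1 / G * √(K * N * S) :=
    mul_le_mul_of_nonneg_left hqv (by positivity)
  have h4 : 1 / (2 * G ^ 2) * ((∫ w, (Real.log (Zab Bx a b w) - F0) ^ 2 ∂(P₁.prod P₂)) +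
        ∫ w : Ω₁ × Ω₂, (Real.log (∑ i ∈ Bx, a i w.1) - A0) ^ 2 ∂(P₁.prod P₂)) ≤
      1 / (2 * G ^ 2) * (K + K) :=
    mul_le_mul_of_nonneg_left (add_le_add hKZ hA2) (by positivity)
  have h5 : 1 / (2 * G ^ 2) * (K + K) = K / G ^ 2 := by
    have := hG.ne'
    field_simp
    ring
  linarith

end Hab

end Pool.Agent.W_7d29a1_Q29
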