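import Pool.Agent.W_7d29a1_Q29.BoxV95
import Pool.Agent.W_7d29a1_P79.End79
import Pool.Agent.W_7d29a1_Q29.Tr29

/-!
The free energy of the polymer started from the uniform measure on a box, in very strong disorder,
in the letters of the model and of the problem.
-/

set_option autoImplicit false
set_option maxHeartbeats 400000

namespace Pool.Agent.W_7d29a1_Q29.BV95

open MeasureTheory ProbabilityTheory Filter Topology Pool.Agent.W_MP_7d29a1_pr
  Pool.Agent.W_7d29a1_h46 Pool.Agent.W_7d29a1_h46u Pool.Agent.W_7d29a1_D2.B35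
  Pool.Agent.W_7d29a1_Q29

variable {d : ℕ} {ρ : Measure ℝ} [IsProbabilityMeasure ρ] {β : ℝ}

/-- **Very strong disorder, every dimension, every tilt**: the variances of the free energies of
the polymers started from boxes are unbounded. -/
theorem boxV95 (hd : 0 < d) (hρ : EM ρ) {h : Vec d} (hV : VSD ρ β h) (K : ℝ) :
    ∀ᶠ n : ℕ in atTop, ∃ r ≤ n, ∃ N : ℕ, K ≤ vB ρ β h r N :=
  box95 hd hρ (fun B => Pool.Agent.W_7d29a1_P79.endR79 hd hρ hV B) K

variable {Ω : Type*} [MeasurableSpace Ω] {μ : Measure Ω} [IsProbabilityMeasure μ]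
  {ω : ℕ × Site d → Ω → ℝ}

omit [IsProbabilityMeasure ρ] [MeasurableSpace Ω] in
lemma logB (hd : 0 < d) (β : ℝ) (h : Vec d) (r N : ℕ) (x : Ω) :
    Real.log (∑ y ∈ boxF d r, Zn β h (fun p => ω (p.1, y + p.2) x) N) =
      FB β h r N (fun p => ω p x) - Real.log ((2 * d : ℝ) ^ N) := by
  have hd' : (0 : ℝ) < d := by exact_mod_cast hd
  have h1 : ∀ y : Site d, (fun p : ℕ × Site d => ω (p.1, y + p.2) x) =
      sh 0 y (fun p => ω p x) := by
    intro y
    funext p
    simp only [sh, add_zero]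
    rw [add_comm y]
  have h2 : ∑ y ∈ boxF d r, Zn β h (fun p => ω (p.1, y + p.2) x) N =
      (∑ y ∈ boxF d r, Z β h (sh 0 y (fun p => ω p x)) N) / (2 * d : ℝ) ^ N := by
    rw [Finset.sum_div]
    refine Finset.sum_congr rfl fun y _ => ?_
    rw [h1 y]
    rfl
  rw [h2, Real.log_div (sum_pos hd β h r N _).ne' (by positivity)]
  rfl

lemma varB (hd : 0 < d) (hω : IID μ ρ ω) (hρ : EM ρ) (h : Vec d) (r N : ℕ) :
    Var[fun x => Real.log (∑ y ∈ boxF d r, Zn β h (fun p => ω (p.1, y + p.2) x) N); μ] =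
      vB ρ β h r N := by
  have hmp := mp_env hω
  set c := Real.log ((2 * d : ℝ) ^ N) with hc
  set g : Env d → ℝ := fun η => FB β h r N η - c with hg
  have hgm : Measurable g := (FB_meas β h r N).sub_const c
  have h1 : (fun x => Real.log (∑ y ∈ boxF d r, Zn β h (fun p => ω (p.1, y + p.2) x) N)) =
      fun x => g (fun p => ω p x) := by
    funext x
    exact logB hd β h r N x
  have hm : AEMeasurable (fun x => g (fun p => ω p x)) μ :=
    (hgm.comp hmp.measurable).aemeasurable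
  rw [h1, variance_eq_integral hm]
  have h2 : ∫ x, g (fun p => ω p x) ∂μ = mB ρ β h r N - c := by
    have h4 : ∫ x, g (fun p => ω p x) ∂μ = ∫ η, g η ∂(law d ρ) := StrA_int hω hgm
    have h5 : ∫ η, (FB β h r N η - c) ∂(law d ρ) = mB ρ β h r N - c := by
      rw [integral_sub (FB_int hd hρ β h r N) (integrable_const c), integral_const,
        probReal_univ, one_smul]
      rfl
    exact h4.trans h5
  rw [h2]
  have h3 : ∫ x, (fun η : Env d => (g η - (mB ρ β h r N - c)) ^ 2) (fun p => ω p x) ∂μ =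
      ∫ η, (g η - (mB ρ β h r N - c)) ^ 2 ∂(law d ρ) :=
    StrA_int hω ((hgm.sub_const _).pow_const 2)
  refine h3.trans ?_
  unfold vB
  refine integral_congr_ae (Filter.Eventually.of_forall fun η => ?_)
  simp only [hg]
  ring

/-- **THEOREM BOX** in the letters of the problem. -/
theorem probBox95 (hd : 0 < d) (hω : IID μ ρ ω) (hρ : EM ρ) {h : Vec d} (hV : VSD ρ β h) (K : ℝ) :
    ∀ᶠ n : ℕ in atTop, ∃ r ≤ n, ∃ N : ℕ,
      K ≤ Var[fun x => Real.log (∑ y ∈ boxF d r, Zn β h (fun p => ω (p.1, y + p.2) x) N); μ] := by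
  filter_upwards [boxV95 hd hρ hV K] with n hn
  obtain ⟨r, hr, N, h1⟩ := hn
  refine ⟨r, hr, N, ?_⟩
  rw [varB hd hω hρ]
  exact h1

end Pool.Agent.W_7d29a1_Q29.BV95
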