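import Pool.Agent.W_7d29a1_Q29.Box98

/-!
The free energy of the polymer started from the uniform measure on a box: a nonrandom deficiency
larger than every multiple of `log` forces unbounded fluctuations.
-/

set_option autoImplicit false
set_option maxHeartbeats 400000

namespace Pool.Agent.W_7d29a1_Q29.BV95

open MeasureTheory ProbabilityTheory Filter Topology Pool.Agent.W_MP_7d29a1_pr
  Pool.Agent.W_7d29a1_h46 Pool.Agent.W_7d29a1_h46u Pool.Agent.W_7d29a1_D2.B35
  Pool.Agent.W_7d29a1_Q29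

variable {d : ℕ} {ρ : Measure ℝ}

/-- The free energy of the walks of length `N` which start in the box of radius `r`. -/
noncomputable def FB {d : ℕ} (β : ℝ) (h : Vec d) (r N : ℕ) (η : Env d) : ℝ :=
  Real.log (∑ y ∈ boxF d r, Z β h (sh 0 y η) N)

/-- Its mean. -/
noncomputable def mB {d : ℕ} (ρ : Measure ℝ) (β : ℝ) (h : Vec d) (r N : ℕ) : ℝ :=
  ∫ η, FB β h r N η ∂(law d ρ)

/-- Its variance. -/
noncomputable def vB {d : ℕ} (ρ : Measure ℝ) (β : ℝ) (h : Vec d) (r N : ℕ) : ℝ :=
  ∫ η, (FB β h r N η - mB ρ β h r N) ^ 2 ∂(law d ρ)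

lemma mem_box {r : ℕ} {y : Site d} : y ∈ boxF d r ↔ ∀ j, -(r : ℤ) ≤ y j ∧ y j ≤ r := by
  unfold boxF
  simp only [Fintype.mem_piFinset, Finset.mem_Icc]

lemma box_mono {r s : ℕ} (h : r ≤ s) : boxF d r ⊆ boxF d s := by
  intro y hy
  rw [mem_box] at hy ⊢
  intro j
  have := hy j
  omega

lemma box_zero : boxF d 0 = {0} := by
  ext y
  rw [mem_box, Finset.mem_singleton]
  constructor
  · intro h
    funext j
    have := h j
    simp only [Nat.cast_zero, neg_zero, Pi.zero_apply] at this ⊢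
    omega
  · rintro rfl j
    simp

lemma sh_sh (a z : Site d) (η : Env d) : sh 0 z (sh 0 a η) = sh 0 (a + z) η := by
  funext p
  simp only [sh, add_zero]
  congr 2
  rw [add_assoc, add_comm z a]

lemma sh_sh' (m : ℕ) (z : Site d) (η : Env d) : sh 0 z (sh m 0 η) = sh m z η := by
  funext p
  simp only [sh, add_zero]

lemma sum_pos (hd : 0 < d) (β : ℝ) (h : Vec d) (r N : ℕ) (η : Env d) :
    0 < ∑ y ∈ boxF d r, Z β h (sh 0 y η) N :=
  Finset.sum_pos (fun y _ => Z_pos hd β h _ N) ⟨0, TubV_zero r⟩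

lemma FB_meas (β : ℝ) (h : Vec d) (r N : ℕ) : Measurable (FB (d := d) β h r N) := by
  unfold FB
  refine Real.measurable_log.comp (Finset.measurable_sum _ fun y _ => ?_)
  refine (measurable_Z β h N).comp ?_
  exact measurable_pi_lambda _ fun p => measurable_pi_apply _

lemma FB_exp (hd : 0 < d) (β : ℝ) (h : Vec d) (r N : ℕ) (η : Env d) :
    Real.exp (FB β h r N η) = ∑ y ∈ boxF d r, Z β h (sh 0 y η) N :=
  Real.exp_log (sum_pos hd β h r N η)

lemma FB_mono (hd : 0 < d) (β : ℝ) (h : Vec d) {r s : ℕ} (hrs : r ≤ s) (N : ℕ) (η : Env d) :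
    FB β h r N η ≤ FB β h s N η := by
  unfold FB
  refine Real.log_le_log (sum_pos hd β h r N η) ?_
  exact Finset.sum_le_sum_of_subset_of_nonneg (box_mono hrs) fun y _ _ => (Z_pos hd β h _ N).le

lemma FB_zero (β : ℝ) (h : Vec d) (N : ℕ) (η : Env d) : FB β h 0 N η = X β h η N := by
  unfold FB X
  rw [box_zero, Finset.sum_singleton, TubV_sh]

/-- A sum of exponentials. -/
lemma lse {ι : Type*} (S : Finset ι) (hS : S.Nonempty) (F : ι → ℝ) (m : ℝ) :
    Real.log (∑ e ∈ S, Real.exp (F e)) ≤ Real.log S.card + m + ∑ e ∈ S, |F e - m| := by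
  have h1 : ∑ e ∈ S, Real.exp (F e) ≤ S.card * Real.exp (m + ∑ e ∈ S, |F e - m|) := by
    rw [← nsmul_eq_mul]
    refine Finset.sum_le_card_nsmul _ _ _ fun e he => Real.exp_le_exp.2 ?_
    have h2 : |F e - m| ≤ ∑ e ∈ S, |F e - m| :=
      Finset.single_le_sum (f := fun e => |F e - m|) (fun e _ => abs_nonneg _) he
    have h3 := le_abs_self (F e - m)
    linarith
  have h4 : 0 < ∑ e ∈ S, Real.exp (F e) := Finset.sum_pos (fun _ _ => Real.exp_pos _) hS
  have h5 : (0 : ℝ) < S.card := by exact_mod_cast hS.card_pos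
  refine (Real.log_le_log h4 h1).trans (le_of_eq ?_)
  rw [Real.log_mul h5.ne' (Real.exp_pos _).ne', Real.log_exp]
  ring

lemma FB_abs (hd : 0 < d) (β : ℝ) (h : Vec d) (r N : ℕ) (η : Env d) :
    |FB β h r N η| ≤ Real.log (boxF d r).card + ∑ y ∈ boxF d r, |X β h (sh 0 y η) N| := by
  have hne : (boxF d r).Nonempty := ⟨0, TubV_zero r⟩
  have hc : 0 ≤ Real.log (boxF d r).card := Real.log_natCast_nonneg _
  rw [abs_le]
  constructor
  · have h1 : X β h η N ≤ FB β h r N η := by
      rw [← FB_zero]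
      exact FB_mono hd β h (Nat.zero_le r) N η
    have h2 : |X β h (sh 0 0 η) N| ≤ ∑ y ∈ boxF d r, |X β h (sh 0 y η) N| :=
      Finset.single_le_sum (f := fun y => |X β h (sh 0 y η) N|)
        (fun y _ => abs_nonneg _) (TubV_zero (d := d) r)
    rw [TubV_sh] at h2
    have h3 := neg_abs_le (X β h η N)
    linarith
  · have h1 := lse (boxF d r) hne (fun y => X β h (sh 0 y η) N) 0
    simp only [sub_zero, add_zero] at h1
    refine le_trans (le_of_eq ?_) h1
    unfold FB
    congr 1
    exact Finset.sum_congr rfl fun y _ => TubV_exp hd β h _ N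

variable [IsProbabilityMeasure ρ]

lemma X_memLp (hd : 0 < d) (hρ : EM ρ) (β : ℝ) (h : Vec d) (N : ℕ) (y : Site d) :
    MemLp (fun η : Env d => X β h (sh 0 y η) N) 2 (law d ρ) := by
  have h1 : MemLp (fun η : Env d => X β h η N - A ρ β h N) 2 (law d ρ) := by
    rw [memLp_two_iff_integrable_sq
      ((measurable_X β h N).sub_const _).aestronglyMeasurable]
    exact S98.X_dev_int hd hρ β h N
  have h2 : MemLp (fun η : Env d => X β h η N) 2 (law d ρ) := by
    have := h1.add (memLp_const (A ρ β h N))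
    refine this.ae_eq (Filter.Eventually.of_forall fun η => ?_)
    simp
  exact h2.comp_measurePreserving (mp_sh 0 y)

lemma FB_memLp (hd : 0 < d) (hρ : EM ρ) (β : ℝ) (h : Vec d) (r N : ℕ) :
    MemLp (FB (d := d) β h r N) 2 (law d ρ) := by
  have h0 : MemLp (fun η : Env d => ∑ y ∈ boxF d r, |X β h (sh 0 y η) N|) 2 (law d ρ) :=
    memLp_finsetSum (boxF d r) (f := fun y (η : Env d) => |X β h (sh 0 y η) N|)
      fun y _ => (X_memLp hd hρ β h N y).abs
  have h00 : MemLp (fun _ : Env d => Real.log (boxF d r).card) 2 (law d ρ) := memLp_const _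
  have h1 : MemLp (fun η : Env d => Real.log (boxF d r).card +
      ∑ y ∈ boxF d r, |X β h (sh 0 y η) N|) 2 (law d ρ) := h00.add h0
  refine h1.mono (FB_meas β h r N).aestronglyMeasurable (Filter.Eventually.of_forall fun η => ?_)
  rw [Real.norm_eq_abs]
  exact (FB_abs hd β h r N η).trans (le_abs_self _)

lemma FB_int (hd : 0 < d) (hρ : EM ρ) (β : ℝ) (h : Vec d) (r N : ℕ) :
    Integrable (FB (d := d) β h r N) (law d ρ) :=
  (FB_memLp hd hρ β h r N).integrable (by norm_num)

omit [IsProbabilityMeasure ρ] in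
lemma mB_zero (β : ℝ) (h : Vec d) (N : ℕ) : mB ρ β h 0 N = A ρ β h N := by
  unfold mB A
  simp only [FB_zero]

omit [IsProbabilityMeasure ρ] in
lemma vB_nonneg (β : ℝ) (h : Vec d) (r N : ℕ) : 0 ≤ vB ρ β h r N :=
  integral_nonneg fun _ => sq_nonneg _

/-- The first absolute moment and the variance. -/
lemma abs_le_sqrt (hd : 0 < d) (hρ : EM ρ) (β : ℝ) (h : Vec d) (r N : ℕ) :
    ∫ η, |FB β h r N η - mB ρ β h r N| ∂(law d ρ) ≤ Real.sqrt (vB ρ β h r N) := by
  set f : Env d → ℝ := fun η => |FB β h r N η - mB ρ β h r N| with hf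
  have h1 : MemLp f 2 (law d ρ) := ((FB_memLp hd hρ β h r N).sub (memLp_const _)).abs
  have h2 := variance_nonneg f (law d ρ)
  rw [variance_eq_sub h1] at h2
  refine Real.le_sqrt_of_sq_le ?_
  have h3 : ∫ η, (f ^ 2) η ∂(law d ρ) = vB ρ β h r N := by
    unfold vB
    refine integral_congr_ae (Filter.Eventually.of_forall fun η => ?_)
    simp only [hf, Pi.pow_apply, sq_abs]
  rw [h3] at h2
  linarith

/-- The tiling. -/
lemma tile {r : ℕ} {g : Site d → ℝ} (hg : ∀ y, 0 ≤ g y) :
    ∑ y ∈ boxF d (3 * r + 1), g y ≤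
      ∑ e ∈ boxF d 1, ∑ z ∈ boxF d r, g ((2 * (r : ℤ) + 1) • e + z) := by
  classical
  rw [← Finset.sum_product']
  let φ : Site d → Site d × Site d := fun y =>
    (fun j => if y j < -(r : ℤ) then -1 else if (r : ℤ) < y j then 1 else 0,
     fun j => y j - (2 * (r : ℤ) + 1) * (if y j < -(r : ℤ) then -1 else if (r : ℤ) < y j then 1
      else 0))
  have hφ : ∀ y, (2 * (r : ℤ) + 1) • (φ y).1 + (φ y).2 = y := by
    intro y
    funext j
    simp only [φ, Pi.add_apply, Pi.smul_apply, smul_eq_mul]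
    ring
  have hinj : Set.InjOn φ (boxF d (3 * r + 1)) := by
    intro a _ b _ hab
    rw [← hφ a, ← hφ b, hab]
  have h1 : ∑ y ∈ boxF d (3 * r + 1), g y =
      ∑ q ∈ (boxF d (3 * r + 1)).image φ, g ((2 * (r : ℤ) + 1) • q.1 + q.2) := by
    rw [Finset.sum_image hinj]
    exact Finset.sum_congr rfl fun y _ => by rw [hφ]
  rw [h1]
  refine Finset.sum_le_sum_of_subset_of_nonneg ?_ fun q _ _ => hg _
  intro q hq
  rw [Finset.mem_image] at hq
  obtain ⟨y, hy, rfl⟩ := hq
  rw [mem_box] at hy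
  rw [Finset.mem_product, mem_box, mem_box]
  refine ⟨fun j => ?_, fun j => ?_⟩
  · simp only [φ]
    split_ifs <;> norm_num
  · have := hy j
    push_cast at this
    simp only [φ]
    split_ifs with h1 h2
    · constructor <;> linarith
    · constructor <;> linarith
    · constructor <;> linarith

/-- One step of the recursion over the scales. -/
lemma step (hd : 0 < d) (hρ : EM ρ) (β : ℝ) (h : Vec d) (r N : ℕ) {s : ℝ}
    (hs : Real.sqrt (vB ρ β h r N) ≤ s) :
    mB ρ β h (3 * r + 1) N ≤ mB ρ β h r N +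
      (Real.log (boxF d 1).card + (boxF d 1).card * s) := by
  set m := mB ρ β h r N with hm
  have hne : (boxF d 1).Nonempty := ⟨0, TubV_zero 1⟩
  have h1 : ∀ η : Env d, FB β h (3 * r + 1) N η ≤ Real.log (boxF d 1).card + m +
      ∑ e ∈ boxF d 1, |FB β h r N (sh 0 ((2 * (r : ℤ) + 1) • e) η) - m| := by
    intro η
    refine le_trans ?_ (lse (boxF d 1) hne
      (fun e => FB β h r N (sh 0 ((2 * (r : ℤ) + 1) • e) η)) m)
    unfold FB
    refine Real.log_le_log (sum_pos hd β h _ N η) ?_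
    refine (tile (g := fun y => Z β h (sh 0 y η) N) fun y => (Z_pos hd β h _ N).le).trans
      (le_of_eq ?_)
    refine Finset.sum_congr rfl fun e _ => ?_
    rw [Real.exp_log (sum_pos hd β h r N _)]
    exact Finset.sum_congr rfl fun z _ => by rw [sh_sh]
  have hi : ∀ e : Site d, Integrable
      (fun η => |FB β h r N (sh 0 ((2 * (r : ℤ) + 1) • e) η) - m|) (law d ρ) := fun e =>
    (((mp_sh 0 _).integrable_comp_of_integrable (FB_int hd hρ β h r N)).sub
      (integrable_const _)).abs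
  have h2 : ∫ η, FB β h (3 * r + 1) N η ∂(law d ρ) ≤ ∫ η, (Real.log (boxF d 1).card + m +
      ∑ e ∈ boxF d 1, |FB β h r N (sh 0 ((2 * (r : ℤ) + 1) • e) η) - m|) ∂(law d ρ) :=
    integral_mono (FB_int hd hρ β h _ N)
      ((integrable_const _).add (integrable_finsetSum _ fun e _ => hi e)) h1
  rw [integral_add (integrable_const _) (integrable_finsetSum _ fun e _ => hi e),
    integral_finsetSum _ fun e _ => hi e, integral_const, probReal_univ, one_smul] at h2
  have h3 : ∀ e ∈ boxF d 1, ∫ η, |FB β h r N (sh 0 ((2 * (r : ℤ) + 1) • e) η) - m| ∂(law d ρ) ≤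
      s := by
    intro e _
    have h4 := integral_sh (ρ := ρ) 0 ((2 * (r : ℤ) + 1) • e)
      (F := fun η : Env d => |FB β h r N η - m|)
      (by
        have := ((FB_meas (d := d) β h r N).sub_const m).norm
        simpa only [Real.norm_eq_abs] using this)
    rw [h4]
    exact (abs_le_sqrt hd hρ β h r N).trans hs
  have h5 := Finset.sum_le_sum h3
  rw [Finset.sum_const, nsmul_eq_mul] at h5
  show ∫ η, FB β h (3 * r + 1) N η ∂(law d ρ) ≤ _
  linarith

/-- The radii. -/
def rad : ℕ → ℕ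
  | 0 => 0
  | j + 1 => 3 * rad j + 1

lemma rad_eq (j : ℕ) : 2 * rad j + 1 = 3 ^ j := by
  induction j with
  | zero => rfl
  | succ j ih =>
    simp only [rad, pow_succ]
    omega

/-- The recursion. -/
lemma rec (hd : 0 < d) (hρ : EM ρ) (β : ℝ) (h : Vec d) (N : ℕ) {s : ℝ} (j : ℕ)
    (hs : ∀ i < j, Real.sqrt (vB ρ β h (rad i) N) ≤ s) :
    mB ρ β h (rad j) N ≤ A ρ β h N + j * (Real.log (boxF d 1).card + (boxF d 1).card * s) := by
  induction j with
  | zero =>
    show mB ρ β h 0 N ≤ _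
    rw [mB_zero]
    simp
  | succ j ih =>
    have h1 := ih fun i hi => hs i (by omega)
    have h2 := step hd hρ β h (rad j) N (hs j (by omega))
    show mB ρ β h (3 * rad j + 1) N ≤ _
    push_cast
    linarith

/-- The mean over a box of radius `m`. -/
lemma mean (hd : 0 < d) (hρ : EM ρ) (β : ℝ) (h : Vec d) (N : ℕ) {m : ℕ} (hm : 1 ≤ m) {s : ℝ}
    (hs0 : 0 ≤ s) (hs : ∀ r < m, Real.sqrt (vB ρ β h r N) ≤ s) :
    mB ρ β h m N ≤ A ρ β h N +
      (2 + Real.log m) * (Real.log (boxF d 1).card + (boxF d 1).card * s) := by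
  classical
  have hex : ∃ j, m ≤ rad j := by
    refine ⟨m, ?_⟩
    have h1 := rad_eq m
    have h2 : m < 2 ^ m := Nat.lt_two_pow_self
    have h3 : ∀ k : ℕ, 1 ≤ k → 2 * k + 1 ≤ 3 ^ k := by
      intro k hk
      induction k, hk using Nat.le_induction with
      | base => norm_num
      | succ k hk ih => rw [pow_succ]; omega
    have := h3 m hm
    omega
  set j := Nat.find hex with hj
  have hj1 : m ≤ rad j := Nat.find_spec hex
  have hj2 : ∀ i < j, rad i < m := fun i hi => by
    have := Nat.find_min hex hi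
    omega
  have h1 := rec hd hρ β h N j fun i hi => hs _ (hj2 i hi)
  have hmono : ∀ a b : ℕ, a ≤ b → mB ρ β h a N ≤ mB ρ β h b N := fun a b hab =>
    integral_mono (FB_int hd hρ β h a N) (FB_int hd hρ β h b N) fun η => FB_mono hd β h hab N η
  have h2 := hmono _ _ hj1
  have hj3 : (j : ℝ) ≤ 2 + Real.log m := by
    have hm0 : (1 : ℝ) ≤ m := by exact_mod_cast hm
    have hl := Real.log_nonneg hm0
    rcases Nat.eq_zero_or_pos j with h0 | h0
    · rw [h0]
      push_cast
      linarith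
    · have h3 := hj2 (j - 1) (by omega)
      have h4 := rad_eq (j - 1)
      have h5 : 3 ^ (j - 1) ≤ 3 * m := by omega
      have h6 : ((3 : ℝ)) ^ (j - 1) ≤ 3 * m := by exact_mod_cast h5
      have h7 := Real.log_le_log (by positivity) h6
      rw [Real.log_pow, Real.log_mul (by norm_num) (by positivity)] at h7
      have h8 : (1 : ℝ) ≤ Real.log 3 := by
        rw [Real.le_log_iff_exp_le (by norm_num)]
        have := Real.exp_one_lt_d9
        linarith
      have h9 : (((j - 1 : ℕ)) : ℝ) = j - 1 := by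
        rw [Nat.cast_sub (by omega)]
        norm_num
      rw [h9] at h7
      by_contra hcon
      push Not at hcon
      nlinarith
  have hc : 0 ≤ Real.log (boxF d 1).card + (boxF d 1).card * s := by
    have := Real.log_natCast_nonneg (boxF d 1).card
    positivity
  have h3 := mul_le_mul_of_nonneg_right hj3 hc
  linarith

/-- The polymer of length `m + N` and the polymers which start from a box at the time `m`. -/
lemma super (hd : 0 < d) (hρ : EM ρ) (β : ℝ) (h : Vec d) (m N : ℕ) :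
    A ρ β h (m + N) ≤ A ρ β h m + mB ρ β h m N := by
  have h1 : ∀ η : Env d, X β h η (m + N) ≤ X β h η m + FB β h m N (sh m 0 η) := by
    intro η
    have hS := sum_pos hd β h m N (sh m 0 η)
    unfold X FB
    rw [← Real.log_mul (Z_pos hd β h η m).ne' hS.ne']
    refine Real.log_le_log (Z_pos hd β h η _) ?_
    rw [S98.Z_split, Finset.mul_sum]
    refine Finset.sum_le_sum fun y _ => ?_
    rw [sh_sh']
    exact mul_le_mul_of_nonneg_right (PP_le_Z β h η m y) (Z_pos hd β h _ N).le
  have i1 : ∀ n : ℕ, Integrable (fun η : Env d => X β h η n) (law d ρ) := fun n =>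
    (concU hd hρ β h n).1
  have i2 : Integrable (fun η : Env d => FB β h m N (sh m 0 η)) (law d ρ) :=
    (mp_sh m 0).integrable_comp_of_integrable (FB_int hd hρ β h m N)
  have h2 := integral_mono (i1 (m + N)) ((i1 m).add i2) h1
  have h3 : ∫ η, (X β h η m + FB β h m N (sh m 0 η)) ∂(law d ρ) =
      A ρ β h m + mB ρ β h m N := by
    rw [integral_add (i1 m) i2, integral_sh m 0 (FB_meas β h m N)]
    rfl
  have h4 : ∫ η, ((fun η : Env d => X β h η m) + fun η => FB β h m N (sh m 0 η)) η ∂(law d ρ) =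
      A ρ β h m + mB ρ β h m N := h3
  rw [h4] at h2
  exact h2

/-- Some increment is at least the limit. -/
lemma incr (hd : 0 < d) (hρ : EM ρ) (β : ℝ) (h : Vec d) {m : ℕ} (hm : 1 ≤ m) :
    ∃ N : ℕ, m * lam ρ β h - 1 ≤ A ρ β h (m + N) - A ρ β h N := by
  by_contra hcon
  push Not at hcon
  have hm0 : (0 : ℝ) < m := by exact_mod_cast hm
  have h1 : ∀ k : ℕ, A ρ β h (k * m) ≤ A ρ β h 0 + k * (m * lam ρ β h - 1) := by
    intro k
    induction k with
    | zero => simp
    | succ k ih =>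
      have h2 := hcon (k * m)
      have h3 : (k + 1) * m = m + k * m := by ring
      rw [h3]
      push_cast
      linarith
  have ht := tendsto_A hd hρ β h
  have h2 : Tendsto (fun k : ℕ => A ρ β h (k * m) / ((k * m : ℕ) : ℝ)) atTop
      (𝓝 (lam ρ β h)) := ht.comp (tendsto_id.atTop_mul_const' (by omega))
  have h3 : Tendsto (fun k : ℕ => A ρ β h 0 / ((k : ℝ) * m) + (m * lam ρ β h - 1) / m) atTop
      (𝓝 (0 + (m * lam ρ β h - 1) / m)) := by
    refine Tendsto.add ?_ tendsto_const_nhds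
    refine Tendsto.div_atTop tendsto_const_nhds ?_
    exact tendsto_natCast_atTop_atTop.atTop_mul_const hm0
  have h4 : lam ρ β h ≤ 0 + (m * lam ρ β h - 1) / m := by
    refine le_of_tendsto_of_tendsto h2 h3 ?_
    filter_upwards [eventually_ge_atTop 1] with k hk
    have hk0 : (0 : ℝ) < k := by exact_mod_cast hk
    have h5 := h1 k
    have h6 : (((k * m : ℕ)) : ℝ) = k * m := by push_cast; ring
    rw [h6, div_add_div _ _ (by positivity) hm0.ne', div_le_div_iff₀ (by positivity) (by positivity)]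
    have h7 := mul_le_mul_of_nonneg_right h5 (show 0 ≤ (k : ℝ) * m * m by positivity)
    nlinarith
  rw [zero_add, le_div_iff₀ hm0] at h4
  linarith

/-- **The nonrandom deficiency and the fluctuations of the box free energies.** -/
theorem def_le (hd : 0 < d) (hρ : EM ρ) (β : ℝ) (h : Vec d) {m : ℕ} (hm : 1 ≤ m) {s : ℝ}
    (hs0 : 0 ≤ s) (hs : ∀ r < m, ∀ N, Real.sqrt (vB ρ β h r N) ≤ s) :
    m * lam ρ β h - A ρ β h m ≤
      1 + (2 + Real.log m) * (Real.log (boxF d 1).card + (boxF d 1).card * s) := by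
  obtain ⟨N, hN⟩ := incr hd hρ β h hm
  have h1 := super hd hρ β h m N
  have h2 := mean hd hρ β h N hm hs0 fun r hr => hs r hr N
  linarith

omit [IsProbabilityMeasure ρ] in
lemma vB_zero (β : ℝ) (h : Vec d) (N : ℕ) : vB ρ β h 0 N = Va ρ β h N := by
  unfold vB Va
  simp only [FB_zero, mB_zero]

/-- **The fluctuations of the box free energies are unbounded**, if the random and the nonrandom
fluctuations together are larger than every multiple of the logarithm. -/
theorem box95 (hd : 0 < d) (hρ : EM ρ) {β : ℝ} {h : Vec d}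
    (hR : ∀ B : ℝ, ∀ᶠ n : ℕ in atTop, ∃ m : ℕ, 1 ≤ m ∧ m ≤ n ∧
      B * Real.log n ≤ (m * lam ρ β h - A ρ β h m) + Real.sqrt (Va ρ β h m)) (K : ℝ) :
    ∀ᶠ n : ℕ in atTop, ∃ r ≤ n, ∃ N : ℕ, K ≤ vB ρ β h r N := by
  set s : ℝ := Real.sqrt (max K 0) with hs
  have hs0 : 0 ≤ s := Real.sqrt_nonneg _
  set c : ℝ := Real.log (boxF d 1).card + (boxF d 1).card * s with hc
  have hc0 : 0 ≤ c := by
    have := Real.log_natCast_nonneg (boxF d 1).card
    positivity
  have hlog : Tendsto (fun n : ℕ => Real.log (n : ℝ)) atTop atTop :=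
    Real.tendsto_log_atTop.comp tendsto_natCast_atTop_atTop
  filter_upwards [hR (2 + c), hlog.eventually_ge_atTop (1 + 2 * c + s), eventually_ge_atTop 1]
    with n hn hn2 hn1
  obtain ⟨m, hm1, hmn, hm⟩ := hn
  by_contra hcon
  push Not at hcon
  have h1 : ∀ r ≤ n, ∀ N, Real.sqrt (vB ρ β h r N) ≤ s := fun r hr N =>
    Real.sqrt_le_sqrt ((hcon r hr N).le.trans (le_max_left _ _))
  have h2 := def_le hd hρ β h hm1 hs0 fun r hr N => h1 r (by omega) N
  have h3 := h1 0 (Nat.zero_le n) m
  rw [vB_zero] at h3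
  have h4 : Real.log m ≤ Real.log n :=
    Real.log_le_log (by exact_mod_cast hm1) (by exact_mod_cast hmn)
  have h5 := mul_le_mul_of_nonneg_right h4 hc0
  have h6 : 0 ≤ Real.log n := Real.log_nonneg (by exact_mod_cast hn1)
  rw [← hc] at h2
  nlinarith

end Pool.Agent.W_7d29a1_Q29.BV95
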