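import Pool.Agent.W_7d29a1_Q29.Ce39
import Pool.Agent.W_7d29a1_h46u.FreeV

/-!
Chernoff bounds at an intermediate time: deterministic part.
-/

namespace Pool.Agent.W_7d29a1_Q29

open MeasureTheory ProbabilityTheory Filter Topology Pool.Agent.W_MP_7d29a1_pr
  Pool.Agent.W_7d29a1_h46 Pool.Agent.W_7d29a1_h46u Pool.Agent.W_7d29a1_D2.B35

variable {d : ℕ}

lemma norm_ej94 (i : Fin d) : ‖(ej i : Vec d)‖ = 1 := by
  unfold ej
  simp

lemma inner_ej94 (i : Fin d) (D : Vec d) : inner ℝ (ej i : Vec d) D = D i := by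
  unfold ej
  rw [EuclideanSpace.inner_single_left]
  simp

lemma abs_coord94 (v : Vec d) (k : Fin d) : |v k| ≤ ‖v‖ := by
  have h1 := abs_real_inner_le_norm (ej k : Vec d) v
  rwa [inner_ej94, norm_ej94, one_mul] at h1

lemma inner_sum94 (u D : Vec d) : inner ℝ u D = ∑ k, u k * D k := by
  rw [PiLp.inner_apply]
  refine Finset.sum_congr rfl fun k _ => ?_
  simp [mul_comm]

/-- The direction `(i, σ)` is a maximal one of `D`, of size at least `s`. -/
def Fr (s : ℝ) (D : Vec d) (i : Fin d) (σ : ℝ) : Prop := (∀ k, |D k| ≤ σ * D i) ∧ s ≤ σ * D i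

lemma dir94 {κ r s σ : ℝ} (hκ : d * κ ≤ 1 / 2) (hκ0 : 0 ≤ κ) (hr : 0 < r) (i : Fin d) {u D : Vec d}
    (hu : ‖u - (σ * r) • ej i‖ ≤ κ * r) (hD : Fr s D i σ) : r * s / 2 ≤ inner ℝ u D := by
  obtain ⟨h1, h2⟩ := hD
  have h0 : 0 ≤ σ * D i := (abs_nonneg _).trans (h1 i)
  have e1 : inner ℝ u D = r * (σ * D i) + inner ℝ (u - (σ * r) • ej i) D := by
    rw [inner_sub_left, real_inner_smul_left, inner_ej94]
    ring
  have h3 : |inner ℝ (u - (σ * r) • ej i) D| ≤ d * κ * r * (σ * D i) := by
    rw [inner_sum94]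
    refine (Finset.abs_sum_le_sum_abs _ _).trans ?_
    calc ∑ k, |(u - (σ * r) • ej i) k * D k| ≤ ∑ _k : Fin d, κ * r * (σ * D i) := by
          refine Finset.sum_le_sum fun k _ => ?_
          rw [abs_mul]
          exact mul_le_mul ((abs_coord94 _ k).trans hu) (h1 k) (abs_nonneg _)
            (mul_nonneg hκ0 hr.le)
      _ = d * κ * r * (σ * D i) := by
          rw [Finset.sum_const, Finset.card_univ, Fintype.card_fin, nsmul_eq_mul]
          ring
  have h4 := (abs_le.1 h3).1
  have h5 : d * κ * r * (σ * D i) ≤ 1 / 2 * (r * (σ * D i)) := by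
    have : (d * κ) * (r * (σ * D i)) ≤ 1 / 2 * (r * (σ * D i)) :=
      mul_le_mul_of_nonneg_right hκ (mul_nonneg hr.le h0)
    linarith
  have h6 : r * s ≤ r * (σ * D i) := mul_le_mul_of_nonneg_left h2 hr.le
  rw [e1]
  linarith

lemma exists_Fr94 (hd : 0 < d) {s : ℝ} {D : Vec d} (hD : ¬ ∀ k, |D k| ≤ s) :
    ∃ (i : Fin d) (σ : ℝ), (σ = 1 ∨ σ = -1) ∧ Fr s D i σ := by
  classical
  haveI : Nonempty (Fin d) := ⟨⟨0, hd⟩⟩
  obtain ⟨i, -, hi⟩ := Finset.exists_max_image Finset.univ (fun k : Fin d => |D k|)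
    Finset.univ_nonempty
  push Not at hD
  obtain ⟨k, hk⟩ := hD
  have h1 : s ≤ |D i| := hk.le.trans (hi k (Finset.mem_univ k))
  rcases le_total 0 (D i) with h | h
  · refine ⟨i, 1, Or.inl rfl, fun l => ?_, ?_⟩
    · rw [one_mul, ← abs_of_nonneg h]
      exact hi l (Finset.mem_univ l)
    · rw [one_mul, ← abs_of_nonneg h]
      exact h1
  · refine ⟨i, -1, Or.inr rfl, fun l => ?_, ?_⟩
    · rw [neg_one_mul, ← abs_of_nonpos h]
      exact hi l (Finset.mem_univ l)
    · rw [neg_one_mul, ← abs_of_nonpos h]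
      exact h1

/-- A convex function below its linear part plus the largest second difference. -/
lemma cvx94 {f : Vec d → ℝ} (hf : ConvexOn ℝ Set.univ f) {h a u : Vec d} {τ B : ℝ} (hτ : 0 < τ)
    (ha : ∀ q, f h + inner ℝ a q ≤ f (h + q)) (hu : ∑ k, |u k| ≤ τ)
    (hsd : ∀ i, f (h + τ • ej i) + f (h - τ • ej i) - 2 * f h ≤ B) (hB : 0 ≤ B) :
    f (h + u) - f h - inner ℝ a u ≤ B := by
  classical
  set S : Set (Vec d) := {q | f (h + q) - f h - inner ℝ a q ≤ B} with hS
  have hconv : Convex ℝ S := by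
    intro x hx y hy p q hp hq hpq
    have hx' : f (h + x) - f h - inner ℝ a x ≤ B := hx
    have hy' : f (h + y) - f h - inner ℝ a y ≤ B := hy
    have h1 := hf.2 (Set.mem_univ (h + x)) (Set.mem_univ (h + y)) hp hq hpq
    have h2 : p • (h + x) + q • (h + y) = h + (p • x + q • y) := by
      have : h = (p + q) • h := by rw [hpq, one_smul]
      calc p • (h + x) + q • (h + y) = (p + q) • h + (p • x + q • y) := by
            rw [smul_add, smul_add, add_smul]
            abel
        _ = h + (p • x + q • y) := by rw [hpq, one_smul]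
    rw [h2, smul_eq_mul, smul_eq_mul] at h1
    show f (h + (p • x + q • y)) - f h - inner ℝ a (p • x + q • y) ≤ B
    rw [inner_add_right, real_inner_smul_right, real_inner_smul_right]
    have h3 := mul_le_mul_of_nonneg_left hx' hp
    have h4 := mul_le_mul_of_nonneg_left hy' hq
    have h5 : q = 1 - p := by linarith
    subst h5
    nlinarith
  have hz : (0 : Vec d) ∈ S := by
    show f (h + 0) - f h - inner ℝ a (0 : Vec d) ≤ B
    rw [add_zero, inner_zero_right]
    linarith
  have hp : ∀ i, τ • (ej i : Vec d) ∈ S := by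
    intro i
    show f (h + τ • ej i) - f h - inner ℝ a (τ • (ej i : Vec d)) ≤ B
    have h1 := hsd i
    have h2 := ha (-(τ • ej i))
    rw [inner_neg_right] at h2
    have h3 : h + -(τ • ej i) = h - τ • ej i := by abel
    rw [h3] at h2
    linarith
  have hm : ∀ i, -(τ • (ej i : Vec d)) ∈ S := by
    intro i
    show f (h + -(τ • ej i)) - f h - inner ℝ a (-(τ • (ej i : Vec d))) ≤ B
    have h1 := hsd i
    have h2 := ha (τ • ej i)
    rw [inner_neg_right]
    have h3 : h + -(τ • ej i) = h - τ • ej i := by abel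
    rw [h3]
    linarith
  have key : ∑ o : Option (Fin d), (Option.elim o (1 - ∑ k, |u k| / τ) (fun k => |u k| / τ)) •
      (Option.elim o (0 : Vec d) (fun k => if 0 ≤ u k then τ • ej k else -(τ • ej k))) ∈ S := by
    refine hconv.sum_mem ?_ ?_ ?_
    · rintro (_ | k) -
      · simp only [Option.elim_none]
        rw [← Finset.sum_div, sub_nonneg, div_le_one hτ]
        exact hu
      · simp only [Option.elim_some]
        positivity
    · rw [Fintype.sum_option]
      simp
    · rintro (_ | k) -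
      · simpa using hz
      · simp only [Option.elim_some]
        split_ifs
        · exact hp k
        · exact hm k
  have e : ∑ o : Option (Fin d), (Option.elim o (1 - ∑ k, |u k| / τ) (fun k => |u k| / τ)) •
      (Option.elim o (0 : Vec d) (fun k => if 0 ≤ u k then τ • ej k else -(τ • ej k))) = u := by
    rw [Fintype.sum_option]
    simp only [Option.elim_none, Option.elim_some, smul_zero, zero_add]
    have h1 : ∀ k : Fin d, (|u k| / τ) • (if 0 ≤ u k then τ • (ej k : Vec d) else -(τ • ej k)) =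
        u k • ej k := by
      intro k
      split_ifs with hk
      · rw [smul_smul, abs_of_nonneg hk, div_mul_cancel₀ _ hτ.ne']
      · rw [smul_neg, smul_smul, abs_of_neg (not_le.1 hk), div_mul_cancel₀ _ hτ.ne', neg_smul,
          neg_neg]
    rw [Finset.sum_congr rfl fun k _ => h1 k]
    ext j
    simp only [WithLp.ofLp_sum, WithLp.ofLp_smul, Finset.sum_apply, Pi.smul_apply, ej,
      EuclideanSpace.single_apply, smul_eq_mul]
    simp
  rw [e] at key
  exact key

end Pool.Agent.W_7d29a1_Q29
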