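import Pool.Agent.W_7d29a1_h46u.FreeV
import Pool.Agent.W_7d29a1_h46u.Walk

/-!
Averages of the second differences of a convex function over a box.
-/

namespace Pool.Agent.W_7d29a1_Q29

open MeasureTheory ProbabilityTheory Filter Topology Pool.Agent.W_MP_7d29a1_pr
  Pool.Agent.W_7d29a1_h46 Pool.Agent.W_7d29a1_h46u

variable {d : ℕ}

namespace Cvx56

/-- The unit vector of `Fin d → ℝ`. -/
noncomputable def ev (i : Fin d) : Fin d → ℝ := Pi.single i 1

lemma ev_self (i : Fin d) : ev i i = 1 := by simp [ev]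

lemma ev_ne {i j : Fin d} (h : j ≠ i) : ev i j = 0 := by simp [ev, h]

/-- The box around `x₀` of half side `r`. -/
def Bx (x₀ : Fin d → ℝ) (r : ℝ) : Set (Fin d → ℝ) :=
  Set.Icc (fun j => x₀ j - r) (fun j => x₀ j + r)

/-- A slab of the thickness `ρ`. -/
noncomputable def Sl (x₀ : Fin d → ℝ) (r ρ a : ℝ) (i : Fin d) : Set (Fin d → ℝ) :=
  Set.Icc (Function.update (fun j => x₀ j - r) i (x₀ i + a))
    (Function.update (fun j => x₀ j + r) i (x₀ i + a + ρ))

lemma mem_Bx {x₀ x : Fin d → ℝ} {r : ℝ} : x ∈ Bx x₀ r ↔ ∀ j, x₀ j - r ≤ x j ∧ x j ≤ x₀ j + r := by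
  unfold Bx
  rw [Set.mem_Icc]
  constructor
  · intro h j
    exact ⟨h.1 j, h.2 j⟩
  · intro h
    exact ⟨fun j => (h j).1, fun j => (h j).2⟩

lemma mem_Sl {x₀ x : Fin d → ℝ} {r ρ a : ℝ} {i : Fin d} : x ∈ Sl x₀ r ρ a i ↔
    (x₀ i + a ≤ x i ∧ x i ≤ x₀ i + a + ρ) ∧ ∀ j, j ≠ i → x₀ j - r ≤ x j ∧ x j ≤ x₀ j + r := by
  unfold Sl
  rw [Set.mem_Icc]
  constructor
  · intro h
    refine ⟨⟨?_, ?_⟩, fun j hj => ⟨?_, ?_⟩⟩
    · have := h.1 i
      rwa [Function.update_self] at this
    · have := h.2 i
      rwa [Function.update_self] at this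
    · have := h.1 j
      rwa [Function.update_of_ne hj] at this
    · have := h.2 j
      rwa [Function.update_of_ne hj] at this
  · intro h
    constructor
    · intro j
      by_cases hj : j = i
      · subst hj
        rw [Function.update_self]
        exact h.1.1
      · rw [Function.update_of_ne hj]
        exact (h.2 j hj).1
    · intro j
      by_cases hj : j = i
      · subst hj
        rw [Function.update_self]
        exact h.1.2
      · rw [Function.update_of_ne hj]
        exact (h.2 j hj).2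

lemma vol_Bx (x₀ : Fin d → ℝ) {r : ℝ} (hr : 0 < r) :
    (volume (Bx x₀ r)).toReal = (2 * r) ^ d := by
  unfold Bx
  rw [Real.volume_Icc_pi]
  have h1 : ∀ j : Fin d, ENNReal.ofReal ((fun j => x₀ j + r) j - (fun j => x₀ j - r) j) =
      ENNReal.ofReal (2 * r) := by
    intro j
    congr 1
    ring
  rw [Finset.prod_congr rfl fun j _ => h1 j, Finset.prod_const, Finset.card_univ, Fintype.card_fin,
    ← ENNReal.ofReal_pow (by positivity), ENNReal.toReal_ofReal (by positivity)]

lemma vol_Sl (x₀ : Fin d → ℝ) {r ρ : ℝ} (hr : 0 < r) (hρ : 0 ≤ ρ) (a : ℝ) (i : Fin d) :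
    (volume (Sl x₀ r ρ a i)).toReal = ρ * (2 * r) ^ d / (2 * r) := by
  unfold Sl
  rw [Real.volume_Icc_pi]
  have h1 : ∀ j : Fin d, ENNReal.ofReal
      (Function.update (fun j => x₀ j + r) i (x₀ i + a + ρ) j -
        Function.update (fun j => x₀ j - r) i (x₀ i + a) j) =
      Function.update (fun _ => ENNReal.ofReal (2 * r)) i (ENNReal.ofReal ρ) j := by
    intro j
    by_cases hj : j = i
    · subst hj
      rw [Function.update_self, Function.update_self, Function.update_self]
      congr 1
      ring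
    · rw [Function.update_of_ne hj, Function.update_of_ne hj, Function.update_of_ne hj]
      congr 1
      ring
  rw [Finset.prod_congr rfl fun j _ => h1 j, Finset.prod_update_of_mem (Finset.mem_univ i),
    Finset.prod_const]
  have h2 : (Finset.univ \ {i} : Finset (Fin d)).card = d - 1 := by
    rw [Finset.card_sdiff_of_subset (Finset.subset_univ _), Finset.card_univ, Fintype.card_fin,
      Finset.card_singleton]
  have h3 : d = (d - 1) + 1 := by
    have := i.pos
    omega
  rw [h2, ← ENNReal.ofReal_pow (by positivity), ← ENNReal.ofReal_mul hρ,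
    ENNReal.toReal_ofReal (by positivity)]
  conv_rhs => rw [h3, pow_succ]
  field_simp

/-- The key estimate in the coordinates. -/
theorem key {f : (Fin d → ℝ) → ℝ} (hf : Continuous f) {M r ρ : ℝ} (hr : 0 < r)
    (hρ : 0 < ρ) (i : Fin d) (hM : ∀ x, |f x - f (x - ρ • ev i)| ≤ M * ρ) (x₀ : Fin d → ℝ) :
    ∫ x in Bx x₀ r, (f (x + ρ • ev i) + f (x - ρ • ev i) - 2 * f x) ≤
      M * ρ ^ 2 / r * (2 * r) ^ d := by
  set v : Fin d → ℝ := ρ • ev i with hv
  have hvi : v i = ρ := by rw [hv, Pi.smul_apply, ev_self, smul_eq_mul, mul_one]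
  have hvj : ∀ j, j ≠ i → v j = 0 := fun j hj => by
    rw [hv, Pi.smul_apply, ev_ne hj, smul_eq_mul, mul_zero]
  set D : (Fin d → ℝ) → ℝ := fun x => f x - f (x - v) with hD
  have hDc : Continuous D := hf.sub (hf.comp (continuous_id.sub continuous_const))
  have hBm : MeasurableSet (Bx x₀ r) := measurableSet_Icc
  have hBc : IsCompact (Bx x₀ r) := isCompact_Icc
  have hB'm : MeasurableSet (Bx (x₀ + v) r) := measurableSet_Icc
  have i1 : IntegrableOn (fun x => D (x + v)) (Bx x₀ r) :=
    (hDc.comp (continuous_id.add continuous_const)).continuousOn.integrableOn_compact hBc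
  have i2 : IntegrableOn D (Bx x₀ r) := hDc.continuousOn.integrableOn_compact hBc
  have i3 : IntegrableOn D (Bx (x₀ + v) r) :=
    hDc.continuousOn.integrableOn_compact isCompact_Icc
  have e1 : ∫ x in Bx x₀ r, (f (x + v) + f (x - v) - 2 * f x) =
      (∫ x in Bx x₀ r, D (x + v)) - ∫ x in Bx x₀ r, D x := by
    rw [← integral_sub i1 i2]
    refine integral_congr_ae (Filter.Eventually.of_forall fun x => ?_)
    simp only [hD, add_sub_cancel_right]
    ring
  have e2 : ∫ x in Bx x₀ r, D (x + v) = ∫ x in Bx (x₀ + v) r, D x := by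
    rw [← integral_indicator hBm, ← integral_indicator hB'm,
      ← integral_add_right_eq_self (fun x => (Bx (x₀ + v) r).indicator D x) v]
    refine integral_congr_ae (Filter.Eventually.of_forall fun x => ?_)
    simp only
    by_cases hx : x ∈ Bx x₀ r
    · have hx' : x + v ∈ Bx (x₀ + v) r := by
        rw [mem_Bx] at hx ⊢
        intro j
        have := hx j
        simp only [Pi.add_apply]
        constructor <;> linarith [this.1, this.2]
      rw [Set.indicator_of_mem hx, Set.indicator_of_mem hx']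
    · have hx' : x + v ∉ Bx (x₀ + v) r := by
        intro h
        apply hx
        rw [mem_Bx] at h ⊢
        intro j
        have := h j
        simp only [Pi.add_apply] at this
        constructor <;> linarith [this.1, this.2]
      rw [Set.indicator_of_notMem hx, Set.indicator_of_notMem hx']
  have hS1m : MeasurableSet (Sl x₀ r ρ r i) := measurableSet_Icc
  have hS2m : MeasurableSet (Sl x₀ r ρ (-r) i) := measurableSet_Icc
  have hMρ : 0 ≤ M * ρ := (abs_nonneg _).trans (hM x₀)
  have c1 : Integrable ((Sl x₀ r ρ r i).indicator fun _ => M * ρ) := by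
    rw [integrable_indicator_iff hS1m]
    exact integrableOn_const (isCompact_Icc.measure_lt_top.ne)
  have c2 : Integrable ((Sl x₀ r ρ (-r) i).indicator fun _ => M * ρ) := by
    rw [integrable_indicator_iff hS2m]
    exact integrableOn_const (isCompact_Icc.measure_lt_top.ne)
  have hpt : ∀ x, (Bx (x₀ + v) r).indicator D x - (Bx x₀ r).indicator D x ≤
      (Sl x₀ r ρ r i).indicator (fun _ => M * ρ) x +
        (Sl x₀ r ρ (-r) i).indicator (fun _ => M * ρ) x := by
    intro x
    have hDx : |D x| ≤ M * ρ := hM x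
    have n1 : 0 ≤ (Sl x₀ r ρ r i).indicator (fun _ => M * ρ) x :=
      Set.indicator_nonneg (fun _ _ => hMρ) x
    have n2 : 0 ≤ (Sl x₀ r ρ (-r) i).indicator (fun _ => M * ρ) x :=
      Set.indicator_nonneg (fun _ _ => hMρ) x
    by_cases h1 : x ∈ Bx (x₀ + v) r
    · by_cases h2 : x ∈ Bx x₀ r
      · rw [Set.indicator_of_mem h1, Set.indicator_of_mem h2, sub_self]
        exact add_nonneg n1 n2
      · have h3 : x ∈ Sl x₀ r ρ r i := by
          rw [mem_Bx] at h1 h2
          rw [mem_Sl]
          have hj : ∀ j, j ≠ i → x₀ j - r ≤ x j ∧ x j ≤ x₀ j + r := by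
            intro j hj
            have := h1 j
            rw [Pi.add_apply, hvj j hj, add_zero] at this
            exact this
          have hi := h1 i
          rw [Pi.add_apply, hvi] at hi
          refine ⟨⟨?_, by linarith [hi.2]⟩, hj⟩
          by_contra hc
          apply h2
          intro j
          by_cases hji : j = i
          · subst hji
            constructor
            · linarith [hi.1]
            · linarith
          · exact hj j hji
        rw [Set.indicator_of_mem h1, Set.indicator_of_notMem h2, Set.indicator_of_mem h3, sub_zero]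
        linarith [le_abs_self (D x)]
    · by_cases h2 : x ∈ Bx x₀ r
      · have h3 : x ∈ Sl x₀ r ρ (-r) i := by
          rw [mem_Bx] at h1 h2
          rw [mem_Sl]
          refine ⟨⟨by linarith [(h2 i).1], ?_⟩, fun j _ => h2 j⟩
          by_contra hc
          apply h1
          intro j
          by_cases hji : j = i
          · subst hji
            rw [Pi.add_apply, hvi]
            constructor
            · linarith
            · linarith [(h2 j).2]
          · rw [Pi.add_apply, hvj j hji, add_zero]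
            exact h2 j
        rw [Set.indicator_of_notMem h1, Set.indicator_of_mem h2, Set.indicator_of_mem h3, zero_sub]
        linarith [neg_le_abs (D x)]
      · rw [Set.indicator_of_notMem h1, Set.indicator_of_notMem h2, sub_self]
        exact add_nonneg n1 n2
  rw [e1, e2, ← integral_indicator hBm, ← integral_indicator hB'm,
    ← integral_sub (i3.integrable_indicator hB'm) (i2.integrable_indicator hBm)]
  refine (integral_mono ((i3.integrable_indicator hB'm).sub (i2.integrable_indicator hBm))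
    (c1.add c2) hpt).trans (le_of_eq ?_)
  simp only [Pi.add_apply]
  rw [integral_add c1 c2, integral_indicator_const _ hS1m, integral_indicator_const _ hS2m]
  unfold Measure.real
  rw [vol_Sl x₀ hr hρ.le, vol_Sl x₀ hr hρ.le, smul_eq_mul]
  field_simp
  ring

/-- The second difference of a convex function is nonnegative. -/
lemma sd_nonneg {f : Vec d → ℝ} (hf : ConvexOn ℝ Set.univ f) (h u : Vec d) :
    0 ≤ f (h + u) + f (h - u) - 2 * f h := by
  have h1 := hf.2 (Set.mem_univ (h + u)) (Set.mem_univ (h - u))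
    (show (0 : ℝ) ≤ 1 / 2 by norm_num) (show (0 : ℝ) ≤ 1 / 2 by norm_num) (by norm_num)
  have h2 : (1 / 2 : ℝ) • (h + u) + (1 / 2 : ℝ) • (h - u) = h := by
    module
  rw [h2, smul_eq_mul, smul_eq_mul] at h1
  linarith

lemma toLp_ev (ρ : ℝ) (i : Fin d) (x : Fin d → ℝ) :
    (WithLp.toLp 2 (x + ρ • ev i) : Vec d) = WithLp.toLp 2 x + ρ • ej i := by
  ext j
  simp [ev, ej, Pi.single_apply]

lemma toLp_ev' (ρ : ℝ) (i : Fin d) (x : Fin d → ℝ) :
    (WithLp.toLp 2 (x - ρ • ev i) : Vec d) = WithLp.toLp 2 x - ρ • ej i := by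
  ext j
  simp [ev, ej, Pi.single_apply]

/-- The measure of the bad set. -/
theorem bad {f : Vec d → ℝ} (hf : ConvexOn ℝ Set.univ f) {M r ρ : ℝ} (hr : 0 < r) (hρ : 0 < ρ)
    (hM : ∀ x y, |f x - f y| ≤ M * ‖x - y‖) (i : Fin d) {b : ℝ} (hb : 0 < b) :
    (volume.restrict (Bx (0 : Fin d → ℝ) r)).real {x | b ≤ f (WithLp.toLp 2 x + ρ • ej i) +
      f (WithLp.toLp 2 x - ρ • ej i) - 2 * f (WithLp.toLp 2 x)} ≤
      M * ρ ^ 2 / r * (2 * r) ^ d / b := by
  have hfc : Continuous f := by
    have hL : LipschitzWith (Real.toNNReal M) f := by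
      refine LipschitzWith.of_dist_le_mul fun x y => ?_
      rw [Real.dist_eq, dist_eq_norm]
      refine (hM x y).trans (mul_le_mul_of_nonneg_right ?_ (norm_nonneg _))
      exact Real.le_coe_toNNReal M
    exact hL.continuous
  set g : (Fin d → ℝ) → ℝ := fun x => f (WithLp.toLp 2 x) with hg
  have hgc : Continuous g := hfc.comp (PiLp.continuous_toLp 2 _)
  have hMg : ∀ x, |g x - g (x - ρ • ev i)| ≤ M * ρ := by
    intro x
    simp only [hg]
    refine (hM _ _).trans (le_of_eq ?_)
    rw [toLp_ev', sub_sub_cancel, norm_smul, ej, PiLp.norm_single]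
    simp [abs_of_pos hρ]
  have h1 := key hgc hr hρ i hMg 0
  have h2 : ∀ x : Fin d → ℝ, g (x + ρ • ev i) + g (x - ρ • ev i) - 2 * g x =
      f (WithLp.toLp 2 x + ρ • ej i) + f (WithLp.toLp 2 x - ρ • ej i) -
        2 * f (WithLp.toLp 2 x) := by
    intro x
    simp only [hg, toLp_ev, toLp_ev']
  simp only [h2] at h1
  have hc : Continuous fun x : Fin d → ℝ => f (WithLp.toLp 2 x + ρ • ej i) +
      f (WithLp.toLp 2 x - ρ • ej i) - 2 * f (WithLp.toLp 2 x) := by
    have ht : Continuous fun x : Fin d → ℝ => (WithLp.toLp 2 x : Vec d) :=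
      PiLp.continuous_toLp 2 _
    exact ((hfc.comp (ht.add continuous_const)).add (hfc.comp (ht.sub continuous_const))).sub
      (continuous_const.mul (hfc.comp ht))
  have hi : IntegrableOn (fun x : Fin d → ℝ => f (WithLp.toLp 2 x + ρ • ej i) +
      f (WithLp.toLp 2 x - ρ • ej i) - 2 * f (WithLp.toLp 2 x)) (Bx 0 r) :=
    hc.continuousOn.integrableOn_compact isCompact_Icc
  have h3 := mul_meas_ge_le_integral_of_nonneg
    (Filter.Eventually.of_forall fun x => sd_nonneg hf (WithLp.toLp 2 x) (ρ • ej i)) hi b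
  rw [le_div_iff₀ hb, mul_comm]
  exact h3.trans h1

end Cvx56

open Cvx56 in
/-- A set of tilts of positive (outer) measure contains a tilt at which all second differences at
the scales `2 ^ j / √n` are at most `C 8 ^ j`. -/
theorem avg56 {d : ℕ} {R C0 : ℝ} {E : Set (Vec d)} (hE : E ⊆ Metric.closedBall 0 R)
    (hpos : volume E ≠ 0) :
    ∃ C : ℝ, 0 < C ∧ ∀ n : ℕ, 1 ≤ n → ∀ f : Vec d → ℝ, ConvexOn ℝ Set.univ f →
      (∀ x y, |f x - f y| ≤ C0 * n * ‖x - y‖) →
      ∃ h ∈ E, ∀ (j : ℕ) (i : Fin d), f (h + (2 ^ j / Real.sqrt n) • ej i) +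
        f (h - (2 ^ j / Real.sqrt n) • ej i) - 2 * f h ≤ C * 8 ^ j := by
  set r : ℝ := max R 1 with hr
  have hr0 : 0 < r := lt_of_lt_of_le one_pos (le_max_right R 1)
  set e := MeasurableEquiv.toLp 2 (Fin d → ℝ) with he
  have hmp : MeasurePreserving e :=
    (EuclideanSpace.volume_preserving_symm_measurableEquiv_toLp (Fin d)).symm
  set E' : Set (Fin d → ℝ) := e ⁻¹' E with hE'
  have hvol : volume E' = volume E := hmp.measure_preimage_equiv E
  have hBm : MeasurableSet (Bx (0 : Fin d → ℝ) r) := measurableSet_Icc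
  have hsub : E' ⊆ Bx 0 r := by
    intro x hx
    have h1 : (WithLp.toLp 2 x : Vec d) ∈ E := hx
    have h2 := hE h1
    rw [Metric.mem_closedBall, dist_zero_right] at h2
    rw [mem_Bx]
    intro j
    have h3 : |x j| ≤ r := by
      have h4 := PiLp.norm_apply_le (WithLp.toLp 2 x : Vec d) j
      rw [Real.norm_eq_abs] at h4
      exact (h4.trans h2).trans (le_max_left R 1)
    have h5 := abs_le.1 h3
    simp only [Pi.zero_apply]
    constructor <;> linarith [h5.1, h5.2]
  have hfin : volume E' ≠ ⊤ := by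
    have h1 : volume (Bx (0 : Fin d → ℝ) r) < ⊤ := isCompact_Icc.measure_lt_top
    exact ((measure_mono hsub).trans_lt h1).ne
  set v : ℝ := (volume E').toReal with hv
  have hv0 : 0 < v := ENNReal.toReal_pos (by rwa [hvol]) hfin
  set a : ℝ := |C0| / r * (2 * r) ^ d with ha
  have ha0 : 0 ≤ a := by positivity
  set C : ℝ := 2 * d * a / v + 1 with hC
  have hC0 : 0 < C := by positivity
  refine ⟨C, hC0, fun n hn f hf hL => ?_⟩
  by_contra hcon
  push Not at hcon
  have hn0 : (0 : ℝ) < n := by exact_mod_cast hn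
  have hsn : 0 < Real.sqrt n := Real.sqrt_pos.2 hn0
  set ρ : ℕ → ℝ := fun j => 2 ^ j / Real.sqrt n with hρ
  have hρ0 : ∀ j, 0 < ρ j := fun j => by
    simp only [hρ]
    positivity
  have hρ2 : ∀ j, n * (ρ j) ^ 2 = 4 ^ j := by
    intro j
    simp only [hρ]
    rw [div_pow, Real.sq_sqrt hn0.le, ← pow_mul, mul_comm j 2, pow_mul]
    field_simp
    norm_num
  set μ := volume.restrict (Bx (0 : Fin d → ℝ) r) with hμ
  set B : ℕ → Fin d → Set (Fin d → ℝ) := fun j i => {x | C * 8 ^ j ≤
    f (WithLp.toLp 2 x + ρ j • ej i) + f (WithLp.toLp 2 x - ρ j • ej i) -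
      2 * f (WithLp.toLp 2 x)} with hB
  have hfinμ : IsFiniteMeasure μ := ⟨by
    rw [hμ, Measure.restrict_apply_univ]
    exact isCompact_Icc.measure_lt_top⟩
  have hb : ∀ j i, μ (B j i) ≤ ENNReal.ofReal (a / C * (1 / 2) ^ j) := by
    intro j i
    have h1 := bad hf hr0 (hρ0 j) (M := |C0| * n) (fun x y => (hL x y).trans
      (mul_le_mul_of_nonneg_right (mul_le_mul_of_nonneg_right (le_abs_self C0) hn0.le)
        (norm_nonneg _))) i (b := C * 8 ^ j) (by positivity)
    have h2 : |C0| * n * ρ j ^ 2 / r * (2 * r) ^ d / (C * 8 ^ j) = a / C * (1 / 2) ^ j := by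
      rw [mul_assoc, hρ2 j, ha]
      have h8 : (8 : ℝ) ^ j = 4 ^ j * 2 ^ j := by
        rw [← mul_pow]
        norm_num
      rw [h8, div_pow, one_pow]
      field_simp
    rw [h2] at h1
    rw [← ENNReal.ofReal_toReal (measure_ne_top μ (B j i))]
    exact ENNReal.ofReal_le_ofReal h1
  have hcov : E' ⊆ ⋃ j, ⋃ i, B j i := by
    intro x hx
    have hx' : (WithLp.toLp 2 x : Vec d) ∈ E := hx
    obtain ⟨j, i, hji⟩ := hcon _ hx'
    rw [Set.mem_iUnion]
    refine ⟨j, ?_⟩
    rw [Set.mem_iUnion]
    exact ⟨i, hji.le⟩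
  have h1 : volume E' ≤ μ (⋃ j, ⋃ i, B j i) := by
    rw [hμ, Measure.restrict_apply' hBm]
    exact measure_mono (Set.subset_inter hcov hsub)
  have h2 : μ (⋃ j, ⋃ i, B j i) ≤ ∑' j : ℕ, ENNReal.ofReal (d * (a / C) * (1 / 2) ^ j) := by
    refine (measure_iUnion_le _).trans (ENNReal.tsum_le_tsum fun j => ?_)
    refine (measure_iUnion_le _).trans ?_
    rw [tsum_fintype]
    refine (Finset.sum_le_sum fun i _ => hb j i).trans (le_of_eq ?_)
    rw [Finset.sum_const, Finset.card_univ, Fintype.card_fin, nsmul_eq_mul, mul_assoc,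
      ENNReal.ofReal_mul (p := (d : ℝ)) (by positivity), ENNReal.ofReal_natCast]
  have h3 : ∑' j : ℕ, ENNReal.ofReal (d * (a / C) * (1 / 2) ^ j) =
      ENNReal.ofReal (d * (a / C) * 2) := by
    rw [← ENNReal.ofReal_tsum_of_nonneg (fun j => by positivity)
      (summable_geometric_two.mul_left _), tsum_mul_left, tsum_geometric_two]
  have h4 : volume E' ≤ ENNReal.ofReal (d * (a / C) * 2) := h1.trans (h2.trans h3.le)
  have h5 : v ≤ d * (a / C) * 2 := by
    have h6 := ENNReal.toReal_mono ENNReal.ofReal_ne_top h4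
    rwa [ENNReal.toReal_ofReal (by positivity)] at h6
  have h6 : d * (a / C) * 2 * C = 2 * d * a := by
    field_simp
  have h7 : v * C = 2 * d * a + v := by
    rw [hC]
    field_simp
  have h8 := mul_le_mul_of_nonneg_right h5 hC0.le
  rw [h6, h7] at h8
  linarith

end Pool.Agent.W_7d29a1_Q29
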