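import Pool.Agent.W_7d29a1_Q29.Cher94

/-!
Lebesgue density: near almost every point of a set `E`, in every coordinate direction and at every
small distance there is a point of `E`. Only outer measures are used.
-/

namespace Pool.Agent.W_7d29a1_Q29

open MeasureTheory Filter Topology Pool.Agent.W_MP_7d29a1_pr
  Pool.Agent.W_7d29a1_h46 Pool.Agent.W_7d29a1_h46u

theorem den94 {d : ℕ} {E : Set (Vec d)} (hE : volume E ≠ 0) {κ : ℝ} (hκ : 0 < κ) :
    ∃ E' ⊆ E, volume E' ≠ 0 ∧ ∃ r₀ : ℝ, 0 < r₀ ∧ ∀ h ∈ E', ∀ r : ℝ, 0 < r → r < r₀ →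
      ∀ (i : Fin d) (σ : ℝ), σ = 1 ∨ σ = -1 →
        ∃ u : Vec d, h + u ∈ E ∧ ‖u - (σ * r) • ej i‖ ≤ κ * r := by
  classical
  set P : ℝ → Vec d → Prop := fun r h => ∀ (i : Fin d) (σ : ℝ), σ = 1 ∨ σ = -1 →
        ∃ u : Vec d, h + u ∈ E ∧ ‖u - (σ * r) • ej i‖ ≤ κ * r with hP
  have hae : ∀ᵐ x ∂((volume : Measure (Vec d)).restrict E), ∀ᶠ r in 𝓝[>] (0 : ℝ), P r x := by
    filter_upwards [IsUnifLocDoublingMeasure.ae_tendsto_measure_inter_div
      (volume : Measure (Vec d)) E (1 / κ)] with x hx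
    have h1 : ∀ (i : Fin d) (σ : ℝ), σ = 1 ∨ σ = -1 → ∀ᶠ r in 𝓝[>] (0 : ℝ),
        ∃ u : Vec d, x + u ∈ E ∧ ‖u - (σ * r) • ej i‖ ≤ κ * r := by
      intro i σ hσ
      have hδ : Tendsto (fun r : ℝ => κ * r) (𝓝[>] (0 : ℝ)) (𝓝[>] 0) := by
        refine tendsto_nhdsWithin_iff.2 ⟨?_, ?_⟩
        · have h2 : Tendsto (fun r : ℝ => κ * r) (𝓝 (0 : ℝ)) (𝓝 (κ * 0)) :=
            (continuous_const.mul continuous_id).tendsto 0
          rw [mul_zero] at h2
          exact h2.mono_left nhdsWithin_le_nhds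
        · filter_upwards [self_mem_nhdsWithin] with r hr
          exact mul_pos hκ hr
      have hmem : ∀ᶠ r in 𝓝[>] (0 : ℝ), x ∈ Metric.closedBall (x + (σ * r) • ej i)
          (1 / κ * (κ * r)) := by
        filter_upwards [self_mem_nhdsWithin] with r hr
        have hr' : 0 < r := hr
        rw [Metric.mem_closedBall, dist_eq_norm]
        have h3 : x - (x + (σ * r) • ej i) = -((σ * r) • ej i) := by abel
        rw [h3, norm_neg, norm_smul, norm_ej94, mul_one, Real.norm_eq_abs, abs_mul,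
          abs_of_pos hr']
        have h4 : |σ| = 1 := by
          rcases hσ with h | h <;> rw [h] <;> simp
        rw [h4, one_mul]
        have h5 : 1 / κ * (κ * r) = r := by field_simp
        rw [h5]
      have ht := hx (fun r : ℝ => x + (σ * r) • ej i) (fun r => κ * r) hδ hmem
      have hev := ht.eventually (lt_mem_nhds (show (0 : ENNReal) < 1 from zero_lt_one))
      filter_upwards [hev] with r hr
      have h6 : (volume : Measure (Vec d)) (E ∩ Metric.closedBall (x + (σ * r) • ej i) (κ * r)) ≠ 0 := by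
        intro h0
        rw [h0] at hr
        simp at hr
      obtain ⟨y, hy1, hy2⟩ := nonempty_of_measure_ne_zero h6
      refine ⟨y - x, by simpa using hy1, ?_⟩
      rw [Metric.mem_closedBall, dist_eq_norm] at hy2
      have h7 : y - x - (σ * r) • ej i = y - (x + (σ * r) • ej i) := by abel
      rw [h7]
      exact hy2
    have h8 : ∀ᶠ r in 𝓝[>] (0 : ℝ), ∀ i : Fin d,
        (∃ u : Vec d, x + u ∈ E ∧ ‖u - ((1 : ℝ) * r) • ej i‖ ≤ κ * r) ∧
        (∃ u : Vec d, x + u ∈ E ∧ ‖u - ((-1 : ℝ) * r) • ej i‖ ≤ κ * r) := by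
      rw [eventually_all]
      intro i
      exact (h1 i 1 (Or.inl rfl)).and (h1 i (-1) (Or.inr rfl))
    filter_upwards [h8] with r hr
    intro i σ hσ
    rcases hσ with h | h
    · rw [h]; exact (hr i).1
    · rw [h]; exact (hr i).2
  set F : ℕ → Set (Vec d) := fun N => {x | x ∈ E ∧ ∀ r : ℝ, 0 < r → r < 1 / ((N : ℝ) + 1) → P r x}
    with hF
  have hcov : E ⊆ (E ∩ {x | ¬ ∀ᶠ r in 𝓝[>] (0 : ℝ), P r x}) ∪ ⋃ N, F N := by
    intro x hxE
    by_cases hx : ∀ᶠ r in 𝓝[>] (0 : ℝ), P r x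
    · right
      rw [eventually_nhdsWithin_iff, Metric.eventually_nhds_iff] at hx
      obtain ⟨ε, hε, h2⟩ := hx
      obtain ⟨N, hN⟩ := exists_nat_one_div_lt hε
      refine Set.mem_iUnion.2 ⟨N, hxE, fun r hr1 hr2 => ?_⟩
      refine h2 ?_ hr1
      rw [Real.dist_eq, sub_zero, abs_of_pos hr1]
      linarith
    · left
      exact ⟨hxE, hx⟩
  have hnull : (volume : Measure (Vec d)) (E ∩ {x | ¬ ∀ᶠ r in 𝓝[>] (0 : ℝ), P r x}) = 0 := by
    have h2 := Measure.le_restrict_apply (μ := (volume : Measure (Vec d))) E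
      {x | ¬ ∀ᶠ r in 𝓝[>] (0 : ℝ), P r x}
    rw [Set.inter_comm]
    refine le_antisymm (h2.trans ?_) zero_le
    rw [ae_iff] at hae
    exact hae.le
  have hex : ∃ N, (volume : Measure (Vec d)) (F N) ≠ 0 := by
    by_contra hcon
    push Not at hcon
    have h3 : (volume : Measure (Vec d)) (⋃ N, F N) = 0 := measure_iUnion_null hcon
    have h4 := measure_mono (μ := (volume : Measure (Vec d))) hcov
    have h5 := measure_union_le (μ := (volume : Measure (Vec d)))
      (E ∩ {x | ¬ ∀ᶠ r in 𝓝[>] (0 : ℝ), P r x}) (⋃ N, F N)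
    rw [hnull, h3, add_zero] at h5
    exact hE (le_antisymm (h4.trans h5) zero_le)
  obtain ⟨N, hN⟩ := hex
  exact ⟨F N, fun x hx => hx.1, hN, 1 / ((N : ℝ) + 1), by positivity, fun h hh r h1 h2 =>
    hh.2 r h1 h2⟩

end Pool.Agent.W_7d29a1_Q29
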