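import Pool.Agent.W_7d29a1_Q29.AeD67
import Pool.Agent.W_7d29a1_R34.RplusG93
import Pool.Agent.W_7d29a1_R34.AeRFull65
import Pool.Agent.W_7d29a1_P89.Slq
import Pool.Agent.W_7d29a1_R13.RPP13
import Pool.Agent.W_7d29a1_P89.SLD66
import Pool.Agent.W_7d29a1_L2.Fin29

/-!
The fluctuations of the free energy in very strong disorder: the assembly.
-/

namespace Pool.Agent.W_7d29a1_Q29

open MeasureTheory ProbabilityTheory Filter Topology Pool.Agent.W_MP_7d29a1_pr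
  Pool.Agent.W_7d29a1_h46 Pool.Agent.W_7d29a1_h46u Pool.Agent.W_7d29a1_D2.B35

/-- The theorem. -/
theorem finC29 {Ω : Type*} [MeasurableSpace Ω] (μ : Measure Ω) [IsProbabilityMeasure μ] {d : ℕ}
    (hd : 1 ≤ d) (ω : ℕ × Site d → Ω → ℝ) (hmeas : ∀ p, Measurable (ω p))
    (hindep : iIndepFun ω μ) (hident : ∀ p q, IdentDistrib (ω p) (ω q) μ μ)
    (hnc : ¬ ∃ c : ℝ, ∀ᵐ x ∂μ, ω (0, 0) x = c)
    (hexp : ∀ b : ℝ, Integrable (fun x => Real.exp (b * ω (0, 0) x)) μ) {β : ℝ} (hβ : 0 < β) :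
    ∃ lam ann : Vec d → ℝ,
      (∀ h, Tendsto (fun n : ℕ => (∫ x, Real.log (Zn β h (fun p => ω p x) n) ∂μ) / n) atTop
        (𝓝 (lam h))) ∧
      (∀ h, ∀ n : ℕ, ∫ x, Zn β h (fun p => ω p x) n ∂μ = Real.exp (n * ann h)) ∧
      -- dimension two: very strong disorder at every tilt
      (d = 2 → ∀ h, lam h < ann h) ∧
      -- dimension two, almost every tilt
      (d = 2 → ∀ᵐ h : Vec d, ∀ C : ℝ, ∃ᶠ n : ℕ in atTop,
        C * Real.log n ≤ Var[fun x => Real.log (Zn β h (fun p => ω p x) n); μ]) ∧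
      -- dimension two, every tilt
      (d = 2 → ∀ h : Vec d, ∀ K R : ℝ,
          (∀ n : ℕ, Var[fun x => Real.log (Zn β h (fun p => ω p x) n); μ] ≤ K) →
          ∀ᶠ n : ℕ in atTop, ∃ t < n, ∀ v : Vec d, 1 / 32 < ∫ x, PolT β h (fun p => ω p x)
            {s : Fin (2 * n) → Step d | R * Real.sqrt n < ‖emb (pos s t) - v‖} ∂μ) ∧
      -- every dimension, almost every tilt of very strong disorder
      (∀ᵐ h : Vec d, lam h < ann h → ∀ M : ℝ, ∃ᶠ n : ℕ in atTop,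
        M * Real.log n ≤ n * lam h - ∫ x, Real.log (Zn β h (fun p => ω p x) n) ∂μ) ∧
      -- every dimension, every tilt of very strong disorder
      (∀ h, lam h < ann h →
        (∃ c : ℝ, 0 < c ∧ ∀ ε M : ℝ, 0 < ε → ∀ᶠ n : ℕ in atTop,
          (n : ℝ) ^ (1 - ε) ≤ Var[fun x => Real.log (Zn β h (fun p => ω p x) n); μ] ∨
          c * n ≤ Set.ncard {m : ℕ | m ≤ n ∧ M * Real.log n ≤
            m * lam h - ∫ x, Real.log (Zn β h (fun p => ω p x) m) ∂μ}) ∧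
        (∀ t : ℝ, 0 < t → ∃ c : ℝ, 0 < c ∧ ∀ᶠ n : ℕ in atTop,
          Real.exp (n * (t * lam h + c)) ≤ ∫ x, Zn β h (fun p => ω p x) n ^ t ∂μ) ∧
        (∃ c : ℝ, 0 < c ∧ ∀ n : ℕ, 1 ≤ n → ∀ K N : ℝ, 0 < N →
          (∀ m : ℕ, m ≤ 2 * n → Var[fun x => Real.log (Zn β h (fun p => ω p x) m); μ] ≤ K) →
          (Set.ncard {t : ℕ | t < n ∧ ∀ W : Finset (Site d), (W.card : ℝ) ≤ N →
            1 / 32 < ∫ x, PolT β h (fun p => ω p x)
              {s : Fin (2 * n) → Step d | pos s t ∉ W} ∂μ} : ℝ) ≤ c * n →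
          c * Real.log n ≤ K * Real.sqrt (N / n))) := by
  set p0 : ℕ × Site d := (0, 0) with hp0
  set ρ : Measure ℝ := μ.map (ω p0) with hρ
  have : IsProbabilityMeasure ρ := Measure.isProbabilityMeasure_map (hmeas p0).aemeasurable
  have hω : IID μ ρ ω := ⟨hmeas, hindep, fun p => (hident p p0).map_eq⟩
  have hnc' : ∀ c : ℝ, ρ {c} ≠ 1 := by
    intro c hc
    apply hnc
    refine ⟨c, ?_⟩
    rw [hρ, Measure.map_apply (hmeas p0) (measurableSet_singleton c)] at hc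
    have h1 : MeasurableSet (ω p0 ⁻¹' {c}) := hmeas p0 (measurableSet_singleton c)
    exact (prob_compl_eq_zero_iff h1).2 hc
  have hexp' : EM ρ := by
    intro b
    rw [hρ, integrable_map_measure (by fun_prop) (hmeas p0).aemeasurable]
    exact hexp b
  have hd0 : 0 < d := hd
  obtain ⟨lam, ann, h1, h2, -, -, h4, h5⟩ := top29 μ hd ω hmeas hindep hident hnc hexp hβ
    (fun ρ _ h1 h2 => W_7d29a1_R34.aeR h1 h2 hβ)
    (fun ρ _ h1 h2 => W_7d29a1_R34.rplus93 h1 h2 hβ)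
    (fun ρ _ h1 h2 => W_7d29a1_P89.slq89 hd0 h1 β) (fun ρ _ h1 _ => aeD hd0 h1)
  have hlam : lam = lamN ρ β := funext fun h =>
    tendsto_nhds_unique (h1 h) (tend29 hd0 hω hexp' h)
  have hann : ann = annN ρ β := by
    funext h
    have a1 := h2 h 1
    have a2 := ann29 hd0 hω hexp' (β := β) h 1
    rw [a1] at a2
    have := Real.exp_injective a2
    simpa using this
  have hv : d = 2 → ∀ h, lam h < ann h := by
    rintro rfl h
    rw [hlam, hann]
    exact (vsd29 h).2 (W_7d29a1_L2.vsd2_29 hexp' hnc' hβ h)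
  refine ⟨lam, ann, h1, h2, hv, fun hd2 => ?_, fun hd2 h K R => ?_, h4, fun h hh => ⟨?_, ?_, ?_⟩⟩
  · subst hd2
    filter_upwards [W_7d29a1_R13.rpp13 hexp' hnc' hβ] with h hh C
    refine (hh (W_7d29a1_L2.vsd2_29 hexp' hnc' hβ h) C).mono fun n hn => ?_
    rw [var29 hd0 hω hexp']
    exact hn
  · exact (h5 h (hv hd2 h)).2.2.2 hd2 K R
  · rw [hlam, hann] at hh
    obtain ⟨c, hc, h1⟩ := W_7d29a1_P89.mainSLD hd0 hexp' β h ((vsd29 h).1 hh)
    refine ⟨c, hc, fun ε M hε => ?_⟩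
    filter_upwards [h1 ε hε M] with n hn
    rw [var29 hd0 hω hexp', hlam]
    refine hn.imp id fun h2 => le_trans h2 (le_of_eq ?_)
    rw [← Set.ncard_coe_finset]
    congr 2
    ext m
    simp only [Finset.coe_filter, Finset.mem_range, Set.mem_ofPred_eq, def29 hd0 hω hexp']
    rw [Nat.lt_succ_iff]
  · exact (h5 h hh).2.1
  · exact (h5 h hh).2.2.1

end Pool.Agent.W_7d29a1_Q29
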