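import Pool.Agent.W_7d29a1_Q29.TopE29
import Pool.Agent.W_7d29a1_SD.DefsSD

/-!
The transfer of the theorems NT and SD to the letters of the problem.
-/

namespace Pool.Agent.W_7d29a1_Q29

open MeasureTheory ProbabilityTheory Filter Topology Pool.Agent.W_MP_7d29a1_pr
  Pool.Agent.W_7d29a1_h46 Pool.Agent.W_7d29a1_h46u Pool.Agent.W_7d29a1_D2.B35

lemma ntq29 {d : ℕ} {ρ : Measure ℝ} {β : ℝ} (hN : W_7d29a1_NV.MainNT d ρ β) : NTQ d ρ β :=
  fun h hV φ a hφ hh => hN h hV ⟨φ, a, hφ, hh⟩

lemma step_le29 {d : ℕ} (e : Step d) : ‖emb (vec e)‖ ≤ 1 := by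
  have h1 : emb (vec e) = (if e.2 then (1 : ℝ) else -1) • EuclideanSpace.single e.1 (1 : ℝ) := by
    ext j
    rcases eq_or_ne j e.1 with rfl | hj
    · by_cases hb : e.2 <;> simp [emb, vec, hb]
    · by_cases hb : e.2 <;> simp [emb, vec, hb, hj]
  rw [h1, norm_smul]
  by_cases hb : e.2 <;> simp [hb]

lemma pos_le29 {d n : ℕ} (s : Fin n → Step d) {i : ℕ} (hi : i ≤ n) : ‖emb (pos s i)‖ ≤ i := by
  have h1 : emb (pos s i) = ∑ k : Fin n, if (k : ℕ) < i then emb (vec (s k)) else 0 := by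
    unfold pos
    ext j
    simp only [emb, PiLp.toLp_apply, Finset.sum_apply, WithLp.ofLp_sum]
    push_cast
    refine Finset.sum_congr rfl fun k _ => ?_
    split_ifs <;> simp
  rw [h1]
  refine (norm_sum_le _ _).trans ?_
  have h2 : ∀ k : Fin n, ‖(if (k : ℕ) < i then emb (vec (s k)) else 0 : Vec d)‖ ≤
      if (k : ℕ) < i then 1 else 0 := by
    intro k
    split_ifs
    · exact step_le29 _
    · simp
  refine (Finset.sum_le_sum fun k _ => h2 k).trans ?_
  rw [Fin.sum_univ_eq_sum_range (fun k => if k < i then (1 : ℝ) else 0) n, Finset.sum_ite]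
  simp only [Finset.sum_const_zero, add_zero, Finset.sum_const, nsmul_eq_mul, mul_one]
  have : (Finset.range n).filter (fun k => k < i) = Finset.range i := by
    ext k
    simp only [Finset.mem_filter, Finset.mem_range]
    omega
  rw [this, Finset.card_range]

/-- The polymer is not diffusive, in the letters of the problem. -/
theorem sd29 {Ω : Type*} [MeasurableSpace Ω] {μ : Measure Ω} [IsProbabilityMeasure μ] {d : ℕ}
    {ρ : Measure ℝ} [IsProbabilityMeasure ρ] {β : ℝ} {ω : ℕ × Site d → Ω → ℝ} (hd : 0 < d)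
    (hω : IID μ ρ ω) {h v : Vec d} (hD : ¬ W_7d29a1_SD.Dif ρ β h v) :
    ∃ ε : ℝ, 0 < ε ∧ ∀ R : ℝ, ∃ᶠ n : ℕ in atTop,
      ∫ x, PolT β h (fun p => ω p x) (tube d n v (R * Real.sqrt n)) ∂μ < 1 - ε := by
  unfold W_7d29a1_SD.Dif at hD
  push Not at hD
  obtain ⟨ε, hε, hR⟩ := hD
  refine ⟨ε, hε, fun R => ?_⟩
  rw [Filter.frequently_atTop]
  intro N
  set R' : ℝ := max R ((N : ℝ) * (1 + ‖v‖)) with hR'
  obtain ⟨n, hn⟩ := hR R'
  have hi : ∀ r : ℝ, Integrable (fun η : Env d => PolT β h η (tube d n v r)) (law d ρ) := by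
    intro r
    refine Integrable.of_bound (measurable_PolT β h _).aestronglyMeasurable 1 ?_
    filter_upwards with η
    rw [Real.norm_eq_abs, abs_of_nonneg (PolT_nonneg _ _ _ _)]
    exact PolT_le_one _ _ _ _
  have hT : W_7d29a1_SD.Tb ρ β h v R' n =
      1 - ∫ η, PolT β h η (tube d n v (R' * Real.sqrt n)) ∂(law d ρ) := by
    unfold W_7d29a1_SD.Tb
    rw [integral_sub (integrable_const 1) (hi _)]
    simp
  rw [hT] at hn
  have hNn : N ≤ n := by
    by_contra hcon
    push Not at hcon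
    have hall : tube d n v (R' * Real.sqrt n) = Set.univ := by
      ext s
      simp only [Set.mem_univ, iff_true]
      intro i hin
      have h1 : ‖emb (pos s i) - (i : ℝ) • v‖ ≤ (i : ℝ) * (1 + ‖v‖) := by
        refine (norm_sub_le _ _).trans ?_
        rw [norm_smul, Real.norm_eq_abs, Nat.abs_cast]
        have := pos_le29 s hin
        nlinarith
      refine h1.trans ?_
      have hv : 0 ≤ 1 + ‖v‖ := by positivity
      rcases Nat.eq_zero_or_pos n with h0 | h0
      · have hi0 : i = 0 := by omega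
        subst hi0
        subst h0
        simp
      · have hn1 : (1 : ℝ) ≤ Real.sqrt n := by
          rw [Real.one_le_sqrt]
          exact_mod_cast h0
        have h2 : (i : ℝ) ≤ N := by
          have : i ≤ N := by omega
          exact_mod_cast this
        have h3 : (N : ℝ) * (1 + ‖v‖) ≤ R' := le_max_right _ _
        have h4 : 0 ≤ R' := le_trans (by positivity) h3
        calc (i : ℝ) * (1 + ‖v‖) ≤ N * (1 + ‖v‖) := mul_le_mul_of_nonneg_right h2 hv
          _ ≤ R' := h3
          _ = R' * 1 := (mul_one _).symm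
          _ ≤ R' * Real.sqrt n := mul_le_mul_of_nonneg_left hn1 h4
    rw [hall] at hn
    simp only [PolT_univ hd] at hn
    simp at hn
    linarith
  refine ⟨n, hNn, ?_⟩
  have h1 : ∫ x, PolT β h (fun p => ω p x) (tube d n v (R * Real.sqrt n)) ∂μ =
      ∫ η, PolT β h η (tube d n v (R * Real.sqrt n)) ∂(law d ρ) :=
    StrA_int hω (measurable_PolT β h _)
  have h2 : ∫ η, PolT β h η (tube d n v (R * Real.sqrt n)) ∂(law d ρ) ≤
      ∫ η, PolT β h η (tube d n v (R' * Real.sqrt n)) ∂(law d ρ) := by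
    refine integral_mono (hi _) (hi _) fun η => PolT_mono β h η fun s hs i hin => ?_
    exact (hs i hin).trans (mul_le_mul_of_nonneg_right (le_max_left _ _) (Real.sqrt_nonneg _))
  rw [h1]
  linarith

end Pool.Agent.W_7d29a1_Q29
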