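import Pool.Agent.W_7d29a1_Q29.FinH29
import Pool.Agent.W_7d29a1_SD.Fin67
import Pool.Agent.W_7d29a1_SD.TrSD80

/-!
The divergence of the fluctuations and superdiffusivity: the assembly.
-/

namespace Pool.Agent.W_7d29a1_Q29

open MeasureTheory ProbabilityTheory Filter Topology Pool.Agent.W_MP_7d29a1_pr
  Pool.Agent.W_7d29a1_h46 Pool.Agent.W_7d29a1_h46u Pool.Agent.W_7d29a1_D2.B35

/-- The theorem. -/
theorem finI29 {Ω : Type*} [MeasurableSpace Ω] (μ : Measure Ω) [IsProbabilityMeasure μ] {d : ℕ}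
    (hd : 1 ≤ d) (ω : ℕ × Site d → Ω → ℝ) (hmeas : ∀ p, Measurable (ω p))
    (hindep : iIndepFun ω μ) (hident : ∀ p q, IdentDistrib (ω p) (ω q) μ μ)
    (hnc : ¬ ∃ c : ℝ, ∀ᵐ x ∂μ, ω (0, 0) x = c)
    (hexp : ∀ b : ℝ, Integrable (fun x => Real.exp (b * ω (0, 0) x)) μ) {β : ℝ} (hβ : 0 < β) :
    ∃ lam ann : Vec d → ℝ,
      (∀ h, Tendsto (fun n : ℕ => (∫ x, Real.log (Zn β h (fun p => ω p x) n) ∂μ) / n) atTop
        (𝓝 (lam h))) ∧
      (∀ h, ∀ n : ℕ, ∫ x, Zn β h (fun p => ω p x) n ∂μ = Real.exp (n * ann h)) ∧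
      -- every dimension, every tilt of very strong disorder
      (∀ h, lam h < ann h →
        Tendsto (fun n : ℕ => Var[fun x => Real.log (Zn β h (fun p => ω p x) n); μ])
          atTop atTop ∧
        (∀ (φ : ℕ → ℕ) (a : ℕ → ℝ), StrictMono φ → ∃ δ : ℝ, 0 < δ ∧ ∀ M : ℝ, ∃ j : ℕ,
          δ < μ.real {x | M < |Real.log (Zn β h (fun p => ω p x) (φ j)) - a j|})) ∧
      -- every dimension, almost every velocity, every tilt of very strong disorder
      (∀ᵐ v : Vec d, ∀ h, lam h < ann h → ∃ ε : ℝ, 0 < ε ∧ ∀ R : ℝ, ∃ᶠ n : ℕ in atTop,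
        ε < ∫ x, PolT β h (fun p => ω p x) {s : Fin n → Step d | ∃ i ≤ n,
          R * Real.sqrt n < ‖emb (pos s i) - (i : ℝ) • v‖} ∂μ) ∧
      -- the tilts of very strong disorder
      (∃ U : Set (Vec d), IsOpen U ∧ U.Nonempty ∧ ∀ h ∈ U, lam h < ann h) ∧
      (d ≤ 2 → ∀ h, lam h < ann h) ∧
      -- dimension two, almost every tilt
      (d = 2 → ∀ᵐ h : Vec d, ∀ C : ℝ, ∃ᶠ n : ℕ in atTop,
        C * Real.log n ≤ Var[fun x => Real.log (Zn β h (fun p => ω p x) n); μ]) ∧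
      -- dimension two, every tilt
      (d = 2 → ∀ (h : Vec d) (C : ℝ), ∀ᶠ n : ℕ in atTop, ∀ K w : ℝ, 0 ≤ w →
        (∀ m : ℕ, m ≤ 2 * n → Var[fun x => Real.log (Zn β h (fun p => ω p x) m); μ] ≤ K) →
        (∀ t < n, ∃ v : Vec d, ∫ x, PolT β h (fun p => ω p x)
          {s : Fin (2 * n) → Step d | w < ‖emb (pos s t) - v‖} ∂μ ≤ 1 / 32) →
        C * (Real.sqrt n * Real.log n) ≤ K * (w + 1)) := by
  obtain ⟨lam, ann, h1, h2, h3, h4, h5, h6, h7⟩ :=
    finH29 μ hd ω hmeas hindep hident hnc hexp hβ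
  set p0 : ℕ × Site d := (0, 0) with hp0
  set ρ : Measure ℝ := μ.map (ω p0) with hρ
  have : IsProbabilityMeasure ρ := Measure.isProbabilityMeasure_map (hmeas p0).aemeasurable
  have hω : IID μ ρ ω := ⟨hmeas, hindep, fun p => (hident p p0).map_eq⟩
  have hnc' : ∀ c : ℝ, ρ {c} ≠ 1 := by
    intro c hc
    apply hnc
    refine ⟨c, ?_⟩
    rw [hρ, Measure.map_apply (hmeas p0) (measurableSet_singleton c)] at hc
    have h1 : MeasurableSet (ω p0 ⁻¹' {c}) := hmeas p0 (measurableSet_singleton c)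
    exact (prob_compl_eq_zero_iff h1).2 hc
  have hexp' : EM ρ := by
    intro b
    rw [hρ, integrable_map_measure (by fun_prop) (hmeas p0).aemeasurable]
    exact hexp b
  have hd0 : 0 < d := hd
  have hlam : lam = lamN ρ β := funext fun h =>
    tendsto_nhds_unique (h1 h) (tend29 hd0 hω hexp' h)
  have hann : ann = annN ρ β := by
    funext h
    have a1 := h2 h 1
    have a2 := ann29 hd0 hω hexp' (β := β) h 1
    rw [a1] at a2
    have := Real.exp_injective a2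
    simpa using this
  refine ⟨lam, ann, h1, h2, h3, ?_, h4, h5, h6, h7⟩
  filter_upwards [W_7d29a1_SD.TrSD80.trSD80 hd0 hω
    (W_7d29a1_SD.mainSD67 hd0 hexp' hnc' hβ)] with v hv h hh
  rw [hlam, hann] at hh
  exact hv h ((vsd29 h).1 hh)

end Pool.Agent.W_7d29a1_Q29
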