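import Pool.Agent.W_7d29a1_SD.Aff70
import Pool.Agent.W_7d29a1_h46u.StrA

/-!
Theorem SD in affine families of tilts, for an arbitrary i.i.d. environment.
-/

namespace Pool.Agent.W_7d29a1_Q29.Sda29

open MeasureTheory ProbabilityTheory Filter Topology Pool.Agent.W_MP_7d29a1_pr
  Pool.Agent.W_7d29a1_h46 Pool.Agent.W_7d29a1_h46u Pool.Agent.W_7d29a1_D2.B35
  Pool.Agent.W_7d29a1_Q29 Pool.Agent.W_7d29a1_NV Pool.Agent.W_7d29a1_SD

variable {d k : ℕ} {ρ : Measure ℝ} [IsProbabilityMeasure ρ] {β : ℝ} {M : Vec k →ₗ[ℝ] Vec d}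

/-- All the walks are in a large tube. -/
lemma tubA_univ (M : Vec k →ₗ[ℝ] Vec d) : ∃ C : ℝ, 0 ≤ C ∧ ∀ (n : ℕ) (v : Vec k) (r : ℝ),
    (n : ℝ) * (C + ‖v‖) ≤ r → tubA n M v r = Set.univ := by
  refine ⟨‖LinearMap.toContinuousLinearMap (LinearMap.adjoint M)‖, norm_nonneg _,
    fun n v r hr => ?_⟩
  refine Set.eq_univ_of_forall fun s i hi => ?_
  have h1 : ‖LinearMap.adjoint M (emb (pos s i))‖ ≤
      ‖LinearMap.toContinuousLinearMap (LinearMap.adjoint M)‖ * ‖emb (pos s i)‖ :=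
    (LinearMap.toContinuousLinearMap (LinearMap.adjoint M)).le_opNorm _
  have h2 : ‖emb (pos s i)‖ ≤ n := by
    rw [norm_emb]
    exact nrm_pos_le s i
  have h3 : (i : ℝ) ≤ n := by exact_mod_cast hi
  have h4 := norm_nonneg (LinearMap.toContinuousLinearMap (LinearMap.adjoint M))
  calc ‖LinearMap.adjoint M (emb (pos s i)) - (i : ℝ) • v‖
      ≤ ‖LinearMap.adjoint M (emb (pos s i))‖ + ‖(i : ℝ) • v‖ := norm_sub_le _ _
    _ ≤ ‖LinearMap.toContinuousLinearMap (LinearMap.adjoint M)‖ * n + n * ‖v‖ := by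
        rw [norm_smul, Real.norm_eq_abs, abs_of_nonneg (Nat.cast_nonneg i)]
        have h5 := mul_le_mul_of_nonneg_left h2 h4
        have h6 := mul_le_mul_of_nonneg_right h3 (norm_nonneg v)
        linarith
    _ = n * (‖LinearMap.toContinuousLinearMap (LinearMap.adjoint M)‖ + ‖v‖) := by ring
    _ ≤ r := hr

/-- The complement of a tube. -/
lemma pol_outA (hd : 0 < d) (β : ℝ) (h : Vec d) (v : Vec k) (r : ℝ) (n : ℕ) (η : Env d) :
    PolT β h η {s : Fin n → Step d | ∃ i ≤ n,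
      r < ‖LinearMap.adjoint M (emb (pos s i)) - (i : ℝ) • v‖} =
      1 - PolT β h η (tubA n M v r) := by
  classical
  have hpos := ZT_univ_pos (n := n) hd β h η
  unfold PolT
  rw [eq_sub_iff_add_eq, ← add_div, div_eq_one_iff_eq hpos.ne']
  unfold ZT
  rw [← Finset.sum_add_distrib]
  refine Finset.sum_congr rfl fun s _ => ?_
  rw [if_pos (Set.mem_univ s)]
  by_cases hs : s ∈ tubA n M v r
  · have h1 : s ∉ {s : Fin n → Step d | ∃ i ≤ n,
        r < ‖LinearMap.adjoint M (emb (pos s i)) - (i : ℝ) • v‖} := by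
      rintro ⟨i, hi, hlt⟩
      exact absurd hlt (not_lt.2 (hs i hi))
    rw [if_neg h1, if_pos hs, zero_add]
  · have h1 : s ∈ {s : Fin n → Step d | ∃ i ≤ n,
        r < ‖LinearMap.adjoint M (emb (pos s i)) - (i : ℝ) • v‖} := by
      by_contra hcon
      refine hs fun i hi => ?_
      by_contra hlt
      exact hcon ⟨i, hi, not_le.1 hlt⟩
    rw [if_pos h1, if_neg hs, add_zero]

/-- Not diffusive: for some `ε` every tube of radius `R √n` is missed with mean probability more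
than `ε` for infinitely many `n`. -/
theorem not_difA (hd : 0 < d) {h : Vec d} {v : Vec k}
    (hD : ¬ ∀ ε : ℝ, 0 < ε → ∃ R : ℝ, ∀ n : ℕ, TbA ρ β M h v R n ≤ ε) :
    ∃ ε : ℝ, 0 < ε ∧ ∀ R : ℝ, ∃ᶠ n : ℕ in atTop, ε < TbA ρ β M h v R n := by
  obtain ⟨C, hC, hU⟩ := tubA_univ M
  push Not at hD
  obtain ⟨ε, hε, H⟩ := hD
  refine ⟨ε, hε, fun R hcon => ?_⟩
  rw [eventually_atTop] at hcon
  obtain ⟨N, hN⟩ := hcon
  obtain ⟨n, hn⟩ := H (max R (Real.sqrt N * (C + ‖v‖)))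
  rcases le_or_gt N n with h1 | h1
  · have h2 := not_lt.1 (hN n h1)
    have h3 := Aff70.TbA_anti (ρ := ρ) (M := M) β h v n
      (le_max_left R (Real.sqrt N * (C + ‖v‖)))
    linarith
  · have hn0 : (0 : ℝ) ≤ n := Nat.cast_nonneg n
    have hNn : (n : ℝ) ≤ N := by exact_mod_cast h1.le
    have h2 : (n : ℝ) * (C + ‖v‖) ≤ max R (Real.sqrt N * (C + ‖v‖)) * Real.sqrt n := by
      have hv : 0 ≤ C + ‖v‖ := by positivity
      calc (n : ℝ) * (C + ‖v‖) = (Real.sqrt n * (C + ‖v‖)) * Real.sqrt n := by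
            calc (n : ℝ) * (C + ‖v‖) = (Real.sqrt n * Real.sqrt n) * (C + ‖v‖) := by
                  rw [Real.mul_self_sqrt hn0]
              _ = _ := by ring
        _ ≤ (Real.sqrt N * (C + ‖v‖)) * Real.sqrt n :=
            mul_le_mul_of_nonneg_right
              (mul_le_mul_of_nonneg_right (Real.sqrt_le_sqrt hNn) hv) (Real.sqrt_nonneg _)
        _ ≤ _ := mul_le_mul_of_nonneg_right (le_max_right _ _) (Real.sqrt_nonneg _)
    have h3 : TbA ρ β M h v (max R (Real.sqrt N * (C + ‖v‖))) n = 0 := by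
      unfold TbA
      have h4 := hU n v _ h2
      simp only [h4, PolT_univ hd, sub_self, integral_zero]
    linarith

variable {Ω : Type*} [MeasurableSpace Ω] {μ : Measure Ω} [IsProbabilityMeasure μ]
  {ω : ℕ × Site d → Ω → ℝ}

theorem tb_intA (hd : 0 < d) (hω : IID μ ρ ω) (h : Vec d) (v : Vec k) (R : ℝ) (n : ℕ) :
    ∫ x, PolT β h (fun p => ω p x) {s : Fin n → Step d | ∃ i ≤ n,
      R * Real.sqrt n < ‖LinearMap.adjoint M (emb (pos s i)) - (i : ℝ) • v‖} ∂μ =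
      TbA ρ β M h v R n := by
  unfold TbA
  have hm : Measurable fun η : Env d => 1 - PolT β h η (tubA n M v (R * Real.sqrt n)) :=
    measurable_const.sub (measurable_PolT β h _)
  rw [← StrA_int hω hm]
  refine integral_congr_ae (Filter.Eventually.of_forall fun x => ?_)
  exact pol_outA hd β h v _ n _

/-- **Theorem SD in affine families of tilts**, for an arbitrary i.i.d. environment. -/
theorem trSDA29 (hd : 0 < d) (hω : IID μ ρ ω) (hM : MainSDA d ρ β) (k : ℕ) (hk : 0 < k)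
    (A : Vec k →ₗ[ℝ] Vec d) (h₀ : Vec d) :
    ∀ᵐ v : Vec k, ∀ y : Vec k, VSD ρ β (h₀ + A y) → ∃ ε : ℝ, 0 < ε ∧ ∀ R : ℝ,
      ∃ᶠ n : ℕ in atTop, ε < ∫ x, PolT β (h₀ + A y) (fun p => ω p x) {s : Fin n → Step d |
        ∃ i ≤ n, R * Real.sqrt n < ‖LinearMap.adjoint A (emb (pos s i)) - (i : ℝ) • v‖} ∂μ := by
  filter_upwards [hM k hk A h₀] with v hv y hV
  obtain ⟨ε, hε, H⟩ := not_difA hd (hv y hV)
  refine ⟨ε, hε, fun R => (H R).mono fun n hn => ?_⟩
  rw [tb_intA hd hω (h₀ + A y) v R n]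
  exact hn

end Pool.Agent.W_7d29a1_Q29.Sda29
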