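import Pool.Agent.W_7d29a1_UC.MainW43
import Pool.Agent.W_7d29a1_AM.DeepU5
import Pool.Agent.W_7d29a1_AM.Wt64
import Pool.Agent.W_7d29a1_AM.SiteP86
import Pool.Agent.W_7d29a1_AM.Con73
import Pool.Agent.W_7d29a1_AM.Cou35
import Pool.Agent.W_7d29a1_AM.LemD73
import Pool.Agent.W_7d29a1_AM.LemK44
import Pool.Agent.W_7d29a1_AM.LemG66
import Pool.Agent.W_7d29a1_AM.AmpC94
import Pool.Agent.W_7d29a1_AM.AmpU5

/-!
The variance at all times against the nonrandom fluctuation, for every law.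
-/

namespace Pool.Agent.W_7d29a1_Q29

open MeasureTheory ProbabilityTheory Filter Topology Pool.Agent.W_MP_7d29a1_pr
  Pool.Agent.W_7d29a1_h46 Pool.Agent.W_7d29a1_h46u Pool.Agent.W_7d29a1_D2.B35
  Pool.Agent.W_7d29a1_R34 Pool.Agent.W_7d29a1_AM

variable {ρ : Measure ℝ} [IsProbabilityMeasure ρ] {d : ℕ}

/-- AMP for every law, every dimension, every tilt. -/
theorem ampU29 (hd : 0 < d) (hρ : EM ρ) (hnc : ∀ c : ℝ, ρ {c} ≠ 1) {β : ℝ} (hβ : 0 < β) :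
    AmpU ρ β d := by
  have hS : SiteP ρ β := siteP86 hβ
  have hC : ConP ρ β := conP73 hρ hnc hβ
  exact ampU5 hd hρ hβ.le (ampC94 hρ hβ wt64 (lemD73 hβ wt64 hS (couP35 hρ hβ hC)) (lemK44 hS hC)
    (lemG66 hρ hβ wt64 hS hC))

/-- The variance at all times, every law. -/
theorem mainWU29 (hd : 0 < d) (hρ : EM ρ) (hnc : ∀ c : ℝ, ρ {c} ≠ 1) {β : ℝ} (hβ : 0 < β) :
    W_7d29a1_UC.MainW d ρ β :=
  W_7d29a1_UC.mainW43 hd hρ (W_7d29a1_UC.mainVU43 hd hρ hnc hβ (ampU29 hd hρ hnc hβ))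
    (ampU29 hd hρ hnc hβ) (deepP5 hd hρ hnc hβ) (W_7d29a1_UC.inf43 hd hρ hnc hβ)

/-- The clause, every law. -/
theorem clauseWU29 {Ω : Type*} [MeasurableSpace Ω] {μ : Measure Ω} [IsProbabilityMeasure μ]
    {ω : ℕ × Site d → Ω → ℝ} (hd : 0 < d)
    (hω : IID μ ρ ω) (hρ : EM ρ) (hnc : ∀ c : ℝ, ρ {c} ≠ 1) {β : ℝ} (hβ : 0 < β) :
    ∀ h : Vec d, lamN ρ β h < annN ρ β h → ∀ C : ℝ, ∃ θ : ℝ, 0 < θ ∧
      ((∃ᶠ n : ℕ in atTop, ∀ m : ℕ, m ≤ n →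
        C * Var[fun x => Real.log (Zn β h (fun p => ω p x) m); μ] ≤
          (n * lamN ρ β h - ∫ x, Real.log (Zn β h (fun p => ω p x) n) ∂μ) ^ 2) ∨
        ∀ᶠ n : ℕ in atTop, (n : ℝ) ^ θ ≤
          Var[fun x => Real.log (Zn β h (fun p => ω p x) n); μ]) := by
  intro h hh C
  simp only [var29 hd hω hρ, W_7d29a1_UC.en19 hd hω hρ]
  exact mainWU29 hd hρ hnc hβ h ((vsd29 h).1 hh) C

end Pool.Agent.W_7d29a1_Q29
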