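import Pool.Agent.W_7d29a1_Q29.FinK29
import Pool.Agent.W_7d29a1_Q29.Uc29
import Pool.Agent.W_7d29a1_UC.LogB92
import Pool.Agent.W_7d29a1_SDP.FinM50
import Pool.Agent.W_7d29a1_S90.TopO52
import Pool.Agent.W_7d29a1_SA.OriA42
import Pool.Agent.W_7d29a1_AC.Main8
import Pool.Agent.W_7d29a1_AC.TrAC8
import Pool.Agent.W_7d29a1_LOC.Fin99
import Pool.Agent.W_7d29a1_LOC.TrL92

/-!
The strong disorder phase in every dimension: the assembly.
-/

namespace Pool.Agent.W_7d29a1_Q29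

open MeasureTheory ProbabilityTheory Filter Topology Pool.Agent.W_MP_7d29a1_pr
  Pool.Agent.W_7d29a1_h46 Pool.Agent.W_7d29a1_h46u Pool.Agent.W_7d29a1_D2.B35
  Pool.Agent.W_7d29a1_Q29

/-- The theorem. -/
theorem finS29 {Ω : Type*} [MeasurableSpace Ω] (μ : Measure Ω) [IsProbabilityMeasure μ] {d : ℕ}
    (hd : 1 ≤ d) (ω : ℕ × Site d → Ω → ℝ) (hmeas : ∀ p, Measurable (ω p))
    (hindep : iIndepFun ω μ) (hident : ∀ p q, IdentDistrib (ω p) (ω q) μ μ)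
    (hnc : ¬ ∃ c : ℝ, ∀ᵐ x ∂μ, ω (0, 0) x = c)
    (hexp : ∀ b : ℝ, Integrable (fun x => Real.exp (b * ω (0, 0) x)) μ) {β : ℝ} (hβ : 0 < β) :
    ∃ lam ann : Vec d → ℝ,
      (∀ h, Tendsto (fun n : ℕ => (∫ x, Real.log (Zn β h (fun p => ω p x) n) ∂μ) / n) atTop
        (𝓝 (lam h))) ∧
      (∀ h, ∀ n : ℕ, ∫ x, Zn β h (fun p => ω p x) n ∂μ = Real.exp (n * ann h)) ∧
      -- the tilts of very strong disorder
      (∃ U : Set (Vec d), IsOpen U ∧ U.Nonempty ∧ ∀ h ∈ U, lam h < ann h) ∧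
      (d ≤ 2 → ∀ h, lam h < ann h) ∧
      (∀ (h : Vec d) (b : ℝ), 0 < b → b < β → (∀ᵐ x ∂μ, Tendsto (fun n : ℕ =>
        Zn b h (fun p => ω p x) n / ∫ y, Zn b h (fun p => ω p y) n ∂μ) atTop (𝓝 0)) →
          lam h < ann h) ∧
      -- (1) the law of the free energy spreads out
      (∀ h, lam h < ann h → ∀ R κ : ℝ, 0 < κ → ∀ᶠ n : ℕ in atTop, ∀ a : ℝ,
        μ.real {x | |Real.log (Zn β h (fun p => ω p x) n) - a| ≤ R} ≤ κ) ∧
      (∀ h, lam h < ann h → ∀ C : ℝ, ∀ᶠ n : ℕ in atTop, ∃ m : ℕ, m ≤ n ∧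
        C * Real.log n ≤ ∫ x, |Real.log (Zn β h (fun p => ω p x) m) - m * lam h| ∂μ) ∧
      -- (2) localization at zero tilt
      (lam 0 < ann 0 → ∀ κ : ℝ, 0 < κ → ∃ L : ℝ, ∀ᶠ N : ℕ in atTop, ∃ B : Finset ℕ,
        B.card ≤ κ * N ∧ ∀ n, N ≤ n → n < 2 * N → n ∉ B → ∀ t ≤ n, ∃ c : Ω → Vec d,
          1 - κ < ∫ x, PolT β 0 (fun p => ω p x)
            {s : Fin n → Step d | ‖emb (pos s t) - c x‖ ≤ L} ∂μ) ∧
      -- (3) the path is not diffusive, see also the last clause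
      (∀ R ε : ℝ, 0 < ε → ∀ᶠ N : ℕ in atTop, volume {v : Vec d | ∃ h : Vec d, lam h < ann h ∧
        (∀ k : Vec d, lam h + inner ℝ v k ≤ lam (h + k)) ∧ ∀ B : Finset ℕ, B.card ≤ ε * N →
          ∃ n, N ≤ n ∧ n < 2 * N ∧ n ∉ B ∧ ∫ x, PolT β h (fun p => ω p x)
            {s : Fin n → Step d | R * Real.sqrt n < ‖emb (pos s n) - (n : ℝ) • v‖} ∂μ ≤ 1 - ε} ≤
        ENNReal.ofReal ε) ∧
      (∀ U : Set (Vec d), IsOpen U → U.Nonempty → (∀ h ∈ U, lam h < ann h) →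
        ¬ {h : Vec d | h ∈ U ∧ ∀ v : Vec d, ∃ ε : ℝ, 0 < ε ∧ ∀ R : ℝ, ∃ᶠ n : ℕ in atTop,
          ε < ∫ x, PolT β h (fun p => ω p x) {s : Fin n → Step d | ∃ i ≤ n,
            R * Real.sqrt n < ‖emb (pos s i) - (i : ℝ) • v‖} ∂μ}.Countable) ∧
      -- (4) random and nonrandom fluctuations
      (∀ h, lam h < ann h → ∀ C : ℝ, ∃ θ : ℝ, 0 < θ ∧
        ((∃ᶠ n : ℕ in atTop, ∀ m : ℕ, m ≤ n →
          C * Var[fun x => Real.log (Zn β h (fun p => ω p x) m); μ] ≤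
            (n * lam h - ∫ x, Real.log (Zn β h (fun p => ω p x) n) ∂μ) ^ 2) ∨
          ∀ᶠ n : ℕ in atTop,
            (n : ℝ) ^ θ ≤ Var[fun x => Real.log (Zn β h (fun p => ω p x) n); μ])) ∧
      -- (5) dimension two: superdiffusive from the origin
      (d = 2 → ∀ U : Set (Vec d), IsOpen U → U.Nonempty → ∀ α : ℝ, α < 1 → ∀ᶠ N : ℕ in atTop,
        ∃ h ∈ U, ∃ n t : ℕ, t ≤ n ∧ n ≤ N ∧ (N : ℝ) ^ α ≤ t ∧ ∀ m : Vec d,
          Real.log N ^ ((1 : ℝ) / 80) * t <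
            ∫ x, ∑ s : Fin n → Step d, PolT β h (fun p => ω p x) {s} *
              ‖emb (pos s t) - m‖ ^ 2 ∂μ) ∧
      -- (3), (5) almost every velocity, every tilt; dimension two, almost every tilt
      (∀ᵐ v : Vec d,
        (∀ h, lam h < ann h → ∀ R ε : ℝ, 0 < ε → ∃ᶠ N : ℕ in atTop, ∃ B : Finset ℕ,
          B.card ≤ ε * N ∧ ∀ n, N ≤ n → n < 2 * N → n ∉ B →
            1 - ε < ∫ x, PolT β h (fun p => ω p x)
              {s : Fin n → Step d | R * Real.sqrt n < ‖emb (pos s n) - (n : ℝ) • v‖} ∂μ) ∧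
        (d = 2 → (∀ (h : Vec d) (α : ℝ), α < 1 → ∃ᶠ n : ℕ in atTop, ∃ t : ℕ, t ≤ n ∧
          (n : ℝ) ^ α ≤ t ∧ Real.log n ^ ((1 : ℝ) / 200) * t <
            ∫ x, ∑ s : Fin n → Step d, PolT β h (fun p => ω p x) {s} *
              ‖emb (pos s t) - (t : ℝ) • v‖ ^ 2 ∂μ) ∧
          ∀ R : ℝ, ∃ᶠ n : ℕ in atTop, R * Real.log n ≤
            Var[fun x => Real.log (Zn β v (fun p => ω p x) n); μ])) := by
  obtain ⟨lam, ann, h1, h2, -, -, h5, h6, h7, h8, -, h10, -, -⟩ :=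
    finK29 μ hd ω hmeas hindep hident hnc hexp hβ
  set p0 : ℕ × Site d := (0, 0) with hp0
  set ρ : Measure ℝ := μ.map (ω p0) with hρ
  have : IsProbabilityMeasure ρ := Measure.isProbabilityMeasure_map (hmeas p0).aemeasurable
  have hω : IID μ ρ ω := ⟨hmeas, hindep, fun p => (hident p p0).map_eq⟩
  have hnc' : ∀ c : ℝ, ρ {c} ≠ 1 := by
    intro c hc
    apply hnc
    refine ⟨c, ?_⟩
    rw [hρ, Measure.map_apply (hmeas p0) (measurableSet_singleton c)] at hc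
    have h1 : MeasurableSet (ω p0 ⁻¹' {c}) := hmeas p0 (measurableSet_singleton c)
    exact (prob_compl_eq_zero_iff h1).2 hc
  have hexp' : EM ρ := by
    intro b
    rw [hρ, integrable_map_measure (by fun_prop) (hmeas p0).aemeasurable]
    exact hexp b
  have hd0 : 0 < d := hd
  have hlam : lam = lamN ρ β := funext fun h =>
    tendsto_nhds_unique (h1 h) (tend29 hd0 hω hexp' h)
  have hann : ann = annN ρ β := by
    funext h
    have a1 := h2 h 1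
    have a2 := ann29 hd0 hω hexp' (β := β) h 1
    rw [a1] at a2
    have := Real.exp_injective a2
    simpa using this
  have hV : ∀ h, lam h < ann h → VSD ρ β h := by
    intro h hh
    rw [hlam, hann] at hh
    exact (vsd29 h).1 hh
  have hM : W_7d29a1_AC.MainAC d ρ β := W_7d29a1_AC.mainAC8 hd0 hexp' hnc' hβ
  refine ⟨lam, ann, h1, h2, h6, h7, h8,
    fun h hh R κ hκ => W_7d29a1_AC.trAC8 hd0 hω hM h (hV h hh) R κ hκ, fun h hh C => ?_,
    fun h0 κ hκ => ?_, ?_, h5, fun h hh C => ?_, fun h2' U hU hne α hα => ?_, ?_⟩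
  · have h13 := W_7d29a1_UC.trLogB92 hd0 hω hexp' (β := β) h (by rw [← hlam, ← hann]; exact hh) C
    rw [← hlam] at h13
    exact h13
  · classical
    obtain ⟨L, hL⟩ := W_7d29a1_LOC.trL92 hd0 hω
      (W_7d29a1_LOC.main99 hd0 hexp' hnc' hβ (hV 0 h0)) κ hκ
    refine ⟨L, hL.mono fun N hN => ⟨_, hN, fun n hn1 hn2 hn3 t ht => ?_⟩⟩
    by_contra hcon
    push Not at hcon
    exact hn3 (Finset.mem_filter.2 ⟨Finset.mem_Ico.2 ⟨hn1, hn2⟩, t, ht, hcon⟩)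
  · intro R ε hε
    classical
    filter_upwards [W_7d29a1_SDP.clauseSDM50 hd0 hω hexp' hnc' hβ (R := R) hε] with N hN
    refine (measure_mono ?_).trans hN
    rintro v ⟨h, hh, hs, hB⟩
    refine ⟨h, hV h hh, fun k => ?_, ?_⟩
    · have h20 : lamN ρ β h + inner ℝ v k ≤ lamN ρ β (h + k) := by
        rw [← hlam]
        exact hs k
      unfold lamN at h20
      linarith
    · obtain ⟨B0, hB0⟩ : ∃ B0 : Finset ℕ, B0 = (Finset.Ico N (2 * N)).filter fun n =>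
          ∫ x, PolT β h (fun p => ω p x) {s : Fin n → Step d | R * Real.sqrt n <
            ‖emb (pos s n) - (n : ℝ) • v‖} ∂μ ≤ 1 - ε := ⟨_, rfl⟩
      have e1 : ({n | n ∈ Finset.Ico N (2 * N) ∧ ∫ x, PolT β h (fun p => ω p x)
          {s : Fin n → Step d | R * Real.sqrt n < ‖emb (pos s n) - (n : ℝ) • v‖} ∂μ ≤
            1 - ε} : Set ℕ).ncard = B0.card := by
        rw [← Set.ncard_coe_finset, hB0, Finset.coe_filter]
      rw [e1]
      by_contra hcon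
      obtain ⟨n, hn1, hn2, hn3, hn4⟩ := hB B0 (not_le.1 hcon).le
      apply hn3
      rw [hB0]
      exact Finset.mem_filter.2 ⟨Finset.mem_Ico.2 ⟨hn1, hn2⟩, hn4⟩
  · have h13 := clauseWU29 hd0 hω hexp' hnc' hβ h (by rw [← hlam, ← hann]; exact hh) C
    rw [← hlam] at h13
    exact h13
  · filter_upwards [(W_7d29a1_S90.topO52 hω hexp' hnc' hβ h2').1 U hU hne α hα] with N hN
    obtain ⟨h, hh, n, t, -, h14, h15, h16, h17⟩ := hN
    exact ⟨h, hh, n, t, h14, h15, h16, h17⟩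
  · have e1 : ∀ᵐ v : Vec d, ∀ h, lam h < ann h → ∀ R ε : ℝ, 0 < ε → ∃ᶠ N : ℕ in atTop,
        ∃ B : Finset ℕ, B.card ≤ ε * N ∧ ∀ n, N ≤ n → n < 2 * N → n ∉ B →
          1 - ε < ∫ x, PolT β h (fun p => ω p x)
            {s : Fin n → Step d | R * Real.sqrt n < ‖emb (pos s n) - (n : ℝ) • v‖} ∂μ := by
      filter_upwards [W_7d29a1_SDP.clauseSDE50 hd0 hω hexp' hnc' hβ] with v hv h hh R ε hε
      refine (hv h (hV h hh) R ε hε).mono fun N hN => ⟨_, hN, fun n hn1 hn2 hn3 => ?_⟩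
      by_contra hcon
      exact hn3 (Finset.mem_filter.2 ⟨Finset.mem_Ico.2 ⟨hn1, hn2⟩, not_lt.1 hcon⟩)
    by_cases hc : d = 2
    · filter_upwards [e1, W_7d29a1_SA.oriA42 hω hexp' hnc' hβ hc, h10 hc] with v hv1 hv2 hv3
      refine ⟨hv1, fun _ => ⟨fun h α hα => (hv2 h α hα).mono fun n hn => ?_, hv3⟩⟩
      obtain ⟨t, -, h14, h15, h16⟩ := hn
      exact ⟨t, h14, h15, h16⟩
    · filter_upwards [e1] with v hv1
      exact ⟨hv1, fun a => absurd a hc⟩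

end Pool.Agent.W_7d29a1_Q29
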