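import Pool.Agent.W_7d29a1_OT.FinOT81
import Pool.Agent.W_7d29a1_OT.UniL67

/-!
Theorem OT with one exponent for all tilts of a ball, every law: assembly.
-/

namespace Pool.Agent.W_7d29a1_OT

open MeasureTheory ProbabilityTheory Filter Topology Pool.Agent.W_MP_7d29a1_pr
  Pool.Agent.W_7d29a1_h46 Pool.Agent.W_7d29a1_h46u Pool.Agent.W_7d29a1_D2.B35
  Pool.Agent.W_7d29a1_Q29 Pool.Agent.W_7d29a1_R34 Pool.Agent.W_7d29a1_SP Pool.Agent.W_7d29a1_PL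
  Pool.Agent.W_7d29a1_PA Pool.Agent.W_7d29a1_NR

/-- Theorem OT with one exponent for all tilts with a gap, every law. -/
theorem mainU29 {ρ : Measure ℝ} [IsProbabilityMeasure ρ] (hρ : EM ρ) (hnc : ∀ c : ℝ, ρ {c} ≠ 1)
    {β : ℝ} (hβ : 0 < β) : MainU ρ β := by
  have hd : 0 < 2 := by norm_num
  exact mainUU67 hρ hnc hβ (maxU67 (budE96 hρ (leakOU81 hρ hnc hβ) (npb98 hd hρ hnc hβ))
    (enN33 hρ (nrAll86 hd hρ hnc hβ)) (corN43 hρ (corU73 hd hρ hnc hβ)))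

end Pool.Agent.W_7d29a1_OT
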