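import Pool.Agent.W_7d29a1_Q29.FinK29
import Pool.Agent.W_7d29a1_Q29.Uc29
import Pool.Agent.W_7d29a1_UC.LogB92
import Pool.Agent.W_7d29a1_SDP.FinM50
import Pool.Agent.W_7d29a1_AC.Main8
import Pool.Agent.W_7d29a1_AC.TrAC8
import Pool.Agent.W_7d29a1_LOC.Fin99
import Pool.Agent.W_7d29a1_LOC.TrL92
import Pool.Agent.W_7d29a1_LOC.FinLV51
import Pool.Agent.W_7d29a1_NR.NrLet86
import Pool.Agent.W_7d29a1_PL.TrPL52
import Pool.Agent.W_7d29a1_QM.OwnF74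
import Pool.Agent.W_7d29a1_OT.UniL67
import Pool.Agent.W_7d29a1_Q29.Ot29

/-!
The strong disorder phase in every dimension: the assembly.
-/

namespace Pool.Agent.W_7d29a1_Q29

open MeasureTheory ProbabilityTheory Filter Topology Pool.Agent.W_MP_7d29a1_pr
  Pool.Agent.W_7d29a1_h46 Pool.Agent.W_7d29a1_h46u Pool.Agent.W_7d29a1_D2.B35
  Pool.Agent.W_7d29a1_Q29

/-- The mass outside of a tube. -/
lemma tubX29 {Ω : Type*} [MeasurableSpace Ω] {μ : Measure Ω} [IsProbabilityMeasure μ] {d : ℕ}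
    {ρ : Measure ℝ} [IsProbabilityMeasure ρ] {ω : ℕ × Site d → Ω → ℝ} {β : ℝ} (hd : 0 < d)
    (hω : IID μ ρ ω) (h v : Vec d) (n : ℕ) (r : ℝ) :
    ∫ x, PolT β h (fun p => ω p x) {s : Fin n → Step d | ∃ i ≤ n,
      r < ‖emb (pos s i) - (i : ℝ) • v‖} ∂μ =
      ∫ η, (1 - PolT β h η (tube d n v r)) ∂(law d ρ) := by
  have h1 := W_7d29a1_PL.ltub52 (β := β) hd hω h v n r
  rw [← h1]
  have h2 : {s : Fin n → Step d | ∃ i ≤ n, r < ‖emb (pos s i) - (i : ℝ) • v‖} =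
      (tube d n v r)ᶜ := by
    ext s
    simp only [Set.mem_ofPred_eq, Set.mem_compl_iff]
    constructor
    · rintro ⟨i, hi, h3⟩ h4
      exact absurd (h4 i hi) (not_le.2 h3)
    · intro h3
      by_contra h4
      push Not at h4
      exact h3 fun i hi => h4 i hi
  rw [h2]
  rfl

/-- The theorem. -/
theorem finX29 {Ω : Type*} [MeasurableSpace Ω] (μ : Measure Ω) [IsProbabilityMeasure μ] {d : ℕ}
    (hd : 1 ≤ d) (ω : ℕ × Site d → Ω → ℝ) (hmeas : ∀ p, Measurable (ω p))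
    (hindep : iIndepFun ω μ) (hident : ∀ p q, IdentDistrib (ω p) (ω q) μ μ)
    (hnc : ¬ ∃ c : ℝ, ∀ᵐ x ∂μ, ω (0, 0) x = c)
    (hexp : ∀ b : ℝ, Integrable (fun x => Real.exp (b * ω (0, 0) x)) μ) {β : ℝ} (hβ : 0 < β) :
    ∃ lam ann : Vec d → ℝ,
      (∀ h, Tendsto (fun n : ℕ => (∫ x, Real.log (Zn β h (fun p => ω p x) n) ∂μ) / n) atTop
        (𝓝 (lam h))) ∧
      (∀ h, ∀ n : ℕ, ∫ x, Zn β h (fun p => ω p x) n ∂μ = Real.exp (n * ann h)) ∧
      -- the tilts of very strong disorder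
      (∃ U : Set (Vec d), IsOpen U ∧ U.Nonempty ∧ ∀ h ∈ U, lam h < ann h) ∧
      (d ≤ 2 → ∀ h, lam h < ann h) ∧
      (∀ (h : Vec d) (b : ℝ), 0 < b → b < β → (∀ᵐ x ∂μ, Tendsto (fun n : ℕ =>
        Zn b h (fun p => ω p x) n / ∫ y, Zn b h (fun p => ω p y) n ∂μ) atTop (𝓝 0)) →
          lam h < ann h) ∧
      -- (1) very strong disorder, every tilt
      (∀ h, lam h < ann h → ∃ c : ℝ, 0 < c ∧ ∀ᶠ n : ℕ in atTop,
        (n : ℝ) ^ c ≤ Var[fun x => Real.log (Zn β h (fun p => ω p x) n); μ] ∨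
        ∃ m : ℕ, (n : ℝ) ^ c ≤ m ∧ m ≤ n ∧ ∀ v : Vec d,
          1 / 8 < ∫ x, PolT β h (fun p => ω p x) {s : Fin m → Step d | ∃ i ≤ m,
            (m : ℝ) ^ (1 / (d : ℝ) + c) < ‖emb (pos s i) - (i : ℝ) • v‖} ∂μ) ∧
      (∀ h, lam h < ann h → ∀ R κ : ℝ, 0 < κ → ∀ᶠ n : ℕ in atTop, ∀ a : ℝ,
        μ.real {x | |Real.log (Zn β h (fun p => ω p x) n) - a| ≤ R} ≤ κ) ∧
      (∀ h, lam h < ann h → ∀ C : ℝ, ∀ᶠ n : ℕ in atTop, ∃ m : ℕ, m ≤ n ∧
        C * Real.log n ≤ ∫ x, |Real.log (Zn β h (fun p => ω p x) m) - m * lam h| ∂μ) ∧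
      (∀ h, lam h < ann h → ∀ C : ℝ, ∃ θ : ℝ, 0 < θ ∧
        ((∃ᶠ n : ℕ in atTop, ∀ m : ℕ, m ≤ n →
          C * Var[fun x => Real.log (Zn β h (fun p => ω p x) m); μ] ≤
            (n * lam h - ∫ x, Real.log (Zn β h (fun p => ω p x) n) ∂μ) ^ 2) ∨
          ∀ᶠ n : ℕ in atTop,
            (n : ℝ) ^ θ ≤ Var[fun x => Real.log (Zn β h (fun p => ω p x) n); μ])) ∧
      -- (2) every tilt
      (∀ (h : Vec d) (a b : ℝ), 0 ≤ a → a < b → (∀ᶠ n : ℕ in atTop,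
        Var[fun x => Real.log (Zn β h (fun p => ω p x) n); μ] ≤ (n : ℝ) ^ a) → ∀ᶠ n : ℕ in atTop,
          ∫ x, (Real.log (Zn β h (fun p => ω p x) n) - n * lam h) ^ 2 ∂μ ≤ (n : ℝ) ^ b) ∧
      -- (3) dimension two
      (d = 2 → ∀ K : ℝ, ∃ c : ℝ, 0 < c ∧
        (∀ h : Vec d, ‖h‖ ≤ K → (∀ᶠ n : ℕ in atTop,
          (n : ℝ) ^ c ≤ Var[fun x => Real.log (Zn β h (fun p => ω p x) n); μ]) ∨
          ∀ δ : ℝ, 0 < δ → ∃ r : ℝ, 0 < r ∧ r ≤ δ ∧ ∃ j : Fin d, r ^ (2 - c) <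
            lam (h + r • EuclideanSpace.single j 1) + lam (h - r • EuclideanSpace.single j 1) -
              2 * lam h) ∧
        ∀ᵐ h : Vec d, ‖h‖ ≤ K → ∀ᶠ n : ℕ in atTop,
          (n : ℝ) ^ c ≤ Var[fun x => Real.log (Zn β h (fun p => ω p x) n); μ]) ∧
      -- (4) the end point is not diffusive
      (∀ R ε : ℝ, 0 < ε → ∀ᶠ N : ℕ in atTop, volume {v : Vec d | ∃ h : Vec d, lam h < ann h ∧
        (∀ k : Vec d, lam h + inner ℝ v k ≤ lam (h + k)) ∧ ∀ B : Finset ℕ, B.card ≤ ε * N →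
          ∃ n, N ≤ n ∧ n < 2 * N ∧ n ∉ B ∧ ∫ x, PolT β h (fun p => ω p x)
            {s : Fin n → Step d | R * Real.sqrt n < ‖emb (pos s n) - (n : ℝ) • v‖} ∂μ ≤ 1 - ε} ≤
        ENNReal.ofReal ε) ∧
      -- (5) localization, almost every velocity
      (∀ᵐ v : Vec d,
        (∀ h, lam h < ann h → (h = 0 ∨ ∀ k : Vec d, lam h + inner ℝ v k ≤ lam (h + k)) →
          ∀ κ : ℝ, 0 < κ → ∃ L : ℝ, ∀ᶠ N : ℕ in atTop, ∃ B : Finset ℕ, B.card ≤ κ * N ∧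
            ∀ n, N ≤ n → n < 2 * N → n ∉ B → ∀ t ≤ n, ∃ c : Ω → Vec d,
              1 - κ < ∫ x, PolT β h (fun p => ω p x)
                {s : Fin n → Step d | ‖emb (pos s t) - c x‖ ≤ L} ∂μ)) := by
  obtain ⟨lam, ann, h1, h2, -, -, h5, h6, h7, h8, -, -, -, -⟩ :=
    finK29 μ hd ω hmeas hindep hident hnc hexp hβ
  set p0 : ℕ × Site d := (0, 0) with hp0
  set ρ : Measure ℝ := μ.map (ω p0) with hρ
  have : IsProbabilityMeasure ρ := Measure.isProbabilityMeasure_map (hmeas p0).aemeasurable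
  have hω : IID μ ρ ω := ⟨hmeas, hindep, fun p => (hident p p0).map_eq⟩
  have hnc' : ∀ c : ℝ, ρ {c} ≠ 1 := by
    intro c hc
    apply hnc
    refine ⟨c, ?_⟩
    rw [hρ, Measure.map_apply (hmeas p0) (measurableSet_singleton c)] at hc
    have h1 : MeasurableSet (ω p0 ⁻¹' {c}) := hmeas p0 (measurableSet_singleton c)
    exact (prob_compl_eq_zero_iff h1).2 hc
  have hexp' : EM ρ := by
    intro b
    rw [hρ, integrable_map_measure (by fun_prop) (hmeas p0).aemeasurable]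
    exact hexp b
  have hd0 : 0 < d := hd
  have hlam : lam = lamN ρ β := funext fun h =>
    tendsto_nhds_unique (h1 h) (tend29 hd0 hω hexp' h)
  have hann : ann = annN ρ β := by
    funext h
    have a1 := h2 h 1
    have a2 := ann29 hd0 hω hexp' (β := β) h 1
    rw [a1] at a2
    have := Real.exp_injective a2
    simpa using this
  have hV : ∀ h, lam h < ann h → VSD ρ β h := by
    intro h hh
    rw [hlam, hann] at hh
    exact (vsd29 h).1 hh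
  have hM : W_7d29a1_AC.MainAC d ρ β := W_7d29a1_AC.mainAC8 hd0 hexp' hnc' hβ
  have hOwn : W_7d29a1_OW.OwnD d ρ β := W_7d29a1_OW.ownDAll74 hd0 hexp' hnc' hβ
  refine ⟨lam, ann, h1, h2, h6, h7, h8, fun h hh => ?_,
    fun h hh R κ hκ => W_7d29a1_AC.trAC8 hd0 hω hM h (hV h hh) R κ hκ, fun h hh C => ?_,
    fun h hh C => ?_, fun h a b ha hab hv => ?_, fun h2' => ?_, ?_, ?_⟩
  · have hVh := hV h hh
    obtain ⟨c, hc, H⟩ := hOwn _ (sub_pos.2 hVh)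
    obtain ⟨n₀, hn₀⟩ := H h (le_of_eq (by ring))
    refine ⟨c, hc, ?_⟩
    filter_upwards [eventually_ge_atTop n₀] with n hn
    by_cases h3 : Va ρ β h n ≤ (n : ℝ) ^ c
    · obtain ⟨N, h4, h5', h6'⟩ := hn₀ n hn h3
      refine Or.inr ⟨N, h4, h5', fun v => ?_⟩
      rw [tubX29 hd0 hω]
      exact h6' v
    · refine Or.inl ?_
      rw [var29 (β := β) hd0 hω hexp' h n]
      exact (not_le.1 h3).le
  · have h13 := W_7d29a1_UC.trLogB92 hd0 hω hexp' (β := β) h (by rw [← hlam, ← hann]; exact hh) C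
    rw [← hlam] at h13
    exact h13
  · have h13 := clauseWU29 hd0 hω hexp' hnc' hβ h (by rw [← hlam, ← hann]; exact hh) C
    rw [← hlam] at h13
    exact h13
  · have h13 := W_7d29a1_NR.clauseX86 hd0 hω hexp' hnc' hβ h a (b - a) ha (by linarith) hv
    rw [← hlam] at h13
    rw [add_sub_cancel] at h13
    exact h13
  · have hE : W_7d29a1_OT.MainU ρ β := W_7d29a1_OT.mainU29 hexp' hnc' hβ
    intro K
    obtain ⟨c, hc, h17, h18⟩ := W_7d29a1_OT.varK67 h2' hω hexp' hnc' hβ hE K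
    refine ⟨c, hc, fun h hh => (h17 h hh).imp id fun h19 => ?_, h18⟩
    rw [hlam]
    exact h19
  · intro R ε hε
    classical
    filter_upwards [W_7d29a1_SDP.clauseSDM50 hd0 hω hexp' hnc' hβ (R := R) hε] with N hN
    refine (measure_mono ?_).trans hN
    rintro v ⟨h, hh, hs, hB⟩
    refine ⟨h, hV h hh, fun k => ?_, ?_⟩
    · have h20 : lamN ρ β h + inner ℝ v k ≤ lamN ρ β (h + k) := by
        rw [← hlam]
        exact hs k
      unfold lamN at h20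
      linarith
    · obtain ⟨B0, hB0⟩ : ∃ B0 : Finset ℕ, B0 = (Finset.Ico N (2 * N)).filter fun n =>
          ∫ x, PolT β h (fun p => ω p x) {s : Fin n → Step d | R * Real.sqrt n <
            ‖emb (pos s n) - (n : ℝ) • v‖} ∂μ ≤ 1 - ε := ⟨_, rfl⟩
      have e1 : ({n | n ∈ Finset.Ico N (2 * N) ∧ ∫ x, PolT β h (fun p => ω p x)
          {s : Fin n → Step d | R * Real.sqrt n < ‖emb (pos s n) - (n : ℝ) • v‖} ∂μ ≤
            1 - ε} : Set ℕ).ncard = B0.card := by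
        rw [← Set.ncard_coe_finset, hB0, Finset.coe_filter]
      rw [e1]
      by_contra hcon
      obtain ⟨n, hn1, hn2, hn3, hn4⟩ := hB B0 (not_le.1 hcon).le
      apply hn3
      rw [hB0]
      exact Finset.mem_filter.2 ⟨Finset.mem_Ico.2 ⟨hn1, hn2⟩, hn4⟩
  · have hLV := W_7d29a1_LOC.aeLV51 hd0 hexp' hnc' hβ
    have e0 : ∀ h, W_7d29a1_LOC.MainL d ρ β h → ∀ κ : ℝ, 0 < κ → ∃ L : ℝ, ∀ᶠ N : ℕ in atTop,
        ∃ B : Finset ℕ, B.card ≤ κ * N ∧ ∀ n, N ≤ n → n < 2 * N → n ∉ B → ∀ t ≤ n,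
          ∃ c : Ω → Vec d, 1 - κ < ∫ x, PolT β h (fun p => ω p x)
            {s : Fin n → Step d | ‖emb (pos s t) - c x‖ ≤ L} ∂μ := by
      classical
      intro h hL κ hκ
      obtain ⟨L, hL⟩ := W_7d29a1_LOC.trL92 hd0 hω hL κ hκ
      refine ⟨L, hL.mono fun N hN => ⟨_, hN, fun n hn1 hn2 hn3 t ht => ?_⟩⟩
      by_contra hcon
      push Not at hcon
      exact hn3 (Finset.mem_filter.2 ⟨Finset.mem_Ico.2 ⟨hn1, hn2⟩, t, ht, hcon⟩)
    have e2 : ∀ᵐ v : Vec d, ∀ h, lam h < ann h →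
        (h = 0 ∨ ∀ k : Vec d, lam h + inner ℝ v k ≤ lam (h + k)) →
          ∀ κ : ℝ, 0 < κ → ∃ L : ℝ, ∀ᶠ N : ℕ in atTop, ∃ B : Finset ℕ, B.card ≤ κ * N ∧
            ∀ n, N ≤ n → n < 2 * N → n ∉ B → ∀ t ≤ n, ∃ c : Ω → Vec d,
              1 - κ < ∫ x, PolT β h (fun p => ω p x)
                {s : Fin n → Step d | ‖emb (pos s t) - c x‖ ≤ L} ∂μ := by
      filter_upwards [hLV] with v hv h hh hor
      rcases hor with h0 | hs
      · subst h0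
        exact e0 0 (W_7d29a1_LOC.main99 hd0 hexp' hnc' hβ (hV 0 hh))
      · refine e0 h (hv h (hV h hh) fun k => ?_)
        have h20 : lamN ρ β h + inner ℝ v k ≤ lamN ρ β (h + k) := by
          rw [← hlam]
          exact hs k
        unfold lamN at h20
        linarith
    exact e2

end Pool.Agent.W_7d29a1_Q29
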