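import Pool.Agent.W_7d29a1_Q29.Pt94

/-!
Chernoff bounds at an intermediate time: one layer, one direction, in the mean.
-/

namespace Pool.Agent.W_7d29a1_Q29

open MeasureTheory ProbabilityTheory Filter Topology Pool.Agent.W_MP_7d29a1_pr
  Pool.Agent.W_7d29a1_h46 Pool.Agent.W_7d29a1_h46u Pool.Agent.W_7d29a1_D2.B35

variable {d : ℕ}

lemma exp_min94 {c ζ : ℝ} (hc : 0 < c) :
    min 1 (Real.exp (-c + ζ)) ≤ 8 / c ^ 2 + 4 / c ^ 2 * ζ ^ 2 := by
  have hc2 : 0 < c ^ 2 := by positivity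
  rcases le_or_gt ζ (c / 2) with h | h
  · refine (min_le_right _ _).trans ?_
    have h1 := Real.quadratic_le_exp_of_nonneg (show 0 ≤ c / 2 by linarith)
    have h2 : Real.exp (-c + ζ) ≤ (Real.exp (c / 2))⁻¹ := by
      rw [← Real.exp_neg]
      apply Real.exp_le_exp.2
      linarith
    have h3 : c ^ 2 / 8 ≤ Real.exp (c / 2) := by nlinarith
    have h4 : (Real.exp (c / 2))⁻¹ ≤ (c ^ 2 / 8)⁻¹ := by
      apply inv_anti₀ (by positivity) h3
    have h5 : (c ^ 2 / 8)⁻¹ = 8 / c ^ 2 := by field_simp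
    rw [h5] at h4
    have h6 : 0 ≤ 4 / c ^ 2 * ζ ^ 2 := by positivity
    linarith
  · refine (min_le_left _ _).trans ?_
    have h1 : 1 ≤ 4 / c ^ 2 * ζ ^ 2 := by
      rw [div_mul_eq_mul_div, le_div_iff₀ hc2]
      nlinarith
    have h2 : 0 ≤ 8 / c ^ 2 := by positivity
    linarith

variable {ρ : Measure ℝ} [IsProbabilityMeasure ρ]

lemma int_sq94 (hd : 0 < d) (hρ : EM ρ) (β : ℝ) (h : Vec d) (m : ℕ) :
    Integrable (fun η => (X β h η m - A ρ β h m) ^ 2) (law d ρ) := by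
  rcases Nat.eq_zero_or_pos m with h0 | h0
  · subst h0
    have h1 : (fun η : Env d => (X β h η 0 - A ρ β h 0) ^ 2) = fun _ => (0 - A ρ β h 0) ^ 2 := by
      funext η
      unfold X
      rw [Z_zero, Real.log_one]
    rw [h1]
    exact integrable_const _
  · obtain ⟨C, -, h1⟩ := momU (d := d) hd hρ β 2
    have h2 := (h1 h m h0).1
    simpa only [sq_abs] using h2

lemma int_sq_sh94 (hd : 0 < d) (hρ : EM ρ) (β : ℝ) (h : Vec d) (m t : ℕ) (y : Site d) :
    Integrable (fun η => (X β h (sh t y η) m - A ρ β h m) ^ 2) (law d ρ) :=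
  (mp_sh (ρ := ρ) t y).integrable_comp_of_integrable (int_sq94 hd hρ β h m)

lemma Va_sh94 (β : ℝ) (h : Vec d) (m t : ℕ) (y : Site d) :
    ∫ η, (X β h (sh t y η) m - A ρ β h m) ^ 2 ∂(law d ρ) = Va ρ β h m :=
  integral_sh t y (F := fun η => (X β h η m - A ρ β h m) ^ 2)
    (((measurable_X β h m).sub_const _).pow_const 2)

/-- The badness of the future at `(t, y)`. -/
noncomputable def bd94 (ρ : Measure ℝ) (β : ℝ) (h u : Vec d) (m t : ℕ) (x : ℝ) (y : Site d)
    (η : Env d) : ℝ :=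
  min 1 (((X β h (sh t y η) m - A ρ β h m) ^ 2 +
    (X β (h + u) (sh t y η) m - A ρ β (h + u) m) ^ 2) / x ^ 2)

lemma bd94_nonneg (β : ℝ) (h u : Vec d) (m t : ℕ) (x : ℝ) (y : Site d) (η : Env d) :
    0 ≤ bd94 ρ β h u m t x y η := by
  unfold bd94
  exact le_min zero_le_one (by positivity)

lemma bd94_le_one (β : ℝ) (h u : Vec d) (m t : ℕ) (x : ℝ) (y : Site d) (η : Env d) :
    bd94 ρ β h u m t x y η ≤ 1 := min_le_left _ _

lemma bd94_meas (β : ℝ) (h u : Vec d) (m t : ℕ) (x : ℝ) (y : Site d) :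
    Measurable (bd94 ρ β h u m t x y : Env d → ℝ) := by
  unfold bd94
  refine measurable_const.min ?_
  have h1 : ∀ k : Vec d, Measurable fun η : Env d => (X β k (sh t y η) m - A ρ β k m) ^ 2 :=
    fun k => (((measurable_X β k m).comp (measurable_sh t y)).sub_const _).pow_const 2
  exact ((h1 h).add (h1 (h + u))).div_const _

lemma X_dep94 (β : ℝ) (h : Vec d) (m t : ℕ) (y : Site d) {η η' : Env d}
    (hη : ∀ p ∈ (Pa d t)ᶜ, η p = η' p) : X β h (sh t y η) m = X β h (sh t y η') m := by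
  unfold X
  congr 1
  refine dependsOn_Z β h m fun p hp => ?_
  unfold sh
  refine hη _ ?_
  show ¬ (p.1 + t ≤ t)
  have := hp.1
  omega

lemma bd94_dep (β : ℝ) (h u : Vec d) (m t : ℕ) (x : ℝ) (y : Site d) :
    DependsOn (bd94 ρ β h u m t x y : Env d → ℝ) (Pa d t)ᶜ := by
  intro η η' hη
  unfold bd94
  rw [X_dep94 β h m t y hη, X_dep94 β (h + u) m t y hη]

lemma bd94_int (hd : 0 < d) (hρ : EM ρ) (β : ℝ) (h u : Vec d) (m t : ℕ) {x K : ℝ} (hx : 0 < x)
    (y : Site d) (k1 : Va ρ β h m ≤ K) (k2 : Va ρ β (h + u) m ≤ K) :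
    ∫ η, bd94 ρ β h u m t x y η ∂(law d ρ) ≤ 2 * K / x ^ 2 := by
  have i1 := int_sq_sh94 (ρ := ρ) hd hρ β h m t y
  have i2 := int_sq_sh94 (ρ := ρ) hd hρ β (h + u) m t y
  have hb : Integrable (fun η => bd94 ρ β h u m t x y η) (law d ρ) :=
    Integrable.mono' (integrable_const (1 : ℝ)) (bd94_meas β h u m t x y).aestronglyMeasurable
      (Eventually.of_forall fun η => by
        rw [Real.norm_eq_abs, abs_of_nonneg (bd94_nonneg β h u m t x y η)]
        exact bd94_le_one β h u m t x y η)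
  have h1 := integral_mono hb ((i1.add i2).div_const (x ^ 2)) fun η => min_le_right _ _
  refine h1.trans ?_
  have h2 : ∫ η, ((X β h (sh t y η) m - A ρ β h m) ^ 2 +
      (X β (h + u) (sh t y η) m - A ρ β (h + u) m) ^ 2) / x ^ 2 ∂(law d ρ) =
      (Va ρ β h m + Va ρ β (h + u) m) / x ^ 2 := by
    rw [integral_div, integral_add i1 i2, Va_sh94, Va_sh94]
  rw [show (∫ a, ((fun η => (X β h (sh t y η) m - A ρ β h m) ^ 2) + fun η =>
      (X β (h + u) (sh t y η) m - A ρ β (h + u) m) ^ 2) a / x ^ 2 ∂(law d ρ)) =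
      ∫ η, ((X β h (sh t y η) m - A ρ β h m) ^ 2 +
      (X β (h + u) (sh t y η) m - A ρ β (h + u) m) ^ 2) / x ^ 2 ∂(law d ρ) from rfl, h2]
  exact div_le_div_of_nonneg_right (by linarith) (by positivity)

theorem layer94 (hd : 0 < d) (hρ : EM ρ) (β : ℝ) {h u a a' : Vec d} {L t : ℕ} (ht : t ≤ L)
    {Y : Finset (Site d)} {v x G K lam : ℝ} (hx : 0 < x) (hlam : 0 < lam)
    (hG : A ρ β (h + u) L - A ρ β h L - inner ℝ a u ≤ G) (hc : 0 < v - 2 * x - G)
    (ha' : ∀ q, A ρ β h (L - t) + inner ℝ a' q ≤ A ρ β (h + q) (L - t))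
    (hY : ∀ y ∈ Y, v ≤ inner ℝ u (emb y - (a - a')))
    (k1 : Va ρ β h L ≤ K) (k2 : Va ρ β (h + u) L ≤ K) (k3 : Va ρ β h (L - t) ≤ K)
    (k4 : Va ρ β (h + u) (L - t) ≤ K) :
    ∫ η, ∑ y ∈ Y, Qt β h L t y η ∂(law d ρ) ≤ (8 + 16 * K) / (v - 2 * x - G) ^ 2 +
      lam / 2 * ∫ η, ∑ y ∈ Y, (cE ρ (Pa d t)ᶜ (Qt β h L t y) η) ^ 2 ∂(law d ρ) +
      Y.card * (K / x ^ 2) / lam := by
  classical
  obtain ⟨c, hcdef⟩ : ∃ c, c = v - 2 * x - G := ⟨_, rfl⟩
  rw [← hcdef] at hc ⊢
  obtain ⟨m, hm⟩ : ∃ m, m = L - t := ⟨_, rfl⟩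
  rw [← hm] at ha' k3 k4
  set ζ : Env d → ℝ := fun η => (X β (h + u) η L - A ρ β (h + u) L) - (X β h η L - A ρ β h L)
    with hζ
  have hpt : ∀ η : Env d, ∑ y ∈ Y, Qt β h L t y η ≤
      (8 / c ^ 2 + 4 / c ^ 2 * ζ η ^ 2) + ∑ y ∈ Y, Qt β h L t y η * bd94 ρ β h u m t x y η := by
    intro η
    set Gd : Site d → Prop := fun y => |X β h (sh t y η) m - A ρ β h m| ≤ x ∧
      |X β (h + u) (sh t y η) m - A ρ β (h + u) m| ≤ x with hGd
    have h1 : ∑ y ∈ Y, Qt β h L t y η =
        ∑ y ∈ Y.filter Gd, Qt β h L t y η + ∑ y ∈ Y.filter (fun y => ¬ Gd y), Qt β h L t y η :=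
      (Finset.sum_filter_add_sum_filter_not Y Gd _).symm
    have h2 : ∑ y ∈ Y.filter Gd, Qt β h L t y η ≤ Real.exp (-c + ζ η) := by
      have h3 := chern94 hd β h u (a - a') η ht (Y.filter Gd) (v := v)
        (δ := 2 * x - inner ℝ a' u) (fun y hy => hY y (Finset.mem_filter.1 hy).1)
        (fun y hy => by
          obtain ⟨-, g1, g2⟩ := Finset.mem_filter.1 hy
          rw [← hm]
          have g3 := (abs_le.1 g1).2
          have g4 := (abs_le.1 g2).1
          have g5 := ha' u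
          linarith)
      refine h3.trans (Real.exp_le_exp.2 ?_)
      rw [inner_sub_right, real_inner_comm, real_inner_comm a' u, hcdef]
      simp only [hζ]
      linarith
    have h4 : ∑ y ∈ Y.filter Gd, Qt β h L t y η ≤ min 1 (Real.exp (-c + ζ η)) :=
      le_min (sumQt_le94 hd β h ht _ η) h2
    have h5 : ∑ y ∈ Y.filter (fun y => ¬ Gd y), Qt β h L t y η ≤
        ∑ y ∈ Y, Qt β h L t y η * bd94 ρ β h u m t x y η := by
      calc ∑ y ∈ Y.filter (fun y => ¬ Gd y), Qt β h L t y η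
          = ∑ y ∈ Y.filter (fun y => ¬ Gd y), Qt β h L t y η * bd94 ρ β h u m t x y η := by
            refine Finset.sum_congr rfl fun y hy => ?_
            have g1 := (Finset.mem_filter.1 hy).2
            have g2 : bd94 ρ β h u m t x y η = 1 := by
              unfold bd94
              refine min_eq_left ?_
              rw [le_div_iff₀ (by positivity), one_mul]
              simp only [hGd, not_and_or, not_le] at g1
              rcases g1 with g1 | g1
              · have g3 : x ^ 2 ≤ (X β h (sh t y η) m - A ρ β h m) ^ 2 := by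
                  rw [← sq_abs (X β h (sh t y η) m - A ρ β h m)]
                  exact pow_le_pow_left₀ hx.le g1.le 2
                nlinarith [sq_nonneg (X β (h + u) (sh t y η) m - A ρ β (h + u) m)]
              · have g3 : x ^ 2 ≤ (X β (h + u) (sh t y η) m - A ρ β (h + u) m) ^ 2 := by
                  rw [← sq_abs (X β (h + u) (sh t y η) m - A ρ β (h + u) m)]
                  exact pow_le_pow_left₀ hx.le g1.le 2
                nlinarith [sq_nonneg (X β h (sh t y η) m - A ρ β h m)]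
            rw [g2, mul_one]
        _ ≤ _ := Finset.sum_le_sum_of_subset_of_nonneg (Finset.filter_subset _ _) fun y _ _ =>
            mul_nonneg (Qt_nonneg94 β h L t y η) (bd94_nonneg β h u m t x y η)
    rw [h1]
    exact add_le_add (h4.trans (exp_min94 hc)) h5
  -- integrability
  have iQ : ∀ y, Integrable (fun η => Qt β h L t y η) (law d ρ) := fun y =>
    Integrable.mono' (integrable_const (1 : ℝ)) (measurable_Qt94 β h L t y).aestronglyMeasurable
      (Eventually.of_forall fun η => by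
        rw [Real.norm_eq_abs, abs_of_nonneg (Qt_nonneg94 β h L t y η)]
        exact Qt_le_one94 hd β h ht y η)
  have iQb : ∀ y, Integrable (fun η => Qt β h L t y η * bd94 ρ β h u m t x y η) (law d ρ) :=
    fun y => Integrable.mono' (integrable_const (1 : ℝ))
      ((measurable_Qt94 β h L t y).mul (bd94_meas β h u m t x y)).aestronglyMeasurable
      (Eventually.of_forall fun η => by
        rw [Real.norm_eq_abs, abs_of_nonneg (mul_nonneg (Qt_nonneg94 β h L t y η)
          (bd94_nonneg β h u m t x y η))]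
        exact mul_le_one₀ (Qt_le_one94 hd β h ht y η) (bd94_nonneg β h u m t x y η)
          (bd94_le_one β h u m t x y η))
  have ib : ∀ y, Integrable (fun η => bd94 ρ β h u m t x y η) (law d ρ) := fun y =>
    Integrable.mono' (integrable_const (1 : ℝ)) (bd94_meas β h u m t x y).aestronglyMeasurable
      (Eventually.of_forall fun η => by
        rw [Real.norm_eq_abs, abs_of_nonneg (bd94_nonneg β h u m t x y η)]
        exact bd94_le_one β h u m t x y η)
  have hQabs : ∀ y η, |Qt β h L t y η| ≤ 1 := fun y η => by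
    rw [abs_of_nonneg (Qt_nonneg94 β h L t y η)]
    exact Qt_le_one94 hd β h ht y η
  have iE : ∀ y, Integrable (fun η => (cE ρ (Pa d t)ᶜ (Qt β h L t y) η) ^ 2) (law d ρ) :=
    fun y => Integrable.mono' (integrable_const (1 : ℝ))
      ((measurable_cE (measurable_Qt94 β h L t y) _).pow_const 2).aestronglyMeasurable
      (Eventually.of_forall fun η => by
        rw [Real.norm_eq_abs, abs_pow]
        exact pow_le_one₀ (abs_nonneg _) (cE_abs_le (hQabs y) _ η))
  have iζ : Integrable (fun η => ζ η ^ 2) (law d ρ) := by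
    refine Integrable.mono' (((int_sq94 hd hρ β (h + u) L).add (int_sq94 hd hρ β h L)).const_mul 2)
      ((((measurable_X β (h + u) L).sub_const _).sub ((measurable_X β h L).sub_const _)).pow_const
        2).aestronglyMeasurable (Eventually.of_forall fun η => ?_)
    rw [Real.norm_eq_abs, abs_of_nonneg (sq_nonneg _)]
    simp only [hζ, Pi.add_apply]
    nlinarith [sq_nonneg ((X β (h + u) η L - A ρ β (h + u) L) + (X β h η L - A ρ β h L))]
  have hζ2 : ∫ η, ζ η ^ 2 ∂(law d ρ) ≤ 4 * K := by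
    have h1 := integral_mono iζ
      (((int_sq94 hd hρ β (h + u) L).add (int_sq94 hd hρ β h L)).const_mul 2) fun η => by
        show ζ η ^ 2 ≤ 2 * ((X β (h + u) η L - A ρ β (h + u) L) ^ 2 +
          (X β h η L - A ρ β h L) ^ 2)
        simp only [hζ]
        nlinarith [sq_nonneg ((X β (h + u) η L - A ρ β (h + u) L) + (X β h η L - A ρ β h L))]
    refine h1.trans ?_
    rw [integral_const_mul]
    have h2 : ∫ η, ((fun η => (X β (h + u) η L - A ρ β (h + u) L) ^ 2) +
        fun η => (X β h η L - A ρ β h L) ^ 2) η ∂(law d ρ) = Va ρ β (h + u) L + Va ρ β h L :=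
      integral_add (int_sq94 hd hρ β (h + u) L) (int_sq94 hd hρ β h L)
    rw [h2]
    linarith
  -- one site
  have hone : ∀ y, ∫ η, Qt β h L t y η * bd94 ρ β h u m t x y η ∂(law d ρ) ≤
      lam / 2 * ∫ η, (cE ρ (Pa d t)ᶜ (Qt β h L t y) η) ^ 2 ∂(law d ρ) + (K / x ^ 2) / lam := by
    intro y
    rw [int_mul_cE (Pa d t)ᶜ (iQb y) (bd94_dep β h u m t x y)]
    have h1 : ∀ η : Env d, cE ρ (Pa d t)ᶜ (Qt β h L t y) η * bd94 ρ β h u m t x y η ≤
        lam / 2 * (cE ρ (Pa d t)ᶜ (Qt β h L t y) η) ^ 2 +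
          1 / (2 * lam) * bd94 ρ β h u m t x y η := by
      intro η
      obtain ⟨p, hp⟩ : ∃ p, p = cE ρ (Pa d t)ᶜ (Qt β h L t y) η := ⟨_, rfl⟩
      obtain ⟨b, hb⟩ : ∃ b, b = bd94 ρ β h u m t x y η := ⟨_, rfl⟩
      have hb0 : 0 ≤ b := by rw [hb]; exact bd94_nonneg β h u m t x y η
      have hb1 : b ≤ 1 := by rw [hb]; exact bd94_le_one β h u m t x y η
      rw [← hp, ← hb]
      have h2 : p * b ≤ lam / 2 * p ^ 2 + 1 / (2 * lam) * b ^ 2 := by
        have h3 : 0 ≤ (lam * p - b) ^ 2 / (2 * lam) := by positivity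
        have h4 : (lam * p - b) ^ 2 / (2 * lam) =
            lam / 2 * p ^ 2 + 1 / (2 * lam) * b ^ 2 - p * b := by
          field_simp
          ring
        linarith
      have h5 : 1 / (2 * lam) * b ^ 2 ≤ 1 / (2 * lam) * b := by
        refine mul_le_mul_of_nonneg_left ?_ (by positivity)
        nlinarith
      linarith
    have i3 : Integrable (fun η => cE ρ (Pa d t)ᶜ (Qt β h L t y) η * bd94 ρ β h u m t x y η)
        (law d ρ) := Integrable.mono' (integrable_const (1 : ℝ))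
      ((measurable_cE (measurable_Qt94 β h L t y) _).mul
        (bd94_meas β h u m t x y)).aestronglyMeasurable
      (Eventually.of_forall fun η => by
        rw [Real.norm_eq_abs, abs_mul]
        refine mul_le_one₀ (cE_abs_le (hQabs y) _ η) (abs_nonneg _) ?_
        rw [abs_of_nonneg (bd94_nonneg β h u m t x y η)]
        exact bd94_le_one β h u m t x y η)
    have h2 : ∫ η, cE ρ (Pa d t)ᶜ (Qt β h L t y) η * bd94 ρ β h u m t x y η ∂(law d ρ) ≤
        ∫ η, (lam / 2 * (cE ρ (Pa d t)ᶜ (Qt β h L t y) η) ^ 2 +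
          1 / (2 * lam) * bd94 ρ β h u m t x y η) ∂(law d ρ) :=
      integral_mono i3 (((iE y).const_mul (lam / 2)).add ((ib y).const_mul (1 / (2 * lam)))) h1
    refine h2.trans ?_
    have h3 : ∫ η, (lam / 2 * (cE ρ (Pa d t)ᶜ (Qt β h L t y) η) ^ 2 +
          1 / (2 * lam) * bd94 ρ β h u m t x y η) ∂(law d ρ) =
        lam / 2 * ∫ η, (cE ρ (Pa d t)ᶜ (Qt β h L t y) η) ^ 2 ∂(law d ρ) +
          1 / (2 * lam) * ∫ η, bd94 ρ β h u m t x y η ∂(law d ρ) := by
      rw [integral_add ((iE y).const_mul (lam / 2)) ((ib y).const_mul (1 / (2 * lam))),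
        integral_const_mul, integral_const_mul]
    rw [h3]
    have h5 := mul_le_mul_of_nonneg_left (bd94_int (ρ := ρ) hd hρ β h u m t hx y k3 k4)
      (show 0 ≤ 1 / (2 * lam) by positivity)
    have h6 : 1 / (2 * lam) * (2 * K / x ^ 2) = (K / x ^ 2) / lam := by
      field_simp
    rw [h6] at h5
    linarith
  have hint : ∫ η, ∑ y ∈ Y, Qt β h L t y η ∂(law d ρ) ≤
      ∫ η, ((8 / c ^ 2 + 4 / c ^ 2 * ζ η ^ 2) +
        ∑ y ∈ Y, Qt β h L t y η * bd94 ρ β h u m t x y η) ∂(law d ρ) :=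
    integral_mono (integrable_finsetSum Y fun y _ => iQ y)
      (((integrable_const (8 / c ^ 2)).add (iζ.const_mul (4 / c ^ 2))).add
      (integrable_finsetSum Y fun y _ => iQb y)) hpt
  refine hint.trans ?_
  have e1 : ∫ η, ((8 / c ^ 2 + 4 / c ^ 2 * ζ η ^ 2) +
        ∑ y ∈ Y, Qt β h L t y η * bd94 ρ β h u m t x y η) ∂(law d ρ) =
      (8 / c ^ 2 + 4 / c ^ 2 * ∫ η, ζ η ^ 2 ∂(law d ρ)) +
        ∑ y ∈ Y, ∫ η, Qt β h L t y η * bd94 ρ β h u m t x y η ∂(law d ρ) := by
    have j1 : Integrable (fun η : Env d => 8 / c ^ 2 + 4 / c ^ 2 * ζ η ^ 2) (law d ρ) :=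
      (integrable_const (8 / c ^ 2)).add (iζ.const_mul (4 / c ^ 2))
    rw [integral_add j1 (integrable_finsetSum Y fun y _ => iQb y),
      integral_add (integrable_const (8 / c ^ 2)) (iζ.const_mul (4 / c ^ 2)),
      integral_finsetSum Y fun y _ => iQb y, integral_const_mul]
    simp
  rw [e1]
  have e2 : ∑ y ∈ Y, ∫ η, Qt β h L t y η * bd94 ρ β h u m t x y η ∂(law d ρ) ≤
      lam / 2 * ∫ η, ∑ y ∈ Y, (cE ρ (Pa d t)ᶜ (Qt β h L t y) η) ^ 2 ∂(law d ρ) +
      Y.card * (K / x ^ 2) / lam := by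
    refine (Finset.sum_le_sum fun y _ => hone y).trans (le_of_eq ?_)
    rw [Finset.sum_add_distrib, Finset.sum_const, nsmul_eq_mul, ← Finset.mul_sum,
      integral_finsetSum Y fun y _ => iE y]
    ring
  have e3 : 8 / c ^ 2 + 4 / c ^ 2 * ∫ η, ζ η ^ 2 ∂(law d ρ) ≤ (8 + 16 * K) / c ^ 2 := by
    have h1 := mul_le_mul_of_nonneg_left hζ2 (show 0 ≤ 4 / c ^ 2 by positivity)
    have h2 : 8 / c ^ 2 + 4 / c ^ 2 * (4 * K) = (8 + 16 * K) / c ^ 2 := by ring
    linarith
  linarith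

end Pool.Agent.W_7d29a1_Q29
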