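import Pool.Agent.W_7d29a1_Q29.NTb66

/-!
Very strong disorder: for a positive fraction of the lengths `m ≤ N` the second moment of
`log Z_m - m lam` is at least a multiple of `(log N) ^ 2`.
-/

namespace Pool.Agent.W_7d29a1_Q29.NT66

open MeasureTheory ProbabilityTheory Filter Topology Pool.Agent.W_MP_7d29a1_pr
  Pool.Agent.W_7d29a1_h46 Pool.Agent.W_7d29a1_h46u Pool.Agent.W_7d29a1_D2.B35
  Pool.Agent.W_7d29a1_Q29

variable {d : ℕ} {ρ : Measure ℝ} [IsProbabilityMeasure ρ]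

open Classical in
/-- One length. -/
theorem count_le (hd : 0 < d) (hρ : EM ρ) {β : ℝ} {h : Vec d} {c₀ C : ℝ} (hc : 0 < c₀)
    (hC : 0 ≤ C) {n : ℕ}
    (hNP : ∑ t ∈ Finset.range (2 * n), ∫ η, ∑ y ∈ boxF d (2 * n),
      (cE ρ (Pa d t) (Qt β h (2 * n) t y) η) ^ 2 ∂(law d ρ) ≤ C * Va ρ β h (2 * n))
    (hloc : c₀ * n ≤ (((Finset.range n).filter fun t =>
      c₀ ≤ (law d ρ).real {η | ∃ y ∈ boxF d t, c₀ * Z β h η t ≤ PP β h η t y}).card : ℝ))
    {S : ℝ} (hS : 0 < S) (hL : SM ρ β h (2 * n) ≤ S ^ 2)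
    (hcnt : (((Finset.range (2 * n + 1)).filter fun m => S ^ 2 < SM ρ β h m).card : ℝ) <
      c₀ / 4 * n) :
    c₀ ^ 4 / 4 * n * Real.exp (-(12 * S / c₀)) ≤ C * S ^ 2 := by
  set I : ℕ → ℝ := fun t => ∫ η, ∑ y ∈ boxF d (2 * n),
      (cE ρ (Pa d t) (Qt β h (2 * n) t y) η) ^ 2 ∂(law d ρ) with hI
  set T : Finset ℕ := (Finset.range n).filter fun t =>
      c₀ ≤ (law d ρ).real {η | ∃ y ∈ boxF d t, c₀ * Z β h η t ≤ PP β h η t y} with hT
  set B : Finset ℕ := (Finset.range (2 * n + 1)).filter fun m => S ^ 2 < SM ρ β h m with hB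
  set T' : Finset ℕ := T.filter fun t => SM ρ β h t ≤ S ^ 2 ∧ SM ρ β h (2 * n - t) ≤ S ^ 2
    with hT'
  have hsub : T ⊆ T' ∪ (B ∪ (Finset.range n).filter fun t => 2 * n - t ∈ B) := by
    intro t ht
    have htn : t < n := Finset.mem_range.1 (Finset.mem_filter.1 ht).1
    by_cases h1 : SM ρ β h t ≤ S ^ 2
    · by_cases h2 : SM ρ β h (2 * n - t) ≤ S ^ 2
      · exact Finset.mem_union_left _ (Finset.mem_filter.2 ⟨ht, h1, h2⟩)
      · refine Finset.mem_union_right _ (Finset.mem_union_right _ ?_)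
        refine Finset.mem_filter.2 ⟨Finset.mem_range.2 htn, Finset.mem_filter.2 ⟨?_, ?_⟩⟩
        · exact Finset.mem_range.2 (by omega)
        · exact not_le.1 h2
    · refine Finset.mem_union_right _ (Finset.mem_union_left _ ?_)
      exact Finset.mem_filter.2 ⟨Finset.mem_range.2 (by omega), not_le.1 h1⟩
  have hcard2 : ((Finset.range n).filter fun t => 2 * n - t ∈ B).card ≤ B.card := by
    refine Finset.card_le_card_of_injOn (fun t => 2 * n - t) ?_ ?_
    · intro t ht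
      exact (Finset.mem_filter.1 ht).2
    · intro t ht s hs hts
      have h1 := Finset.mem_range.1 (Finset.mem_filter.1 ht).1
      have h2 := Finset.mem_range.1 (Finset.mem_filter.1 hs).1
      simp only at hts
      omega
  have hcard : T.card ≤ T'.card + (B.card + B.card) :=
    (Finset.card_le_card hsub).trans ((Finset.card_union_le _ _).trans
      (Nat.add_le_add_left ((Finset.card_union_le _ _).trans (Nat.add_le_add_left hcard2 _)) _))
  have hcardR : (T.card : ℝ) ≤ T'.card + (B.card + B.card) := by exact_mod_cast hcard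
  have hT'n : c₀ / 2 * n ≤ (T'.card : ℝ) := by linarith
  have hI0 : ∀ t, 0 ≤ I t := fun t => integral_nonneg fun η =>
    Finset.sum_nonneg fun y _ => sq_nonneg _
  have hone : ∀ t ∈ T', c₀ ^ 3 / 2 * Real.exp (-(12 * S / c₀)) ≤ I t := by
    intro t ht
    obtain ⟨h1, h2, h3⟩ := Finset.mem_filter.1 ht
    obtain ⟨h4, h5⟩ := Finset.mem_filter.1 h1
    have h6 := Finset.mem_range.1 h4
    exact one_t hd hρ (by omega) hc hS hL h2 h3 h5
  have hsubT : T' ⊆ Finset.range (2 * n) := by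
    intro t ht
    have h6 := Finset.mem_range.1 (Finset.mem_filter.1 (Finset.mem_filter.1 ht).1).1
    exact Finset.mem_range.2 (by omega)
  have h1 : (T'.card : ℝ) * (c₀ ^ 3 / 2 * Real.exp (-(12 * S / c₀))) ≤ ∑ t ∈ T', I t := by
    have := Finset.card_nsmul_le_sum T' I _ hone
    rwa [nsmul_eq_mul] at this
  have h2 : ∑ t ∈ T', I t ≤ ∑ t ∈ Finset.range (2 * n), I t :=
    Finset.sum_le_sum_of_subset_of_nonneg hsubT fun t _ _ => hI0 t
  have h3 : C * Va ρ β h (2 * n) ≤ C * S ^ 2 :=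
    mul_le_mul_of_nonneg_left ((Va_le_SM hd hρ β h _).trans hL) hC
  have h4 : c₀ / 2 * n * (c₀ ^ 3 / 2 * Real.exp (-(12 * S / c₀))) ≤
      (T'.card : ℝ) * (c₀ ^ 3 / 2 * Real.exp (-(12 * S / c₀))) :=
    mul_le_mul_of_nonneg_right hT'n (by positivity)
  have h5 : c₀ / 2 * n * (c₀ ^ 3 / 2 * Real.exp (-(12 * S / c₀))) =
      c₀ ^ 4 / 4 * n * Real.exp (-(12 * S / c₀)) := by ring
  linarith

open Classical in
/-- Either the length `2 n` itself or a positive fraction of the lengths `≤ 2 n`. -/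
theorem dichot (hd : 0 < d) (hρ : EM ρ) {β : ℝ} (hNPF : NPF d ρ β) (hLoc : LocE d ρ β) :
    ∀ g : ℝ, 0 < g → ∃ c₀ : ℝ, 0 < c₀ ∧ ∃ n₀ : ℕ, 2 ≤ n₀ ∧ ∀ h : Vec d,
      lam ρ β h + g ≤ Real.log (Phi h) + Real.log (∫ t, Real.exp (β * t) ∂ρ) →
      ∀ n : ℕ, n₀ ≤ n → (c₀ / 48 * Real.log n) ^ 2 < SM ρ β h (2 * n) ∨
        c₀ / 4 * n ≤ (((Finset.range (2 * n + 1)).filter fun m =>
          (c₀ / 48 * Real.log n) ^ 2 < SM ρ β h m).card : ℝ) := by
  intro g hg
  obtain ⟨c₀, hc, hl⟩ := hLoc g hg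
  obtain ⟨C, hC, hN⟩ := hNPF
  set K : ℝ := 64 * C * (c₀ / 48) ^ 2 / c₀ ^ 4 with hK
  have hK0 : 0 ≤ K := by positivity
  obtain ⟨n₁, hn₁⟩ := exists_nat_gt (K ^ 4)
  refine ⟨c₀, hc, n₁ + 2, by omega, fun h hh n hn => ?_⟩
  by_contra hcon
  rw [not_or, not_lt, not_le] at hcon
  obtain ⟨hL, hcnt⟩ := hcon
  have hn2 : (2 : ℝ) ≤ n := by exact_mod_cast (by omega : 2 ≤ n)
  have hn0 : (0 : ℝ) < n := by linarith
  have hlog : 0 < Real.log n := Real.log_pos (by linarith)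
  set S : ℝ := c₀ / 48 * Real.log n with hSdef
  have hS : 0 < S := by positivity
  have h1 := count_le hd hρ hc hC (hN h (2 * n)) (hl h hh n) hS hL hcnt
  set a : ℝ := Real.exp (Real.log n / 4) with ha
  have ha0 : 0 < a := Real.exp_pos _
  have ha4 : a ^ 4 = n := by
    rw [ha, ← Real.exp_nat_mul]
    have : ((4 : ℕ) : ℝ) * (Real.log n / 4) = Real.log n := by
      push_cast
      ring
    rw [this, Real.exp_log hn0]
  have hla : Real.log n ≤ 4 * a := by
    have := Real.add_one_le_exp (Real.log n / 4)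
    rw [← ha] at this
    linarith
  have he : Real.exp (-(12 * S / c₀)) = a⁻¹ := by
    rw [ha, ← Real.exp_neg]
    congr 1
    rw [hSdef]
    field_simp
    ring
  rw [he] at h1
  have h2 : C * S ^ 2 ≤ C * (c₀ / 48) ^ 2 * (16 * a ^ 2) := by
    rw [hSdef, mul_pow, ← mul_assoc]
    refine mul_le_mul_of_nonneg_left ?_ (by positivity)
    have := pow_le_pow_left₀ hlog.le hla 2
    calc Real.log n ^ 2 ≤ (4 * a) ^ 2 := this
      _ = 16 * a ^ 2 := by ring
  have h3 : c₀ ^ 4 / 4 * n * a⁻¹ = c₀ ^ 4 / 4 * a * a ^ 2 := by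
    rw [← ha4]
    field_simp
  have h4 : c₀ ^ 4 / 4 * a * a ^ 2 ≤ 16 * C * (c₀ / 48) ^ 2 * a ^ 2 := by
    rw [← h3]
    calc c₀ ^ 4 / 4 * n * a⁻¹ ≤ C * (c₀ / 48) ^ 2 * (16 * a ^ 2) := h1.trans h2
      _ = _ := by ring
  have h5 : c₀ ^ 4 / 4 * a ≤ 16 * C * (c₀ / 48) ^ 2 := le_of_mul_le_mul_right h4 (by positivity)
  have h6 : a ≤ K := by
    rw [hK, le_div_iff₀ (by positivity)]
    linarith
  have h7 : a ^ 4 ≤ K ^ 4 := pow_le_pow_left₀ ha0.le h6 4
  have h8 : (n₁ : ℝ) ≤ n := by exact_mod_cast (by omega : n₁ ≤ n)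
  linarith

open Classical in
/-- Very strong disorder, uniformly in the tilt when the gap is at least `g`. -/
theorem dens66 (hd : 0 < d) (hρ : EM ρ) {β : ℝ} (hNPF : NPF d ρ β) (hLoc : LocE d ρ β) :
    ∀ g : ℝ, 0 < g → ∃ c : ℝ, 0 < c ∧ ∃ N₀ : ℕ, ∀ h : Vec d,
      lam ρ β h + g ≤ Real.log (Phi h) + Real.log (∫ t, Real.exp (β * t) ∂ρ) →
      ∀ N : ℕ, N₀ ≤ N → c * N ≤ (((Finset.range (N + 1)).filter fun m =>
        c * (Real.log N) ^ 2 ≤ SM ρ β h m).card : ℝ) := by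
  intro g hg
  obtain ⟨c₀, hc, n₀, hn₀, hdi⟩ := dichot hd hρ hNPF hLoc g hg
  set c : ℝ := min (1 / 8) (min (c₀ / 32) (c₀ ^ 2 / 9216)) with hcdef
  have hc1 : c ≤ 1 / 8 := min_le_left _ _
  have hc2 : c ≤ c₀ / 32 := (min_le_right _ _).trans (min_le_left _ _)
  have hc3 : c ≤ c₀ ^ 2 / 9216 := (min_le_right _ _).trans (min_le_right _ _)
  have hcp : 0 < c := lt_min (by norm_num) (lt_min (by positivity) (by positivity))
  refine ⟨c, hcp, 4 * n₀ + 64, fun h hh N hN => ?_⟩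
  set k : ℕ := N / 4 with hk
  have hk1 : n₀ ≤ k := by omega
  have hk4 : 4 * k ≤ N := by omega
  have hk8 : N ≤ 8 * k := by omega
  have hNR : (64 : ℝ) ≤ N := by exact_mod_cast (by omega : 64 ≤ N)
  have hkR : (N : ℝ) ≤ 8 * k := by exact_mod_cast hk8
  have hk0 : (0 : ℝ) < k := by linarith
  have hlogN : 0 < Real.log N := Real.log_pos (by linarith)
  have hlogk : Real.log N / 2 ≤ Real.log k := by
    have h1 : (N : ℝ) ≤ (k : ℝ) ^ 2 := by
      have h2 : (8 : ℝ) ≤ k := by linarith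
      nlinarith
    have h3 := Real.log_le_log (by linarith) h1
    rw [Real.log_pow] at h3
    push_cast at h3
    linarith
  -- the thresholds
  have hthr : ∀ n : ℕ, k ≤ n → c * (Real.log N) ^ 2 ≤ (c₀ / 48 * Real.log n) ^ 2 := by
    intro n hn
    have h1 : (k : ℝ) ≤ n := by exact_mod_cast hn
    have h2 : Real.log N / 2 ≤ Real.log n := hlogk.trans (Real.log_le_log hk0 h1)
    have h3 : (Real.log N / 2) ^ 2 ≤ Real.log n ^ 2 := pow_le_pow_left₀ (by positivity) h2 2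
    calc c * (Real.log N) ^ 2 ≤ c₀ ^ 2 / 9216 * (Real.log N) ^ 2 :=
          mul_le_mul_of_nonneg_right hc3 (sq_nonneg _)
      _ = (c₀ / 48) ^ 2 * (Real.log N / 2) ^ 2 := by ring
      _ ≤ (c₀ / 48) ^ 2 * Real.log n ^ 2 := mul_le_mul_of_nonneg_left h3 (sq_nonneg _)
      _ = _ := by ring
  by_cases hall : ∀ n ∈ Finset.Icc k (2 * k), (c₀ / 48 * Real.log n) ^ 2 < SM ρ β h (2 * n)
  · have h1 : (Finset.Icc k (2 * k)).card ≤ ((Finset.range (N + 1)).filter fun m =>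
        c * (Real.log N) ^ 2 ≤ SM ρ β h m).card := by
      refine Finset.card_le_card_of_injOn (fun n => 2 * n) ?_ ?_
      · intro n hn
        have h2 := Finset.mem_Icc.1 hn
        refine Finset.mem_filter.2 ⟨Finset.mem_range.2 (by simp only; omega), ?_⟩
        exact (hthr n h2.1).trans (hall n hn).le
      · intro a _ b _ hab
        simp only at hab
        omega
    rw [Nat.card_Icc] at h1
    have h3 : ((2 * k + 1 - k : ℕ) : ℝ) ≤ (((Finset.range (N + 1)).filter fun m =>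
        c * (Real.log N) ^ 2 ≤ SM ρ β h m).card : ℝ) := by exact_mod_cast h1
    refine le_trans ?_ h3
    have h4 : (k : ℝ) ≤ ((2 * k + 1 - k : ℕ) : ℝ) := by exact_mod_cast (by omega)
    have h5 : c * N ≤ 1 / 8 * N := mul_le_mul_of_nonneg_right hc1 (by linarith)
    linarith
  · push Not at hall
    obtain ⟨n, hn, hle⟩ := hall
    obtain ⟨hn1, hn2⟩ := Finset.mem_Icc.1 hn
    rcases hdi h hh n (hk1.trans hn1) with h1 | h1
    · exact absurd h1 (not_lt.2 hle)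
    · have h2 : ((Finset.range (2 * n + 1)).filter fun m =>
          (c₀ / 48 * Real.log n) ^ 2 < SM ρ β h m).card ≤ ((Finset.range (N + 1)).filter fun m =>
          c * (Real.log N) ^ 2 ≤ SM ρ β h m).card := by
        refine Finset.card_le_card fun m hm => ?_
        obtain ⟨h3, h4⟩ := Finset.mem_filter.1 hm
        have h5 := Finset.mem_range.1 h3
        exact Finset.mem_filter.2 ⟨Finset.mem_range.2 (by omega), (hthr n hn1).trans h4.le⟩
      have h6 : (((Finset.range (2 * n + 1)).filter fun m =>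
          (c₀ / 48 * Real.log n) ^ 2 < SM ρ β h m).card : ℝ) ≤
          (((Finset.range (N + 1)).filter fun m =>
          c * (Real.log N) ^ 2 ≤ SM ρ β h m).card : ℝ) := by exact_mod_cast h2
      refine le_trans ?_ (h1.trans h6)
      have h7 : (k : ℝ) ≤ n := by exact_mod_cast hn1
      have h8 : c * N ≤ c₀ / 32 * N := mul_le_mul_of_nonneg_right hc2 (by linarith)
      have h9 : c₀ / 4 * k ≤ c₀ / 4 * n := mul_le_mul_of_nonneg_left h7 (by positivity)
      have h10 : c₀ / 32 * N ≤ c₀ / 32 * (8 * k) := mul_le_mul_of_nonneg_left hkR (by positivity)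
      linarith

open Classical in
/-- One tilt of very strong disorder: at least `c N` of the lengths `m ≤ N` satisfy
`E (log Z_m - m lam) ^ 2 ≥ c (log N) ^ 2`. -/
theorem notTight66 (hd : 0 < d) (hρ : EM ρ) {β : ℝ} (hNPF : NPF d ρ β) (hLoc : LocE d ρ β) :
    ∀ h : Vec d, VSD ρ β h → ∃ c : ℝ, 0 < c ∧ ∃ N₀ : ℕ, ∀ N : ℕ, N₀ ≤ N →
      c * N ≤ (((Finset.range (N + 1)).filter fun m => c * (Real.log N) ^ 2 ≤
        ∫ η, (X β h η m - m * lam ρ β h) ^ 2 ∂(law d ρ)).card : ℝ) := by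
  intro h hV
  unfold VSD at hV
  obtain ⟨c, hc, N₀, hN⟩ := dens66 hd hρ hNPF hLoc
    (Real.log (Phi h) + Real.log (∫ t, Real.exp (β * t) ∂ρ) - lam ρ β h) (by linarith)
  exact ⟨c, hc, N₀, fun N hN' => hN h (by linarith) N hN'⟩

end Pool.Agent.W_7d29a1_Q29.NT66
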