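import Pool.Agent.W_7d29a1_Q29.NTa66

/-!
Very strong disorder: for a positive fraction of the lengths `m` the second moment of
`log Z_m - m lam` is at least a multiple of `(log m) ^ 2`.
-/

namespace Pool.Agent.W_7d29a1_Q29.NT66

open MeasureTheory ProbabilityTheory Filter Topology Pool.Agent.W_MP_7d29a1_pr
  Pool.Agent.W_7d29a1_h46 Pool.Agent.W_7d29a1_h46u Pool.Agent.W_7d29a1_D2.B35
  Pool.Agent.W_7d29a1_Q29

variable {d : ℕ} {ρ : Measure ℝ} [IsProbabilityMeasure ρ]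

/-- The second moment of `log Z_m - m lam`. -/
noncomputable def SM (ρ : Measure ℝ) (β : ℝ) (h : Vec d) (m : ℕ) : ℝ :=
  ∫ η, (X β h η m - m * lam ρ β h) ^ 2 ∂(law d ρ)

lemma int_sq (hd : 0 < d) (hρ : EM ρ) (β : ℝ) (h : Vec d) (m : ℕ) :
    Integrable (fun η => (X β h η m - A ρ β h m) ^ 2) (law d ρ) := by
  rcases Nat.eq_zero_or_pos m with rfl | hm
  · have h1 : ∀ η : Env d, X β h η 0 = 0 := by
      intro η
      unfold X
      rw [Z_zero, Real.log_one]
    simp only [h1]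
    exact integrable_const _
  · obtain ⟨C, _, hC⟩ := momU (ρ := ρ) hd hρ β 2
    have h1 := (hC h m hm).1
    simpa only [sq_abs] using h1

/-- The second moment about a constant. -/
lemma sm_eq (hd : 0 < d) (hρ : EM ρ) (β : ℝ) (h : Vec d) (m : ℕ) (c : ℝ) :
    Integrable (fun η => (X β h η m - c) ^ 2) (law d ρ) ∧
      ∫ η, (X β h η m - c) ^ 2 ∂(law d ρ) = Va ρ β h m + (A ρ β h m - c) ^ 2 := by
  have h1 := int_sq (ρ := ρ) hd hρ β h m
  have h2 : Integrable (fun η => 2 * (A ρ β h m - c) * (X β h η m - A ρ β h m)) (law d ρ) :=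
    ((concU hd hρ β h m).1.sub (integrable_const _)).const_mul _
  have h3 : Integrable (fun _ : Env d => (A ρ β h m - c) ^ 2) (law d ρ) := integrable_const _
  have e1 : (fun η : Env d => (X β h η m - c) ^ 2) = fun η => (X β h η m - A ρ β h m) ^ 2 +
      2 * (A ρ β h m - c) * (X β h η m - A ρ β h m) + (A ρ β h m - c) ^ 2 := by
    funext η
    ring
  have h12 : Integrable (fun η : Env d => (X β h η m - A ρ β h m) ^ 2 +
      2 * (A ρ β h m - c) * (X β h η m - A ρ β h m)) (law d ρ) := h1.add h2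
  refine ⟨?_, ?_⟩
  · rw [e1]
    exact h12.add h3
  · rw [e1, integral_add h12 h3, integral_add h1 h2, integral_const_mul,
      integral_sub (concU hd hρ β h m).1 (integrable_const _), integral_const, integral_const]
    simp [Va, A]

lemma Va_le_SM (hd : 0 < d) (hρ : EM ρ) (β : ℝ) (h : Vec d) (m : ℕ) :
    Va ρ β h m ≤ SM ρ β h m := by
  unfold SM
  rw [(sm_eq hd hρ β h m _).2]
  nlinarith [sq_nonneg (A ρ β h m - m * lam ρ β h)]

/-- The first moment from the second. -/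
lemma abs_le_S (hd : 0 < d) (hρ : EM ρ) {β : ℝ} {h : Vec d} {m : ℕ} {S : ℝ} (hS : 0 < S)
    (hm : SM ρ β h m ≤ S ^ 2) :
    ∫ η, |X β h η m - m * lam ρ β h| ∂(law d ρ) ≤ S := by
  have h1 : Integrable (fun η => |X β h η m - m * lam ρ β h|) (law d ρ) :=
    ((concU hd hρ β h m).1.sub (integrable_const _)).abs
  have h2 := (sm_eq (ρ := ρ) hd hρ β h m (m * lam ρ β h)).1
  have h3 : ∀ η, |X β h η m - m * lam ρ β h| ≤
      (2 * S)⁻¹ * (X β h η m - m * lam ρ β h) ^ 2 + S / 2 := by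
    intro η
    rw [← sq_abs]
    set y := |X β h η m - m * lam ρ β h|
    have h4 : (2 * S)⁻¹ * y ^ 2 + S / 2 - y = (y - S) ^ 2 / (2 * S) := by
      field_simp
      ring
    have h5 : 0 ≤ (y - S) ^ 2 / (2 * S) := by positivity
    linarith
  have h6 := integral_mono h1 ((h2.const_mul _).add (integrable_const _)) h3
  have h7 : ∫ η, ((2 * S)⁻¹ * (X β h η m - m * lam ρ β h) ^ 2 + S / 2) ∂(law d ρ) =
      (2 * S)⁻¹ * SM ρ β h m + S / 2 := by
    rw [integral_add (h2.const_mul _) (integrable_const _), integral_const_mul, integral_const]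
    simp [SM]
  have h8 : (2 * S)⁻¹ * SM ρ β h m ≤ (2 * S)⁻¹ * S ^ 2 :=
    mul_le_mul_of_nonneg_left hm (by positivity)
  have h9 : (2 * S)⁻¹ * S ^ 2 = S / 2 := by
    field_simp
  calc ∫ η, |X β h η m - m * lam ρ β h| ∂(law d ρ) ≤
      ∫ η, ((2 * S)⁻¹ * (X β h η m - m * lam ρ β h) ^ 2 + S / 2) ∂(law d ρ) := h6
    _ = (2 * S)⁻¹ * SM ρ β h m + S / 2 := h7
    _ ≤ S := by linarith

/-- The gain is small in the mean. -/
lemma Us_le (hd : 0 < d) (hρ : EM ρ) {β : ℝ} {h : Vec d} {L t : ℕ} (htL : t ≤ L) {S : ℝ}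
    (hS : 0 < S) (h1 : SM ρ β h L ≤ S ^ 2) (h2 : SM ρ β h t ≤ S ^ 2)
    (h3 : SM ρ β h (L - t) ≤ S ^ 2) : ∫ η, |Us ρ β h L t η| ∂(law d ρ) ≤ 3 * S := by
  have i1 : Integrable (fun η => X β h η L - L * lam ρ β h) (law d ρ) :=
    (concU hd hρ β h L).1.sub (integrable_const _)
  have i2 : Integrable (fun η => X β h η t - t * lam ρ β h) (law d ρ) :=
    (concU hd hρ β h t).1.sub (integrable_const _)
  have i3 : Integrable (fun η => X β h η (L - t) - (L - t : ℕ) * lam ρ β h) (law d ρ) :=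
    (concU hd hρ β h (L - t)).1.sub (integrable_const _)
  have e3 : ∫ η, (X β h η (L - t) - (L - t : ℕ) * lam ρ β h) ∂(law d ρ) =
      A ρ β h (L - t) - (L - t : ℕ) * lam ρ β h := by
    rw [integral_sub (concU hd hρ β h (L - t)).1 (integrable_const _), integral_const]
    simp [A]
  have h4 : |A ρ β h (L - t) - (L - t : ℕ) * lam ρ β h| ≤ S := by
    rw [← e3]
    exact abs_integral_le_integral_abs.trans (abs_le_S hd hρ hS h3)
  have hcast : ((L - t : ℕ) : ℝ) = L - t := Nat.cast_sub htL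
  have h5 : ∀ η, |Us ρ β h L t η| ≤ (|X β h η L - L * lam ρ β h| +
      |X β h η t - t * lam ρ β h|) + S := by
    intro η
    have e4 : Us ρ β h L t η = (X β h η L - L * lam ρ β h) - (X β h η t - t * lam ρ β h) -
        (A ρ β h (L - t) - (L - t : ℕ) * lam ρ β h) := by
      unfold Us
      rw [hcast]
      ring
    rw [e4]
    refine (abs_sub _ _).trans (add_le_add (abs_sub _ _) h4)
  have i12 : Integrable (fun η => |X β h η L - L * lam ρ β h| +
      |X β h η t - t * lam ρ β h|) (law d ρ) := i1.abs.add i2.abs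
  have h6 := integral_mono (integrable_Us hd hρ β h L t).abs (i12.add (integrable_const S)) h5
  have h7 : ∫ η, ((|X β h η L - L * lam ρ β h| + |X β h η t - t * lam ρ β h|) + S) ∂(law d ρ) =
      ∫ η, |X β h η L - L * lam ρ β h| ∂(law d ρ) +
        ∫ η, |X β h η t - t * lam ρ β h| ∂(law d ρ) + S := by
    rw [integral_add i12 (integrable_const S), integral_add i1.abs i2.abs, integral_const]
    simp
  have h8 := abs_le_S hd hρ hS h1
  have h9 := abs_le_S hd hρ hS h2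
  calc ∫ η, |Us ρ β h L t η| ∂(law d ρ) ≤
      ∫ η, ((|X β h η L - L * lam ρ β h| + |X β h η t - t * lam ρ β h|) + S) ∂(law d ρ) := h6
    _ ≤ 3 * S := by rw [h7]; linarith

/-- One localised time. -/
theorem one_t (hd : 0 < d) (hρ : EM ρ) {β : ℝ} {h : Vec d} {L t : ℕ} (htL : t ≤ L) {c₀ S : ℝ}
    (hc : 0 < c₀) (hS : 0 < S) (h1 : SM ρ β h L ≤ S ^ 2) (h2 : SM ρ β h t ≤ S ^ 2)
    (h3 : SM ρ β h (L - t) ≤ S ^ 2)
    (hloc : c₀ ≤ (law d ρ).real {η | ∃ y ∈ boxF d t, c₀ * Z β h η t ≤ PP β h η t y}) :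
    c₀ ^ 3 / 2 * Real.exp (-(12 * S / c₀)) ≤
      ∫ η, ∑ y ∈ boxF d L, (cE ρ (Pa d t) (Qt β h L t y) η) ^ 2 ∂(law d ρ) := by
  have hM : 0 < 6 * S / c₀ := by positivity
  refine le_trans ?_ (sq_ge hd hρ β h htL hc hM hloc)
  have h4 := Us_le hd hρ htL hS h1 h2 h3
  have h5 : (∫ η, |Us ρ β h L t η| ∂(law d ρ)) / (6 * S / c₀) ≤ c₀ / 2 := by
    rw [div_le_iff₀ hM]
    have : c₀ / 2 * (6 * S / c₀) = 3 * S := by
      field_simp
      ring
    rw [this]
    exact h4
  have h6 : (c₀ * Real.exp (-(6 * S / c₀))) ^ 2 = c₀ ^ 2 * Real.exp (-(12 * S / c₀)) := by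
    rw [mul_pow, ← Real.exp_nat_mul]
    congr 2
    push_cast
    ring
  rw [h6]
  have h7 : c₀ ^ 3 / 2 * Real.exp (-(12 * S / c₀)) =
      c₀ ^ 2 * Real.exp (-(12 * S / c₀)) * (c₀ / 2) := by ring
  rw [h7]
  exact mul_le_mul_of_nonneg_left (by linarith) (by positivity)

end Pool.Agent.W_7d29a1_Q29.NT66
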