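import Pool.Agent.W_7d29a1_Q29.Defs29

/-!
The one site inequality: the free energy as a function of the weight of one site.
-/

namespace Pool.Agent.W_7d29a1_Q29.Site11

open MeasureTheory ProbabilityTheory Filter Topology Pool.Agent.W_MP_7d29a1_pr
  Pool.Agent.W_7d29a1_h46 Pool.Agent.W_7d29a1_h46u Pool.Agent.W_7d29a1_D2.B35
  Pool.Agent.W_7d29a1_Q29

/-- The logarithm of a mixture against the mixing probability. -/
lemma log_mix {q u : ℝ} (h0 : 0 ≤ q) (h1 : q ≤ 1) :
    q * u ^ 2 * Real.exp (-|u|) ≤ u * Real.log (1 - q + q * Real.exp u) := by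
  have hp : 0 < 1 - q + q * Real.exp u := by
    rcases eq_or_lt_of_le h0 with h | h
    · rw [← h]
      norm_num
    · have := mul_pos h (Real.exp_pos u)
      linarith
  rcases le_total 0 u with hu | hu
  · -- positive side
    have hc : q * u ≤ Real.log (1 - q + q * Real.exp u) := by
      rw [Real.le_log_iff_exp_le hp]
      have := convexOn_exp.2 (Set.mem_univ (0 : ℝ)) (Set.mem_univ u) (by linarith : 0 ≤ 1 - q) h0
        (by ring)
      simp only [smul_eq_mul, mul_zero, zero_add, Real.exp_zero, mul_one] at this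
      exact this
    have h2 : u * (q * u) ≤ u * Real.log (1 - q + q * Real.exp u) :=
      mul_le_mul_of_nonneg_left hc hu
    have h3 : q * u ^ 2 * Real.exp (-|u|) ≤ q * u ^ 2 * 1 :=
      mul_le_mul_of_nonneg_left (Real.exp_le_one_iff.2 (by simp)) (by positivity)
    nlinarith
  · -- negative side
    have hab : |u| = -u := abs_of_nonpos hu
    have h2 : Real.log (1 - q + q * Real.exp u) ≤ -(q * (1 - Real.exp u)) := by
      have := Real.log_le_sub_one_of_pos hp
      linarith
    have h3 : (-u) * Real.exp u ≤ 1 - Real.exp u := by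
      have h4 : -u + 1 ≤ Real.exp (-u) := Real.add_one_le_exp (-u)
      have h5 : Real.exp (-u) * Real.exp u = 1 := by
        rw [← Real.exp_add]
        simp
      have := mul_le_mul_of_nonneg_right h4 (Real.exp_pos u).le
      nlinarith
    rw [hab, neg_neg]
    have h6 : u * (-(q * (1 - Real.exp u))) ≤ u * Real.log (1 - q + q * Real.exp u) :=
      mul_le_mul_of_nonpos_left h2 hu
    have h7 : q * (-u) * ((-u) * Real.exp u) ≤ q * (-u) * (1 - Real.exp u) :=
      mul_le_mul_of_nonneg_left h3 (mul_nonneg h0 (by linarith))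
    nlinarith

lemma log_mix_abs {q u : ℝ} (h0 : 0 ≤ q) (h1 : q ≤ 1) :
    |Real.log (1 - q + q * Real.exp u)| ≤ |u| := by
  have h2 : 0 ≤ 1 - q := by linarith
  have hlo : Real.exp (-|u|) ≤ 1 - q + q * Real.exp u := by
    have h3 : Real.exp (-|u|) ≤ 1 := Real.exp_le_one_iff.2 (by simp)
    have h4 : Real.exp (-|u|) ≤ Real.exp u := Real.exp_le_exp.2 (neg_abs_le u)
    have := mul_le_mul_of_nonneg_left h3 h2
    have := mul_le_mul_of_nonneg_left h4 h0
    nlinarith
  have hhi : 1 - q + q * Real.exp u ≤ Real.exp |u| := by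
    have h3 : 1 ≤ Real.exp |u| := Real.one_le_exp (abs_nonneg u)
    have h4 : Real.exp u ≤ Real.exp |u| := Real.exp_le_exp.2 (le_abs_self u)
    have := mul_le_mul_of_nonneg_left h3 h2
    have := mul_le_mul_of_nonneg_left h4 h0
    nlinarith
  have hp : 0 < 1 - q + q * Real.exp u := (Real.exp_pos _).trans_le hlo
  rw [abs_le]
  constructor
  · rw [Real.le_log_iff_exp_le hp]
    exact hlo
  · rw [Real.log_le_iff_le_exp hp]
    exact hhi

lemma ratio_le {q u : ℝ} (h0 : 0 ≤ q) (h1 : q ≤ 1) :
    q * Real.exp u / (1 - q + q * Real.exp u) ≤ q * Real.exp |u| := by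
  have h2 : 0 ≤ 1 - q := by linarith
  have hlo : Real.exp (-|u|) ≤ 1 - q + q * Real.exp u := by
    have h3 : Real.exp (-|u|) ≤ 1 := Real.exp_le_one_iff.2 (by simp)
    have h4 : Real.exp (-|u|) ≤ Real.exp u := Real.exp_le_exp.2 (neg_abs_le u)
    have := mul_le_mul_of_nonneg_left h3 h2
    have := mul_le_mul_of_nonneg_left h4 h0
    nlinarith
  have hp : 0 < 1 - q + q * Real.exp u := (Real.exp_pos _).trans_le hlo
  rw [div_le_iff₀ hp]
  rcases le_total 0 u with hu | hu
  · rw [abs_of_nonneg hu]
    have h3 : 1 ≤ Real.exp u := Real.one_le_exp hu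
    have h4 : 1 ≤ 1 - q + q * Real.exp u := by nlinarith
    have h5 : 0 ≤ q * Real.exp u := mul_nonneg h0 (Real.exp_pos u).le
    nlinarith
  · rw [abs_of_nonpos hu]
    have h3 : Real.exp u ≤ 1 := Real.exp_le_one_iff.2 hu
    have h4 : Real.exp u ≤ 1 - q + q * Real.exp u := by nlinarith
    have h5 : Real.exp (-u) * Real.exp u = 1 := by
      rw [← Real.exp_add]
      simp
    have h6 : 1 ≤ Real.exp (-u) * (1 - q + q * Real.exp u) := by
      have h8 := mul_le_mul_of_nonneg_left h4 (Real.exp_pos (-u)).le
      rwa [h5] at h8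
    have h7 : q * Real.exp u ≤ q * 1 := mul_le_mul_of_nonneg_left h3 h0
    nlinarith

section Abstract

variable {ρ : Measure ℝ} [IsProbabilityMeasure ρ]

omit [IsProbabilityMeasure ρ] in
lemma exp_abs (hρ : EM ρ) (β m : ℝ) : Integrable (fun r => Real.exp (β * |r - m|)) ρ := by
  have h1 : Integrable (fun r => Real.exp (-(β * m)) * Real.exp (β * r) +
      Real.exp (β * m) * Real.exp (-β * r)) ρ := ((hρ β).const_mul _).add ((hρ (-β)).const_mul _)
  refine Integrable.mono' h1 (by fun_prop) (Eventually.of_forall fun r => ?_)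
  rw [Real.norm_eq_abs, abs_of_pos (Real.exp_pos _), ← Real.exp_add, ← Real.exp_add]
  rcases abs_cases (r - m) with ⟨h, _⟩ | ⟨h, _⟩
  · rw [h]
    have : Real.exp (β * (r - m)) = Real.exp (-(β * m) + β * r) := by
      congr 1
      ring
    rw [this]
    have := Real.exp_pos (β * m + -β * r)
    linarith
  · rw [h]
    have : Real.exp (β * -(r - m)) = Real.exp (β * m + -β * r) := by
      congr 1
      ring
    rw [this]
    have := Real.exp_pos (-(β * m) + β * r)
    linarith

omit [IsProbabilityMeasure ρ] in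
lemma sq_int (hρ : EM ρ) (m : ℝ) : Integrable (fun r => (r - m) ^ 2) ρ := by
  refine Integrable.mono' ((exp_abs hρ 1 m).const_mul 2) (by fun_prop)
    (Eventually.of_forall fun r => ?_)
  rw [Real.norm_eq_abs, abs_of_nonneg (sq_nonneg _), one_mul]
  have h1 := Real.quadratic_le_exp_of_nonneg (abs_nonneg (r - m))
  have h2 : |r - m| ^ 2 = (r - m) ^ 2 := sq_abs _
  have h3 := abs_nonneg (r - m)
  nlinarith

omit [IsProbabilityMeasure ρ] in
lemma lin_int (hρ : EM ρ) (m : ℝ) : Integrable (fun r => r - m) ρ := by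
  refine Integrable.mono' ((exp_abs hρ 1 m)) (by fun_prop)
    (Eventually.of_forall fun r => ?_)
  rw [Real.norm_eq_abs, one_mul]
  have := Real.add_one_le_exp |r - m|
  linarith

/-- The one site inequality in abstract form. -/
theorem onesite (hρ : EM ρ) (hnc : ∀ c : ℝ, ρ {c} ≠ 1) {β : ℝ} (hβ : 0 < β) :
    ∃ c : ℝ, 0 < c ∧ ∀ A B : ℝ, 0 ≤ A → 0 ≤ B → 0 < A + B →
      c * ∫ r, B * Real.exp (β * r) / (A + B * Real.exp (β * r)) ∂ρ ≤
        ∫ r, (r - ∫ s, s ∂ρ) * Real.log (A + B * Real.exp (β * r)) ∂ρ := by
  set m : ℝ := ∫ s, s ∂ρ with hm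
  set v : ℝ := ∫ r, (r - m) ^ 2 * Real.exp (-(β * |r - m|)) ∂ρ with hv
  set C : ℝ := ∫ r, Real.exp (β * |r - m|) ∂ρ with hC
  have hvi : Integrable (fun r => (r - m) ^ 2 * Real.exp (-(β * |r - m|))) ρ := by
    refine Integrable.mono' (sq_int hρ m) (by fun_prop) (Eventually.of_forall fun r => ?_)
    rw [Real.norm_eq_abs, abs_mul, abs_of_nonneg (sq_nonneg _), abs_of_pos (Real.exp_pos _)]
    exact mul_le_of_le_one_right (sq_nonneg _) (Real.exp_le_one_iff.2 (by
      have := mul_nonneg hβ.le (abs_nonneg (r - m))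
      linarith))
  have hC1 : 1 ≤ C := by
    have h1 := integral_mono (integrable_const (1 : ℝ)) (exp_abs hρ β m)
      (fun r => Real.one_le_exp (mul_nonneg hβ.le (abs_nonneg (r - m))))
    simpa using h1
  have hv0 : 0 < v := by
    rw [hv, integral_pos_iff_support_of_nonneg (fun r => mul_nonneg (sq_nonneg _)
      (Real.exp_pos _).le) hvi]
    have h1 : Function.support (fun r => (r - m) ^ 2 * Real.exp (-(β * |r - m|))) = {m}ᶜ := by
      ext r
      simp only [Function.mem_support, Set.mem_compl_iff, Set.mem_singleton_iff, ne_eq,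
        mul_eq_zero, pow_eq_zero_iff, OfNat.ofNat_ne_zero, not_false_eq_true,
        (Real.exp_pos _).ne', or_false, sub_eq_zero]
    rw [h1]
    have h2 := hnc m
    rw [pos_iff_ne_zero]
    intro h3
    apply h2
    have h4 := prob_compl_eq_zero_iff (μ := ρ) (s := {m}) (measurableSet_singleton m)
    exact h4.1 h3
  refine ⟨β * v / C, by positivity, fun A B hA hB hAB => ?_⟩
  have hD : 0 < A + B * Real.exp (β * m) := by
    rcases eq_or_lt_of_le hB with h | h
    · rw [← h, zero_mul, add_zero]
      linarith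
    · have := mul_pos h (Real.exp_pos (β * m))
      linarith
  set D : ℝ := A + B * Real.exp (β * m) with hDd
  set q : ℝ := B * Real.exp (β * m) / D with hq
  have hq0 : 0 ≤ q := div_nonneg (mul_nonneg hB (Real.exp_pos _).le) hD.le
  have hq1 : q ≤ 1 := by
    rw [hq, div_le_one hD]
    linarith
  have e1 : ∀ r : ℝ, A + B * Real.exp (β * r) = D * (1 - q + q * Real.exp (β * (r - m))) := by
    intro r
    have h1 : Real.exp (β * r) = Real.exp (β * m) * Real.exp (β * (r - m)) := by
      rw [← Real.exp_add]
      congr 1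
      ring
    have h2 : D * q = B * Real.exp (β * m) := by
      rw [hq]
      field_simp
    rw [h1]
    have : D * (1 - q + q * Real.exp (β * (r - m))) = D - D * q +
        D * q * Real.exp (β * (r - m)) := by ring
    rw [this, h2, hDd]
    ring
  have hp : ∀ r : ℝ, 0 < 1 - q + q * Real.exp (β * (r - m)) := by
    intro r
    rcases eq_or_lt_of_le hq0 with h | h
    · rw [← h]
      norm_num
    · have := mul_pos h (Real.exp_pos (β * (r - m)))
      linarith
  -- the left side
  have hL : ∫ r, B * Real.exp (β * r) / (A + B * Real.exp (β * r)) ∂ρ ≤ q * C := by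
    rw [hC, ← integral_const_mul]
    refine integral_mono_of_nonneg (Eventually.of_forall fun r => ?_)
      ((exp_abs hρ β m).const_mul q) (Eventually.of_forall fun r => ?_)
    · have h1 : 0 < A + B * Real.exp (β * r) := by
        rw [e1]
        exact mul_pos hD (hp r)
      exact div_nonneg (mul_nonneg hB (Real.exp_pos _).le) h1.le
    · show B * Real.exp (β * r) / (A + B * Real.exp (β * r)) ≤ q * Real.exp (β * |r - m|)
      have h2 : B * Real.exp (β * r) = D * (q * Real.exp (β * (r - m))) := by
        have h1 : Real.exp (β * r) = Real.exp (β * m) * Real.exp (β * (r - m)) := by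
          rw [← Real.exp_add]
          congr 1
          ring
        have h2 : D * q = B * Real.exp (β * m) := by
          rw [hq]
          field_simp
        rw [h1, ← mul_assoc, ← h2]
        ring
      rw [e1, h2, mul_div_mul_left _ _ hD.ne']
      have h3 := ratio_le (u := β * (r - m)) hq0 hq1
      rwa [abs_mul, abs_of_pos hβ] at h3
  -- the right side
  have hR : ∫ r, (r - m) * Real.log (A + B * Real.exp (β * r)) ∂ρ =
      ∫ r, (r - m) * Real.log (1 - q + q * Real.exp (β * (r - m))) ∂ρ := by
    have hi1 : Integrable (fun r => (r - m) * Real.log (1 - q + q * Real.exp (β * (r - m)))) ρ := by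
      refine Integrable.mono' ((sq_int hρ m).const_mul β) (by
        refine Measurable.aestronglyMeasurable ?_
        fun_prop) (Eventually.of_forall fun r => ?_)
      rw [Real.norm_eq_abs, abs_mul]
      have h1 := log_mix_abs (u := β * (r - m)) hq0 hq1
      rw [abs_mul, abs_of_pos hβ] at h1
      have h2 := mul_le_mul_of_nonneg_left h1 (abs_nonneg (r - m))
      have h3 : |r - m| * |r - m| = (r - m) ^ 2 := by
        rw [← sq, sq_abs]
      calc |r - m| * |Real.log (1 - q + q * Real.exp (β * (r - m)))|
          ≤ |r - m| * (β * |r - m|) := h2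
        _ = β * (|r - m| * |r - m|) := by ring
        _ = β * (r - m) ^ 2 := by rw [h3]
    have hi2 : Integrable (fun r => (r - m) * Real.log D) ρ := (lin_int hρ m).mul_const _
    have h0 : ∫ r, (r - m) * Real.log D ∂ρ = 0 := by
      rw [integral_mul_const]
      have hid : Integrable (fun r : ℝ => r) ρ := by
        have := (lin_int hρ m).add (integrable_const m)
        refine this.congr (Eventually.of_forall fun r => ?_)
        simp
      rw [integral_sub hid (integrable_const m)]
      simp [hm]
    have h1 : ∀ r, (r - m) * Real.log (A + B * Real.exp (β * r)) =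
        (r - m) * Real.log D + (r - m) * Real.log (1 - q + q * Real.exp (β * (r - m))) := by
      intro r
      rw [e1, Real.log_mul hD.ne' (hp r).ne']
      ring
    simp only [h1]
    rw [integral_add hi2 hi1, h0, zero_add]
  have hi1 : Integrable (fun r => (r - m) * Real.log (1 - q + q * Real.exp (β * (r - m)))) ρ := by
    refine Integrable.mono' ((sq_int hρ m).const_mul β) (by
      refine Measurable.aestronglyMeasurable ?_
      fun_prop) (Eventually.of_forall fun r => ?_)
    rw [Real.norm_eq_abs, abs_mul]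
    have h1 := log_mix_abs (u := β * (r - m)) hq0 hq1
    rw [abs_mul, abs_of_pos hβ] at h1
    have h2 := mul_le_mul_of_nonneg_left h1 (abs_nonneg (r - m))
    have h3 : |r - m| * |r - m| = (r - m) ^ 2 := by
      rw [← sq, sq_abs]
    calc |r - m| * |Real.log (1 - q + q * Real.exp (β * (r - m)))|
        ≤ |r - m| * (β * |r - m|) := h2
      _ = β * (|r - m| * |r - m|) := by ring
      _ = β * (r - m) ^ 2 := by rw [h3]
  rw [hR]
  have hlow : β * q * v ≤ ∫ r, (r - m) * Real.log (1 - q + q * Real.exp (β * (r - m))) ∂ρ := by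
    rw [hv, ← integral_const_mul]
    refine integral_mono (hvi.const_mul _) hi1 fun r => ?_
    have h1 := log_mix (u := β * (r - m)) hq0 hq1
    rw [abs_mul, abs_of_pos hβ] at h1
    have h2 : β * (β * q * ((r - m) ^ 2 * Real.exp (-(β * |r - m|)))) ≤
        β * ((r - m) * Real.log (1 - q + q * Real.exp (β * (r - m)))) := by
      calc β * (β * q * ((r - m) ^ 2 * Real.exp (-(β * |r - m|))))
          = q * (β * (r - m)) ^ 2 * Real.exp (-(β * |r - m|)) := by ring
        _ ≤ β * (r - m) * Real.log (1 - q + q * Real.exp (β * (r - m))) := h1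
        _ = β * ((r - m) * Real.log (1 - q + q * Real.exp (β * (r - m)))) := by ring
    exact le_of_mul_le_mul_left h2 hβ
  have hCp : 0 < C := by linarith
  calc β * v / C * ∫ r, B * Real.exp (β * r) / (A + B * Real.exp (β * r)) ∂ρ
      ≤ β * v / C * (q * C) := mul_le_mul_of_nonneg_left hL (by positivity)
    _ = β * q * v := by field_simp
    _ ≤ _ := hlow

end Abstract

/-! ### The polymer -/

section Polymer

variable {d : ℕ}

lemma Z_split (β : ℝ) (h : Vec d) (η : Env d) (s t : ℕ) :
    Z β h η (s + t) = ∑ x ∈ boxF d s, PP β h η s x * Z β h (sh s x η) t := by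
  classical
  rw [Z_add]
  have h1 : ∀ x ∈ boxF d s, PP β h η s x * Z β h (sh s x η) t =
      ∑ a : Fin s → Step d, if pos a s = x then wgt β h η a * Z β h (sh s (pos a s) η) t else 0 := by
    intro x _
    unfold PP ZT
    rw [Finset.sum_mul]
    refine Finset.sum_congr rfl fun a _ => ?_
    by_cases ha : pos a s = x
    · rw [if_pos (show a ∈ {r : Fin s → Step d | pos r s = x} from ha), if_pos ha, ha]
    · rw [if_neg (show a ∉ {r : Fin s → Step d | pos r s = x} from ha), zero_mul, if_neg ha]
  rw [Finset.sum_congr rfl h1, Finset.sum_comm]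
  refine Finset.sum_congr rfl fun a _ => ?_
  rw [Finset.sum_ite_eq, if_pos (pos_mem_box a s)]

/-- The energy of a walk of length `t` sees only its end point in the row `t`. -/
lemma energy_up {η : Env d} {t : ℕ} (ht : 1 ≤ t) (y : Site d) (r : ℝ) (s : Fin t → Step d) :
    energy (Function.update η (t, y) r) s =
      energy (Function.update η (t, y) 0) s + if pos s t = y then r else 0 := by
  classical
  obtain ⟨k, rfl⟩ : ∃ k, t = k + 1 := ⟨t - 1, by omega⟩
  unfold energy
  rw [Fin.sum_univ_castSucc, Fin.sum_univ_castSucc]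
  have h1 : ∀ (a : ℝ) (i : Fin k), Function.update η (k + 1, y) a
      ((i.castSucc : ℕ) + 1, pos s ((i.castSucc : ℕ) + 1)) =
        η ((i.castSucc : ℕ) + 1, pos s ((i.castSucc : ℕ) + 1)) := by
    intro a i
    refine Function.update_of_ne ?_ _ _
    intro h
    have h2 := congrArg Prod.fst h
    have h3 := i.2
    simp only [Fin.val_castSucc] at h2
    omega
  rw [Finset.sum_congr rfl fun i _ => h1 r i, Finset.sum_congr rfl fun i _ => h1 0 i]
  simp only [Fin.val_last]
  by_cases hy : pos s (k + 1) = y
  · rw [if_pos hy, hy, Function.update_self, Function.update_self, add_zero]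
  · rw [if_neg hy, add_zero, Function.update_of_ne (fun h => hy (congrArg Prod.snd h)),
      Function.update_of_ne (fun h => hy (congrArg Prod.snd h))]

lemma PP_up (β : ℝ) (h : Vec d) {η : Env d} {t : ℕ} (ht : 1 ≤ t) (y : Site d) (r : ℝ)
    (x : Site d) : PP β h (Function.update η (t, y) r) t x =
      (if x = y then Real.exp (β * r) else 1) * PP β h (Function.update η (t, y) 0) t x := by
  classical
  unfold PP ZT
  rw [Finset.mul_sum]
  refine Finset.sum_congr rfl fun s _ => ?_
  by_cases hs : s ∈ {s : Fin t → Step d | pos s t = x}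
  · rw [if_pos hs, if_pos hs]
    have h1 : pos s t = x := hs
    unfold wgt
    rw [energy_up ht, h1]
    split_ifs with hx
    · rw [← Real.exp_add]
      congr 1
      ring
    · rw [add_zero, one_mul]
  · rw [if_neg hs, if_neg hs, mul_zero]

lemma Z_sh_up (β : ℝ) (h : Vec d) {η : Env d} {t : ℕ} (y : Site d) (r : ℝ) (x : Site d) (n : ℕ) :
    Z β h (sh t x (Function.update η (t, y) r)) n =
      Z β h (sh t x (Function.update η (t, y) 0)) n := by
  classical
  have h1 : ∀ (a : ℝ) (s : Fin n → Step d),
      energy (sh t x (Function.update η (t, y) a)) s = energy (sh t x η) s := by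
    intro a s
    unfold energy
    refine Finset.sum_congr rfl fun i _ => ?_
    unfold sh
    refine Function.update_of_ne ?_ _ _
    intro h
    have h2 := congrArg Prod.fst h
    simp only at h2
    omega
  rw [Z_eq, Z_eq]
  refine Finset.sum_congr rfl fun s _ => ?_
  unfold wgt
  rw [h1, h1]

lemma PP_out {β : ℝ} {h : Vec d} {η : Env d} {t : ℕ} {y : Site d} (hy : y ∉ boxF d t) :
    PP β h η t y = 0 := by
  classical
  unfold PP ZT
  refine Finset.sum_eq_zero fun s _ => if_neg ?_
  intro h1
  have h2 : pos s t = y := h1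
  exact hy (h2 ▸ pos_mem_box s t)

/-- The partition function as a function of one weight. -/
lemma Z_up (β : ℝ) (h : Vec d) (η : Env d) {L t : ℕ} (ht : 1 ≤ t) (htL : t ≤ L) (y : Site d)
    (r : ℝ) : Z β h (Function.update η (t, y) r) L =
      (Z β h (Function.update η (t, y) 0) L - PP β h (Function.update η (t, y) 0) t y *
        Z β h (sh t y (Function.update η (t, y) 0)) (L - t)) +
      PP β h (Function.update η (t, y) 0) t y *
        Z β h (sh t y (Function.update η (t, y) 0)) (L - t) * Real.exp (β * r) := by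
  classical
  obtain ⟨k, rfl⟩ : ∃ k, L = t + k := ⟨L - t, by omega⟩
  rw [Nat.add_sub_cancel_left, Z_split, Z_split]
  have h1 : ∀ x ∈ boxF d t, PP β h (Function.update η (t, y) r) t x *
      Z β h (sh t x (Function.update η (t, y) r)) k =
      PP β h (Function.update η (t, y) 0) t x *
        Z β h (sh t x (Function.update η (t, y) 0)) k +
      (if x = y then (Real.exp (β * r) - 1) * (PP β h (Function.update η (t, y) 0) t y *
        Z β h (sh t y (Function.update η (t, y) 0)) k) else 0) := by
    intro x _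
    rw [PP_up β h ht, Z_sh_up]
    by_cases hx : x = y
    · rw [if_pos hx, if_pos hx, hx]
      ring
    · rw [if_neg hx, if_neg hx]
      ring
  rw [Finset.sum_congr rfl h1, Finset.sum_add_distrib, Finset.sum_ite_eq']
  by_cases hy : y ∈ boxF d t
  · rw [if_pos hy]
    ring
  · rw [if_neg hy, PP_out hy]
    ring

/-- The one site inequality. -/
theorem site11 {ρ : Measure ℝ} [IsProbabilityMeasure ρ] {β : ℝ} (hd : 0 < d) (hρ : EM ρ)
    (hnc : ∀ c : ℝ, ρ {c} ≠ 1) (hβ : 0 < β) :
    ∃ c : ℝ, 0 < c ∧ ∀ (h : Vec d) (L t : ℕ) (y : Site d) (η : Env d), 1 ≤ t → t ≤ L →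
      c * ∫ r, Qt β h L t y (Function.update η (t, y) r) ∂ρ ≤
        ∫ r, (r - ∫ s, s ∂ρ) * X β h (Function.update η (t, y) r) L ∂ρ := by
  classical
  obtain ⟨c, hc, H⟩ := onesite hρ hnc hβ
  refine ⟨c, hc, fun h L t y η ht htL => ?_⟩
  set e0 : Env d := Function.update η (t, y) 0 with he0
  set B : ℝ := PP β h e0 t y * Z β h (sh t y e0) (L - t) with hB
  set A : ℝ := Z β h e0 L - B with hA
  have hB0 : 0 ≤ B := mul_nonneg (PP_nonneg _ _ _ _ _) (Z_pos hd _ _ _ _).le
  have hA0 : 0 ≤ A := by
    have h1 := PP_chainZ β h e0 t (L - t) y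
    rw [Nat.add_sub_cancel' htL] at h1
    rw [hA]
    linarith
  have hAB : 0 < A + B := by
    have := Z_pos hd β h e0 L
    rw [hA]
    linarith
  have h1 := H A B hA0 hB0 hAB
  have h2 : ∀ r, Z β h (Function.update η (t, y) r) L = A + B * Real.exp (β * r) := fun r =>
    Z_up β h η ht htL y r
  have h3 : ∀ r, Qt β h L t y (Function.update η (t, y) r) =
      B * Real.exp (β * r) / (A + B * Real.exp (β * r)) := by
    intro r
    unfold Qt
    rw [h2 r, PP_up β h ht, Z_sh_up, if_pos rfl, hB]
    congr 1
    ring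
  have h4 : ∀ r, X β h (Function.update η (t, y) r) L =
      Real.log (A + B * Real.exp (β * r)) := fun r => by
    unfold X
    rw [h2 r]
  simp only [h3, h4]
  exact h1

end Polymer

end Pool.Agent.W_7d29a1_Q29.Site11
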