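import Pool.Agent.W_7d29a1_Q29.Top29
import Pool.Agent.W_7d29a1_R34.RplusG93
import Pool.Agent.W_7d29a1_P89.SLD66
import Pool.Agent.W_7d29a1_L2.DefsL29

/-!
The theorem over the last leaves, second form.
-/

namespace Pool.Agent.W_7d29a1_Q29

open MeasureTheory ProbabilityTheory Filter Topology Pool.Agent.W_MP_7d29a1_pr
  Pool.Agent.W_7d29a1_h46 Pool.Agent.W_7d29a1_h46u Pool.Agent.W_7d29a1_D2.B35

/-- The theorem. -/
theorem topB29 {Ω : Type*} [MeasurableSpace Ω] (μ : Measure Ω) [IsProbabilityMeasure μ] {d : ℕ}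
    (hd : 1 ≤ d) (ω : ℕ × Site d → Ω → ℝ) (hmeas : ∀ p, Measurable (ω p))
    (hindep : iIndepFun ω μ) (hident : ∀ p q, IdentDistrib (ω p) (ω q) μ μ)
    (hnc : ¬ ∃ c : ℝ, ∀ᵐ x ∂μ, ω (0, 0) x = c)
    (hexp : ∀ b : ℝ, Integrable (fun x => Real.exp (b * ω (0, 0) x)) μ) {β : ℝ} (hβ : 0 < β)
    (hV2 : ∀ ρ : Measure ℝ, IsProbabilityMeasure ρ → EM ρ → (∀ c : ℝ, ρ {c} ≠ 1) →
      W_7d29a1_L2.Vsd2 ρ β)
    (hNV : ∀ ρ : Measure ℝ, IsProbabilityMeasure ρ → EM ρ → (∀ c : ℝ, ρ {c} ≠ 1) → NVQ d ρ β)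
    (hD : ∀ ρ : Measure ℝ, IsProbabilityMeasure ρ → EM ρ → (∀ c : ℝ, ρ {c} ≠ 1) → AeD d ρ β) :
    ∃ lam ann : Vec d → ℝ,
      (∀ h, Tendsto (fun n : ℕ => (∫ x, Real.log (Zn β h (fun p => ω p x) n) ∂μ) / n) atTop
        (𝓝 (lam h))) ∧
      (∀ h, ∀ n : ℕ, ∫ x, Zn β h (fun p => ω p x) n ∂μ = Real.exp (n * ann h)) ∧
      -- dimension two: every tilt is in the region of very strong disorder
      (d = 2 → ∀ h, lam h < ann h) ∧
      -- every dimension, every tilt of very strong disorder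
      (∀ h, lam h < ann h →
        (∀ K : ℝ, ∃ n : ℕ, K < Var[fun x => Real.log (Zn β h (fun p => ω p x) n); μ]) ∧
        (∃ c : ℝ, 0 < c ∧ ∀ ε M : ℝ, 0 < ε → ∀ᶠ n : ℕ in atTop,
          (n : ℝ) ^ (1 - ε) ≤ Var[fun x => Real.log (Zn β h (fun p => ω p x) n); μ] ∨
          c * n ≤ Set.ncard {m : ℕ | m ≤ n ∧ M * Real.log n ≤
            m * lam h - ∫ x, Real.log (Zn β h (fun p => ω p x) m) ∂μ}) ∧
        (∀ t : ℝ, 0 < t → ∃ c : ℝ, 0 < c ∧ ∀ᶠ n : ℕ in atTop,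
          Real.exp (n * (t * lam h + c)) ≤ ∫ x, Zn β h (fun p => ω p x) n ^ t ∂μ) ∧
        (∃ c : ℝ, 0 < c ∧ ∀ n : ℕ, 1 ≤ n → ∀ K N : ℝ, 0 < N →
          (∀ m : ℕ, m ≤ 2 * n → Var[fun x => Real.log (Zn β h (fun p => ω p x) m); μ] ≤ K) →
          (Set.ncard {t : ℕ | t < n ∧ ∀ W : Finset (Site d), (W.card : ℝ) ≤ N →
            1 / 32 < ∫ x, PolT β h (fun p => ω p x)
              {s : Fin (2 * n) → Step d | pos s t ∉ W} ∂μ} : ℝ) ≤ c * n →
          c * Real.log n ≤ K * Real.sqrt (N / n))) ∧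
      -- every dimension, almost every tilt of very strong disorder
      (∀ᵐ h : Vec d, lam h < ann h → ∀ M : ℝ, ∃ᶠ n : ℕ in atTop,
        M * Real.log n ≤ n * lam h - ∫ x, Real.log (Zn β h (fun p => ω p x) n) ∂μ) ∧
      -- dimension two, almost every tilt
      (d = 2 → ∀ᵐ h : Vec d, ∃ c : ℝ, 0 < c ∧ ∃ᶠ n : ℕ in atTop,
        c * Real.log n ≤ Var[fun x => Real.log (Zn β h (fun p => ω p x) n); μ]) := by
  set p0 : ℕ × Site d := (0, 0) with hp0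
  set ρ : Measure ℝ := μ.map (ω p0) with hρ
  have : IsProbabilityMeasure ρ := Measure.isProbabilityMeasure_map (hmeas p0).aemeasurable
  have hω : IID μ ρ ω := ⟨hmeas, hindep, fun p => (hident p p0).map_eq⟩
  have hnc' : ∀ c : ℝ, ρ {c} ≠ 1 := by
    intro c hc
    apply hnc
    refine ⟨c, ?_⟩
    rw [hρ, Measure.map_apply (hmeas p0) (measurableSet_singleton c)] at hc
    have h1 : MeasurableSet (ω p0 ⁻¹' {c}) := hmeas p0 (measurableSet_singleton c)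
    exact (prob_compl_eq_zero_iff h1).2 hc
  have hexp' : EM ρ := by
    intro b
    rw [hρ, integrable_map_measure (by fun_prop) (hmeas p0).aemeasurable]
    exact hexp b
  have hd0 : 0 < d := hd
  refine ⟨lamN ρ β, annN ρ β, fun h => tend29 hd0 hω hexp' h, fun h n => ann29 hd0 hω hexp' h n,
    ?_, fun h hh => ⟨?_, ?_, ?_, ?_⟩, ?_, ?_⟩
  · rintro rfl h
    exact (vsd29 h).2 (hV2 ρ this hexp' hnc' h)
  · intro K
    obtain ⟨n, hn⟩ := hNV ρ this hexp' hnc' h ((vsd29 h).1 hh) K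
    refine ⟨n, ?_⟩
    rw [var29 hd0 hω hexp']
    exact hn
  · obtain ⟨c, hc, h1⟩ := W_7d29a1_P89.mainSLD hd0 hexp' β h ((vsd29 h).1 hh)
    refine ⟨c, hc, fun ε M hε => ?_⟩
    filter_upwards [h1 ε hε M] with n hn
    rw [var29 hd0 hω hexp']
    refine hn.imp id fun h2 => le_trans h2 (le_of_eq ?_)
    rw [← Set.ncard_coe_finset]
    congr 2
    ext m
    simp only [Finset.coe_filter, Finset.mem_range, Set.mem_ofPred_eq, def29 hd0 hω hexp']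
    rw [Nat.lt_succ_iff]
  · exact fun t ht => W_7d29a1_P78.mainPZ78 hd0 hω hexp' ((vsd29 h).1 hh) ht
  · obtain ⟨c, hc, h1⟩ := mainL29 hd0 hω hexp'
      (mainL72 hd0 (npf98 hd0 hexp' hnc' hβ) (mainQ85 hd0 hexp' hnc' hβ)) h hh
    refine ⟨c, hc, fun n hn K N hN hV hW => h1 n hn K N hN hV (le_trans (le_of_eq ?_) hW)⟩
    rw [← Set.ncard_coe_finset]
    congr 3
    ext t
    simp
  · filter_upwards [hD ρ this hexp' hnc'] with h hh hv M
    refine (hh ((vsd29 h).1 hv) M).mono fun n hn => ?_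
    rw [def29 hd0 hω hexp']
    exact hn
  · rintro rfl
    filter_upwards [W_7d29a1_R34.rplus93 hexp' hnc' hβ] with h hh
    obtain ⟨c, hc, h1⟩ := hh (hV2 ρ this hexp' hnc' h)
    refine ⟨c, hc, h1.mono fun n hn => ?_⟩
    rw [var29 hd0 hω hexp']
    exact hn

end Pool.Agent.W_7d29a1_Q29
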