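import Pool.Agent.W_7d29a1_Q29.FinC29

/-!
The divergence of the fluctuations: the theorem over the last leaves, third form.
-/

namespace Pool.Agent.W_7d29a1_Q29

open MeasureTheory ProbabilityTheory Filter Topology Pool.Agent.W_MP_7d29a1_pr
  Pool.Agent.W_7d29a1_h46 Pool.Agent.W_7d29a1_h46u Pool.Agent.W_7d29a1_D2.B35

/-- NV-LIM: the variance diverges. -/
def LimQ (d : ℕ) (ρ : Measure ℝ) (β : ℝ) : Prop := ∀ h : Vec d, VSD ρ β h →
  Tendsto (fun n : ℕ => Va ρ β h n) atTop atTop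

/-- NT-LIM: no subsequence is tight. -/
def NTQ (d : ℕ) (ρ : Measure ℝ) (β : ℝ) : Prop := ∀ h : Vec d, VSD ρ β h →
  ∀ (φ : ℕ → ℕ) (a : ℕ → ℝ), StrictMono φ → ¬ ∀ δ : ℝ, 0 < δ → ∃ M : ℝ, ∀ j : ℕ,
    (law d ρ).real {η | M < |X β h η (φ j) - a j|} ≤ δ

/-- The variance diverges, in the letters of the problem. -/
theorem lim29 {Ω : Type*} [MeasurableSpace Ω] {μ : Measure Ω} [IsProbabilityMeasure μ] {d : ℕ}
    {ρ : Measure ℝ} [IsProbabilityMeasure ρ] {β : ℝ} {ω : ℕ × Site d → Ω → ℝ} (hd : 0 < d)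
    (hω : IID μ ρ ω) (hρ : EM ρ) (hL : LimQ d ρ β) (h : Vec d)
    (hh : lamN ρ β h < annN ρ β h) :
    Tendsto (fun n : ℕ => Var[fun x => Real.log (Zn β h (fun p => ω p x) n); μ]) atTop atTop := by
  refine (hL h ((vsd29 h).1 hh)).congr fun n => ?_
  rw [var29 hd hω hρ]

/-- No subsequence is tight, in the letters of the problem. -/
theorem nt29 {Ω : Type*} [MeasurableSpace Ω] {μ : Measure Ω} [IsProbabilityMeasure μ] {d : ℕ}
    {ρ : Measure ℝ} [IsProbabilityMeasure ρ] {β : ℝ} {ω : ℕ × Site d → Ω → ℝ} (hd : 0 < d)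
    (hω : IID μ ρ ω) (hN : NTQ d ρ β) (h : Vec d) (hh : lamN ρ β h < annN ρ β h)
    (φ : ℕ → ℕ) (a : ℕ → ℝ) (hφ : StrictMono φ) : ∃ δ : ℝ, 0 < δ ∧ ∀ M : ℝ, ∃ j : ℕ,
      δ < μ.real {x | M < |Real.log (Zn β h (fun p => ω p x) (φ j)) - a j|} := by
  have hmp := mp_env hω
  have h1 := hN h ((vsd29 h).1 hh) φ (fun j => a j + Real.log ((2 * d : ℝ) ^ φ j)) hφ
  by_contra hcon
  push Not at hcon
  refine h1 fun δ hδ => ?_
  obtain ⟨M, hM⟩ := hcon δ hδ
  refine ⟨M, fun j => ?_⟩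
  have h2 : MeasurableSet {η : Env d | M < |X β h η (φ j) - (a j + Real.log ((2 * d : ℝ) ^ φ j))|} :=
    measurableSet_lt measurable_const ((measurable_X β h (φ j)).sub_const _).abs
  have h3 : μ.real {x | M < |Real.log (Zn β h (fun p => ω p x) (φ j)) - a j|} =
      (law d ρ).real {η : Env d | M < |X β h η (φ j) - (a j + Real.log ((2 * d : ℝ) ^ φ j))|} := by
    unfold Measure.real
    rw [← hmp.map_eq, Measure.map_apply hmp.measurable h2]
    congr 2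
    ext x
    simp only [Set.mem_preimage, Set.mem_ofPred_eq]
    have h4 : Real.log (Zn β h (fun p => ω p x) (φ j)) =
        X β h (fun p => ω p x) (φ j) - Real.log ((2 * d : ℝ) ^ φ j) := StrA_log hd β h _ (φ j)
    rw [h4, show X β h (fun p => ω p x) (φ j) - Real.log ((2 * d : ℝ) ^ φ j) - a j =
      X β h (fun p => ω p x) (φ j) - (a j + Real.log ((2 * d : ℝ) ^ φ j)) by ring]
  rw [← h3]
  exact hM j

end Pool.Agent.W_7d29a1_Q29
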